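import Pool.Agent.H.MP_1611f1_gt.TW.LoC
import Pool.Agent.H.MP_1611f1_gt.LG.Defs

/-!
The neighbourhoods of the curves `x₁ = 0`, `x₂ = l`.
-/

namespace Pool.Agent.H.MP_1611f1_gt.TW

open Topology Set Filter
open Pool.Agent.H.MP_1611f1_gt.BR.U (Ci)

noncomputable def c5 (x : ℝ) : ℝ := max (-5) (min 5 x)

/-- an increasing homeomorphism of `ℝ` to `(-6, 6)`, the identity on `[-5, 5]` -/
noncomputable def sq (x : ℝ) : ℝ := c5 x + 4 * LL (x - c5 x)

private theorem Sq_c5 (x : ℝ) :
    (x ≤ -5 ∧ c5 x = -5) ∨ ((-5 ≤ x ∧ x ≤ 5) ∧ c5 x = x) ∨ (5 ≤ x ∧ c5 x = 5) := by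
  unfold c5
  rcases le_total x (-5) with h | h
  · left
    refine ⟨h, ?_⟩
    rw [min_eq_right (by linarith), max_eq_left h]
  · rcases le_total x 5 with h' | h'
    · right; left
      refine ⟨⟨h, h'⟩, ?_⟩
      rw [min_eq_right h', max_eq_right h]
    · right; right
      refine ⟨h', ?_⟩
      rw [min_eq_left h', max_eq_right (by norm_num)]

/-- PROOF: `c5 x` and `x - c5 x` are monotone, and one of them increases strictly (`LL_mono`). -/
theorem sq_mono : StrictMono sq := by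
  intro x y h
  have h1 : c5 x ≤ c5 y := max_le_max le_rfl (min_le_min le_rfl h.le)
  have h2 : x - c5 x ≤ y - c5 y := by
    rcases Sq_c5 x with ⟨a, b⟩ | ⟨a, b⟩ | ⟨a, b⟩ <;>
      rcases Sq_c5 y with ⟨a', b'⟩ | ⟨a', b'⟩ | ⟨a', b'⟩ <;> rw [b, b'] <;> linarith
  unfold sq
  rcases h1.lt_or_eq with h3 | h3
  · have h4 := LL_mono.monotone h2
    linarith
  · have h4 : LL (x - c5 x) < LL (y - c5 y) := LL_mono (by rw [h3]; linarith)
    linarith

theorem sq_cont : Continuous sq := by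
  have h : Continuous c5 := by
    unfold c5
    fun_prop
  unfold sq
  exact h.add (continuous_const.mul (LL_cont.comp (continuous_id.sub h)))

theorem sq_id {x : ℝ} (h : |x| ≤ 5) : sq x = x := by
  have h1 := abs_le.1 h
  have h2 : c5 x = x := by
    unfold c5
    rw [min_eq_right h1.2, max_eq_right h1.1]
  unfold sq
  rw [h2, sub_self, LL_zero, mul_zero, add_zero]

/-- (`LL_abs`) -/
theorem sq_lt (x : ℝ) : |sq x| < 6 := by
  have h := abs_lt.1 (LL_abs (x - c5 x))
  unfold sq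
  rw [abs_lt]
  rcases Sq_c5 x with ⟨a, b⟩ | ⟨a, b⟩ | ⟨a, b⟩
  · constructor <;> linarith [h.1, h.2]
  · constructor <;> linarith [h.1, h.2, a.1, a.2]
  · constructor <;> linarith [h.1, h.2]

/-- PROOF: a continuous strictly increasing function on `ℝ` is an open map onto its range: images of open sets are open
(for `x` and `ε > 0` the image of `(x - ε, x + ε)` contains `(h (x - ε), h (x + ε))` by the intermediate value theorem). -/
theorem mono_emb {h : ℝ → ℝ} (hm : StrictMono h) (hc : Continuous h) : IsOpenEmbedding h := by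
  have hr : OrdConnected (range h) := (isPreconnected_range hc).ordConnected
  refine ⟨hm.isEmbedding_of_ordConnected hr, ?_⟩
  rw [isOpen_iff_mem_nhds]
  rintro _ ⟨x, rfl⟩
  refine mem_of_superset (Ioo_mem_nhds (hm (sub_one_lt x)) (hm (lt_add_one x))) fun z hz => ?_
  exact hr.out ⟨x - 1, rfl⟩ ⟨x + 1, rfl⟩ ⟨hz.1.le, hz.2.le⟩

/-- PROOF: `mono_emb` composed with `ℝ → Ci`, which is a local homeomorphism, injective on `(c - 1/2, c + 1/2)`: the composition is continuous, injective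
and open (`IsOpenEmbedding.of_continuous_injective_isOpenMap`). -/
theorem circ_emb {h : ℝ → ℝ} (hm : StrictMono h) (hc : Continuous h) {c : ℝ}
    (hr : ∀ x, |h x - c| < 1 / 2) : IsOpenEmbedding fun x : ℝ => ((h x : ℝ) : Ci) := by
  refine IsOpenEmbedding.of_continuous_injective_isOpenMap
    (BR.U.NCov_coe_loc.continuous.comp hc) ?_
    (BR.U.NCov_coe_loc.isOpenMap.comp (mono_emb hm hc).isOpenMap)
  intro x y hxy
  refine hm.injective (BR.U.NCov_coe hxy ?_)
  have h1 := abs_lt.1 (hr x)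
  have h2 := abs_lt.1 (hr y)
  rw [abs_lt]
  constructor <;> linarith

/-- the norm in the circle is at most the absolute value -/
private theorem Sq_norm (x : ℝ) : ‖(x : Ci)‖ ≤ |x| := by
  rw [UnitAddCircle.norm_eq]
  have h := round_le x 0
  rwa [Int.cast_zero, sub_zero] at h

section

variable {M : Type} [TopologicalSpace M] {N : Ci × Ci × Ci → M}

/-- the neighbourhood of the curve `x₂ = l` in the wall, `(θ, (u, s))`; the wall is `s = 0` -/
noncomputable def NC (N : Ci × Ci × Ci → M) (l ρ : ℝ) (z : LG.Cylinder) : M :=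
  N (((sq (z.2.2 + 4) / 64 : ℝ) : Ci), ((l + ρ * sq z.2.1 : ℝ) : Ci), z.1)

/-- PROOF: the map `(θ, (u, s)) ↦ (x₁, x₂, t)` is an open embedding (`circ_emb` for both functions, and permutation of the coordinates) with values in `VV`
(`‖x₁‖ < 6/64`), composed with `VV.domRestrict N`. -/
theorem NC_emb (hN : IsOpenEmbedding (VV.domRestrict N)) {l ρ : ℝ} (hρ : 0 < ρ)
    (hρ' : 6 * ρ < 1 / 2) : IsOpenEmbedding (NC N l ρ) := by
  have e1 : IsOpenEmbedding fun s : ℝ => ((sq (s + 4) / 64 : ℝ) : Ci) := by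
    refine circ_emb (h := fun s => sq (s + 4) / 64) (c := 0) ?_ ?_ ?_
    · intro x y h
      have := sq_mono (add_lt_add_left h 4)
      show sq (x + 4) / 64 < sq (y + 4) / 64
      linarith
    · exact (sq_cont.comp (continuous_id.add continuous_const)).div_const 64
    · intro x
      have h := abs_lt.1 (sq_lt (x + 4))
      rw [abs_lt]
      constructor <;> linarith [h.1, h.2]
  have e2 : IsOpenEmbedding fun u : ℝ => ((l + ρ * sq u : ℝ) : Ci) := by
    refine circ_emb (h := fun u => l + ρ * sq u) (c := l) ?_ ?_ ?_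
    · intro x y h
      have h1 := mul_lt_mul_of_pos_left (sq_mono h) hρ
      show l + ρ * sq x < l + ρ * sq y
      linarith
    · exact continuous_const.add (continuous_const.mul sq_cont)
    · intro x
      have h := mul_lt_mul_of_pos_left (sq_lt x) hρ
      rw [add_sub_cancel_left, abs_mul, abs_of_pos hρ]
      linarith
  let P : LG.Cylinder ≃ₜ ℝ × (ℝ × Ci) :=
    { toFun := fun z => (z.2.2, (z.2.1, z.1))
      invFun := fun w => (w.2.2, (w.2.1, w.1))
      left_inv := fun _ => rfl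
      right_inv := fun _ => rfl
      continuous_toFun := by fun_prop
      continuous_invFun := by fun_prop }
  have e3 : IsOpenEmbedding (fun z : LG.Cylinder =>
      (((sq (z.2.2 + 4) / 64 : ℝ) : Ci), ((l + ρ * sq z.2.1 : ℝ) : Ci), z.1)) :=
    (e1.prodMap (e2.prodMap (IsOpenEmbedding.id (X := Ci)))).comp P.isOpenEmbedding
  have hV : ∀ z : LG.Cylinder,
      (((sq (z.2.2 + 4) / 64 : ℝ) : Ci), ((l + ρ * sq z.2.1 : ℝ) : Ci), z.1) ∈ VV := by
    intro z
    left
    refine (Sq_norm _).trans_lt ?_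
    have h := abs_lt.1 (sq_lt (z.2.2 + 4))
    rw [abs_lt]
    constructor <;> linarith [h.1, h.2]
  have e4 : IsOpenEmbedding (fun z : LG.Cylinder => (⟨_, hV z⟩ : VV)) :=
    IsOpenEmbedding.of_comp _ VV_open.isOpenEmbedding_subtypeVal e3
  exact hN.comp e4

/-- the image is in `CC`, where `‖x₂ - l‖ < 6 ρ` -/
theorem NC_mem {l ρ : ℝ} (hρ : 0 < ρ) (z : LG.Cylinder) :
    ∃ w ∈ CC, NC N l ρ z = N w ∧ ‖w.2.1 - (l : Ci)‖ < 6 * ρ := by
  refine ⟨(((sq (z.2.2 + 4) / 64 : ℝ) : Ci), ((l + ρ * sq z.2.1 : ℝ) : Ci), z.1), ?_, rfl, ?_⟩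
  · left
    refine (Sq_norm _).trans ?_
    have h := abs_lt.1 (sq_lt (z.2.2 + 4))
    rw [abs_le]
    constructor <;> linarith [h.1, h.2]
  · have h1 : ((l + ρ * sq z.2.1 : ℝ) : Ci) - (l : Ci) = ((ρ * sq z.2.1 : ℝ) : Ci) := by
      rw [← AddCircle.coe_sub, add_sub_cancel_left]
    show ‖((l + ρ * sq z.2.1 : ℝ) : Ci) - (l : Ci)‖ < 6 * ρ
    rw [h1]
    refine (Sq_norm _).trans_lt ?_
    have h := mul_lt_mul_of_pos_left (sq_lt z.2.1) hρ
    rw [abs_mul, abs_of_pos hρ]
    linarith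

end

end Pool.Agent.H.MP_1611f1_gt.TW
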