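import Pool.Agent.H.MP_1611f1_gt.TW.Fol
import Pool.Agent.H.MP_1611f1_gt.TW.Sq
import Pool.Agent.H.MP_1611f1_gt.LS.UpE

/-!
The leaf curves of the new foliation.
-/

namespace Pool.Agent.H.MP_1611f1_gt.TW

open Topology Set Filter
open Pool.Agent.H.MP_1611f1_gt.BR.U (Ci)

variable {M : Type} [TopologicalSpace M] {F : Foliation M} {N : Ci × Ci × Ci → M} {P : Par}
  {G : LS.PreFol M}

/-- `T0` moves points down just below the wall `3/4 = 1/2 + 1/4`... precisely: `T0.symm` moves the points of `(1/4, 3/4)` down and those of `(3/4, 5/4)` up. PROOF: `v = 1/2 + LL s`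
(`LL_Lm`): `T0 v = phi 1 v = 1/2 + LL (s + 1)` (`phi_J'` with `n = 0`), so `T0.symm v = 1/2 + LL (s - 1)`; similarly `v = 1 + LL s`, `phi_J`. -/
theorem T0_symm_move {v : ℝ} : (v ∈ Ioo (1 / 4 : ℝ) (3 / 4) → T0.symm v < v) ∧
    (v ∈ Ioo (3 / 4 : ℝ) (5 / 4) → v < T0.symm v) := by
  constructor
  · rintro ⟨h1, h2⟩
    have h3 : |v - 1 / 2| < 1 / 4 := abs_lt.2 ⟨by linarith, by linarith⟩
    have h4 := LL_Lm h3
    have h5 := phi_J' 1 0 (Lm (v - 1 / 2) - 1)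
    rw [phi_one, sub_add_cancel, h4] at h5
    have h6 : T0.symm v = ((0 : ℤ) : ℝ) + 1 / 2 + LL (Lm (v - 1 / 2) - 1) := by
      rw [OrderIso.symm_apply_eq, h5]
      push_cast
      ring
    have h7 : LL (Lm (v - 1 / 2) - 1) < LL (Lm (v - 1 / 2)) := LL_mono (by linarith)
    rw [h4] at h7
    rw [h6]
    push_cast
    linarith
  · rintro ⟨h1, h2⟩
    have h3 : |v - 1| < 1 / 4 := abs_lt.2 ⟨by linarith, by linarith⟩
    have h4 := LL_Lm h3
    have h5 := phi_J 1 1 (Lm (v - 1) + 1)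
    rw [phi_one, add_sub_cancel_right, h4] at h5
    have h6 : T0.symm v = ((1 : ℤ) : ℝ) + LL (Lm (v - 1) + 1) := by
      rw [OrderIso.symm_apply_eq, h5]
      push_cast
      ring
    have h7 : LL (Lm (v - 1)) < LL (Lm (v - 1) + 1) := LL_mono (by linarith)
    rw [h4] at h7
    rw [h6]
    push_cast
    linarith

/-- a chart of the induced foliation, along a curve or surface -/
private theorem CrC_pull {M' : Type} [TopologicalSpace M'] {p : M' → M}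
    {c : OpenPartialHomeomorph M' ((ℝ × ℝ) × ℝ)} {c₁ : OpenPartialHomeomorph M ((ℝ × ℝ) × ℝ)}
    (hv : ∀ x ∈ c.source, (c x).2 = (c₁ (p x)).2) {Z : Type} [TopologicalSpace Z] {R : Z → M'}
    (hR : Continuous R) {R₁ : Z → M} (hRR : ∀ z, p (R z) = R₁ z) {z₀ : Z}
    (hz : R z₀ ∈ c.source) {g : Z → ℝ} (h : OrdEq z₀ (fun w => (c₁ (R₁ w)).2) g) :
    OrdEq z₀ (fun w => (c (R w)).2) g := by
  refine h.congr ?_ (Eventually.of_forall fun _ => rfl)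
  filter_upwards [hR.continuousAt.preimage_mem_nhds (c.open_source.mem_nhds hz)] with w hw
  rw [hv _ hw, hRR]

private theorem CrC_cyl : Continuous fun w : ℝ × (ℝ × ℝ) => (((w.1 : ℝ) : Ci), w.2) :=
  ((AddCircle.continuous_mk' (1 : ℝ)).comp continuous_fst).prodMk continuous_snd

private theorem CrC_norm (x : ℝ) : ‖(x : Ci)‖ ≤ |x| := by
  have h := round_le x 0
  rw [UnitAddCircle.norm_eq]
  simpa using h

private theorem CrC_far {l ρ : ℝ} (hρ : 0 < ρ) (hl : 1 / 8 + 8 * ρ < ‖(l : Ci)‖) (u : ℝ) :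
    1 / 8 < ‖((l + ρ * sq u : ℝ) : Ci)‖ := by
  have h1 : (l : Ci) = ((l + ρ * sq u : ℝ) : Ci) - ((ρ * sq u : ℝ) : Ci) := by
    rw [← AddCircle.coe_sub]
    congr 1
    ring
  have h2 : ‖(l : Ci)‖ ≤ ‖((l + ρ * sq u : ℝ) : Ci)‖ + ‖((ρ * sq u : ℝ) : Ci)‖ := by
    conv_lhs => rw [h1]
    exact norm_sub_le _ _
  have h3 : |ρ * sq u| ≤ ρ * 6 := by
    rw [abs_mul, abs_of_pos hρ]
    exact mul_le_mul_of_nonneg_left (sq_lt u).le hρ.le
  have h4 := CrC_norm (ρ * sq u)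
  linarith

/-- the point of the covering space over a point of the cylinder -/
private noncomputable def CrCsg (l ρ : ℝ) (w : ℝ × (ℝ × ℝ)) : ℝ × ℝ × ℝ :=
  (sq (w.2.2 + 4) / 64, l + ρ * sq w.2.1, w.1)

private theorem CrC_sg_cont (l ρ : ℝ) : Continuous (CrCsg l ρ) := by
  have h1 : Continuous fun w : ℝ × (ℝ × ℝ) => sq (w.2.2 + 4) / 64 :=
    (sq_cont.comp (by fun_prop : Continuous fun w : ℝ × (ℝ × ℝ) => w.2.2 + 4)).div_const 64
  have h2 : Continuous fun w : ℝ × (ℝ × ℝ) => l + ρ * sq w.2.1 :=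
    continuous_const.add (continuous_const.mul
      (sq_cont.comp (by fun_prop : Continuous fun w : ℝ × (ℝ × ℝ) => w.2.1)))
  exact h1.prodMk (h2.prodMk continuous_fst)

private theorem CrC_sg_mem {l ρ : ℝ} (hρ : 0 < ρ) (hl : 1 / 8 + 8 * ρ < ‖(l : Ci)‖)
    (w : ℝ × (ℝ × ℝ)) : CrCsg l ρ w ∈ XS := by
  have h1 := CrC_far hρ hl w.2.1
  have h2 : ‖((sq (w.2.2 + 4) / 64 : ℝ) : Ci)‖ < 1 / 4 := by
    refine lt_of_le_of_lt (CrC_norm _) ?_
    have h3 := sq_lt (w.2.2 + 4)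
    rw [abs_div, abs_of_pos (by norm_num : (0 : ℝ) < 64), div_lt_iff₀ (by norm_num)]
    linarith
  refine ⟨Or.inl h2, ?_, ?_⟩
  · show 1 / 16 < ‖((l + ρ * sq w.2.1 : ℝ) : Ci)‖
    linarith
  · show 25 / 9 < 256 * (‖((l + ρ * sq w.2.1 : ℝ) : Ci)‖ ^ 2 + ‖((w.1 : ℝ) : Ci)‖ ^ 2)
    have h3 : (1 / 8 : ℝ) ^ 2 < ‖((l + ρ * sq w.2.1 : ℝ) : Ci)‖ ^ 2 :=
      pow_lt_pow_left₀ h1 (by norm_num) (by norm_num)
    have h4 : 0 ≤ ‖((w.1 : ℝ) : Ci)‖ ^ 2 := by positivity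
    have h5 : ((1 : ℝ) / 8) ^ 2 = 1 / 64 := by norm_num
    rw [h5] at h3
    linarith

private theorem CrC_yy {l ρ : ℝ} (hρ : 0 < ρ) (hl : 1 / 8 + 8 * ρ < ‖(l : Ci)‖)
    {w : ℝ × (ℝ × ℝ)} (hw : |w.2.2| < 1 / 2) :
    yy (CrCsg l ρ w) = phi (-w.1) (3 / 4 + w.2.2 / 16) := by
  have h0 := abs_lt.1 hw
  have h1 : sq (w.2.2 + 4) = w.2.2 + 4 :=
    sq_id (abs_le.2 ⟨by linarith [h0.1], by linarith [h0.2]⟩)
  have h2 : ff ((w.2.2 + 4) / 64) = 4 * ((w.2.2 + 4) / 64) + 1 / 2 :=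
    ff_core (abs_le.2 ⟨by linarith [h0.1], by linarith [h0.2]⟩)
  have h3 : lam (l + ρ * sq w.2.1) w.1 = 0 :=
    lam_zero (le_max_of_le_left (CrC_far hρ hl w.2.1).le)
  show phi (-w.1) (ff (sq (w.2.2 + 4) / 64) + lam (l + ρ * sq w.2.1) w.1 *
    (sq (w.2.2 + 4) / 64 - ff (sq (w.2.2 + 4) / 64))) = _
  rw [h3, h1, h2]
  congr 1
  ring

/-- THE CURVES IN THE WALL. `Γ (θ, s) = phi (-θ) (3/4 + s/16) - 3/4`, `h z = T0.symm (z + 3/4) - 3/4`, `δ = 1/2`. PROOF: `emb`: `hN'` and `NC_emb`, `hp`. For `|s| < 1/2` the point `N' (θ, (u, s))` is over `z = ((s + 4)/64, l + ρ sq u, θ)`,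
`ff ((s + 4)/64) = 3/4 + s/16` (`ff_core`), `‖l + ρ sq u‖ > 1/8` so that `lam = 0` near `z` and `yy w = phi (-w.2.2) (ff w.1)` near `z`; `z ∈ XS` (`rt_lt`-like estimate: `rt z > 256/64`). The chart `c ∈ F'.charts` comes from a chart of `G` (`hF'`), `H.s`, composed with
the continuous map `(θ, (u, s)) ↦ z`. `Γ (θ, 0) = 0`: `phi_wall` (`n = 1`). `Γ (θ + 1, s) = h (Γ (θ, s))`: `phi_add`, `phi_one`. The last condition: `T0_symm_move`; `z > 0` small if `x > 0`, `z < 0` small if `x < 0`. -/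
theorem New.leafC (H : New F N P G) (B : Box F N) {M' : Type} [TopologicalSpace M'] {p : M' → M}
    (hp : IsOpenEmbedding p) {F' : Foliation M'} (hF' : F'.charts = LS.pullCharts p G) {l ρ : ℝ}
    (hρ : 0 < ρ) (hl : 1 / 8 + 8 * ρ < ‖(l : Ci)‖) {N' : LG.Cylinder → M'}
    (hN' : ∀ z, p (N' z) = NC N l ρ z) {x : ℝ} (hx : x ≠ 0) : LG.LeafCurve F' N' x := by
  have hl2 : ‖(l : Ci)‖ ≤ 1 / 2 := by
    rw [BR.U.norm_cl]
    have h := BR.U.cl_mem (l : Ci)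
    exact abs_le.2 ⟨by linarith [h.1], h.2.le⟩
  have hρ6 : 6 * ρ < 1 / 2 := by linarith
  have hemb : IsOpenEmbedding N' := by
    refine IsOpenEmbedding.of_comp N' hp ?_
    have h : p ∘ N' = NC N l ρ := funext hN'
    rw [h]
    exact NC_emb B.emb hρ hρ6
  have hT : ∀ θ v : ℝ, phi (-(θ + 1)) v = T0.symm (phi (-θ) v) := by
    intro θ v
    symm
    rw [OrderIso.symm_apply_eq, ← phi_one, ← phi_add]
    congr 1
    ring
  refine ⟨hemb, 1 / 2, fun q => phi (-q.1) (3 / 4 + q.2 / 16) - 3 / 4,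
    (OrderIso.addRight (3 / 4 : ℝ)).trans (T0.symm.trans (OrderIso.addRight (-(3 / 4) : ℝ))),
    by norm_num, ?_, ?_, ?_, ?_, ?_, ?_⟩
  · refine Continuous.continuousOn ?_
    exact (phi_cont.comp (by fun_prop : Continuous fun q : ℝ × ℝ =>
      (-q.1, 3 / 4 + q.2 / 16))).sub continuous_const
  · intro θ s _ t _ hst
    have h1 := phi_mono (-θ) (by linarith : 3 / 4 + s / 16 < 3 / 4 + t / 16)
    show phi (-θ) (3 / 4 + s / 16) - 3 / 4 < phi (-θ) (3 / 4 + t / 16) - 3 / 4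
    linarith
  · intro θ
    have h1 := phi_wall (-θ) 1
    have h2 : ((1 : ℤ) : ℝ) / 2 + 1 / 4 = 3 / 4 + 0 / 16 := by
      push_cast
      norm_num
    rw [h2] at h1
    show phi (-θ) (3 / 4 + 0 / 16) - 3 / 4 = 0
    rw [h1]
    norm_num
  · intro θ s _
    show phi (-(θ + 1)) (3 / 4 + s / 16) - 3 / 4 =
      T0.symm (phi (-θ) (3 / 4 + s / 16) - 3 / 4 + 3 / 4) + -(3 / 4)
    rw [hT, sub_add_cancel]
    ring
  · intro θ u s hs c hc hcs
    rw [hF'] at hc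
    obtain ⟨c₁, hc₁, hsrc, hval⟩ := hc
    have hR : Continuous fun w : ℝ × (ℝ × ℝ) => N' (((w.1 : ℝ) : Ci), w.2) :=
      hemb.continuous.comp CrC_cyl
    have hy : N (cov (CrCsg l ρ (θ, (u, s)))) ∈ c₁.source := by
      rw [hsrc, mem_preimage, hN'] at hcs
      exact hcs
    have h1 := H.s _ (CrC_sg_mem hρ hl (θ, (u, s))) c₁ hc₁ hy
    have h2 := OrdEq.comp_cont (CrC_sg_cont l ρ).continuousAt h1
    have h3 : OrdEq (θ, (u, s)) (yy ∘ CrCsg l ρ)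
        (fun w : ℝ × (ℝ × ℝ) => phi (-w.1) (3 / 4 + w.2.2 / 16) - 3 / 4) := by
      refine OrdEq.of_comp (fun y => y - 3 / 4) (fun a b hab => by
        show a - 3 / 4 < b - 3 / 4
        linarith) ?_
      have h4 : ∀ᶠ w : ℝ × (ℝ × ℝ) in 𝓝 (θ, (u, s)), |w.2.2| < 1 / 2 :=
        (Continuous.continuousAt (by fun_prop)).eventually_lt_const
          (abs_lt.2 ⟨by linarith [hs.1], by linarith [hs.2]⟩)
      filter_upwards [h4] with w hw
      show phi (-w.1) (3 / 4 + w.2.2 / 16) - 3 / 4 = yy (CrCsg l ρ w) - 3 / 4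
      rw [CrC_yy hρ hl hw]
    exact CrC_pull (R := fun w : ℝ × (ℝ × ℝ) => N' (((w.1 : ℝ) : Ci), w.2))
      (R₁ := fun w => N (cov (CrCsg l ρ w))) hval hR (fun w => hN' _) hcs (h2.trans h3)
  · intro ε hε
    have hm : 0 < min (ε / 2) (1 / 4) := lt_min (by linarith) (by norm_num)
    have hm1 : min (ε / 2) (1 / 4) ≤ ε / 2 := min_le_left _ _
    have hm2 : min (ε / 2) (1 / 4) ≤ 1 / 4 := min_le_right _ _
    set m := min (ε / 2) (1 / 4) with hmdef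
    rcases lt_or_gt_of_ne hx with h | h
    · refine ⟨-m, ?_, ?_⟩
      · rw [abs_neg, abs_of_pos hm]
        linarith
      · have h1 := (T0_symm_move (v := -m + 3 / 4)).1 ⟨by linarith, by linarith⟩
        show 0 < x * (T0.symm (-m + 3 / 4) + -(3 / 4) - -m)
        exact mul_pos_of_neg_of_neg h (by linarith)
    · refine ⟨m, ?_, ?_⟩
      · rw [abs_of_pos hm]
        linarith
      · have h1 := (T0_symm_move (v := m + 3 / 4)).2 ⟨by linarith, by linarith⟩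
        show 0 < x * (T0.symm (m + 3 / 4) + -(3 / 4) - m)
        exact mul_pos h (by linarith)

/-- THE OTHER LEAF CURVES. PROOF: `H.out` at all points `N₀ z`; the same `δ, Γ, h`. -/
theorem New.leafO (H : New F N P G) {M' : Type} [TopologicalSpace M'] {p : M' → M}
    (hp : IsOpenEmbedding p) {F' : Foliation M'} (hF' : F'.charts = LS.pullCharts p G)
    {N₀ : LG.Cylinder → M} {x : ℝ} (h : LG.LeafCurve F N₀ x) (hout : ∀ z, N₀ z ∉ N '' CC)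
    {N' : LG.Cylinder → M'} (hN' : ∀ z, p (N' z) = N₀ z) : LG.LeafCurve F' N' x := by
  have hemb : IsOpenEmbedding N' := by
    refine IsOpenEmbedding.of_comp N' hp ?_
    have h1 : p ∘ N' = N₀ := funext hN'
    rw [h1]
    exact h.emb
  obtain ⟨δ, Γ, g, h1, h2, h3, h4, h5, h6, h7⟩ := h.hol
  refine ⟨hemb, δ, Γ, g, h1, h2, h3, h4, h5, ?_, h7⟩
  intro θ u s hs c hc hcs
  rw [hF'] at hc
  obtain ⟨c₁, hc₁, hsrc, hval⟩ := hc
  have hR : Continuous fun w : ℝ × (ℝ × ℝ) => N' (((w.1 : ℝ) : Ci), w.2) :=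
    hemb.continuous.comp CrC_cyl
  have hR₁ : Continuous fun w : ℝ × (ℝ × ℝ) => N₀ (((w.1 : ℝ) : Ci), w.2) :=
    h.emb.continuous.comp CrC_cyl
  have hy : N₀ (((θ : ℝ) : Ci), (u, s)) ∈ c₁.source := by
    rw [hsrc, mem_preimage, hN'] at hcs
    exact hcs
  obtain ⟨c', hc', hy'⟩ := F.cover (N₀ (((θ : ℝ) : Ci), (u, s)))
  have h8 := H.out _ (hout _) c₁ hc₁ c' hc' hy hy'
  have h9 := OrdEq.comp_cont (z₀ := (θ, (u, s)))
    (R := fun w : ℝ × (ℝ × ℝ) => N₀ (((w.1 : ℝ) : Ci), w.2)) hR₁.continuousAt h8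
  have h10 : OrdEq (θ, (u, s)) (fun w : ℝ × (ℝ × ℝ) => (c' (N₀ (((w.1 : ℝ) : Ci), w.2))).2)
      (fun w : ℝ × (ℝ × ℝ) => Γ (w.1, w.2.2)) := h6 θ u s hs c' hc' hy'
  exact CrC_pull (R := fun w : ℝ × (ℝ × ℝ) => N' (((w.1 : ℝ) : Ci), w.2))
    (R₁ := fun w => N₀ (((w.1 : ℝ) : Ci), w.2)) hval hR (fun w => hN' _) hcs (h9.trans h10)

end Pool.Agent.H.MP_1611f1_gt.TW
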