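import Pool.Agent.H.MP_1611f1_gt.TW.TaC
import Pool.Agent.H.MP_1611f1_gt.LS.UpD

/-!
Tautness of the new foliation.
-/

namespace Pool.Agent.H.MP_1611f1_gt.TW

open Topology Set Filter
open Pool.Agent.H.MP_1611f1_gt.BR.U (Ci)

variable {M : Type} [TopologicalSpace M] {F : Foliation M} {N : Ci × Ci × Ci → M} {P : Par}
  {G : LS.PreFol M}

private theorem TaD_norm {x : ℝ} (h : |x| ≤ 1 / 2) : ‖(x : Ci)‖ = |x| := by
  refine (AddCircle.norm_coe_eq_abs_iff (1 : ℝ) one_ne_zero).2 ?_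
  rw [abs_one]
  exact h

private theorem TaD_mem {a s t : ℝ} (hs : |s| ≤ 1 / 2) (ht : |t| ≤ 1 / 2)
    (hV : ‖(a : Ci)‖ < 1 / 4 ∨ (|s| < 1 / 4 ∧ |t| < 1 / 4)) (hr : 1 < 256 * (|s| ^ 2 + |t| ^ 2)) :
    cov (a, s, t) ∈ VV ∧ 1 < rt (a, s, t) := by
  constructor
  · show ‖(a : Ci)‖ < 1 / 4 ∨ (‖(s : Ci)‖ < 1 / 4 ∧ ‖(t : Ci)‖ < 1 / 4)
    rw [TaD_norm hs, TaD_norm ht]
    exact hV
  · show 1 < 256 * (‖(s : Ci)‖ ^ 2 + ‖(t : Ci)‖ ^ 2)
    rw [TaD_norm hs, TaD_norm ht]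
    exact hr

private def TaD_R (G : LS.PreFol M) (N : Ci × Ci × Ci → M) (z z' : ℝ × ℝ × ℝ) : Prop :=
  G.Up (N (cov z)) (N (cov z')) ∧ G.Up (N (cov z')) (N (cov z))

private theorem TaD_R.trans {z z' z'' : ℝ × ℝ × ℝ} (h : TaD_R G N z z') (h' : TaD_R G N z' z'') :
    TaD_R G N z z'' :=
  ⟨LS.PreFol.Up.trans G h.1 h'.1, LS.PreFol.Up.trans G h'.2 h.2⟩

private theorem TaD_move (H : New F N P G) (B : Box F N) {σ : ℝ → ℝ × ℝ × ℝ} {a b : ℝ}
    (hσ : Continuous σ) (h : ∀ s ∈ uIcc a b, cov (σ s) ∈ VV ∧ 1 < rt (σ s)) :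
    TaD_R G N (σ a) (σ b) :=
  New.up_move B hσ.continuousOn (fun s hs => (h s hs).1) fun s hs =>
    H.up_V B (h s hs).1 (h s hs).2

private theorem TaD_uIcc {x y s c : ℝ} (hs : s ∈ uIcc x y) (hx : |x| ≤ c) (hy : |y| ≤ c) :
    |s| ≤ c := by
  rw [abs_le] at hx hy ⊢
  rcases mem_uIcc.1 hs with h | h
  · exact ⟨hx.1.trans h.1, h.2.trans hy.2⟩
  · exact ⟨hy.1.trans h.1, h.2.trans hx.2⟩

private theorem TaD_uIcc' {x y s c : ℝ} (hs : s ∈ uIcc x y) (hx : |x| < c) (hy : |y| < c) :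
    |s| < c :=
  (TaD_uIcc hs (le_max_left _ _) (le_max_right _ _)).trans_lt (max_lt hx hy)

private theorem TaD_q {s t : ℝ} (h : 3 / 16 ≤ |s|) : 1 < 256 * (|s| ^ 2 + |t| ^ 2) := by
  have h1 : (3 / 16 : ℝ) ^ 2 ≤ |s| ^ 2 := pow_le_pow_left₀ (by norm_num) h 2
  have h2 : 0 ≤ |t| ^ 2 := by positivity
  have h3 : (3 / 16 : ℝ) ^ 2 = 9 / 256 := by norm_num
  rw [h3] at h1
  linarith

/-- `b` outwards -/
private theorem TaD_b (H : New F N P G) (B : Box F N) {a b t : ℝ} (hb : |b| ≤ 1 / 2)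
    (ht : |t| ≤ 1 / 2) (hV : ‖(a : Ci)‖ < 1 / 4 ∨ (|b| < 1 / 4 ∧ |t| < 1 / 4))
    (hr : 1 < 256 * (|b| ^ 2 + |t| ^ 2)) :
    ∃ b' : ℝ, 3 / 16 ≤ |b'| ∧ |b'| ≤ 1 / 2 ∧ (|b| < 1 / 4 → |b'| < 1 / 4) ∧
      TaD_R G N (a, b, t) (a, b', t) := by
  rcases le_or_gt (3 / 16) |b| with h | h
  · have h1 := TaD_mem hb ht hV hr
    exact ⟨b, h, hb, fun h => h, H.up_V B h1.1 h1.2, H.up_V B h1.1 h1.2⟩
  · obtain ⟨b', h1, h2⟩ : ∃ b' : ℝ, |b'| = 3 / 16 ∧ ∀ s ∈ uIcc b b', |b| ≤ |s| := by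
      rcases le_total 0 b with h3 | h3
      · rw [abs_of_nonneg h3] at h ⊢
        refine ⟨3 / 16, abs_of_pos (by norm_num), fun s hs => ?_⟩
        rw [uIcc_of_le h.le] at hs
        exact hs.1.trans (le_abs_self s)
      · rw [abs_of_nonpos h3] at h ⊢
        refine ⟨-(3 / 16), by rw [abs_neg]; exact abs_of_pos (by norm_num), fun s hs => ?_⟩
        rw [uIcc_of_ge (by linarith)] at hs
        have := neg_abs_le s
        linarith [hs.2]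
    refine ⟨b', h1.ge, by rw [h1]; norm_num, fun _ => by rw [h1]; norm_num,
      TaD_move H B (σ := fun s => (a, s, t)) (by fun_prop) fun s hs => ?_⟩
    have h3 := TaD_uIcc hs h.le h1.le
    refine TaD_mem (h3.trans (by norm_num)) ht ?_ ?_
    · rcases hV with hV | hV
      · exact Or.inl hV
      · exact Or.inr ⟨h3.trans_lt (by norm_num), hV.2⟩
    · have h4 := pow_le_pow_left₀ (abs_nonneg b) (h2 s hs) 2
      linarith

private theorem TaD_main (H : New F N P G) (B : Box F N) {a b t : ℝ} (hb : |b| ≤ 1 / 2)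
    (ht : |t| ≤ 1 / 2) (hV : ‖(a : Ci)‖ < 1 / 4 ∨ (|b| < 1 / 4 ∧ |t| < 1 / 4))
    (hr : 1 < 256 * (|b| ^ 2 + |t| ^ 2)) : TaD_R G N (a, b, t) (3 / 16, 3 / 16, 3 / 16) := by
  have e : |(3 / 16 : ℝ)| = 3 / 16 := abs_of_pos (by norm_num)
  obtain ⟨b', h1, h2, h3, h4⟩ := TaD_b H B hb ht hV hr
  have hV' : ‖(a : Ci)‖ < 1 / 4 ∨ (|b'| < 1 / 4 ∧ |t| < 1 / 4) := hV.imp_right fun h => ⟨h3 h.1, h.2⟩
  have m2 : TaD_R G N (a, b', t) (a, b', 3 / 16) := by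
    refine TaD_move H B (σ := fun s => (a, b', s)) (by fun_prop) fun s hs => ?_
    refine TaD_mem h2 (TaD_uIcc hs ht (by rw [e]; norm_num)) ?_ (TaD_q h1)
    exact hV'.imp_right fun h => ⟨h.1, TaD_uIcc' hs h.2 (by rw [e]; norm_num)⟩
  have m3 : TaD_R G N (a, b', 3 / 16) (a, 3 / 16, 3 / 16) := by
    refine TaD_move H B (σ := fun s => (a, s, 3 / 16)) (by fun_prop) fun s hs => ?_
    refine TaD_mem (TaD_uIcc hs h2 (by rw [e]; norm_num)) (by rw [e]; norm_num) ?_ ?_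
    · exact hV'.imp_right fun h =>
        ⟨TaD_uIcc' hs h.1 (by rw [e]; norm_num), by rw [e]; norm_num⟩
    · rw [add_comm]
      exact TaD_q e.ge
  have m4 : TaD_R G N (a, 3 / 16, 3 / 16) (3 / 16, 3 / 16, 3 / 16) := by
    refine TaD_move H B (σ := fun s => (s, 3 / 16, 3 / 16)) (by fun_prop) fun s hs => ?_
    refine TaD_mem (by rw [e]; norm_num) (by rw [e]; norm_num) (Or.inr ?_) (TaD_q e.ge)
    rw [e]
    norm_num
  exact h4.trans (m2.trans (m3.trans m4))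

/-- The part of `VV` outside of the tube is connected. PROOF: take the lifts `|b|, |t| ≤ 1/2`. Let `|t| ≤ |b|` (the other case is symmetric). Four moves (`New.up_move`, `New.up_V`): `b` outwards to `±3/16` (if `|b| < 3/16`; the distance from the tube grows); `t` to `3/16`;
`b` to `3/16`; `a` to `3/16`. During the first three moves `‖a‖ < 1/4` or `|b|, |t| < 1/4`; during the second and third moves `3/16 ≤ |b|` or `t = 3/16`. -/
theorem New.up_hub (H : New F N P G) (B : Box F N) {z : ℝ × ℝ × ℝ} (hz : cov z ∈ VV)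
    (h : 1 < rt z) : G.Up (N (cov z)) (N (cov (3 / 16, 3 / 16, 3 / 16))) ∧
      G.Up (N (cov (3 / 16, 3 / 16, 3 / 16))) (N (cov z)) := by
  obtain ⟨a, b, t⟩ := z
  have e : tr 0 (-round b) (-round t) (a, b, t) = (a, b - round b, t - round t) := by
    simp only [tr, Int.cast_zero, add_zero, Int.cast_neg]
    rfl
  have e1 := cov_tr 0 (-round b) (-round t) (a, b, t)
  have e2 := rt_tr 0 (-round b) (-round t) (a, b, t)
  rw [e] at e1 e2
  rw [← e1] at hz ⊢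
  rw [← e2] at h
  have hb := abs_sub_round b
  have ht := abs_sub_round t
  refine TaD_main H B hb ht ?_ ?_
  · have h1 : ‖(a : Ci)‖ < 1 / 4 ∨ (‖((b - round b : ℝ) : Ci)‖ < 1 / 4 ∧
      ‖((t - round t : ℝ) : Ci)‖ < 1 / 4) := hz
    rwa [TaD_norm hb, TaD_norm ht] at h1
  · have h1 : 1 < 256 * (‖((b - round b : ℝ) : Ci)‖ ^ 2 + ‖((t - round t : ℝ) : Ci)‖ ^ 2) := h
    rwa [TaD_norm hb, TaD_norm ht] at h1

/-- PROOF: outside of `N '' CC`: `New.up_out` with `New.up_hub` and `LS.taut_up`. Otherwise `y = N (cov z)` (`cov_surj`) with `1 < rt z` (`KK_iff`): `New.up_V`. -/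
theorem New.up [T2Space M] (H : New F N P G) (B : Box F N) (hF : F.Taut) {y : M}
    (hy : y ∉ N '' KK) : G.Up y y := by
  by_cases hc : y ∈ N '' CC
  · obtain ⟨c, hc, rfl⟩ := hc
    obtain ⟨z, rfl⟩ := cov_surj c
    refine H.up_V B (CC_sub hc) ?_
    by_contra h
    exact hy ⟨cov z, (KK_iff z).2 (not_lt.1 h), rfl⟩
  · refine H.up_out B ?_ hc (LS.taut_up F hF y)
    intro c hc c' hc' hk hk'
    obtain ⟨z, rfl⟩ := cov_surj c
    obtain ⟨z', rfl⟩ := cov_surj c'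
    have h : ∀ w : ℝ × ℝ × ℝ, cov w ∉ KK → 1 < rt w := fun w hw => by
      by_contra h
      exact hw ((KK_iff w).2 (not_lt.1 h))
    exact LS.PreFol.Up.trans G (H.up_hub B hc (h z hk)).1 (H.up_hub B hc' (h z' hk')).2

end Pool.Agent.H.MP_1611f1_gt.TW
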