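import Pool.Agent.H.MP_1611f1_gt.TW.Cnj

/-!
The two circle homeomorphisms on the two sides of the special curve.
-/

namespace Pool.Agent.H.MP_1611f1_gt.TW

open Topology Set Filter

theorem Two_pl {q m p δ : ℝ} (hq : q < m) (hm : m < p) (hδ : 0 < δ) (hδ' : δ < 1) :
    ∃ g : ℝ → ℝ, g 0 = q ∧ g 1 = p ∧ Continuous g ∧ StrictMono g ∧
      ∀ s, δ ≤ s → g s = m + (p - m) * (s - δ) / (1 - δ) := by
  refine ⟨fun s => q + (m - q) * min s δ / δ + (p - m) * max (s - δ) 0 / (1 - δ),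
    ?_, ?_, ?_, ?_, ?_⟩
  · show q + (m - q) * min 0 δ / δ + (p - m) * max (0 - δ) 0 / (1 - δ) = q
    rw [min_eq_left hδ.le, max_eq_right (by linarith)]
    simp
  · show q + (m - q) * min 1 δ / δ + (p - m) * max (1 - δ) 0 / (1 - δ) = p
    rw [min_eq_right hδ'.le, max_eq_left (by linarith), mul_div_assoc, div_self hδ.ne',
      mul_div_assoc, div_self (by linarith : (1 : ℝ) - δ ≠ 0)]
    ring
  · fun_prop
  · intro s t hst
    show q + (m - q) * min s δ / δ + (p - m) * max (s - δ) 0 / (1 - δ) <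
      q + (m - q) * min t δ / δ + (p - m) * max (t - δ) 0 / (1 - δ)
    have h1 : 0 < (m - q) / δ := div_pos (by linarith) hδ
    have h2 : 0 < (p - m) / (1 - δ) := div_pos (by linarith) (by linarith)
    have h3 : ∀ x, (m - q) * x / δ = (m - q) / δ * x := fun x => by ring
    have h4 : ∀ x, (p - m) * x / (1 - δ) = (p - m) / (1 - δ) * x := fun x => by ring
    rw [h3, h3, h4, h4]
    have h5 : min s δ ≤ min t δ := min_le_min_right _ hst.le
    have h6 : max (s - δ) 0 ≤ max (t - δ) 0 := max_le_max_right _ (by linarith)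
    have h7 := mul_le_mul_of_nonneg_left h5 h1.le
    have h8 := mul_le_mul_of_nonneg_left h6 h2.le
    rcases lt_or_ge s δ with h9 | h9
    · have h10 : min s δ < min t δ := by
        rw [min_eq_left h9.le]
        exact lt_min hst h9
      have h11 := mul_lt_mul_of_pos_left h10 h1
      linarith
    · have h10 : max (s - δ) 0 < max (t - δ) 0 := by
        rw [max_eq_left (by linarith), max_eq_left (by linarith)]
        linarith
      have h11 := mul_lt_mul_of_pos_left h10 h2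
      linarith
  · intro s hs
    show q + (m - q) * min s δ / δ + (p - m) * max (s - δ) 0 / (1 - δ) = _
    rw [min_eq_right hs, max_eq_left (by linarith), mul_div_assoc (m - q), div_self hδ.ne']
    ring

/-- two increasing functions on `[0, 1]` with different values at `0`, which agree on `[δ, 1]`. PROOF: piecewise linear with the
corners `0, δ, 1` and the values `q`, `(max q q' + p) / 2`, `p` (resp. `q'`, the same, the same). -/
theorem exists_g₀ {q q' p δ : ℝ} (hq : q < p) (hq' : q' < p) (hδ : 0 < δ) (hδ' : δ < 1) :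
    ∃ g g' : ℝ → ℝ, g 0 = q ∧ g 1 = p ∧ ContinuousOn g (Icc 0 1) ∧ StrictMonoOn g (Icc 0 1) ∧
      g' 0 = q' ∧ g' 1 = p ∧ ContinuousOn g' (Icc 0 1) ∧ StrictMonoOn g' (Icc 0 1) ∧
      ∀ s ∈ Icc δ 1, g s = g' s := by
  have h1 : max q q' < p := max_lt hq hq'
  have h2 : q < (max q q' + p) / 2 := by
    have := le_max_left q q'
    linarith
  have h3 : q' < (max q q' + p) / 2 := by
    have := le_max_right q q'
    linarith
  have h4 : (max q q' + p) / 2 < p := by linarith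
  obtain ⟨g, g0, g1, gc, gm, gf⟩ := Two_pl h2 h4 hδ hδ'
  obtain ⟨g', g0', g1', gc', gm', gf'⟩ := Two_pl h3 h4 hδ hδ'
  exact ⟨g, g', g0, g1, gc.continuousOn, gm.strictMonoOn _, g0', g1', gc'.continuousOn,
    gm'.strictMonoOn _, fun s hs => by rw [gf s hs.1, gf' s hs.1]⟩

/-- PROOF. If `f v < v` then `v` is in `Ioo (c' + n) (c + 1 + n)` for some integer `n` (all real numbers are, mod `1`, in
`[c, c + 1)`; `f` does not move points down elsewhere); replace `c, c'` by `c + 1 + n, c' + 1 + n` (`UD.shift`). -/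
theorem UD.at {f : ℝ ≃o ℝ} {c c' : ℝ} (h : UD f c c') {v : ℝ} (hv : f v < v) :
    ∃ b b' : ℝ, UD f b b' ∧ v ∈ Ioo (b' - 1) b := by
  have hs1 := Int.floor_le (v - c)
  have hs2 := Int.lt_floor_add_one (v - c)
  set n := ⌊v - c⌋ with hn
  have h1 : f (v - n) < v - n := by
    have h2 := Cnj_per_int h.per n (v - n)
    rw [sub_add_cancel] at h2
    linarith
  refine ⟨c + ((n + 1 : ℤ) : ℝ), c' + ((n + 1 : ℤ) : ℝ), h.shift (n + 1), ?_⟩
  have h3 : c' < v - n := by
    by_contra h4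
    rcases (not_lt.1 h4).eq_or_lt with h5 | h5
    · rw [h5, h.fix'] at h1
      exact lt_irrefl _ h1
    · have h6 : c ≤ v - n := by linarith
      rcases h6.eq_or_lt with h7 | h7
      · rw [← h7, h.fix] at h1
        exact lt_irrefl _ h1
      · have h8 := h.up _ ⟨h7, h5⟩
        linarith
  push_cast
  constructor
  · linarith
  · linarith

/-- the case of two homeomorphisms `f`, `f'` both moving the point `p` down. PROOF: `UD.at` for both, `exists_g₀` with
`q = f p`, `q' = f' p`; `exists_G` (the interval `(b' - 1, b)`; its endpoints are fixed), `exists_G_up` (the interval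
`(b, b')`), `exists_conj` for both. `e (LL s) = G s = g s` for `s ∈ [0, 1]`. -/
theorem exists_two_aux {f f' : ℝ ≃o ℝ} {c c' d d' p δ : ℝ} (h : UD f c c') (h' : UD f' d d')
    (hp : f p < p) (hp' : f' p < p) (hδ : 0 < δ) (hδ' : δ < 1 / 2) :
    ∃ e e' : ℝ ≃o ℝ, (∀ x, e (x + 1) = e x + 1) ∧ (∀ x, e' (x + 1) = e' x + 1) ∧
      (∀ v, e (T0 v) = f (e v)) ∧ (∀ v, e' (T0 v) = f' (e' v)) ∧
      ∀ s ∈ Icc δ (1 - δ), e (LL s) = e' (LL s) := by
  have main : ∀ {f : ℝ ≃o ℝ} {c c' : ℝ} (g : ℝ → ℝ), UD f c c' → f p < p → g 0 = f p →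
      g 1 = p → ContinuousOn g (Icc 0 1) → StrictMonoOn g (Icc 0 1) →
      ∃ e : ℝ ≃o ℝ, (∀ x, e (x + 1) = e x + 1) ∧ (∀ v, e (T0 v) = f (e v)) ∧
        ∀ s ∈ Icc (0 : ℝ) 1, e (LL s) = g s := by
    intro f c c' g h hp h0 h1 hc hm
    obtain ⟨b, b', hb, hpb⟩ := h.at hp
    have fa : f (b' - 1) = b' - 1 := by
      have h2 := hb.per (b' - 1)
      rw [sub_add_cancel, hb.fix'] at h2
      linarith
    have hd : ∀ v ∈ Ioo (b' - 1) b, f v < v := by
      intro v hv
      have h2 := hb.down (v + 1) ⟨by linarith [hv.1], by linarith [hv.2]⟩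
      rw [hb.per] at h2
      linarith
    obtain ⟨G, G1, G2, G3, G4, G5⟩ := exists_G fa hb.fix hd hpb h0 h1 hc hm
    obtain ⟨G', G1', G2', G3', G4'⟩ := exists_G_up hb.lt hb.fix hb.fix' hb.up
    obtain ⟨e, e1, e2, e3⟩ := exists_conj hb G1 G2 G3 G4 G1' G2' G3' G4'
    exact ⟨e, e1, e3, fun s hs => by rw [e2, G5 s hs]⟩
  obtain ⟨g, g', g0, g1, gc, gm, g0', g1', gc', gm', hgg⟩ :=
    exists_g₀ hp hp' hδ (by linarith)
  obtain ⟨e, e1, e2, e3⟩ := main g h hp g0 g1 gc gm
  obtain ⟨e', e1', e2', e3'⟩ := main g' h' hp' g0' g1' gc' gm'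
  refine ⟨e, e', e1, e1', e2, e2', fun s hs => ?_⟩
  have h2 : s ∈ Icc (0 : ℝ) 1 := ⟨by linarith [hs.1], by linarith [hs.2]⟩
  rw [e3 s h2, e3' s h2, hgg s ⟨hs.1, h2.2⟩]

/-- THE ONE-DIMENSIONAL THEOREM. PROOF. Let `a = |μ|` and `f` from `exists_pl`, `f' = aft f a`. For every `p` with `f' p < p` (there
is one, in the interval `(d', d + 1)`) one has `f p < f (p + a) = f' p < p`. If `0 < μ` take `em, ep` for `f, f'`:
`ep (T0 (ep.symm y)) = f' y = f (y + μ) = em (T0 (em.symm (y + μ)))`. If `μ < 0` take `em, ep` for `f', f`: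
`em (T0 (em.symm (y + μ))) = f' (y - a) = f y`. -/
theorem exists_two {μ δ : ℝ} (h0 : μ ≠ 0) (h1 : |μ| < 1) (hδ : 0 < δ) (hδ' : δ < 1 / 2) :
    ∃ em ep : ℝ ≃o ℝ, (∀ x, em (x + 1) = em x + 1) ∧ (∀ x, ep (x + 1) = ep x + 1) ∧
      (∀ y, em (T0 (em.symm (y + μ))) = ep (T0 (ep.symm y))) ∧
      ∀ s ∈ Icc δ (1 - δ), em (LL s) = ep (LL s) := by
  have ha : 0 < |μ| := abs_pos.2 h0
  obtain ⟨f, c, c', d, d', hf, hf'⟩ := exists_pl ha h1
  obtain ⟨p, hp⟩ : ∃ p, aft f |μ| p < p := by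
    have h2 := hf'.lt'
    exact ⟨(d' + (d + 1)) / 2, hf'.down _ ⟨by linarith, by linarith⟩⟩
  have hp' : f p < p := by
    refine lt_trans ?_ hp
    rw [aft_apply]
    exact f.strictMono (by linarith)
  obtain ⟨e, e', e1, e1', e2, e2', e3⟩ := exists_two_aux hf hf' hp' hp hδ hδ'
  rcases lt_or_gt_of_ne h0 with hμ | hμ
  · refine ⟨e', e, e1', e1, fun y => ?_, fun s hs => (e3 s hs).symm⟩
    rw [e2', e2, OrderIso.apply_symm_apply, OrderIso.apply_symm_apply, aft_apply,
      abs_of_neg hμ]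
    congr 1
    ring
  · refine ⟨e, e', e1, e1', fun y => ?_, e3⟩
    rw [e2, e2', OrderIso.apply_symm_apply, OrderIso.apply_symm_apply, aft_apply,
      abs_of_pos hμ]

end Pool.Agent.H.MP_1611f1_gt.TW
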