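import Pool.Agent.H.MP_1611f1_gt.TW.TaC
import Pool.Agent.H.MP_1611f1_gt.TW.TaD
import Pool.Agent.H.MP_1611f1_gt.TW.CrC
import Pool.Agent.H.MP_1611f1_gt.TW.Dr
import Pool.Agent.H.MP_1611f1_gt.TW.Two
import Pool.Agent.H.MP_1611f1_gt.LG.Main

/-!
The theorem on walls.
-/

namespace Pool.Agent.H.MP_1611f1_gt.TW

open Topology Set Filter
open Pool.Agent.H.MP_1611f1_gt.BR.U (Ci)
open Pool.Agent.H.MP_1611f1_gt.G (Ended Linear Detected)
open Pool.Agent.H.MP_1611f1_gt.LG (Drilled Cylinder solidTorus LeafCurve)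

/-- The curves which are removed from `M₀`: the curve `e` (the circle `x₂ = t = 0`), the curves `j ∈ C` (the circles `x₁ = 0`,
`x₂ = l j`), and curves in leaves of `F`, outside of `N '' CC`. -/
structure Curves {J : Type} {M₀ : Type} [TopologicalSpace M₀] (F : Foliation M₀)
    (N : Ci × Ci × Ci → M₀) {old : J → Prop} (T₀ : Ended M₀ {j // old j})
    (Nb : {j // ¬ old j} → Cylinder → M₀) (e : {j // ¬ old j}) (C : Set {j // ¬ old j})
    (x : J → ℝ) where
  away : ∀ k w, T₀.tor k w ∉ N '' CC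
  e_notMem : e ∉ C
  e_nbh : ∀ z, Nb e z = N (z.1, ((z.2.1 / 16 : ℝ) : Ci), (((z.2.2 + 4) / 16 : ℝ) : Ci))
  l : {j // ¬ old j} → ℝ
  ρ : ℝ
  ρ_pos : 0 < ρ
  l_norm : ∀ j ∈ C, 1 / 8 + 8 * ρ < ‖(l j : Ci)‖
  l_sep : ∀ j ∈ C, ∀ k ∈ C, j ≠ k → 16 * ρ < ‖((l j - l k : ℝ) : Ci)‖
  C_nbh : ∀ j ∈ C, ∀ z, Nb j z =
    N ((((z.2.2 + 4) / 64 : ℝ) : Ci), ((l j + ρ * z.2.1 : ℝ) : Ci), z.1)
  leaf : ∀ j, j ≠ e → j ∉ C → LeafCurve F (Nb j) (x j)
  leaf_out : ∀ j, j ≠ e → j ∉ C → ∀ z, Nb j z ∉ N '' CC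
  leaf_away : ∀ j, j ≠ e → j ∉ C → ∀ z k w, Nb j z ≠ T₀.tor k w
  leaf_disj : ∀ j k, j ≠ e → j ∉ C → k ≠ e → k ∉ C → ∀ z w, Nb j z = Nb k w → j = k

/-- PROOF: both inclusions, with the lifts in `[-1/2, 1/2]` of the coordinates (`‖(b : Ci)‖ = |b|`). -/
theorem solid_eq {M₀ : Type} (N : Ci × Ci × Ci → M₀) :
    (fun z : Cylinder => N (z.1, ((z.2.1 / 16 : ℝ) : Ci), (((z.2.2 + 4) / 16 : ℝ) : Ci))) ''
      solidTorus = N '' KK := by
  have hle : ∀ x : ℝ, ‖(x : Ci)‖ ^ 2 ≤ x ^ 2 := by
    intro x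
    have h1 : ‖(x : Ci)‖ ≤ |x| := by
      rw [UnitAddCircle.norm_eq]
      have := round_le x 0
      simpa using this
    have h2 := norm_nonneg (x : Ci)
    rw [← sq_abs x]
    gcongr
  ext y
  constructor
  · rintro ⟨z, hz, rfl⟩
    refine ⟨(z.1, ((z.2.1 / 16 : ℝ) : Ci), (((z.2.2 + 4) / 16 : ℝ) : Ci)), ?_, rfl⟩
    have h : z.2.1 ^ 2 + (z.2.2 + 4) ^ 2 ≤ 1 := hz
    show 256 * (‖((z.2.1 / 16 : ℝ) : Ci)‖ ^ 2 + ‖(((z.2.2 + 4) / 16 : ℝ) : Ci)‖ ^ 2) ≤ 1
    have h1 := hle (z.2.1 / 16)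
    have h2 := hle ((z.2.2 + 4) / 16)
    nlinarith
  · rintro ⟨v, hv, rfl⟩
    refine ⟨(v.1, (16 * BR.U.cl v.2.1, 16 * BR.U.cl v.2.2 - 4)), ?_, ?_⟩
    · have h : 256 * (‖v.2.1‖ ^ 2 + ‖v.2.2‖ ^ 2) ≤ 1 := hv
      rw [BR.U.norm_cl, BR.U.norm_cl, sq_abs, sq_abs] at h
      show (16 * BR.U.cl v.2.1) ^ 2 + (16 * BR.U.cl v.2.2 - 4 + 4) ^ 2 ≤ 1
      nlinarith
    · show N (v.1, ((16 * BR.U.cl v.2.1 / 16 : ℝ) : Ci),
        (((16 * BR.U.cl v.2.2 - 4 + 4) / 16 : ℝ) : Ci)) = N v
      have e1 : 16 * BR.U.cl v.2.1 / 16 = BR.U.cl v.2.1 := by ring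
      have e2 : (16 * BR.U.cl v.2.2 - 4 + 4) / 16 = BR.U.cl v.2.2 := by ring
      rw [e1, e2, BR.U.coe_cl, BR.U.coe_cl]

/-- THE THEOREM, for `0 < x e`. PROOF. `μ = - y e / x e`; `exists_two` with `δ = 1/8` gives `P : Par`; `exists_new` gives `G`; `F'` on `{y // y ∉ N '' KK}` by `LS.exists_pull` (`H.dom`), taut by `LS.pull_taut` and
`New.up`. `N1 j z = ⟨NC N (l j) ρ z, _⟩` for `j ∈ C` (in `N '' CC`, `‖x₂‖ > 1/8`, so not in `N '' KK`), `⟨Nb j z, _⟩` for the others; `T1`, `D1` from `exists_D1` (`solid_eq`, `N_closed`; `NC = Nb` for `|u| ≤ 2`, `|s + 4| ≤ 2` by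
`sq_id`). `Linear T1 F' x y`: for old `j`: `T1.cov j z = D.p (T.cov j z) = T₀.cov j z` (`D.old_tor`), which is outside of `N '' CC`: `H.out` and `hlin`; for `e`: `D.new_tor`: the point is `N (cov (plr z))`, `H.t` and `TT_lin` (`r < 4/3`), times `x e > 0`.
Leaf curves: `New.leafC`, `New.leafO`. Disjointness: `NC_mem`, `l_sep`, `N_inj`; `leaf_disj`. Away from the ends: `away`, `leaf_away`, and for the end `e`: `T1.tor e w = N (cov (plr ..))` has `‖x₂‖ ≤ 1/8`. Then `LG.leaf_detected`. -/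
theorem walls_pos {M : Type} [TopologicalSpace M] {J : Type} {T : Ended M J} {x y : J → ℝ}
    {M₀ : Type} [TopologicalSpace M₀] [T2Space M₀] {F : Foliation M₀} {N : Ci × Ci × Ci → M₀}
    (B : Box F N) (hF : F.Taut) {old : J → Prop} [Finite {j // ¬ old j}] {T₀ : Ended M₀ {j // old j}}
    (hlin : Linear T₀ F (fun j => x j) (fun j => y j)) {Nb : {j // ¬ old j} → Cylinder → M₀}
    {e : {j // ¬ old j}} {C : Set {j // ¬ old j}} (Q : Curves F N T₀ Nb e C x)
    (D : Drilled T₀ Nb T) (hC : ∀ j ∈ C, x j.1 ≠ 0) (hy : y e.1 ≠ 0) (hxy : |y e.1| < x e.1) :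
    Detected T x y := by
  classical
  have hx : 0 < x e.1 := (abs_nonneg _).trans_lt hxy
  obtain ⟨μ, hμ⟩ : ∃ μ : ℝ, μ = -(y e.1 / x e.1) := ⟨_, rfl⟩
  have hμ0 : μ ≠ 0 := by
    rw [hμ, neg_ne_zero]
    exact div_ne_zero hy hx.ne'
  have hμ1 : |μ| < 1 := by
    rw [hμ, abs_neg, abs_div, abs_of_pos hx, div_lt_one hx]
    exact hxy
  obtain ⟨em, ep, h1, h2, h3, h4⟩ := exists_two hμ0 hμ1 (δ := 1 / 8) (by norm_num) (by norm_num)
  let P : Par := ⟨μ, em, ep, h1, h2, h3, fun s hs => h4 s ⟨hs.1, by linarith [hs.2]⟩⟩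
  obtain ⟨G, H⟩ := exists_new B P
  obtain ⟨K, hK⟩ : ∃ K : Set M₀, K = N '' KK := ⟨_, rfl⟩
  have hKc : IsClosed K := by
    rw [hK]
    exact N_closed B.emb KK_closed KK_sub
  have hKe : K = Nb e '' solidTorus := by
    rw [hK, ← solid_eq]
    exact image_congr fun z _ => (Q.e_nbh z).symm
  have hdom : G.dom = {y | y ∉ K} := by
    rw [hK]
    exact H.dom
  let p : {y : M₀ // y ∉ K} → M₀ := Subtype.val
  have hp : IsOpenEmbedding p := hKc.isOpen_compl.isOpenEmbedding_subtypeVal
  obtain ⟨F', hF'⟩ := LS.exists_pull hp G (fun y => by rw [hdom]; exact y.2)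
  have hT : F'.Taut := by
    refine LS.pull_taut hp G ?_ hF' fun y hy => ?_
    · rw [hdom]
      exact Subtype.range_coe
    · rw [hdom] at hy
      refine H.up B hF ?_
      rw [← hK]
      exact hy
  -- the neighbourhoods of the other curves
  let o : {j // ¬ (old j ∨ j = e.1)} → {j // ¬ old j} := fun j => ⟨j.1, fun h => j.2 (Or.inl h)⟩
  have ho : ∀ j, o j ≠ e := fun j h => j.2 (Or.inr (congrArg Subtype.val h))
  have hoi : ∀ j k, o j = o k → j = k := fun j k h => by
    have h' : (o j).1 = (o k).1 := congrArg Subtype.val h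
    exact Subtype.ext h'
  have hCC : ∀ j ∈ C, ∀ z w : LG.Cylinder, ∀ v ∈ VV, ‖v.2.1‖ ≤ 1 / 8 →
      NC N (Q.l j) Q.ρ z ≠ N v := by
    intro j hj z _ v hv hv1 h
    obtain ⟨w, hw, h5, h6⟩ := NC_mem (N := N) (l := Q.l j) Q.ρ_pos z
    have h7 : w = v := N_inj B.emb (CC_sub hw) hv (h5.symm.trans h)
    subst h7
    have h8 := Q.l_norm j hj
    have h9 : ‖(Q.l j : Ci)‖ ≤ ‖w.2.1‖ + ‖w.2.1 - (Q.l j : Ci)‖ := by
      have e1 : (Q.l j : Ci) = w.2.1 - (w.2.1 - (Q.l j : Ci)) := by abel
      conv_lhs => rw [e1]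
      exact norm_sub_le _ _
    have h10 := Q.ρ_pos
    linarith
  have hKK : ∀ v ∈ KK, v ∈ VV ∧ ‖v.2.1‖ ≤ 1 / 8 := by
    intro v hv
    refine ⟨CC_sub (KK_sub hv), ?_⟩
    have h5 : 256 * (‖v.2.1‖ ^ 2 + ‖v.2.2‖ ^ 2) ≤ 1 := hv
    have h6 := sq_nonneg ‖v.2.2‖
    have h7 := norm_nonneg v.2.1
    nlinarith
  have hm1 : ∀ j ∈ C, ∀ z, NC N (Q.l j) Q.ρ z ∉ K := by
    intro j hj z h
    rw [hK] at h
    obtain ⟨v, hv, h5⟩ := h
    exact hCC j hj z z v (hKK v hv).1 (hKK v hv).2 h5.symm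
  have hm2 : ∀ j, j ≠ e → j ∉ C → ∀ z, Nb j z ∉ K := by
    intro j hje hj z h
    rw [hK] at h
    exact Q.leaf_out j hje hj z (image_mono KK_sub h)
  let N1 : {j // ¬ (old j ∨ j = e.1)} → Cylinder → {y : M₀ // y ∉ K} := fun j z =>
    if hj : o j ∈ C then ⟨NC N (Q.l (o j)) Q.ρ z, hm1 _ hj z⟩
    else ⟨Nb (o j) z, hm2 _ (ho j) hj z⟩
  have hN1 : ∀ j, o j ∈ C → ∀ z, p (N1 j z) = NC N (Q.l (o j)) Q.ρ z := by
    intro j hj z
    show (N1 j z).1 = _
    simp only [N1, dif_pos hj]
  have hN2 : ∀ j, o j ∉ C → ∀ z, p (N1 j z) = Nb (o j) z := by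
    intro j hj z
    show (N1 j z).1 = _
    simp only [N1, dif_neg hj]
  obtain ⟨T1, hT1, ⟨D1⟩⟩ := exists_D1 D e hKe hKc N1 (by
    intro j z hz1 hz2
    by_cases hj : o j ∈ C
    · have h5 := hN1 j hj z
      refine h5.trans ?_
      show _ = Nb (o j) z
      rw [Q.C_nbh _ hj, NC, sq_id (by linarith), sq_id (by linarith)]
    · exact hN2 j hj z)
  -- the ends
  have hcv : Continuous fun z : ℝ × Ioo (1 : ℝ) 2 × ℝ =>
      ((z.1 : Ci), z.2.1, (z.2.2 : Ci)) := by
    refine Continuous.prodMk ?_ (Continuous.prodMk ?_ ?_)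
    · exact (AddCircle.continuous_mk' (1 : ℝ)).comp continuous_fst
    · exact continuous_fst.comp continuous_snd
    · exact (AddCircle.continuous_mk' (1 : ℝ)).comp (continuous_snd.comp continuous_snd)
  have hcov : ∀ {M' : Type} [TopologicalSpace M'] {J' : Type} (T' : Ended M' J') (j : J'),
      Continuous (T'.cov j) := by
    intro M' _ J' T' j
    exact (T'.emb j).continuous.comp hcv
  have hold : ∀ (j : {j // old j ∨ j = e.1}) (hj : old j.1) w,
      p (T1.tor j w) = T₀.tor ⟨j.1, hj⟩ w := by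
    intro j hj w
    exact (hT1 j w).trans (D.old_tor ⟨j.1, hj⟩ w)
  have hnew : ∀ (j : {j // old j ∨ j = e.1}), ¬ old j.1 → ∀ w : ℝ × Ioo (1 : ℝ) 2 × ℝ,
      p (T1.cov j w) = N (cov (plr w)) := by
    rintro ⟨j, hj⟩ hj' w
    have hj2 : j = e.1 := hj.resolve_left hj'
    subst hj2
    refine (hT1 _ _).trans ((D.new_tor e _ _ _).trans ?_)
    rw [Q.e_nbh]
    unfold cov plr
    simp only
    congr 3
    congr 1
    ring
  have hlin1 : Linear T1 F' (fun j => x j) (fun j => y j) := by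
    intro j z hz c hc hs
    rw [hF'] at hc
    obtain ⟨c0, hc0, hsrc, hval⟩ := hc
    have hs0 : p (T1.cov j z) ∈ c0.source := by
      rw [hsrc] at hs
      exact hs
    have hev : ∀ᶠ w in 𝓝 z, (c (T1.cov j w)).2 = (c0 (p (T1.cov j w))).2 := by
      filter_upwards [(hcov T1 j).continuousAt (c.open_source.mem_nhds hs)] with w hw
      exact hval _ hw
    by_cases hj : old j.1
    · have e1 : ∀ w, p (T1.cov j w) = T₀.cov ⟨j.1, hj⟩ w := fun w => hold j hj _
      obtain ⟨c', hc', hs'⟩ := F.cover (T₀.cov ⟨j.1, hj⟩ z)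
      rw [e1] at hs0
      have h5 := H.out _ (Q.away ⟨j.1, hj⟩ _) c0 hc0 c' hc' hs0 hs'
      have h6 := OrdEq.comp_cont ((hcov T₀ ⟨j.1, hj⟩).continuousAt (x := z)) h5
      have h7 := h6.trans (hlin ⟨j.1, hj⟩ z hz c' hc' hs')
      refine h7.congr ?_ (Eventually.of_forall fun w => rfl)
      filter_upwards [hev] with w hw
      rw [hw, e1]
      rfl
    · have e1 := hnew j hj
      have hje : j.1 = e.1 := j.2.resolve_left hj
      rw [e1] at hs0
      have hzT : z ∈ XT := lt_trans hz (by norm_num)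
      have h5 := H.t z hzT c0 hc0 hs0
      have h6 : ∀ᶠ w : ℝ × Ioo (1 : ℝ) 2 × ℝ in 𝓝 z, (w.2.1 : ℝ) < 4 / 3 := by
        have h7 : Continuous fun w : ℝ × Ioo (1 : ℝ) 2 × ℝ => (w.2.1 : ℝ) := by fun_prop
        exact h7.continuousAt.eventually_lt_const hz
      have h7 : OrdEq z P.TT (fun w => x j * w.1 + y j * w.2.2) := by
        refine OrdEq.of_comp (fun v => x e.1 * v) (fun a b hab => mul_lt_mul_of_pos_left hab hx) ?_
        filter_upwards [h6] with w hw
        rw [P.TT_lin hw.le, hje]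
        show x e.1 * w.1 + y e.1 * w.2.2 = x e.1 * (w.1 - μ * w.2.2)
        rw [hμ]
        field_simp
        ring
      refine (h5.trans h7).congr ?_ (Eventually.of_forall fun w => rfl)
      filter_upwards [hev] with w hw
      rw [hw, e1]
  have hfin : Finite {j // ¬ (old j ∨ j = e.1)} := Finite.of_injective o fun j k h => hoi j k h
  have hleaf : ∀ j, LeafCurve F' (N1 j) (x j) := by
    intro j
    by_cases hj : o j ∈ C
    · exact H.leafC B hp hF' Q.ρ_pos (Q.l_norm _ hj) (hN1 j hj) (hC _ hj)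
    · exact H.leafO hp hF' (Q.leaf _ (ho j) hj) (Q.leaf_out _ (ho j) hj) (hN2 j hj)
  have hin : ∀ j, o j ∈ C → ∀ z, p (N1 j z) ∈ N '' CC := by
    intro j hj z
    rw [hN1 j hj]
    obtain ⟨w, hw, h5, -⟩ := NC_mem (N := N) (l := Q.l (o j)) Q.ρ_pos z
    exact ⟨w, hw, h5.symm⟩
  have hout : ∀ j, o j ∉ C → ∀ z, p (N1 j z) ∉ N '' CC := by
    intro j hj z
    rw [hN2 j hj]
    exact Q.leaf_out _ (ho j) hj z
  refine LG.leaf_detected hT hlin1 (N := N1) hleaf ?_ ?_ D1
  · intro j k z w h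
    have h' : p (N1 j z) = p (N1 k w) := congrArg p h
    by_cases hj : o j ∈ C
    · by_cases hk : o k ∈ C
      · rw [hN1 j hj, hN1 k hk] at h'
        obtain ⟨v, hv, h5, h6⟩ := NC_mem (N := N) (l := Q.l (o j)) Q.ρ_pos z
        obtain ⟨v', hv', h5', h6'⟩ := NC_mem (N := N) (l := Q.l (o k)) Q.ρ_pos w
        have h7 : v = v' := N_inj B.emb (CC_sub hv) (CC_sub hv') (h5.symm.trans (h'.trans h5'))
        subst h7
        by_contra hjk
        have h8 := Q.l_sep _ hj _ hk fun h => hjk (hoi j k h)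
        have h9 : ‖((Q.l (o j) - Q.l (o k) : ℝ) : Ci)‖ ≤
            ‖v.2.1 - (Q.l (o k) : Ci)‖ + ‖v.2.1 - (Q.l (o j) : Ci)‖ := by
          have e1 : ((Q.l (o j) - Q.l (o k) : ℝ) : Ci) =
              (v.2.1 - (Q.l (o k) : Ci)) - (v.2.1 - (Q.l (o j) : Ci)) := by
            rw [AddCircle.coe_sub]
            abel
          rw [e1]
          exact norm_sub_le _ _
        have h10 := Q.ρ_pos
        linarith
      · exact absurd (h' ▸ hin j hj z) (hout k hk w)
    · by_cases hk : o k ∈ C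
      · exact absurd (h'.symm ▸ hin k hk w) (hout j hj z)
      · rw [hN2 j hj, hN2 k hk] at h'
        exact hoi _ _ (Q.leaf_disj _ _ (ho j) hj (ho k) hk _ _ h')
  · rintro j z k ⟨θ, r, t⟩ h
    have h' : p (N1 j z) = p (T1.tor k (θ, r, t)) := congrArg p h
    by_cases hk : old k.1
    · rw [hold k hk] at h'
      by_cases hj : o j ∈ C
      · exact Q.away ⟨k.1, hk⟩ _ (h' ▸ hin j hj z)
      · rw [hN2 j hj] at h'
        exact Q.leaf_away _ (ho j) hj _ _ _ h'
    · obtain ⟨θ, rfl⟩ := QuotientAddGroup.mk_surjective θ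
      obtain ⟨t, rfl⟩ := QuotientAddGroup.mk_surjective t
      have h5 : p (T1.tor k ((θ : Ci), r, (t : Ci))) = N (cov (plr (θ, r, t))) :=
        hnew k hk (θ, r, t)
      have h6 : p (N1 j z) = N (cov (plr (θ, r, t))) := h'.trans h5
      by_cases hj : o j ∈ C
      · rw [hN1 j hj] at h6
        refine hCC _ hj z z _ (plr_VV _) ?_ h6
        have h7 := (plr_lt (θ, r, t)).1
        have h8 : ‖(((plr (θ, r, t)).2.1 : ℝ) : Ci)‖ ≤ |(plr (θ, r, t)).2.1| := by
          rw [UnitAddCircle.norm_eq]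
          have := round_le (plr (θ, r, t)).2.1 0
          simpa using this
        have h9 : (r : ℝ) < 2 := r.2.2
        refine h8.trans (h7.trans ?_)
        show (r : ℝ) / 16 ≤ 1 / 8
        linarith
      · exact hout j hj z (h6 ▸ ⟨_, plr_CC _, rfl⟩)

/-! ### Reflections -/

section

variable {M : Type} [TopologicalSpace M] {J : Type} (A B : J → Prop)

open Classical in
/-- the reflection of the coordinates of the collar `j`: `θ ↦ -θ` if `A j`, `t ↦ -t` if `B j` -/
noncomputable def flp (j : J) (w : Ci × Ioo (1 : ℝ) 2 × Ci) : Ci × Ioo (1 : ℝ) 2 × Ci :=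
  (if A j then -w.1 else w.1, w.2.1, if B j then -w.2.2 else w.2.2)

theorem flp_flp (j : J) (w) : flp A B j (flp A B j w) = w := by
  unfold flp
  by_cases hA : A j <;> by_cases hB : B j <;> simp [hA, hB]

theorem flp_cont (j : J) : Continuous (flp A B j) := by
  unfold flp
  by_cases hA : A j <;> by_cases hB : B j
  · simp only [if_pos hA, if_pos hB]
    fun_prop
  · simp only [if_pos hA, if_neg hB]
    fun_prop
  · simp only [if_neg hA, if_pos hB]
    fun_prop
  · simp only [if_neg hA, if_neg hB]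
    fun_prop

/-- the same manifold with reflected collars -/
noncomputable def flipT (T : Ended M J) : Ended M J where
  tor j w := T.tor j (flp A B j w)
  emb j := (T.emb j).comp (Homeomorph.isOpenEmbedding
    { toFun := flp A B j
      invFun := flp A B j
      left_inv := flp_flp A B j
      right_inv := flp_flp A B j
      continuous_toFun := flp_cont A B j
      continuous_invFun := flp_cont A B j })
  disj _ _ _ _ h := T.disj _ _ _ _ h

open Classical in
theorem flip_detected {T : Ended M J} {x y : J → ℝ}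
    (h : Detected (flipT A B T) (fun j => if A j then -x j else x j)
      (fun j => if B j then -y j else y j)) : Detected T x y := by
  obtain ⟨F, hF, hl⟩ := h
  refine ⟨F, hF, fun j z hz c hc hs => ?_⟩
  let R : ℝ × Ioo (1 : ℝ) 2 × ℝ → ℝ × Ioo (1 : ℝ) 2 × ℝ := fun w =>
    (if A j then -w.1 else w.1, w.2.1, if B j then -w.2.2 else w.2.2)
  have hR : Continuous R := by
    by_cases hA : A j <;> by_cases hB : B j
    · simp only [R, if_pos hA, if_pos hB]
      fun_prop
    · simp only [R, if_pos hA, if_neg hB]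
      fun_prop
    · simp only [R, if_neg hA, if_pos hB]
      fun_prop
    · simp only [R, if_neg hA, if_neg hB]
      fun_prop
  have e1 : ∀ w, (flipT A B T).cov j (R w) = T.cov j w := by
    rintro ⟨u, r, t⟩
    show T.tor j (flp A B j _) = T.tor j _
    congr 1
    simp only [R, flp]
    by_cases hA : A j <;> by_cases hB : B j <;>
      simp [hA, hB]
  have hs' : (flipT A B T).cov j (R z) ∈ c.source := by
    rw [e1]
    exact hs
  have h1 := OrdEq.comp_cont (hR.continuousAt (x := z)) (hl j (R z) hz c hc hs')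
  refine h1.congr (Eventually.of_forall fun w => ?_) (Eventually.of_forall fun w => ?_)
  · show (c (T.cov j w)).2 = (c ((flipT A B T).cov j (R w))).2
    rw [e1]
  · show x j * w.1 + y j * w.2.2 = (if A j then -x j else x j) * (R w).1 +
      (if B j then -y j else y j) * (R w).2.2
    by_cases hA : A j <;> by_cases hB : B j <;> simp [R, hA, hB]

end

/-- the reflection of the torus -/
def rfl1 (z : Ci × Ci × Ci) : Ci × Ci × Ci := (-z.1, z.2)

theorem rfl1_rfl1 (z : Ci × Ci × Ci) : rfl1 (rfl1 z) = z := by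
  simp [rfl1]

theorem rfl1_cont : Continuous rfl1 := by
  unfold rfl1
  fun_prop

theorem rfl1_VV {z : Ci × Ci × Ci} : rfl1 z ∈ VV ↔ z ∈ VV := by
  simp [rfl1, VV]

theorem rfl1_CC {z : Ci × Ci × Ci} : rfl1 z ∈ CC ↔ z ∈ CC := by
  simp [rfl1, CC]

theorem rfl1_image {M₀ : Type} (N : Ci × Ci × Ci → M₀) :
    (fun z => N (rfl1 z)) '' CC = N '' CC := by
  ext y
  constructor
  · rintro ⟨z, hz, rfl⟩
    exact ⟨rfl1 z, rfl1_CC.2 hz, rfl⟩
  · rintro ⟨z, hz, rfl⟩
    refine ⟨rfl1 z, rfl1_CC.2 hz, ?_⟩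
    simp only [rfl1_rfl1]

theorem Box.refl1 {M₀ : Type} [TopologicalSpace M₀] {F : Foliation M₀} {N : Ci × Ci × Ci → M₀}
    (B : Box F N) : Box F fun z => N (rfl1 z) where
  emb := by
    let h : VV ≃ₜ VV :=
      { toFun := fun z => ⟨rfl1 z.1, rfl1_VV.2 z.2⟩
        invFun := fun z => ⟨rfl1 z.1, rfl1_VV.2 z.2⟩
        left_inv := fun z => Subtype.ext (rfl1_rfl1 _)
        right_inv := fun z => Subtype.ext (rfl1_rfl1 _)
        continuous_toFun := (rfl1_cont.comp continuous_subtype_val).subtype_mk _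
        continuous_invFun := (rfl1_cont.comp continuous_subtype_val).subtype_mk _ }
    exact B.emb.comp h.isOpenEmbedding
  fol z hz c hc hs := by
    let R : ℝ × ℝ × ℝ → ℝ × ℝ × ℝ := fun w => (-w.1, w.2)
    have hR : Continuous R := by
      show Continuous fun w : ℝ × ℝ × ℝ => (-w.1, w.2)
      fun_prop
    have e1 : ∀ w, cov (R w) = rfl1 (cov w) := by
      intro w
      show (((-w.1 : ℝ) : Ci), _, _) = (-(w.1 : Ci), _, _)
      rw [AddCircle.coe_neg]
    have h1 := B.fol (R z) (by rw [e1]; exact rfl1_VV.2 hz) c hc (by rw [e1]; exact hs)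
    have h2 := OrdEq.comp_cont (hR.continuousAt (x := z)) h1
    refine h2.congr (Eventually.of_forall fun w => ?_) (Eventually.of_forall fun w => rfl)
    show (c (N (rfl1 (cov w)))).2 = (c (N (cov (R w)))).2
    rw [e1]

/-- THE THEOREM. PROOF: if `x e < 0`: `walls_pos` for `N' (a, b, t) = N (-a, b, t)`; the end `e` is parametrized by `(-θ, r, t)` and its covector is `(-x e, y e)`, the ends `j ∈ C` are parametrized by
`(θ, r, -t)` and their covectors are `(x j, -y j)` (`N' ((s + 4)/64, ..) = N ((s' + 4)/64, ..)` with `s' + 4 = -(s + 4)`). -/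
theorem walls {M : Type} [TopologicalSpace M] {J : Type} {T : Ended M J} {x y : J → ℝ}
    {M₀ : Type} [TopologicalSpace M₀] [T2Space M₀] {F : Foliation M₀} {N : Ci × Ci × Ci → M₀}
    (B : Box F N) (hF : F.Taut) {old : J → Prop} [Finite {j // ¬ old j}] {T₀ : Ended M₀ {j // old j}}
    (hlin : Linear T₀ F (fun j => x j) (fun j => y j)) {Nb : {j // ¬ old j} → Cylinder → M₀}
    {e : {j // ¬ old j}} {C : Set {j // ¬ old j}} (Q : Curves F N T₀ Nb e C x)
    (D : Drilled T₀ Nb T) (hC : ∀ j ∈ C, x j.1 ≠ 0) (hy : y e.1 ≠ 0) (hxy : |y e.1| < |x e.1|) :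
    Detected T x y := by
  classical
  rcases lt_or_ge 0 (x e.1) with hx | hx
  · rw [abs_of_pos hx] at hxy
    exact walls_pos B hF hlin Q D hC hy hxy
  · rw [abs_of_nonpos hx] at hxy
    let Aj : J → Prop := fun j => j = e.1
    let Bj : J → Prop := fun j => ∃ h : ¬ old j, (⟨j, h⟩ : {j // ¬ old j}) ∈ C
    refine flip_detected Aj Bj ?_
    -- the new neighbourhoods
    let rf : {j // ¬ old j} → Cylinder → Cylinder := fun j z =>
      if j = e then (-z.1, z.2) else if j ∈ C then (z.1, (z.2.1, -8 - z.2.2)) else z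
    have hrf : ∀ j z, rf j (rf j z) = z := by
      intro j z
      simp only [rf]
      by_cases h1 : j = e
      · simp [h1]
      · by_cases h2 : j ∈ C
        · simp [h1, h2]
        · simp [h1, h2]
    have hsol : ∀ j z, z ∈ solidTorus → rf j z ∈ solidTorus := by
      intro j z hz
      have hz' : z.2.1 ^ 2 + (z.2.2 + 4) ^ 2 ≤ 1 := hz
      simp only [rf]
      by_cases h1 : j = e
      · rw [if_pos h1]
        exact hz'
      · rw [if_neg h1]
        by_cases h2 : j ∈ C
        · rw [if_pos h2]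
          show z.2.1 ^ 2 + (-8 - z.2.2 + 4) ^ 2 ≤ 1
          nlinarith
        · rw [if_neg h2]
          exact hz
    have hBe : ¬ Bj e.1 := by
      rintro ⟨h, h'⟩
      exact Q.e_notMem h'
    have hAo : ∀ j, old j → ¬ Aj j := by
      intro j hj h
      have h' : j = e.1 := h
      exact e.2 (h' ▸ hj)
    have hBo : ∀ j, old j → ¬ Bj j := by
      rintro j hj ⟨h, -⟩
      exact h hj
    let D' : Drilled T₀ (fun j z => Nb j (rf j z)) (flipT Aj Bj T) :=
      { p := D.p
        emb := D.emb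
        range_iff := by
          intro v
          rw [D.range_iff]
          refine forall_congr' fun k => not_congr ?_
          constructor
          · rintro ⟨z, hz, rfl⟩
            refine ⟨rf k z, hsol k z hz, ?_⟩
            simp only [hrf]
          · rintro ⟨z, hz, rfl⟩
            exact ⟨rf k z, hsol k z hz, rfl⟩
        old_tor := by
          intro j w
          rw [← D.old_tor j w]
          show D.p (T.tor j.1 (flp Aj Bj j.1 w)) = _
          congr 2
          simp [flp, hAo j.1 j.2, hBo j.1 j.2]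
        new_tor := by
          intro k θ r t
          show D.p (T.tor k.1 (flp Aj Bj k.1 (θ, r, (t : Ci)))) = Nb k (rf k _)
          by_cases h1 : k = e
          · subst h1
            have e1 : flp Aj Bj k.1 (θ, r, (t : Ci)) = (-θ, r, (t : Ci)) := by
              have hA : Aj k.1 := rfl
              simp [flp, hA, hBe]
            rw [e1, D.new_tor]
            simp only [rf, if_true]
          · have hA : ¬ Aj k.1 := fun h => h1 (Subtype.ext h)
            by_cases h2 : k ∈ C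
            · have hB : Bj k.1 := ⟨k.2, h2⟩
              have e1 : flp Aj Bj k.1 (θ, r, (t : Ci)) = (θ, r, ((-t : ℝ) : Ci)) := by
                simp [flp, hA, hB]
              rw [e1, D.new_tor]
              simp only [rf, if_neg h1, if_pos h2]
              congr 3
              · rw [show 2 * Real.pi * -t = -(2 * Real.pi * t) by ring, Real.cos_neg]
              · rw [show 2 * Real.pi * -t = -(2 * Real.pi * t) by ring, Real.sin_neg]
                ring
            · have hB : ¬ Bj k.1 := by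
                rintro ⟨h, h'⟩
                exact h2 h'
              have e1 : flp Aj Bj k.1 (θ, r, (t : Ci)) = (θ, r, (t : Ci)) := by
                simp [flp, hA, hB]
              rw [e1, D.new_tor]
              simp only [rf, if_neg h1, if_neg h2] }
    refine walls_pos (B.refl1) hF (T₀ := T₀) (Nb := fun j z => Nb j (rf j z)) (e := e) (C := C) ?_ ?_
      D' ?_ ?_ ?_
    · intro j z hz c hc hs
      have h1 := hlin j z hz c hc hs
      refine h1.congr (Eventually.of_forall fun w => rfl) (Eventually.of_forall fun w => ?_)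
      simp only [if_neg (hAo j.1 j.2), if_neg (hBo j.1 j.2)]
    · refine
        { away := fun k w => by
            rw [rfl1_image]
            exact Q.away k w
          e_notMem := Q.e_notMem
          e_nbh := fun z => by
            simp only [rf, if_true]
            rw [Q.e_nbh]
            rfl
          l := Q.l
          ρ := Q.ρ
          ρ_pos := Q.ρ_pos
          l_norm := Q.l_norm
          l_sep := Q.l_sep
          C_nbh := fun j hj z => by
            have h1 : j ≠ e := fun h => Q.e_notMem (h ▸ hj)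
            simp only [rf, if_neg h1, if_pos hj]
            rw [Q.C_nbh j hj]
            unfold rfl1
            simp only
            rw [← AddCircle.coe_neg]
            congr 3
            ring
          leaf := fun j h1 h2 => by
            have h3 : ¬ Aj j.1 := fun h => h1 (Subtype.ext h)
            simp only [rf, if_neg h1, if_neg h2, if_neg h3]
            exact Q.leaf j h1 h2
          leaf_out := fun j h1 h2 z => by
            rw [rfl1_image]
            simp only [rf, if_neg h1, if_neg h2]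
            exact Q.leaf_out j h1 h2 z
          leaf_away := fun j h1 h2 z k w => by
            simp only [rf, if_neg h1, if_neg h2]
            exact Q.leaf_away j h1 h2 z k w
          leaf_disj := fun j k h1 h2 h3 h4 z w h => by
            simp only [rf, if_neg h1, if_neg h2, if_neg h3, if_neg h4] at h
            exact Q.leaf_disj j k h1 h2 h3 h4 z w h }
    · intro j hj
      have h1 : ¬ Aj j.1 := by
        intro h
        have h2 : j = e := Subtype.ext h
        exact Q.e_notMem (h2 ▸ hj)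
      simp only [if_neg h1]
      exact hC j hj
    · simp only [if_neg hBe]
      exact hy
    · have hA : Aj e.1 := rfl
      simp only [if_neg hBe, if_pos hA]
      exact hxy

end Pool.Agent.H.MP_1611f1_gt.TW
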