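import Pool.Agent.H.MP_1611f1_gt.TW.SusE
import Pool.Agent.H.MP_1611f1_gt.TW.Main

/-!
Surface bundles with a curve which crosses, once, an annulus on which the monodromy is the
identity.
-/

namespace Pool.Agent.H.MP_1611f1_gt.TW

open Topology Set Filter
open Pool.Agent.H.MP_1611f1_gt.BR.U (Ci cl coe_cl cl_mem cl_coe cl_zero cl_contAt' small_nhds
  cl_base norm_cl)
open Pool.Agent.H.MP_1611f1_gt.G (MTorus Ended Linear Detected)
open Pool.Agent.H.MP_1611f1_gt.LG (LeafCurve Cylinder Drilled)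

/-- A surface with ends `j ∈ J`, a homeomorphism `ψ`, two crossing annuli `w` and an invariant
circle valued function `c` (see `Cross`), and the curves `k ∈ K` which are removed from the mapping
torus of `ψ`:
* the curve `e`: the core `x₂ = 0` of the second annulus, in the fibre at the time `0`;
* the curves `k ∈ C`: the circles in the time direction over the points `(0, l k)` of the core
  `x₁ = 0` of the first annulus, where `ψ` is the identity;
* the other curves are level curves `lev k` (see `Lev`): cores of annuli `ν` in fibres, outside of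
  the part `‖x₁‖ ≤ 1/8` of the first annulus, at the times `t = (2 i + 1) / (4 n)` with
  `1/8 ≤ t - 7 / (64 n)` and `t + 1 / (64 n) ≤ 7/8`, along which `c` has degree `≠ 0`. -/
structure Fibred (S : Type) [TopologicalSpace S] (J K : Type) extends Cross S J where
  fix : ∀ j z, ψ (E.collar j z) = E.collar j z
  out : ∀ z j w', w z ≠ E.collar j w'
  c_end : ∀ j z, c (E.collar j z) = 0
  n : ℕ
  n_pos : 0 < n
  e : K
  C : Set K
  e_notMem : e ∉ C
  l : K → ℝ
  ρ : ℝ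
  ρ_pos : 0 < ρ
  l_norm : ∀ k ∈ C, 1 / 8 + 8 * ρ < ‖(l k : Ci)‖
  l_sep : ∀ j ∈ C, ∀ k ∈ C, j ≠ k → 16 * ρ < ‖((l j - l k : ℝ) : Ci)‖
  lev : {k // k ≠ e ∧ k ∉ C} → Lev c
  lev_time : ∀ k, 1 / 8 ≤ (lev k).time n - 7 / (64 * n) ∧ (lev k).time n + 1 / (64 * n) ≤ 7 / 8
  lev_out : ∀ k z j w', (lev k).ν z ≠ E.collar j w'
  lev_off : ∀ k z z', (lev k).ν z = w z' → 1 / 8 < ‖z'.1.1‖
  lev_disj : ∀ j k z z', (lev j).i = (lev k).i → (lev j).ν z = (lev k).ν z' → j = k

namespace Fibred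

variable {S : Type} [TopologicalSpace S] {J K : Type} (P : Fibred S J K)
  {M : Type} [TopologicalSpace M] {T : Ended M J} (Mt : MTorus P.E P.ψ T)

open Classical in
/-- The neighbourhoods of the curves, with the coordinates `(θ, (u, s))` (only the part
`|u| ≤ 2`, `|s + 4| ≤ 2` is used). `NN (x₁, x₂, t)` is the point `w (x₁, x₂)` at the time `t`. -/
noncomputable def nbh (k : K) (z : Cylinder) : M :=
  if k = P.e then P.NN Mt (z.1, ((z.2.1 / 16 : ℝ) : Ci), (((z.2.2 + 4) / 16 : ℝ) : Ci))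
  else if k ∈ P.C then
    P.NN Mt ((((z.2.2 + 4) / 64 : ℝ) : Ci), ((P.l k + P.ρ * z.2.1 : ℝ) : Ci), z.1)
  else if h : k ≠ P.e ∧ k ∉ P.C then
    Mt.p ((P.lev ⟨k, h⟩).ν (z.1, z.2.1), (P.lev ⟨k, h⟩).time P.n + z.2.2 / (64 * P.n))
  else Mt.p (P.w ⟨(0, 0), Or.inl (by simp)⟩, 0)

open Classical in
/-- the neighbourhoods which are used in the proof -/
noncomputable def nbh' (k : K) (z : Cylinder) : M :=
  if k = P.e then P.NN Mt (z.1, ((z.2.1 / 16 : ℝ) : Ci), (((z.2.2 + 4) / 16 : ℝ) : Ci))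
  else if k ∈ P.C then
    P.NN Mt ((((z.2.2 + 4) / 64 : ℝ) : Ci), ((P.l k + P.ρ * z.2.1 : ℝ) : Ci), z.1)
  else if h : k ≠ P.e ∧ k ∉ P.C then (P.lev ⟨k, h⟩).nbh Mt P.n z
  else Mt.p (P.w ⟨(0, 0), Or.inl (by simp)⟩, 0)

theorem nbh_e (z : Cylinder) : P.nbh' Mt P.e z =
    P.NN Mt (z.1, ((z.2.1 / 16 : ℝ) : Ci), (((z.2.2 + 4) / 16 : ℝ) : Ci)) := by
  unfold nbh'
  rw [if_pos rfl]

theorem nbh_C {k : K} (hk : k ∈ P.C) (z : Cylinder) : P.nbh' Mt k z =
    P.NN Mt ((((z.2.2 + 4) / 64 : ℝ) : Ci), ((P.l k + P.ρ * z.2.1 : ℝ) : Ci), z.1) := by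
  have h : k ≠ P.e := fun h => P.e_notMem (h ▸ hk)
  unfold nbh'
  rw [if_neg h, if_pos hk]

theorem nbh_lev {k : K} (h1 : k ≠ P.e) (h2 : k ∉ P.C) :
    P.nbh' Mt k = (P.lev ⟨k, h1, h2⟩).nbh Mt P.n := by
  funext z
  unfold nbh'
  rw [if_neg h1, if_neg h2, dif_pos ⟨h1, h2⟩]

theorem nbh_eq (k : K) (z : Cylinder) (hz : |z.2.2 + 4| ≤ 2) : P.nbh' Mt k z = P.nbh Mt k z := by
  have hz' := abs_le.1 hz
  unfold nbh nbh'
  by_cases h1 : k = P.e
  · rw [if_pos h1, if_pos h1]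
  · rw [if_neg h1, if_neg h1]
    by_cases h2 : k ∈ P.C
    · rw [if_pos h2, if_pos h2]
    · rw [if_neg h2, if_neg h2, dif_pos ⟨h1, h2⟩, dif_pos ⟨h1, h2⟩]
      have hn : (0 : ℝ) < P.n := by exact_mod_cast P.n_pos
      unfold Lev.nbh Lev.tm
      rw [LS.tim_mid (by linarith [hz'.1]) (by linarith [hz'.2])]
      congr 3
      field_simp
      ring

theorem zfix (k : ℤ) (j : J) (z) : (P.ψ ^ k) (P.E.collar j z) = P.E.collar j z := by
  have hinv : (P.ψ⁻¹ : S ≃ₜ S) (P.E.collar j z) = P.E.collar j z := by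
    have h : P.ψ.symm (P.E.collar j z) = P.E.collar j z := by
      rw [Homeomorph.symm_apply_eq]
      exact (P.fix j z).symm
    exact h
  induction k using Int.induction_on with
  | zero => simp
  | succ i ih => rw [zpow_add_one, Homeomorph.mul_apply, P.fix, ih]
  | pred i ih => rw [zpow_sub_one, Homeomorph.mul_apply, hinv, ih]

theorem not_end {x : S} (hx : ∀ j w, x ≠ P.E.collar j w) (t : ℝ) (j : J) (w) :
    Mt.p (x, t) ≠ T.tor j w := by
  obtain ⟨θ, r, s⟩ := w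
  obtain ⟨s, rfl⟩ := QuotientAddGroup.mk_surjective s
  intro h
  have h1 : T.tor j (θ, r, (s : Ci)) = Mt.p (P.E.collar j (θ, r), s) := Mt.tor j θ r s
  have h2 : Mt.p (x, t) = Mt.p (P.E.collar j (θ, r), s) := h.trans h1
  obtain ⟨k, -, h3⟩ := (Mt.p_eq _ _ _ _).1 h2
  rw [P.zfix] at h3
  exact hx _ _ h3

theorem lev_bds (k) (s : ℝ) : 1 / 8 < (P.lev k).tm P.n s ∧ (P.lev k).tm P.n s < 7 / 8 := by
  have h1 := (P.lev k).tm_mem P.n_pos s
  have h2 := P.lev_time k
  exact ⟨by linarith [h1.1, h2.1], by linarith [h1.2, h2.2]⟩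

theorem lev_notMem (k) (z : Cylinder) : (P.lev k).nbh Mt P.n z ∉ P.NN Mt '' CC := by
  rw [← P.toCross.K0_eq]
  intro h
  obtain ⟨h1, h2⟩ := P.lev_bds k z.2.2
  obtain ⟨z', hz', h3⟩ := P.toCross.mem_K0 Mt (by rw [abs_of_pos (by linarith)]; exact h2) h
  rcases h3 with h3 | ⟨-, h3⟩
  · have h4 := P.lev_off k _ _ hz'.symm
    linarith
  · rw [abs_of_pos (by linarith)] at h3
    linarith

/-- the curves -/
noncomputable def curves {J' : Type} {old : J' → Prop} (P : Fibred S {j // old j} {j // ¬ old j})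
    {T : Ended M {j // old j}} (Mt : MTorus P.E P.ψ T) {x : J' → ℝ}
    (hx : ∀ k : {j // ¬ old j}, x k ≠ 0) :
    Curves (P.F Mt P.n_pos) (P.NN Mt) T (P.nbh' Mt) P.e P.C x where
  away k w := by
    rintro ⟨v, hv, h⟩
    refine P.not_end Mt (x := P.wt (v.1, v.2.1)) (fun j w' h' => ?_) (cl v.2.2) k w h
    rw [P.wt_eq (Cross.mem_crs (CC_sub hv))] at h'
    exact P.out _ _ _ h'
  e_notMem := P.e_notMem
  e_nbh := P.nbh_e Mt
  l := P.l
  ρ := P.ρ
  ρ_pos := P.ρ_pos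
  l_norm := P.l_norm
  l_sep := P.l_sep
  C_nbh j hj z := P.nbh_C Mt hj z
  leaf j h1 h2 := by
    rw [P.nbh_lev Mt h1 h2]
    exact (P.lev ⟨j, h1, h2⟩).leafCurve Mt P.inv P.n_pos (hx j)
  leaf_out j h1 h2 z := by
    rw [P.nbh_lev Mt h1 h2]
    exact P.lev_notMem Mt _ z
  leaf_away j h1 h2 z k w := by
    rw [P.nbh_lev Mt h1 h2]
    exact P.not_end Mt (P.lev_out _ _) _ _ _
  leaf_disj j k h1 h2 h3 h4 z w h := by
    rw [P.nbh_lev Mt h1 h2, P.nbh_lev Mt h3 h4] at h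
    have hn : (0 : ℝ) < P.n := by exact_mod_cast P.n_pos
    obtain ⟨m, hm, h5⟩ := (Mt.p_eq _ _ _ _).1 h
    have b1 := P.lev_bds ⟨j, h1, h2⟩ z.2.2
    have b2 := P.lev_bds ⟨k, h3, h4⟩ w.2.2
    have hm0 : m = 0 := by
      rw [← Int.abs_lt_one_iff]
      have h6 : |(m : ℝ)| < 1 := by
        have h7 : (m : ℝ) = (P.lev ⟨k, h3, h4⟩).tm P.n w.2.2 -
            (P.lev ⟨j, h1, h2⟩).tm P.n z.2.2 := by rw [hm]; ring
        rw [h7, abs_lt]
        constructor <;> linarith [b1.1, b1.2, b2.1, b2.2]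
      exact_mod_cast h6
    subst hm0
    simp only [Int.cast_zero, add_zero] at hm
    simp only [zpow_zero, Homeomorph.one_apply] at h5
    have t1 := (P.lev ⟨j, h1, h2⟩).tm_mem P.n_pos z.2.2
    have t2 := (P.lev ⟨k, h3, h4⟩).tm_mem P.n_pos w.2.2
    rw [hm] at t2
    have e1 : 7 / (64 * (P.n : ℝ)) + 1 / (64 * P.n) = 1 / (8 * P.n) := by
      field_simp
      ring
    have hi : (P.lev ⟨j, h1, h2⟩).i = (P.lev ⟨k, h3, h4⟩).i := by
      have e2 : (P.lev ⟨j, h1, h2⟩).time P.n - (P.lev ⟨k, h3, h4⟩).time P.n =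
          (((P.lev ⟨j, h1, h2⟩).i : ℝ) - (P.lev ⟨k, h3, h4⟩).i) / (2 * P.n) := by
        unfold Lev.time
        field_simp
        ring
      have e3 : |(((P.lev ⟨j, h1, h2⟩).i : ℝ) - (P.lev ⟨k, h3, h4⟩).i) / (2 * P.n)| <
          1 / (8 * P.n) := by
        rw [← e2, ← e1, abs_lt]
        constructor <;> linarith [t1.1, t1.2, t2.1, t2.2]
      have e4 : |(((P.lev ⟨j, h1, h2⟩).i : ℝ) - (P.lev ⟨k, h3, h4⟩).i)| < 1 := by
        rw [abs_div, abs_of_pos (by positivity : (0 : ℝ) < 2 * P.n), div_lt_div_iff₀ (by positivity)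
          (by positivity)] at e3
        nlinarith
      have e5 : |(P.lev ⟨j, h1, h2⟩).i - (P.lev ⟨k, h3, h4⟩).i| < 1 := by exact_mod_cast e4
      have e6 := Int.abs_lt_one_iff.1 e5
      omega
    have h6 := P.lev_disj _ _ _ _ hi h5
    exact congrArg Subtype.val h6

end Fibred

/-- fibred pieces, positive at the old ends -/
theorem fibred_pos {M : Type} [TopologicalSpace M] {J : Type} {T : Ended M J} {x y : J → ℝ}
    {S : Type} [TopologicalSpace S] [ConnectedSpace S] {old : J → Prop}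
    [Finite {j // ¬ old j}] (P : Fibred S {j // old j} {j // ¬ old j}) {M₀ : Type}
    [TopologicalSpace M₀] [T2Space M₀] {T₀ : Ended M₀ {j // old j}} (Mt : MTorus P.E P.ψ T₀)
    (D : Drilled T₀ (P.nbh Mt) T) (hold : ∀ j, old j → x j = 0 ∧ 0 < y j)
    (hnew : ∀ k, ¬ old k → x k ≠ 0) (hy : y P.e.1 ≠ 0) (hxy : |y P.e.1| < |x P.e.1|) :
    Detected T x y := by
  have hlin : Linear T₀ (P.F Mt P.n_pos) (fun j => x j) (fun j => y j) := by
    rintro j ⟨u, r, t⟩ - C hC hz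
    have hcov : ∀ w : ℝ × Ioo (1 : ℝ) 2 × ℝ, T₀.cov j w =
        Mt.p (P.E.collar j ((w.1 : AddCircle (1 : ℝ)), w.2.1), w.2.2) := fun w => Mt.tor _ _ _ _
    simp only [hcov] at hz ⊢
    have hκ : Continuous fun w : ℝ × Ioo (1 : ℝ) 2 × ℝ =>
        ((P.E.collar j ((w.1 : AddCircle (1 : ℝ)), w.2.1), w.2.2) : S × ℝ) := by
      refine ((P.E.emb j).continuous.comp ?_).prodMk (by fun_prop)
      exact ((AddCircle.continuous_mk' (1 : ℝ)).comp continuous_fst).prodMk (by fun_prop)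
    have h1 := OrdEq.comp_cont (hκ.continuousAt (x := (u, r, t)))
      (Sus.fol_ord P.inv P.n_pos Mt hC hz)
    refine h1.trans (OrdEq.of_comp (fun s => y j * s)
      (fun a b hab => mul_lt_mul_of_pos_left hab (hold j j.2).2) (Eventually.of_forall fun w => ?_))
    show x j * w.1 + y j * w.2.2 = y j * Sus.tr P.c P.n (P.E.collar j ((u : Ci), r))
      (P.E.collar j ((w.1 : Ci), w.2.1), w.2.2)
    unfold Sus.tr Sus.df
    simp only
    rw [P.c_end, P.c_end, sub_self, cl_zero, fl_zero P.n_pos, (hold j j.2).1]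
    ring
  have hT : (P.F Mt P.n_pos).Taut :=
    Sus.fol_taut P.inv P.n_pos Mt (P.id_w ⟨(0, 0), Or.inl (by simp)⟩ (by simp))
  have hset : ∀ k, P.nbh' Mt k '' LG.solidTorus = P.nbh Mt k '' LG.solidTorus := by
    intro k
    refine image_congr fun z hz => P.nbh_eq Mt k z ?_
    have h1 := LG.torus_bds hz
    rw [abs_le]
    constructor <;> linarith [h1.1, h1.2]
  let D' : Drilled T₀ (P.nbh' Mt) T :=
    { p := D.p
      emb := D.emb
      range_iff := by
        intro v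
        rw [D.range_iff]
        refine forall_congr' fun k => ?_
        rw [hset]
      old_tor := D.old_tor
      new_tor := by
        intro k θ r t
        rw [D.new_tor, P.nbh_eq]
        have h2 := Real.neg_one_le_sin (2 * Real.pi * t)
        have h3 := Real.sin_le_one (2 * Real.pi * t)
        have h4 := r.2.1
        have h5 := r.2.2
        show |-4 + (r : ℝ) * Real.sin (2 * Real.pi * t) + 4| ≤ 2
        rw [abs_le]
        constructor <;> nlinarith }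
  exact walls (P.box Mt P.n_pos) hT hlin (P.curves Mt fun k => hnew k.1 k.2) D'
    (fun j _ => hnew j.1 j.2) hy hxy

/-- **Fibred pieces.** -/
theorem fibred_detected {M : Type} [TopologicalSpace M] {J : Type} {T : Ended M J} {x y : J → ℝ}
    {S : Type} [TopologicalSpace S] [ConnectedSpace S] {old : J → Prop}
    [Finite {j // ¬ old j}] (P : Fibred S {j // old j} {j // ¬ old j}) {M₀ : Type}
    [TopologicalSpace M₀] [T2Space M₀] {T₀ : Ended M₀ {j // old j}} (Mt : MTorus P.E P.ψ T₀)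
    (D : Drilled T₀ (P.nbh Mt) T) (ε : ℝ) (hε : ε = 1 ∨ ε = -1)
    (hold : ∀ j, old j → x j = 0 ∧ 0 < ε * y j) (hnew : ∀ k, ¬ old k → x k ≠ 0)
    (hy : y P.e.1 ≠ 0) (hxy : |y P.e.1| < |x P.e.1|) : Detected T x y := by
  rcases hε with rfl | rfl
  · exact fibred_pos P Mt D (fun j hj => ⟨(hold j hj).1, by linarith [(hold j hj).2]⟩) hnew hy hxy
  · have h1 := fibred_pos (x := fun j => -x j) (y := fun j => -y j) P Mt D
      (fun j hj => ⟨by rw [(hold j hj).1, neg_zero], by linarith [(hold j hj).2]⟩)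
      (fun j hj => neg_ne_zero.2 (hnew j hj)) (neg_ne_zero.2 hy)
      (by rw [abs_neg, abs_neg]; exact hxy)
    have h2 := h1.neg
    simp only [neg_neg] at h2
    exact h2

end Pool.Agent.H.MP_1611f1_gt.TW
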