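import Pool.Agent.H.MP_1611f1_gt.TW.BoxDefs
import Pool.Agent.H.MP_1611f1_gt.LG.Defs

/-!
Several walls: definitions.
-/

namespace Pool.Agent.H.MP_1611f1_gt.TW

open Topology Set Filter
open Pool.Agent.H.MP_1611f1_gt.BR.U (Ci)
open Pool.Agent.H.MP_1611f1_gt.G (Ended)
open Pool.Agent.H.MP_1611f1_gt.LG (Cylinder LeafCurve)

/-- The curves which are removed from `M₀`, for several disjoint boxes `w ∈ W` with the coordinates `N w`: the curves `e w` (the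
circles `x₂ = t = 0`), the curves `j ∈ C w` (the circles `x₁ = 0`, `x₂ = l j`), and curves in leaves of `F`, outside of
the sets `N w '' CC`. -/
structure Boxes {W J : Type} {M₀ : Type} [TopologicalSpace M₀] (F : Foliation M₀)
    (N : W → Ci × Ci × Ci → M₀) {old : J → Prop} (T₀ : Ended M₀ {j // old j})
    (Nb : {j // ¬ old j} → Cylinder → M₀) (e : W → {j // ¬ old j}) (C : W → Set {j // ¬ old j})
    (x : J → ℝ) where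
  sep : ∀ w w', w ≠ w' → Disjoint (N w '' VV) (N w' '' VV)
  away : ∀ w k z, T₀.tor k z ∉ N w '' CC
  e_inj : Function.Injective e
  e_notMem : ∀ w w', e w ∉ C w'
  e_nbh : ∀ w z, Nb (e w) z = N w (z.1, ((z.2.1 / 16 : ℝ) : Ci), (((z.2.2 + 4) / 16 : ℝ) : Ci))
  l : {j // ¬ old j} → ℝ
  ρ : ℝ
  ρ_pos : 0 < ρ
  l_norm : ∀ w, ∀ j ∈ C w, 1 / 8 + 8 * ρ < ‖(l j : Ci)‖
  l_sep : ∀ w, ∀ j ∈ C w, ∀ k ∈ C w, j ≠ k → 16 * ρ < ‖((l j - l k : ℝ) : Ci)‖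
  C_nbh : ∀ w, ∀ j ∈ C w, ∀ z, Nb j z =
    N w ((((z.2.2 + 4) / 64 : ℝ) : Ci), ((l j + ρ * z.2.1 : ℝ) : Ci), z.1)
  leaf : ∀ j, (∀ w, j ≠ e w) → (∀ w, j ∉ C w) → LeafCurve F (Nb j) (x j)
  leaf_out : ∀ j, (∀ w, j ≠ e w) → (∀ w, j ∉ C w) → ∀ w z, Nb j z ∉ N w '' CC
  leaf_away : ∀ j, (∀ w, j ≠ e w) → (∀ w, j ∉ C w) → ∀ z k w, Nb j z ≠ T₀.tor k w
  leaf_disj : ∀ j k, (∀ w, j ≠ e w) → (∀ w, j ∉ C w) → (∀ w, k ≠ e w) → (∀ w, k ∉ C w) →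
    ∀ z w, Nb j z = Nb k w → j = k

end Pool.Agent.H.MP_1611f1_gt.TW
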