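import Pool.Agent.H.MP_1611f1_gt.TW.MuA

/-!
Several walls: the induction.
-/

namespace Pool.Agent.H.MP_1611f1_gt.TW

open Topology Set Filter
open Pool.Agent.H.MP_1611f1_gt.BR.U (Ci)
open Pool.Agent.H.MP_1611f1_gt.G (Ended Linear Detected)
open Pool.Agent.H.MP_1611f1_gt.LG (Drilled Cylinder solidTorus LeafCurve)

/-- the statement which is proved by induction on the number of the boxes -/
def MuB_P {M : Type} [TopologicalSpace M] {J : Type} (T : Ended M J) (x y : J → ℝ) (W : Type) : Prop :=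
  ∀ (M₀ : Type) (_ : TopologicalSpace M₀) (_ : T2Space M₀) (F : Foliation M₀)
    (N : W → Ci × Ci × Ci → M₀) (_ : ∀ w, Box F (N w)) (_ : F.Taut) (old : J → Prop)
    (_ : Finite {j // ¬ old j}) (T₀ : Ended M₀ {j // old j})
    (_ : Linear T₀ F (fun j => x j) (fun j => y j)) (Nb : {j // ¬ old j} → Cylinder → M₀)
    (e : W → {j // ¬ old j}) (C : W → Set {j // ¬ old j}) (_ : Boxes F N T₀ Nb e C x)
    (_ : Drilled T₀ Nb T) (_ : ∀ w, ∀ j ∈ C w, x j.1 ≠ 0) (_ : ∀ w, y (e w).1 ≠ 0)
    (_ : ∀ w, |y (e w).1| < x (e w).1), Detected T x y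

/-- the boxes with another index set -/
noncomputable def MuB_reindex {V W : Type} (f : V ≃ W) {J : Type} {M₀ : Type} [TopologicalSpace M₀]
    {F : Foliation M₀} {N : W → Ci × Ci × Ci → M₀} {old : J → Prop} {T₀ : Ended M₀ {j // old j}}
    {Nb : {j // ¬ old j} → Cylinder → M₀} {e : W → {j // ¬ old j}} {C : W → Set {j // ¬ old j}}
    {x : J → ℝ} (Q : Boxes F N T₀ Nb e C x) :
    Boxes F (fun v => N (f v)) T₀ Nb (fun v => e (f v)) (fun v => C (f v)) x where
  sep w w' h := Q.sep _ _ fun h' => h (f.injective h')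
  away w := Q.away (f w)
  e_inj _ _ h := f.injective (Q.e_inj h)
  e_notMem w w' := Q.e_notMem _ _
  e_nbh w := Q.e_nbh (f w)
  l := Q.l
  ρ := Q.ρ
  ρ_pos := Q.ρ_pos
  l_norm w := Q.l_norm (f w)
  l_sep w := Q.l_sep (f w)
  C_nbh w := Q.C_nbh (f w)
  leaf j h1 h2 := Q.leaf j (f.surjective.forall.2 h1) (f.surjective.forall.2 h2)
  leaf_out j h1 h2 w := Q.leaf_out j (f.surjective.forall.2 h1) (f.surjective.forall.2 h2) (f w)
  leaf_away j h1 h2 := Q.leaf_away j (f.surjective.forall.2 h1) (f.surjective.forall.2 h2)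
  leaf_disj j k h1 h2 h3 h4 := Q.leaf_disj j k (f.surjective.forall.2 h1)
    (f.surjective.forall.2 h2) (f.surjective.forall.2 h3) (f.surjective.forall.2 h4)

/-- **Several walls, positive case.** PROOF: `Finite.induction_empty_option` on `W` (all other data generalized): for an equivalence reindex; for the
empty type `LG.leaf_detected`; for `Option W` `boxes_step`. -/
theorem boxes_pos {W : Type} [Finite W] {M : Type} [TopologicalSpace M] {J : Type} {T : Ended M J} {x y : J → ℝ}
    {M₀ : Type} [TopologicalSpace M₀] [T2Space M₀] {F : Foliation M₀} {N : W → Ci × Ci × Ci → M₀}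
    (B : ∀ w, Box F (N w)) (hF : F.Taut) {old : J → Prop} [Finite {j // ¬ old j}] {T₀ : Ended M₀ {j // old j}}
    (hlin : Linear T₀ F (fun j => x j) (fun j => y j)) {Nb : {j // ¬ old j} → Cylinder → M₀}
    {e : W → {j // ¬ old j}} {C : W → Set {j // ¬ old j}} (Q : Boxes F N T₀ Nb e C x)
    (D : Drilled T₀ Nb T) (hC : ∀ w, ∀ j ∈ C w, x j.1 ≠ 0) (hy : ∀ w, y (e w).1 ≠ 0)
    (hxy : ∀ w, |y (e w).1| < x (e w).1) : Detected T x y := by
  have key : MuB_P T x y W := by
    refine Finite.induction_empty_option (P := MuB_P T x y) ?_ ?_ ?_ W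
    · intro α β f hα M₀ i1 i2 F N B hF old i3 T₀ hlin Nb e C Q D hC hy hxy
      exact hα M₀ i1 i2 F (fun w => N (f w)) (fun w => B (f w)) hF old i3 T₀ hlin Nb (fun w => e (f w))
        (fun w => C (f w)) (MuB_reindex f Q) D (fun w => hC (f w)) (fun w => hy (f w))
        (fun w => hxy (f w))
    · intro M₀ i1 i2 F N B hF old i3 T₀ hlin Nb e C Q D hC hy hxy
      have h1 : ∀ j : {j // ¬ old j}, ∀ w : PEmpty, j ≠ e w := fun j w => w.elim
      have h2 : ∀ j : {j // ¬ old j}, ∀ w : PEmpty, j ∉ C w := fun j w => w.elim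
      exact LG.leaf_detected hF hlin (fun j => Q.leaf j (h1 j) (h2 j))
        (fun j k z w h => Q.leaf_disj j k (h1 j) (h2 j) (h1 k) (h2 k) z w h)
        (fun j z k w => Q.leaf_away j (h1 j) (h2 j) z k w) D
    · intro α _ hα M₀ i1 i2 F N B hF old i3 T₀ hlin Nb e C Q D hC hy hxy
      obtain ⟨M₁, j1, j2, F', N', old', T₁, Nb', e', C', h1, h2, h3, ⟨h4⟩, ⟨h5⟩, h6, h7, h8⟩ :=
        boxes_step B hF hlin Q D hC (hy none) (hxy none)
      have hfin : Finite {j // ¬ old' j} :=
        Finite.of_injective (fun j : {j // ¬ old' j} => (⟨j.1, fun h => j.2 (h6 _ h)⟩ : {j // ¬ old j}))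
          fun j k h => Subtype.ext (congrArg (fun i : {j // ¬ old j} => i.1) h)
      refine hα M₁ j1 j2 F' N' h1 h2 old' hfin T₁ h3 Nb' e' C' h4 h5 ?_ ?_ ?_
      · intro w j hj
        obtain ⟨k, hk, hkj⟩ := h8 w j hj
        rw [← hkj]
        exact hC _ k hk
      · intro w
        rw [h7]
        exact hy _
      · intro w
        rw [h7]
        exact hxy _
  exact key M₀ inferInstance inferInstance F N B hF old inferInstance T₀ hlin Nb e C Q D hC hy hxy

theorem MuB_image {M₀ : Type} (N : Ci × Ci × Ci → M₀) :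
    (fun z => N (rfl1 z)) '' VV = N '' VV := by
  ext y
  constructor
  · rintro ⟨z, hz, rfl⟩
    exact ⟨rfl1 z, rfl1_VV.2 hz, rfl⟩
  · rintro ⟨z, hz, rfl⟩
    refine ⟨rfl1 z, rfl1_VV.2 hz, ?_⟩
    simp only [rfl1_rfl1]

/-- **Several walls.** PROOF: as `walls` from `walls_pos`: reflect all boxes `w` with `x (e w) < 0` at the same time, with
`Aj j := ∃ w, x (e w) < 0 ∧ j = e w`, `Bj j := ∃ w, x (e w) < 0 ∧ ∃ h, ⟨j, h⟩ ∈ C w`, and the coordinates `N w ∘ rfl1`
for these `w`. (`C w` and `C w'` are disjoint for `w ≠ w'`: `sep`, `C_nbh` at the point `(0, 0, -4)`.) -/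
theorem boxes {W : Type} [Finite W] {M : Type} [TopologicalSpace M] {J : Type} {T : Ended M J} {x y : J → ℝ}
    {M₀ : Type} [TopologicalSpace M₀] [T2Space M₀] {F : Foliation M₀} {N : W → Ci × Ci × Ci → M₀}
    (B : ∀ w, Box F (N w)) (hF : F.Taut) {old : J → Prop} [Finite {j // ¬ old j}] {T₀ : Ended M₀ {j // old j}}
    (hlin : Linear T₀ F (fun j => x j) (fun j => y j)) {Nb : {j // ¬ old j} → Cylinder → M₀}
    {e : W → {j // ¬ old j}} {C : W → Set {j // ¬ old j}} (Q : Boxes F N T₀ Nb e C x)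
    (D : Drilled T₀ Nb T) (hC : ∀ w, ∀ j ∈ C w, x j.1 ≠ 0) (hy : ∀ w, y (e w).1 ≠ 0)
    (hxy : ∀ w, |y (e w).1| < |x (e w).1|) : Detected T x y := by
  classical
  let Aj : J → Prop := fun j => ∃ w, x (e w).1 < 0 ∧ j = (e w).1
  let Bj : J → Prop := fun j => ∃ w, x (e w).1 < 0 ∧ ∃ h : ¬ old j, (⟨j, h⟩ : {j // ¬ old j}) ∈ C w
  refine flip_detected Aj Bj ?_
  have hCw : ∀ w w' j, j ∈ C w → j ∈ C w' → w = w' := by
    intro w w' j h1 h2
    by_contra h3
    have h4 := Q.sep w w' h3
    have h5 := Q.C_nbh w j h1 (0, (0, -4))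
    have h6 := Q.C_nbh w' j h2 (0, (0, -4))
    have h7 : ∀ b c : Ci, ((((( -4 : ℝ) + 4) / 64 : ℝ) : Ci), b, c) ∈ VV := by
      intro b c
      left
      have e1 : ((((-4 : ℝ) + 4) / 64 : ℝ) : Ci) = 0 := by
        norm_num
      show ‖((((-4 : ℝ) + 4) / 64 : ℝ) : Ci)‖ < 1 / 4
      rw [e1, norm_zero]
      norm_num
    refine Set.disjoint_left.1 h4 ⟨_, h7 _ _, h5.symm⟩ ?_
    exact ⟨_, h7 _ _, h6.symm⟩
  have hAe : ∀ w, Aj (e w).1 ↔ x (e w).1 < 0 := by
    intro w
    constructor
    · rintro ⟨w', h1, h2⟩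
      rw [h2]
      exact h1
    · intro h
      exact ⟨w, h, rfl⟩
  have hAeq : ∀ j : {j // ¬ old j}, Aj j.1 → ∃ w, x (e w).1 < 0 ∧ j = e w := by
    rintro j ⟨w, h1, h2⟩
    exact ⟨w, h1, Subtype.ext h2⟩
  have hBeq : ∀ j : {j // ¬ old j}, Bj j.1 → ∃ w, x (e w).1 < 0 ∧ j ∈ C w := by
    rintro j ⟨w, h1, h, h2⟩
    exact ⟨w, h1, h2⟩
  have hBC : ∀ w, ∀ j ∈ C w, Bj j.1 ↔ x (e w).1 < 0 := by
    intro w j hj
    constructor
    · intro h
      obtain ⟨w', h1, h2⟩ := hBeq j h
      rw [hCw w w' j hj h2]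
      exact h1
    · intro h
      exact ⟨w, h, j.2, hj⟩
  have hAC : ∀ w, ∀ j ∈ C w, ¬ Aj j.1 := by
    intro w j hj h
    obtain ⟨w', h1, h2⟩ := hAeq j h
    exact Q.e_notMem w' w (h2 ▸ hj)
  have hBe : ∀ w, ¬ Bj (e w).1 := by
    intro w h
    obtain ⟨w', h1, h2⟩ := hBeq (e w) h
    exact Q.e_notMem w w' h2
  have hAB : ∀ j : {j // ¬ old j}, Aj j.1 → ¬ Bj j.1 := by
    intro j h1 h2
    obtain ⟨w, h3, h4⟩ := hAeq j h1
    exact hBe w (h4 ▸ h2)
  have hAo : ∀ j, old j → ¬ Aj j := by
    rintro j hj ⟨w, -, h⟩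
    exact (e w).2 (h ▸ hj)
  have hBo : ∀ j, old j → ¬ Bj j := by
    rintro j hj ⟨w, -, h, -⟩
    exact h hj
  -- the new neighbourhoods
  let rf : {j // ¬ old j} → Cylinder → Cylinder := fun j z =>
    if Aj j.1 then (-z.1, z.2) else if Bj j.1 then (z.1, (z.2.1, -8 - z.2.2)) else z
  have hrf : ∀ j z, rf j (rf j z) = z := by
    intro j z
    simp only [rf]
    by_cases h1 : Aj j.1
    · simp [h1]
    · by_cases h2 : Bj j.1
      · simp [h1, h2]
      · simp [h1, h2]
  have hsol : ∀ j z, z ∈ solidTorus → rf j z ∈ solidTorus := by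
    intro j z hz
    have hz' : z.2.1 ^ 2 + (z.2.2 + 4) ^ 2 ≤ 1 := hz
    simp only [rf]
    by_cases h1 : Aj j.1
    · rw [if_pos h1]
      exact hz'
    · rw [if_neg h1]
      by_cases h2 : Bj j.1
      · rw [if_pos h2]
        show z.2.1 ^ 2 + (-8 - z.2.2 + 4) ^ 2 ≤ 1
        nlinarith
      · rw [if_neg h2]
        exact hz
  let D' : Drilled T₀ (fun j z => Nb j (rf j z)) (flipT Aj Bj T) :=
    { p := D.p
      emb := D.emb
      range_iff := by
        intro v
        rw [D.range_iff]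
        refine forall_congr' fun k => not_congr ?_
        constructor
        · rintro ⟨z, hz, rfl⟩
          refine ⟨rf k z, hsol k z hz, ?_⟩
          simp only [hrf]
        · rintro ⟨z, hz, rfl⟩
          exact ⟨rf k z, hsol k z hz, rfl⟩
      old_tor := by
        intro j w
        rw [← D.old_tor j w]
        show D.p (T.tor j.1 (flp Aj Bj j.1 w)) = _
        congr 2
        simp [flp, hAo j.1 j.2, hBo j.1 j.2]
      new_tor := by
        intro k θ r t
        show D.p (T.tor k.1 (flp Aj Bj k.1 (θ, r, (t : Ci)))) = Nb k (rf k _)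
        by_cases hA : Aj k.1
        · have hB : ¬ Bj k.1 := hAB k hA
          have e1 : flp Aj Bj k.1 (θ, r, (t : Ci)) = (-θ, r, (t : Ci)) := by
            simp [flp, hA, hB]
          rw [e1, D.new_tor]
          simp only [rf, if_pos hA]
        · by_cases hB : Bj k.1
          · have e1 : flp Aj Bj k.1 (θ, r, (t : Ci)) = (θ, r, ((-t : ℝ) : Ci)) := by
              simp [flp, hA, hB]
            rw [e1, D.new_tor]
            simp only [rf, if_neg hA, if_pos hB]
            congr 3
            · rw [show 2 * Real.pi * -t = -(2 * Real.pi * t) by ring, Real.cos_neg]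
            · rw [show 2 * Real.pi * -t = -(2 * Real.pi * t) by ring, Real.sin_neg]
              ring
          · have e1 : flp Aj Bj k.1 (θ, r, (t : Ci)) = (θ, r, (t : Ci)) := by
              simp [flp, hA, hB]
            rw [e1, D.new_tor]
            simp only [rf, if_neg hA, if_neg hB] }
  let N' : W → Ci × Ci × Ci → M₀ := fun w => if x (e w).1 < 0 then fun z => N w (rfl1 z) else N w
  have hCC : ∀ w, N' w '' CC = N w '' CC := by
    intro w
    by_cases h : x (e w).1 < 0
    · simp only [N', if_pos h]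
      exact rfl1_image (N w)
    · simp only [N', if_neg h]
  have hVV : ∀ w, N' w '' VV = N w '' VV := by
    intro w
    by_cases h : x (e w).1 < 0
    · simp only [N', if_pos h]
      exact MuB_image (N w)
    · simp only [N', if_neg h]
  refine boxes_pos (N := N') (T₀ := T₀) (Nb := fun j z => Nb j (rf j z)) (e := e) (C := C) ?_ hF ?_ ?_
    D' ?_ ?_ ?_
  · intro w
    by_cases h : x (e w).1 < 0
    · simp only [N', if_pos h]
      exact (B w).refl1
    · simp only [N', if_neg h]
      exact B w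
  · intro j z hz c hc hs
    have h1 := hlin j z hz c hc hs
    refine h1.congr (Eventually.of_forall fun w => rfl) (Eventually.of_forall fun w => ?_)
    simp only [if_neg (hAo j.1 j.2), if_neg (hBo j.1 j.2)]
  · have hlA : ∀ j : {j // ¬ old j}, (∀ w, j ≠ e w) → ¬ Aj j.1 := by
      intro j h1 h
      obtain ⟨w, -, h2⟩ := hAeq j h
      exact h1 w h2
    have hlB : ∀ j : {j // ¬ old j}, (∀ w, j ∉ C w) → ¬ Bj j.1 := by
      intro j h1 h
      obtain ⟨w, -, h2⟩ := hBeq j h
      exact h1 w h2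
    exact
      { sep := fun w w' h => by
          rw [hVV, hVV]
          exact Q.sep w w' h
        away := fun w k z => by
          rw [hCC]
          exact Q.away w k z
        e_inj := Q.e_inj
        e_notMem := Q.e_notMem
        e_nbh := fun w z => by
          by_cases h : x (e w).1 < 0
          · have hA : Aj (e w).1 := (hAe w).2 h
            simp only [rf, if_pos hA, N', if_pos h]
            rw [Q.e_nbh]
            rfl
          · have hA : ¬ Aj (e w).1 := fun h' => h ((hAe w).1 h')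
            simp only [rf, if_neg hA, if_neg (hBe w), N', if_neg h]
            exact Q.e_nbh w z
        l := Q.l
        ρ := Q.ρ
        ρ_pos := Q.ρ_pos
        l_norm := Q.l_norm
        l_sep := Q.l_sep
        C_nbh := fun w j hj z => by
          have hA : ¬ Aj j.1 := hAC w j hj
          by_cases h : x (e w).1 < 0
          · have hB : Bj j.1 := (hBC w j hj).2 h
            simp only [rf, if_neg hA, if_pos hB, N', if_pos h]
            rw [Q.C_nbh w j hj]
            unfold rfl1
            simp only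
            rw [← AddCircle.coe_neg]
            congr 3
            ring
          · have hB : ¬ Bj j.1 := fun h' => h ((hBC w j hj).1 h')
            simp only [rf, if_neg hA, if_neg hB, N', if_neg h]
            exact Q.C_nbh w j hj z
        leaf := fun j h1 h2 => by
          simp only [rf, if_neg (hlA j h1), if_neg (hlB j h2)]
          exact Q.leaf j h1 h2
        leaf_out := fun j h1 h2 w z => by
          rw [hCC]
          simp only [rf, if_neg (hlA j h1), if_neg (hlB j h2)]
          exact Q.leaf_out j h1 h2 w z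
        leaf_away := fun j h1 h2 z k w => by
          simp only [rf, if_neg (hlA j h1), if_neg (hlB j h2)]
          exact Q.leaf_away j h1 h2 z k w
        leaf_disj := fun j k h1 h2 h3 h4 z w h => by
          simp only [rf, if_neg (hlA j h1), if_neg (hlB j h2), if_neg (hlA k h3), if_neg (hlB k h4)] at h
          exact Q.leaf_disj j k h1 h2 h3 h4 z w h }
  · intro w j hj
    simp only [if_neg (hAC w j hj)]
    exact hC w j hj
  · intro w
    simp only [if_neg (hBe w)]
    exact hy w
  · intro w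
    have h1 := hxy w
    by_cases h : x (e w).1 < 0
    · have hA : Aj (e w).1 := (hAe w).2 h
      simp only [if_neg (hBe w), if_pos hA]
      rwa [abs_of_neg h] at h1
    · have hA : ¬ Aj (e w).1 := fun h' => h ((hAe w).1 h')
      simp only [if_neg (hBe w), if_neg hA]
      rwa [abs_of_nonneg (not_lt.1 h)] at h1

end Pool.Agent.H.MP_1611f1_gt.TW
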