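import Pool.Agent.H.MP_1611f1_gt.TW.SusE
import Pool.Agent.H.MP_1611f1_gt.TW.MuB

/-!
Surface bundles with curves which cross, once, annuli on which the monodromy is the identity.
-/

namespace Pool.Agent.H.MP_1611f1_gt.TW

open Topology Set Filter
open Pool.Agent.H.MP_1611f1_gt.BR.U (Ci cl coe_cl cl_mem cl_coe cl_zero cl_contAt' small_nhds
  cl_base norm_cl)
open Pool.Agent.H.MP_1611f1_gt.G (MTorus Ended Linear Detected)
open Pool.Agent.H.MP_1611f1_gt.LG (LeafCurve Cylinder Drilled)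

namespace Crosses

variable {S : Type} [TopologicalSpace S] {J W : Type} (P : Crosses S J W)

variable {M : Type} [TopologicalSpace M] {T : Ended M J} (Mt : MTorus P.E P.ψ T)

/-- the foliation -/
noncomputable abbrev F {n : ℕ} (hn : 0 < n) : Foliation M := Sus.fol P.inv hn Mt

theorem box {n : ℕ} (hn : 0 < n) (b : W) : Box (P.F Mt hn) (P.NN Mt b) :=
  (P.one b).box Mt hn

theorem disj {b b' : W} (h : b ≠ b') : Disjoint (P.NN Mt b '' VV) (P.NN Mt b' '' VV) := by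
  rw [Set.disjoint_left]
  rintro _ ⟨v, hv, rfl⟩ ⟨v', hv', h'⟩
  have h1 : Mt.p ((P.one b').wt (v'.1, v'.2.1), cl v'.2.2) =
      Mt.p ((P.one b).wt (v.1, v.2.1), cl v.2.2) := h'
  obtain ⟨k, hk, hx⟩ := (Mt.p_eq _ _ _ _).1 h1
  have h3 : |(k : ℝ)| < 1 := by
    have h4 : (k : ℝ) = cl v.2.2 - cl v'.2.2 := by rw [hk]; ring
    have h5 := cl_mem v.2.2
    have h6 := cl_mem v'.2.2
    rw [h4, abs_lt]
    constructor <;> linarith [h5.1, h5.2, h6.1, h6.2]
  have h4 : k = 0 := by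
    rw [← Int.abs_lt_one_iff]
    exact_mod_cast h3
  subst h4
  simp only [zpow_zero, Homeomorph.one_apply] at hx
  rw [Cross.wt_eq _ (Cross.mem_crs hv), Cross.wt_eq _ (Cross.mem_crs hv')] at hx
  exact h (P.sep _ _ _ _ hx).symm

theorem zfix (k : ℤ) (j : J) (z) : (P.ψ ^ k) (P.E.collar j z) = P.E.collar j z := by
  have hinv : (P.ψ⁻¹ : S ≃ₜ S) (P.E.collar j z) = P.E.collar j z := by
    have h : P.ψ.symm (P.E.collar j z) = P.E.collar j z := by
      rw [Homeomorph.symm_apply_eq]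
      exact (P.fix j z).symm
    exact h
  induction k using Int.induction_on with
  | zero => simp
  | succ i ih => rw [zpow_add_one, Homeomorph.mul_apply, P.fix, ih]
  | pred i ih => rw [zpow_sub_one, Homeomorph.mul_apply, hinv, ih]

theorem not_end {x : S} (hx : ∀ j w, x ≠ P.E.collar j w) (t : ℝ) (j : J) (w) :
    Mt.p (x, t) ≠ T.tor j w := by
  obtain ⟨θ, r, s⟩ := w
  obtain ⟨s, rfl⟩ := QuotientAddGroup.mk_surjective s
  intro h
  have h1 : T.tor j (θ, r, (s : Ci)) = Mt.p (P.E.collar j (θ, r), s) := Mt.tor j θ r s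
  have h2 : Mt.p (x, t) = Mt.p (P.E.collar j (θ, r), s) := h.trans h1
  obtain ⟨k, -, h3⟩ := (Mt.p_eq _ _ _ _).1 h2
  rw [P.zfix] at h3
  exact hx _ _ h3

end Crosses

namespace FibCurves

variable {S : Type} [TopologicalSpace S] {J W K : Type} {P : Crosses S J W}
  {M : Type} [TopologicalSpace M] {T : Ended M J} {Mt : MTorus P.E P.ψ T} {n : ℕ}
  {Nb : K → Cylinder → M} {e : W → K} {C : W → Set K} (Q : FibCurves P Mt n Nb e C)

open Classical in
/-- the neighbourhoods which are used in the proof -/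
noncomputable def nb (k : K) (z : Cylinder) : M :=
  if h : ∃ b, k = e b then
    P.NN Mt h.choose (z.1, ((z.2.1 / 16 : ℝ) : Ci), (((z.2.2 + 4) / 16 : ℝ) : Ci))
  else if h' : ∃ b, k ∈ C b then
    P.NN Mt h'.choose ((((z.2.2 + 4) / 64 : ℝ) : Ci), ((Q.l k + Q.ρ * z.2.1 : ℝ) : Ci), z.1)
  else (Q.lev ⟨k, fun b hb => h ⟨b, hb⟩, fun b hb => h' ⟨b, hb⟩⟩).nbh Mt n z

theorem nb_e (b : W) (z : Cylinder) : Q.nb (e b) z =
    P.NN Mt b (z.1, ((z.2.1 / 16 : ℝ) : Ci), (((z.2.2 + 4) / 16 : ℝ) : Ci)) := by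
  have h : ∃ b', e b = e b' := ⟨b, rfl⟩
  have h1 : h.choose = b := (Q.e_inj h.choose_spec).symm
  unfold nb
  rw [dif_pos h, h1]

include Q in
/-- the circles in different boxes are different -/
theorem C_disj {b b' : W} {k : K} (h : k ∈ C b) (h' : k ∈ C b') : b = b' := by
  by_contra hb
  have h1 := Q.C_nbh b k h ((0 : Ci), (0, -4)) (by norm_num) (by norm_num)
  have h2 := Q.C_nbh b' k h' ((0 : Ci), (0, -4)) (by norm_num) (by norm_num)
  have h3 := P.disj Mt hb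
  rw [Set.disjoint_left] at h3
  have hV : ∀ y z : Ci, (((((-4 : ℝ) + 4) / 64 : ℝ) : Ci), y, z) ∈ VV := by
    intro y z
    left
    show ‖((((-4 : ℝ) + 4) / 64 : ℝ) : Ci)‖ < 1 / 4
    norm_num
  exact h3 ⟨_, hV _ _, h1.symm⟩ ⟨_, hV _ _, h2.symm⟩

theorem nb_C {b : W} {k : K} (hk : k ∈ C b) (z : Cylinder) : Q.nb k z =
    P.NN Mt b ((((z.2.2 + 4) / 64 : ℝ) : Ci), ((Q.l k + Q.ρ * z.2.1 : ℝ) : Ci), z.1) := by
  have h : ¬ ∃ b', k = e b' := by
    rintro ⟨b', rfl⟩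
    exact Q.e_notMem _ _ hk
  have h' : ∃ b', k ∈ C b' := ⟨b, hk⟩
  have h1 : h'.choose = b := Q.C_disj h'.choose_spec hk
  unfold nb
  rw [dif_neg h, dif_pos h', h1]

theorem nb_lev {k : K} (h : ∀ b, k ≠ e b) (h' : ∀ b, k ∉ C b) :
    Q.nb k = (Q.lev ⟨k, h, h'⟩).nbh Mt n := by
  funext z
  have h1 : ¬ ∃ b', k = e b' := fun ⟨b, hb⟩ => h b hb
  have h2 : ¬ ∃ b', k ∈ C b' := fun ⟨b, hb⟩ => h' b hb
  unfold nb
  rw [dif_neg h1, dif_neg h2]

theorem nb_eq (k : K) (z : Cylinder) (hz1 : |z.2.1| ≤ 2) (hz : |z.2.2 + 4| ≤ 2) :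
    Q.nb k z = Nb k z := by
  have hz' := abs_le.1 hz
  by_cases h : ∃ b, k = e b
  · obtain ⟨b, rfl⟩ := h
    rw [Q.nb_e, Q.e_nbh b z hz1 hz]
  · by_cases h' : ∃ b, k ∈ C b
    · obtain ⟨b, hb⟩ := h'
      rw [Q.nb_C hb, Q.C_nbh b k hb z hz1 hz]
    · have h1 : ∀ b, k ≠ e b := fun b hb => h ⟨b, hb⟩
      have h2 : ∀ b, k ∉ C b := fun b hb => h' ⟨b, hb⟩
      have h3 := Q.lev_nbh ⟨k, h1, h2⟩ z hz1 hz
      rw [Q.nb_lev h1 h2, h3]
      have hn : (0 : ℝ) < n := by exact_mod_cast Q.n_pos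
      unfold Lev.nbh Lev.tm
      rw [LS.tim_mid (by linarith [hz'.1]) (by linarith [hz'.2])]
      congr 3
      field_simp
      ring

theorem lev_bds (k) (s : ℝ) : 1 / 8 < (Q.lev k).tm n s ∧ (Q.lev k).tm n s < 7 / 8 := by
  have h1 := (Q.lev k).tm_mem Q.n_pos s
  have h2 := Q.lev_time k
  exact ⟨by linarith [h1.1, h2.1], by linarith [h1.2, h2.2]⟩

theorem lev_notMem (k) (z : Cylinder) (b : W) : (Q.lev k).nbh Mt n z ∉ P.NN Mt b '' CC := by
  have h0 : P.NN Mt b '' CC = (P.one b).K0 Mt := ((P.one b).K0_eq Mt).symm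
  rw [h0]
  intro h
  obtain ⟨h1, h2⟩ := Q.lev_bds k z.2.2
  obtain ⟨z', hz', h3⟩ := (P.one b).mem_K0 Mt (by rw [abs_of_pos (by linarith)]; exact h2) h
  rcases h3 with h3 | ⟨-, h3⟩
  · have h4 := Q.lev_off k _ b _ hz'.symm
    linarith
  · rw [abs_of_pos (by linarith)] at h3
    linarith

end FibCurves

/-- the curves -/
noncomputable def FibCurves.boxes {S : Type} [TopologicalSpace S] {J W : Type} {old : J → Prop}
    {P : Crosses S {j // old j} W} {M : Type} [TopologicalSpace M] {T : Ended M {j // old j}}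
    {Mt : MTorus P.E P.ψ T} {n : ℕ} {Nb : {j // ¬ old j} → Cylinder → M} {e : W → {j // ¬ old j}}
    {C : W → Set {j // ¬ old j}} (Q : FibCurves P Mt n Nb e C) {x : J → ℝ}
    (hx : ∀ k : {j // ¬ old j}, x k ≠ 0) :
    Boxes (P.F Mt Q.n_pos) (P.NN Mt) T Q.nb e C x where
  sep _ _ h := P.disj Mt h
  away b k w := by
    rintro ⟨v, hv, h⟩
    refine P.not_end Mt (x := (P.one b).wt (v.1, v.2.1)) (fun j w' h' => ?_) (cl v.2.2) k w h
    rw [(P.one b).wt_eq (Cross.mem_crs (CC_sub hv))] at h'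
    exact P.out _ _ _ _ h'
  e_inj := Q.e_inj
  e_notMem := Q.e_notMem
  e_nbh := Q.nb_e
  l := Q.l
  ρ := Q.ρ
  ρ_pos := Q.ρ_pos
  l_norm := Q.l_norm
  l_sep := Q.l_sep
  C_nbh b j hj z := Q.nb_C hj z
  leaf j h1 h2 := by
    rw [Q.nb_lev h1 h2]
    exact (Q.lev ⟨j, h1, h2⟩).leafCurve Mt P.inv Q.n_pos (hx j)
  leaf_out j h1 h2 w z := by
    rw [Q.nb_lev h1 h2]
    exact Q.lev_notMem _ z w
  leaf_away j h1 h2 z k w := by
    rw [Q.nb_lev h1 h2]
    exact P.not_end Mt (Q.lev_out _ _) _ _ _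
  leaf_disj j k h1 h2 h3 h4 z w h := by
    rw [Q.nb_lev h1 h2, Q.nb_lev h3 h4] at h
    have hn : (0 : ℝ) < n := by exact_mod_cast Q.n_pos
    obtain ⟨m, hm, h5⟩ := (Mt.p_eq _ _ _ _).1 h
    have b1 := Q.lev_bds ⟨j, h1, h2⟩ z.2.2
    have b2 := Q.lev_bds ⟨k, h3, h4⟩ w.2.2
    have hm0 : m = 0 := by
      rw [← Int.abs_lt_one_iff]
      have h6 : |(m : ℝ)| < 1 := by
        have h7 : (m : ℝ) = (Q.lev ⟨k, h3, h4⟩).tm n w.2.2 -
            (Q.lev ⟨j, h1, h2⟩).tm n z.2.2 := by rw [hm]; ring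
        rw [h7, abs_lt]
        constructor <;> linarith [b1.1, b1.2, b2.1, b2.2]
      exact_mod_cast h6
    subst hm0
    simp only [Int.cast_zero, add_zero] at hm
    simp only [zpow_zero, Homeomorph.one_apply] at h5
    have t1 := (Q.lev ⟨j, h1, h2⟩).tm_mem Q.n_pos z.2.2
    have t2 := (Q.lev ⟨k, h3, h4⟩).tm_mem Q.n_pos w.2.2
    rw [hm] at t2
    have e1 : 7 / (64 * (n : ℝ)) + 1 / (64 * n) = 1 / (8 * n) := by
      field_simp
      ring
    have hi : (Q.lev ⟨j, h1, h2⟩).i = (Q.lev ⟨k, h3, h4⟩).i := by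
      have e2 : (Q.lev ⟨j, h1, h2⟩).time n - (Q.lev ⟨k, h3, h4⟩).time n =
          (((Q.lev ⟨j, h1, h2⟩).i : ℝ) - (Q.lev ⟨k, h3, h4⟩).i) / (2 * n) := by
        unfold Lev.time
        field_simp
        ring
      have e3 : |(((Q.lev ⟨j, h1, h2⟩).i : ℝ) - (Q.lev ⟨k, h3, h4⟩).i) / (2 * n)| <
          1 / (8 * n) := by
        rw [← e2, ← e1, abs_lt]
        constructor <;> linarith [t1.1, t1.2, t2.1, t2.2]
      have e4 : |(((Q.lev ⟨j, h1, h2⟩).i : ℝ) - (Q.lev ⟨k, h3, h4⟩).i)| < 1 := by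
        rw [abs_div, abs_of_pos (by positivity : (0 : ℝ) < 2 * n), div_lt_div_iff₀ (by positivity)
          (by positivity)] at e3
        nlinarith
      have e5 : |(Q.lev ⟨j, h1, h2⟩).i - (Q.lev ⟨k, h3, h4⟩).i| < 1 := by exact_mod_cast e4
      have e6 := Int.abs_lt_one_iff.1 e5
      omega
    have h6 := Q.lev_disj _ _ _ _ hi h5
    exact congrArg Subtype.val h6

/-- fibred pieces, positive at the old ends -/
theorem fib_pos {M : Type} [TopologicalSpace M] {J : Type} {T : Ended M J} {x y : J → ℝ}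
    {S : Type} [TopologicalSpace S] [ConnectedSpace S] {W : Type} [Finite W] [Nonempty W] {old : J → Prop}
    [Finite {j // ¬ old j}] (P : Crosses S {j // old j} W) {M₀ : Type}
    [TopologicalSpace M₀] [T2Space M₀] {T₀ : Ended M₀ {j // old j}} (Mt : MTorus P.E P.ψ T₀)
    {n : ℕ} {Nb : {j // ¬ old j} → Cylinder → M₀} {e : W → {j // ¬ old j}}
    {C : W → Set {j // ¬ old j}} (Q : FibCurves P Mt n Nb e C) (D : Drilled T₀ Nb T) (hold : ∀ j, old j → x j = 0 ∧ 0 < y j)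
    (hnew : ∀ k, ¬ old k → x k ≠ 0) (hy : ∀ b, y (e b).1 ≠ 0)
    (hxy : ∀ b, |y (e b).1| < |x (e b).1|) : Detected T x y := by
  have hlin : Linear T₀ (P.F Mt Q.n_pos) (fun j => x j) (fun j => y j) := by
    rintro j ⟨u, r, t⟩ - C hC hz
    have hcov : ∀ w : ℝ × Ioo (1 : ℝ) 2 × ℝ, T₀.cov j w =
        Mt.p (P.E.collar j ((w.1 : AddCircle (1 : ℝ)), w.2.1), w.2.2) := fun w => Mt.tor _ _ _ _
    simp only [hcov] at hz ⊢
    have hκ : Continuous fun w : ℝ × Ioo (1 : ℝ) 2 × ℝ =>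
        ((P.E.collar j ((w.1 : AddCircle (1 : ℝ)), w.2.1), w.2.2) : S × ℝ) := by
      refine ((P.E.emb j).continuous.comp ?_).prodMk (by fun_prop)
      exact ((AddCircle.continuous_mk' (1 : ℝ)).comp continuous_fst).prodMk (by fun_prop)
    have h1 := OrdEq.comp_cont (hκ.continuousAt (x := (u, r, t)))
      (Sus.fol_ord P.inv Q.n_pos Mt hC hz)
    refine h1.trans (OrdEq.of_comp (fun s => y j * s)
      (fun a b hab => mul_lt_mul_of_pos_left hab (hold j j.2).2) (Eventually.of_forall fun w => ?_))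
    show x j * w.1 + y j * w.2.2 = y j * Sus.tr P.c n (P.E.collar j ((u : Ci), r))
      (P.E.collar j ((w.1 : Ci), w.2.1), w.2.2)
    unfold Sus.tr Sus.df
    simp only
    rw [P.c_end, P.c_end, sub_self, cl_zero, fl_zero Q.n_pos, (hold j j.2).1]
    ring
  have hT : (P.F Mt Q.n_pos).Taut := by
    obtain ⟨b⟩ := ‹Nonempty W›
    exact Sus.fol_taut P.inv Q.n_pos Mt (P.id_w b ⟨(0, 0), Or.inl (by simp)⟩ (by simp))
  have hset : ∀ k, Q.nb k '' LG.solidTorus = Nb k '' LG.solidTorus := by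
    intro k
    refine image_congr fun z hz => Q.nb_eq k z ?_ ?_
    · have h3 : z.2.1 ^ 2 + (z.2.2 + 4) ^ 2 ≤ 1 := hz
      rw [abs_le]
      constructor <;> nlinarith [sq_nonneg (z.2.2 + 4)]
    · have h1 := LG.torus_bds hz
      rw [abs_le]
      constructor <;> linarith [h1.1, h1.2]
  let D' : Drilled T₀ Q.nb T :=
    { p := D.p
      emb := D.emb
      range_iff := by
        intro v
        rw [D.range_iff]
        refine forall_congr' fun k => ?_
        rw [hset]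
      old_tor := D.old_tor
      new_tor := by
        intro k θ r t
        have h2 := Real.neg_one_le_sin (2 * Real.pi * t)
        have h3 := Real.sin_le_one (2 * Real.pi * t)
        have h4 := r.2.1
        have h5 := r.2.2
        have h6 := Real.neg_one_le_cos (2 * Real.pi * t)
        have h7 := Real.cos_le_one (2 * Real.pi * t)
        rw [D.new_tor, Q.nb_eq]
        · show |(r : ℝ) * Real.cos (2 * Real.pi * t)| ≤ 2
          rw [abs_le]
          constructor <;> nlinarith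
        · show |-4 + (r : ℝ) * Real.sin (2 * Real.pi * t) + 4| ≤ 2
          rw [abs_le]
          constructor <;> nlinarith }
  exact TW.boxes (fun b => P.box Mt Q.n_pos b) hT hlin (Q.boxes fun k => hnew k.1 k.2) D'
    (fun b j _ => hnew j.1 j.2) hy hxy

/-- **Fibred pieces.** -/
theorem fib_detected {M : Type} [TopologicalSpace M] {J : Type} {T : Ended M J} {x y : J → ℝ}
    {S : Type} [TopologicalSpace S] [ConnectedSpace S] {W : Type} [Finite W] [Nonempty W] {old : J → Prop}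
    [Finite {j // ¬ old j}] (P : Crosses S {j // old j} W) {M₀ : Type}
    [TopologicalSpace M₀] [T2Space M₀] {T₀ : Ended M₀ {j // old j}} (Mt : MTorus P.E P.ψ T₀)
    {n : ℕ} {Nb : {j // ¬ old j} → Cylinder → M₀} {e : W → {j // ¬ old j}}
    {C : W → Set {j // ¬ old j}} (Q : FibCurves P Mt n Nb e C) (D : Drilled T₀ Nb T) (ε : ℝ) (hε : ε = 1 ∨ ε = -1)
    (hold : ∀ j, old j → x j = 0 ∧ 0 < ε * y j) (hnew : ∀ k, ¬ old k → x k ≠ 0)
    (hy : ∀ b, y (e b).1 ≠ 0) (hxy : ∀ b, |y (e b).1| < |x (e b).1|) : Detected T x y := by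
  rcases hε with rfl | rfl
  · exact fib_pos P Mt Q D (fun j hj => ⟨(hold j hj).1, by linarith [(hold j hj).2]⟩) hnew hy
      hxy
  · have h1 := fib_pos (x := fun j => -x j) (y := fun j => -y j) P Mt Q D
      (fun j hj => ⟨by rw [(hold j hj).1, neg_zero], by linarith [(hold j hj).2]⟩)
      (fun j hj => neg_ne_zero.2 (hnew j hj)) (fun b => neg_ne_zero.2 (hy b))
      (fun b => by rw [abs_neg, abs_neg]; exact hxy b)
    have h2 := h1.neg
    simp only [neg_neg] at h2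
    exact h2

end Pool.Agent.H.MP_1611f1_gt.TW
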