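import Pool.Agent.H.MP_1611f1_gt.TW.TB

/-!
The function `TT`.
-/

namespace Pool.Agent.H.MP_1611f1_gt.TW

open Topology Set Filter
open Pool.Agent.H.MP_1611f1_gt.BR.U (Ci)

theorem TC_cut_cont : Continuous LS.cut := by
  unfold LS.cut
  fun_prop

theorem TC_cut_mem (r : ℝ) : 0 ≤ LS.cut r ∧ LS.cut r ≤ 1 := by
  unfold LS.cut
  exact ⟨le_max_left _ _, max_le zero_le_one (min_le_left _ _)⟩

theorem TC_cut_zero {r : ℝ} (h : r ≤ 4 / 3) : LS.cut r = 0 := by
  unfold LS.cut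
  rw [min_eq_right (by linarith), max_eq_left (by linarith)]

theorem TC_cut_one {r : ℝ} (h : 5 / 3 ≤ r) : LS.cut r = 1 := by
  unfold LS.cut
  rw [min_eq_left (by linarith), max_eq_right (by linarith)]

theorem TC_r_cont : Continuous (fun z : ℝ × Ioo (1 : ℝ) 2 × ℝ => (z.2.1 : ℝ)) :=
  continuous_subtype_val.comp (continuous_fst.comp continuous_snd)

theorem TC_psi_cont : Continuous (fun z : ℝ × Ioo (1 : ℝ) 2 × ℝ => z.2.2) :=
  continuous_snd.comp continuous_snd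

theorem TC_plr_cont : Continuous plr := by
  have h1 := TC_r_cont
  have h2 := TC_psi_cont
  unfold plr
  exact continuous_fst.prodMk (((h1.mul (Real.continuous_cos.comp
    (continuous_const.mul h2))).div_const 16).prodMk
    ((h1.mul (Real.continuous_sin.comp (continuous_const.mul h2))).div_const 16))

theorem TC_small {r c : ℝ} (h1 : 1 < r) (h2 : r < 2) (hc : |c| ≤ 1) : |r * c / 16| < 1 / 8 := by
  rw [abs_div, abs_mul, abs_of_pos (by linarith : 0 < r), abs_of_pos (by norm_num : (0 : ℝ) < 16)]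
  have h0 := abs_nonneg c
  have h3 : r * |c| ≤ r := mul_le_of_le_one_right (by linarith) hc
  linarith

theorem TC_norm {x : ℝ} (h : |x| ≤ 1 / 2) : ‖(x : Ci)‖ = |x| := by
  rw [AddCircle.norm_coe_eq_abs_iff (1 : ℝ) one_ne_zero]
  simpa using h

theorem TC_sin (ψ : ℝ) :
    Real.sin (2 * Real.pi * ψ) = Real.sin (2 * Real.pi * Int.fract ψ) := by
  have h1 : 2 * Real.pi * ψ = 2 * Real.pi * Int.fract ψ + (⌊ψ⌋ : ℤ) * (2 * Real.pi) := by
    have := Int.floor_add_fract ψ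
    linear_combination (-(2 * Real.pi)) * this
  conv_lhs => rw [h1]
  exact Real.sin_add_int_mul_two_pi _ _

theorem TC_fract_pos {ψ : ℝ} (h : 0 < Real.sin (2 * Real.pi * ψ)) :
    0 < Int.fract ψ ∧ Int.fract ψ < 1 / 2 := by
  have hpi := Real.pi_pos
  rw [TC_sin] at h
  have h0 := Int.fract_nonneg ψ
  have h1 := Int.fract_lt_one ψ
  constructor
  · refine lt_of_le_of_ne h0 fun h2 => ?_
    rw [← h2, mul_zero, Real.sin_zero] at h
    exact lt_irrefl _ h
  · by_contra hcon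
    rw [not_lt] at hcon
    have h2 : Real.sin (2 * Real.pi * Int.fract ψ) = -Real.sin (2 * Real.pi * Int.fract ψ - Real.pi) := by
      rw [Real.sin_sub_pi, neg_neg]
    have h3 : 0 ≤ Real.sin (2 * Real.pi * Int.fract ψ - Real.pi) :=
      Real.sin_nonneg_of_nonneg_of_le_pi (by nlinarith) (by nlinarith)
    linarith

theorem TC_fract_neg {ψ : ℝ} (h : Real.sin (2 * Real.pi * ψ) < 0) : 1 / 2 < Int.fract ψ := by
  have hpi := Real.pi_pos
  rw [TC_sin] at h
  have h0 := Int.fract_nonneg ψ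
  by_contra hcon
  rw [not_lt] at hcon
  have h3 : 0 ≤ Real.sin (2 * Real.pi * Int.fract ψ) :=
    Real.sin_nonneg_of_nonneg_of_le_pi (by positivity) (by nlinarith)
  linarith

variable (P : Par)

theorem Par.TT_cont : Continuous P.TT := by
  have h1 := P.XX_cont
  have h2 : Continuous (fun z : ℝ × Ioo (1 : ℝ) 2 × ℝ => LS.cut (z.2.1 : ℝ)) :=
    TC_cut_cont.comp TC_r_cont
  unfold Par.TT
  exact (h2.mul h1).add ((continuous_const.sub h2).mul (by fun_prop))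

theorem Par.TT_lt {θ θ' ψ : ℝ} {r : Ioo (1 : ℝ) 2} (h : θ < θ') (hr : (r : ℝ) < 11 / 6) :
    P.TT (θ, r, ψ) < P.TT (θ', r, ψ) := by
  have h1 := P.XX_lt (ψ := ψ) h hr
  have h2 := TC_cut_mem (r : ℝ)
  unfold Par.TT
  simp only
  rcases eq_or_lt_of_le h2.1 with h3 | h3
  · rw [← h3]
    linarith
  · have h4 := mul_lt_mul_of_pos_left h1 h3
    have h5 : (1 - LS.cut (r : ℝ)) * (θ - P.μ * ψ) ≤ (1 - LS.cut (r : ℝ)) * (θ' - P.μ * ψ) :=
      mul_le_mul_of_nonneg_left (by linarith) (by linarith [h2.2])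
    linarith

theorem Par.TT_add (θ ψ : ℝ) (r : Ioo (1 : ℝ) 2) (m n : ℤ) :
    P.TT (θ + m, r, ψ + n) = P.TT (θ, r, ψ) + (m - P.μ * n) := by
  unfold Par.TT
  simp only
  rw [P.XX_add]
  ring

theorem Par.TT_lin {z : ℝ × Ioo (1 : ℝ) 2 × ℝ} (h : (z.2.1 : ℝ) ≤ 4 / 3) :
    P.TT z = z.1 - P.μ * z.2.2 := by
  unfold Par.TT
  rw [TC_cut_zero h]
  ring

theorem Par.TT_far {z : ℝ × Ioo (1 : ℝ) 2 × ℝ} (h : 5 / 3 ≤ (z.2.1 : ℝ)) : P.TT z = P.XX z := by
  unfold Par.TT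
  rw [TC_cut_one h]
  ring

/-- `TT` and `E0` for `r > 5/3`. The point `tr m n k (plr z)` is in `XW`; so `n = 0`, and `k = 0` if `sin > 0`, `k = 1` if `sin < 0` (`sin = 0` is impossible). PROOF: near `z` the floor
of `ψ` is constant and `XX = tmi (E0 (plr w)) - c` or `XX = E0 (tr 0 0 1 (plr w)) - c`; `E0_add`; `OrdEq.of_comp`. -/
theorem Par.TT_W {z : ℝ × Ioo (1 : ℝ) 2 × ℝ} (hz : 5 / 3 < (z.2.1 : ℝ)) {m n k : ℤ}
    (h : tr m n k (plr z) ∈ XW) : OrdEq z (fun w => P.E0 (tr m n k (plr w))) P.TT := by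
  obtain ⟨-, hb, ht0, ht1, -⟩ := h
  have hr1 : (1 : ℝ) < z.2.1 := z.2.1.2.1
  have hr2 : (z.2.1 : ℝ) < 2 := z.2.1.2.2
  have hcos := Real.abs_cos_le_one (2 * Real.pi * z.2.2)
  have hsin := Real.abs_sin_le_one (2 * Real.pi * z.2.2)
  have hb' : |(z.2.1 : ℝ) * Real.cos (2 * Real.pi * z.2.2) / 16| < 1 / 8 := TC_small hr1 hr2 hcos
  have ht' : |(z.2.1 : ℝ) * Real.sin (2 * Real.pi * z.2.2) / 16| < 1 / 8 := TC_small hr1 hr2 hsin
  have hb2 : |(z.2.1 : ℝ) * Real.cos (2 * Real.pi * z.2.2) / 16 + n| < 3 / 16 := hb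
  have ht2 : 0 < (z.2.1 : ℝ) * Real.sin (2 * Real.pi * z.2.2) / 16 + k := ht0
  have ht3 : (z.2.1 : ℝ) * Real.sin (2 * Real.pi * z.2.2) / 16 + k < 1 := ht1
  obtain ⟨b1, b2⟩ := abs_lt.1 hb'
  obtain ⟨b3, b4⟩ := abs_lt.1 hb2
  obtain ⟨t1, t2⟩ := abs_lt.1 ht'
  have hn : n = 0 := by
    have h1 : (n : ℝ) < 1 := by linarith
    have h2 : (-1 : ℝ) < n := by linarith
    have h3 : n < 1 := by exact_mod_cast h1
    have h4 : -1 < n := by exact_mod_cast h2
    omega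
  have hk : k = 0 ∨ k = 1 := by
    have h1 : (k : ℝ) < 2 := by linarith
    have h2 : (-1 : ℝ) < k := by linarith
    have h3 : k < 2 := by exact_mod_cast h1
    have h4 : -1 < k := by exact_mod_cast h2
    omega
  subst hn
  have hfar : ∀ᶠ w : ℝ × Ioo (1 : ℝ) 2 × ℝ in 𝓝 z, 5 / 3 < (w.2.1 : ℝ) :=
    (continuousAt_const).eventually_lt TC_r_cont.continuousAt hz
  rcases hk with hk | hk
  · subst hk
    have hs : 0 < Real.sin (2 * Real.pi * z.2.2) := by
      by_contra hcon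
      rw [not_lt] at hcon
      have : (z.2.1 : ℝ) * Real.sin (2 * Real.pi * z.2.2) ≤ 0 :=
        mul_nonpos_of_nonneg_of_nonpos (by linarith) hcon
      push_cast at ht2
      linarith
    obtain ⟨f1, f2⟩ := TC_fract_pos hs
    obtain ⟨c, hc⟩ : ∃ c, c = ⌊z.2.2⌋ := ⟨_, rfl⟩
    have hI : z.2.2 ∈ Ioo (c : ℝ) (c + 1 / 2) := by
      rw [hc]
      have := Int.floor_add_fract z.2.2
      constructor <;> linarith
    refine OrdEq.of_comp (fun y => P.tmi (y - m) - P.μ * c) (fun x y hxy => ?_) ?_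
    · have := P.tmi_mono (show x - m < y - m by linarith)
      simp only
      linarith
    · have hψ : ∀ᶠ w : ℝ × Ioo (1 : ℝ) 2 × ℝ in 𝓝 z, w.2.2 ∈ Ioo (c : ℝ) (c + 1 / 2) :=
        TC_psi_cont.continuousAt.preimage_mem_nhds (isOpen_Ioo.mem_nhds hI)
      filter_upwards [hfar, hψ] with w hw hw'
      rw [P.TT_far hw.le, P.E0_add]
      have h1 : ⌊w.2.2⌋ = c := by
        rw [Int.floor_eq_iff]
        exact ⟨hw'.1.le, by linarith [hw'.2]⟩
      have h2 : Int.fract w.2.2 ≤ 1 / 2 := by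
        unfold Int.fract
        rw [h1]
        linarith [hw'.2]
      unfold Par.XX
      rw [if_pos h2, h1, add_sub_cancel_right]
  · subst hk
    have hs : Real.sin (2 * Real.pi * z.2.2) < 0 := by
      by_contra hcon
      rw [not_lt] at hcon
      have : 0 ≤ (z.2.1 : ℝ) * Real.sin (2 * Real.pi * z.2.2) :=
        mul_nonneg (by linarith) hcon
      push_cast at ht3
      linarith
    have f1 := TC_fract_neg hs
    obtain ⟨c, hc⟩ : ∃ c, c = ⌊z.2.2⌋ := ⟨_, rfl⟩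
    have hI : z.2.2 ∈ Ioo ((c : ℝ) + 1 / 2) (c + 1) := by
      rw [hc]
      have h1 := Int.floor_add_fract z.2.2
      have h2 := Int.fract_lt_one z.2.2
      constructor <;> linarith
    refine OrdEq.of_comp (fun y => y - m - P.μ * c) (fun x y hxy => ?_) ?_
    · simp only
      linarith
    · have hψ : ∀ᶠ w : ℝ × Ioo (1 : ℝ) 2 × ℝ in 𝓝 z, w.2.2 ∈ Ioo ((c : ℝ) + 1 / 2) (c + 1) :=
        TC_psi_cont.continuousAt.preimage_mem_nhds (isOpen_Ioo.mem_nhds hI)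
      filter_upwards [hfar, hψ] with w hw hw'
      have h0 : tr m 0 1 (plr w) = tr m 0 0 (tr 0 0 1 (plr w)) := by
        unfold tr
        simp only [Int.cast_zero, add_zero]
      rw [P.TT_far hw.le, h0, P.E0_add]
      have h1 : ⌊w.2.2⌋ = c := by
        rw [Int.floor_eq_iff]
        exact ⟨by linarith [hw'.1], hw'.2⟩
      have h2 : ¬ (Int.fract w.2.2 ≤ 1 / 2) := by
        unfold Int.fract
        rw [h1, not_le]
        linarith [hw'.1]
      unfold Par.XX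
      rw [if_neg h2, h1, add_sub_cancel_right]

/-- `TT` and `yy` for `r > 5/3` and `‖b‖ > 1/16`. PROOF: `r cos < -1` or `1 < r cos`; near `z`: `XX_left` (the floor is constant near `z`: `ψ` is not an integer) or `XX_right` (`n` the
nearest integer); `yy_tr_ord` and `OrdEq.of_comp`. -/
theorem Par.TT_S {z : ℝ × Ioo (1 : ℝ) 2 × ℝ} (hz : 5 / 3 < (z.2.1 : ℝ)) {m n k : ℤ}
    (h : tr m n k (plr z) ∈ XS) : OrdEq z (fun w => yy (tr m n k (plr w))) P.TT := by
  obtain ⟨-, hb, -⟩ := h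
  have hr1 : (1 : ℝ) < z.2.1 := z.2.1.2.1
  have hr2 : (z.2.1 : ℝ) < 2 := z.2.1.2.2
  have hcos := Real.abs_cos_le_one (2 * Real.pi * z.2.2)
  have hb' : |(z.2.1 : ℝ) * Real.cos (2 * Real.pi * z.2.2) / 16| < 1 / 8 := TC_small hr1 hr2 hcos
  have hb2 : 1 / 16 < ‖(((z.2.1 : ℝ) * Real.cos (2 * Real.pi * z.2.2) / 16 + n : ℝ) : Ci)‖ := hb
  have hb3 : 1 < |(z.2.1 : ℝ) * Real.cos (2 * Real.pi * z.2.2)| := by
    have h1 : (((z.2.1 : ℝ) * Real.cos (2 * Real.pi * z.2.2) / 16 + n : ℝ) : Ci) =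
        (((z.2.1 : ℝ) * Real.cos (2 * Real.pi * z.2.2) / 16 : ℝ) : Ci) := by
      rw [AddCircle.coe_add]
      have h5 : ((n : ℝ) : Ci) = 0 := (AddCircle.coe_eq_zero_iff (1 : ℝ)).2 ⟨n, by simp⟩
      rw [h5, add_zero]
    rw [h1, TC_norm (by linarith), abs_div, abs_of_pos (by norm_num : (0 : ℝ) < 16)] at hb2
    linarith
  have hfar : ∀ᶠ w : ℝ × Ioo (1 : ℝ) 2 × ℝ in 𝓝 z, 5 / 3 < (w.2.1 : ℝ) :=
    (continuousAt_const).eventually_lt TC_r_cont.continuousAt hz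
  have hcc : Continuous (fun w : ℝ × Ioo (1 : ℝ) 2 × ℝ =>
      (w.2.1 : ℝ) * Real.cos (2 * Real.pi * w.2.2)) :=
    TC_r_cont.mul (Real.continuous_cos.comp (continuous_const.mul TC_psi_cont))
  have hord : OrdEq z (fun w => yy (tr m n k (plr w))) (fun w => yy (plr w)) :=
    (yy_tr_ord m n k (plr z)).comp_cont TC_plr_cont.continuousAt
  refine hord.trans ?_
  rcases lt_abs.1 hb3 with h1 | h1
  · -- on the right side
    obtain ⟨n', hn'⟩ : ∃ n' : ℤ, |z.2.2 - n'| < 1 / 2 := by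
      refine ⟨round z.2.2, lt_of_le_of_ne (abs_sub_round _) fun h2 => ?_⟩
      have h3 : Real.cos (2 * Real.pi * z.2.2) = -1 := by
        rcases (abs_eq (by norm_num : (0 : ℝ) ≤ 1 / 2)).1 h2 with h4 | h4
        · rw [show 2 * Real.pi * z.2.2 = Real.pi + (round z.2.2) * (2 * Real.pi) by
            have : z.2.2 = 1 / 2 + round z.2.2 := by linarith
            linear_combination (2 * Real.pi) * this]
          rw [Real.cos_add_int_mul_two_pi, Real.cos_pi]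
        · rw [show 2 * Real.pi * z.2.2 = -Real.pi + (round z.2.2) * (2 * Real.pi) by
            have : z.2.2 = -(1 / 2) + round z.2.2 := by linarith
            linear_combination (2 * Real.pi) * this]
          rw [Real.cos_add_int_mul_two_pi, Real.cos_neg, Real.cos_pi]
      rw [h3] at h1
      linarith
    refine OrdEq.of_comp (fun y => P.ep (T0.symm y) + P.μ - P.μ * n') (fun x y hxy => ?_) ?_
    · have := P.ep.strictMono (T0.symm.strictMono hxy)
      simp only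
      linarith
    · have e1 : ∀ᶠ w : ℝ × Ioo (1 : ℝ) 2 × ℝ in 𝓝 z,
          1 < (w.2.1 : ℝ) * Real.cos (2 * Real.pi * w.2.2) :=
        (continuousAt_const).eventually_lt hcc.continuousAt h1
      have e2 : ∀ᶠ w : ℝ × Ioo (1 : ℝ) 2 × ℝ in 𝓝 z, |w.2.2 - n'| < 1 / 2 :=
        (TC_psi_cont.sub continuous_const).abs.continuousAt.eventually_lt continuousAt_const hn'
      filter_upwards [hfar, e1, e2] with w hw hw1 hw2
      rw [P.TT_far hw.le, P.XX_right hw1.le hw2]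
  · have h1' : (z.2.1 : ℝ) * Real.cos (2 * Real.pi * z.2.2) < -1 := by linarith
    obtain ⟨c, hc⟩ : ∃ c, c = ⌊z.2.2⌋ := ⟨_, rfl⟩
    have hI : z.2.2 ∈ Ioo (c : ℝ) (c + 1) := by
      rw [hc]
      have h2 := Int.floor_add_fract z.2.2
      have h3 := Int.fract_lt_one z.2.2
      refine ⟨lt_of_le_of_ne (Int.floor_le _) fun h4 => ?_, by linarith⟩
      have h5 : Real.cos (2 * Real.pi * z.2.2) = 1 := by
        rw [← h4, show 2 * Real.pi * ((⌊z.2.2⌋ : ℤ) : ℝ) = 0 + (⌊z.2.2⌋ : ℤ) * (2 * Real.pi) by ring,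
          Real.cos_add_int_mul_two_pi, Real.cos_zero]
      rw [h5] at h1'
      linarith
    refine OrdEq.of_comp (fun y => P.em (T0.symm y) - P.μ * c) (fun x y hxy => ?_) ?_
    · have := P.em.strictMono (T0.symm.strictMono hxy)
      simp only
      linarith
    · have e1 : ∀ᶠ w : ℝ × Ioo (1 : ℝ) 2 × ℝ in 𝓝 z,
          (w.2.1 : ℝ) * Real.cos (2 * Real.pi * w.2.2) < -1 :=
        hcc.continuousAt.eventually_lt continuousAt_const h1'
      have hψ : ∀ᶠ w : ℝ × Ioo (1 : ℝ) 2 × ℝ in 𝓝 z, w.2.2 ∈ Ioo (c : ℝ) (c + 1) :=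
        TC_psi_cont.continuousAt.preimage_mem_nhds (isOpen_Ioo.mem_nhds hI)
      filter_upwards [hfar, e1, hψ] with w hw hw1 hw2
      have h6 : ⌊w.2.2⌋ = c := by
        rw [Int.floor_eq_iff]
        exact ⟨hw2.1.le, hw2.2⟩
      rw [P.TT_far hw.le, P.XX_left hw1.le, h6]

end Pool.Agent.H.MP_1611f1_gt.TW
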