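import Pool.Agent.H.MP_1611f1_gt.TW.LoC
import Pool.Agent.H.MP_1611f1_gt.TW.TC

/-!
The families, and the comparison of functions on the coverings.
-/

namespace Pool.Agent.H.MP_1611f1_gt.TW

open Topology Set Filter
open Pool.Agent.H.MP_1611f1_gt.BR.U (Ci)

variable {M : Type} [TopologicalSpace M] {N : Ci × Ci × Ci → M}
  (hN : IsOpenEmbedding (VV.domRestrict N))

/-- the family of a function on the universal cover -/
noncomputable def famU (X : Set (ℝ × ℝ × ℝ)) (hX : IsOpen X) (D : ℝ × ℝ × ℝ → ℝ) : Fam M where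
  Z := UU
  top := inferInstance
  R := fun z => N (cov z.1)
  loc := RU_loc hN
  X := {z | z.1 ∈ X}
  opn := hX.preimage continuous_subtype_val
  D := fun z => D z.1

/-- the family near the tube -/
noncomputable def famT (P : Par) : Fam M where
  Z := ℝ × Ioo (1 : ℝ) 2 × ℝ
  top := inferInstance
  R := fun z => N (cov (plr z))
  loc := RT_loc hN
  X := XT
  opn := XT_open
  D := P.TT

/-- a chart of the old foliation, outside of `C` -/
def famF (c : OpenPartialHomeomorph M ((ℝ × ℝ) × ℝ)) {C : Set M} (hC : IsClosed C) : Fam M where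
  Z := M
  top := inferInstance
  R := fun y => y
  loc := (Homeomorph.refl M).isLocalHomeomorph
  X := c.source \ C
  opn := c.open_source.sdiff hC
  D := fun y => (c y).2

private theorem CU_mapU {X X' : Set (ℝ × ℝ × ℝ)} {hX : IsOpen X} {hX' : IsOpen X'} {D D' : ℝ × ℝ × ℝ → ℝ}
    (h : ∀ z ∈ X, ∀ m n k : ℤ, tr m n k z ∈ X' → OrdEq z (fun w => D' (tr m n k w)) D) :
    ∀ z ∈ (famU hN X' hX' D').X, ∀ z' ∈ (famU hN X hX D).X, (famU hN X' hX' D').R z = (famU hN X hX D).R z' →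
      ∃ σ : (famU hN X hX D).Z → (famU hN X' hX' D').Z, ContinuousAt σ z' ∧ σ z' = z ∧
      (∀ᶠ w in 𝓝 z', (famU hN X' hX' D').R (σ w) = (famU hN X hX D).R w) ∧
      OrdEq z' (fun w => (famU hN X' hX' D').D (σ w)) (famU hN X hX D).D := by
  rintro ⟨z, hzV⟩ hz ⟨z', hzV'⟩ hz' hzz
  have h1 : cov z = cov z' := N_inj hN hzV hzV' hzz
  obtain ⟨m, n, k, hmnk⟩ := exists_tr h1
  have hσ : ∀ w : UU, cov (tr m n k w.1) ∈ VV := fun w => by
    rw [cov_tr]
    exact w.2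
  have hc : Continuous fun w : UU => (⟨tr m n k w.1, hσ w⟩ : UU) :=
    ((tr_cont m n k).comp continuous_subtype_val).subtype_mk _
  refine ⟨fun w : UU => (⟨tr m n k w.1, hσ w⟩ : UU), hc.continuousAt, Subtype.ext hmnk.symm,
    Eventually.of_forall fun w => ?_, ?_⟩
  · show N (cov (tr m n k w.1)) = N (cov w.1)
    rw [cov_tr]
  · have hzX : z' ∈ X := hz'
    have hzX' : tr m n k z' ∈ X' := by
      rw [← hmnk]
      exact hz
    exact OrdEq.comp_cont (R := (Subtype.val : UU → ℝ × ℝ × ℝ)) (z₀ := (⟨z', hzV'⟩ : UU))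
      continuous_subtype_val.continuousAt (h z' hzX m n k hzX')

private theorem CU_mapT (P : Par) {X : Set (ℝ × ℝ × ℝ)} {hX : IsOpen X} {D : ℝ × ℝ × ℝ → ℝ}
    (h : ∀ z ∈ XT, ∀ m n k : ℤ, tr m n k (plr z) ∈ X →
      OrdEq z (fun w => D (tr m n k (plr w))) P.TT) :
    ∀ z ∈ (famU hN X hX D).X, ∀ z' ∈ (famT hN P).X, (famU hN X hX D).R z = (famT hN P).R z' →
      ∃ σ : (famT hN P).Z → (famU hN X hX D).Z, ContinuousAt σ z' ∧ σ z' = z ∧
      (∀ᶠ w in 𝓝 z', (famU hN X hX D).R (σ w) = (famT hN P).R w) ∧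
      OrdEq z' (fun w => (famU hN X hX D).D (σ w)) (famT hN P).D := by
  rintro ⟨z, hzV⟩ hz z' hz' hzz
  have h1 : cov z = cov (plr z') := N_inj hN hzV (plr_VV z') hzz
  obtain ⟨m, n, k, hmnk⟩ := exists_tr h1
  have hσ : ∀ w : ℝ × Ioo (1 : ℝ) 2 × ℝ, cov (tr m n k (plr w)) ∈ VV := fun w => by
    rw [cov_tr]
    exact plr_VV w
  have hc : Continuous fun w : ℝ × Ioo (1 : ℝ) 2 × ℝ => (⟨tr m n k (plr w), hσ w⟩ : UU) :=
    ((tr_cont m n k).comp plr_cont).subtype_mk _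
  refine ⟨fun w => (⟨tr m n k (plr w), hσ w⟩ : UU), hc.continuousAt, Subtype.ext hmnk.symm,
    Eventually.of_forall fun w => ?_, ?_⟩
  · show N (cov (tr m n k (plr w))) = N (cov (plr w))
    rw [cov_tr]
  · have hzX : tr m n k (plr z') ∈ X := by
      rw [← hmnk]
      exact hz
    exact h z' hz' m n k hzX

/-- PROOF: `cmp_of_map` with `σ w = ⟨tr m n k w, _⟩` (`exists_tr`, `N_inj`, `cov_tr`). -/
theorem cmp_U {X X' : Set (ℝ × ℝ × ℝ)} {hX : IsOpen X} {hX' : IsOpen X'} {D D' : ℝ × ℝ × ℝ → ℝ}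
    (h : ∀ z ∈ X, ∀ m n k : ℤ, tr m n k z ∈ X' → OrdEq z (fun w => D' (tr m n k w)) D) :
    Cmp (famU hN X' hX' D') (famU hN X hX D) ∧ Cmp (famU hN X hX D) (famU hN X' hX' D') :=
  ⟨cmp_of_map (CU_mapU hN h), cmp_of_map' (CU_mapU hN h)⟩

/-- PROOF: `cmp_of_map`, `cmp_of_map'` with `σ w = ⟨tr m n k (plr w), _⟩`. -/
theorem cmp_TU (P : Par) {X : Set (ℝ × ℝ × ℝ)} {hX : IsOpen X} {D : ℝ × ℝ × ℝ → ℝ}
    (h : ∀ z ∈ XT, ∀ m n k : ℤ, tr m n k (plr z) ∈ X →
      OrdEq z (fun w => D (tr m n k (plr w))) P.TT) :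
    Cmp (famU hN X hX D) (famT hN P) ∧ Cmp (famT hN P) (famU hN X hX D) :=
  ⟨cmp_of_map (CU_mapT hN P h), cmp_of_map' (CU_mapT hN P h)⟩

/-- PROOF: `plr_eq`, `cmp_of_map` with `σ w = (w.1 + m, w.2.1, w.2.2 + n)`, `plr_add`, `cov_tr`, `TT_add`. -/
theorem cmp_TT (P : Par) : Cmp (famT hN P) (famT hN P) := by
  refine cmp_of_map ?_
  intro z hz z' hz' hzz
  have h1 : cov (plr z) = cov (plr z') := N_inj hN (plr_VV z) (plr_VV z') hzz
  obtain ⟨m, n, hmn⟩ := plr_eq h1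
  have hc : Continuous fun w : ℝ × Ioo (1 : ℝ) 2 × ℝ => (w.1 + (m : ℝ), w.2.1, w.2.2 + (n : ℝ)) := by
    fun_prop
  refine ⟨fun w => (w.1 + (m : ℝ), w.2.1, w.2.2 + (n : ℝ)), hc.continuousAt, hmn.symm,
    Eventually.of_forall fun w => ?_, ?_⟩
  · show N (cov (plr (w.1 + (m : ℝ), w.2.1, w.2.2 + (n : ℝ)))) = N (cov (plr w))
    have e : cov (plr (w.1 + (m : ℝ), w.2.1, w.2.2 + (n : ℝ))) = cov (plr w) := by
      rw [plr_add, cov_tr]
      rfl
    rw [e]
  · refine OrdEq.symm (OrdEq.of_comp (fun s => s + (m - P.μ * n)) (fun a b hab => by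
      show a + _ < b + _
      linarith) (Eventually.of_forall fun w => ?_))
    exact P.TT_add w.1 w.2.2 w.2.1 m n

/-- PROOF: `F.compat` -/
theorem cmp_FF (F : Foliation M) {C : Set M} (hC : IsClosed C)
    {c c' : OpenPartialHomeomorph M ((ℝ × ℝ) × ℝ)} (hc : c ∈ F.charts) (hc' : c' ∈ F.charts) :
    Cmp (famF c hC) (famF c' hC) := by
  intro z hz z' hz' hzz f hf
  have hzz' : z = z' := hzz
  subst hzz'
  have h1 : OrdEq z (fun y => (c y).2) (fun y => (c' y).2) := F.compat c hc c' hc' z hz.1 hz'.1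
  exact OrdEq.trans hf h1

/-- PROOF: a point of `famF` over a point `N (cov z)`, `z ∈ X`, is outside of `N '' CC`, so `cov z ∉ CC`. If `f` has the order of `c` at `N (cov z)` then
`f (N (cov w))` has the order of `(c (N (cov w))).2`, of `w.2.2` (`B.fol`), of `D`, as functions on `ℝ × ℝ × ℝ`, and so on `UU` (`OrdEq.comp_cont` with
`Subtype.val`). Conversely: `OrdEq.of_openMap` for the open map `RU_loc`. -/
theorem cmp_FU {F : Foliation M} (B : Box F N) (hC : IsClosed (N '' CC))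
    {c : OpenPartialHomeomorph M ((ℝ × ℝ) × ℝ)} (hc : c ∈ F.charts) {X : Set (ℝ × ℝ × ℝ)}
    {hX : IsOpen X} {D : ℝ × ℝ × ℝ → ℝ}
    (h : ∀ z ∈ X, cov z ∉ CC → OrdEq z (fun w => w.2.2) D) :
    Cmp (famF c hC) (famU hN X hX D) ∧ Cmp (famU hN X hX D) (famF c hC) := by
  have key : ∀ z : UU, z.1 ∈ X → N (cov z.1) ∈ c.source \ N '' CC →
      OrdEq z (fun w : UU => (c (N (cov w.1))).2) (fun w : UU => D w.1) := by
    intro z hz hc'
    have h1 : cov z.1 ∉ CC := fun h2 => hc'.2 ⟨_, h2, rfl⟩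
    exact OrdEq.comp_cont (R := (Subtype.val : UU → ℝ × ℝ × ℝ)) (z₀ := z)
      continuous_subtype_val.continuousAt ((B.fol z.1 z.2 c hc hc'.1).trans (h z.1 hz h1))
  constructor
  · intro z hz z' hz' hzz f hf
    have hzz' : z = N (cov z'.1) := hzz
    subst hzz'
    have h1 : OrdEq z' (fun w : UU => f (N (cov w.1))) (fun w : UU => (c (N (cov w.1))).2) :=
      OrdEq.comp_cont (R := fun w : UU => N (cov w.1)) (z₀ := z') (RU_loc hN).continuous.continuousAt hf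
    exact h1.trans (key z' hz' hz)
  · intro z' hz' z hz hzz f hf
    have hzz' : N (cov z'.1) = z := hzz
    subst hzz'
    have h1 : OrdEq z' (fun w : UU => f (N (cov w.1))) (fun w : UU => (c (N (cov w.1))).2) :=
      OrdEq.trans hf (key z' hz' hz).symm
    exact OrdEq.of_openMap (R := fun w : UU => N (cov w.1)) (RU_loc hN).isOpenMap (z₀ := z')
      (f := f) (g := fun y => (c y).2) h1

/-- (there are no such points, `plr_CC`) -/
theorem cmp_FT (P : Par) (hC : IsClosed (N '' CC)) (c : OpenPartialHomeomorph M ((ℝ × ℝ) × ℝ)) :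
    Cmp (famF c hC) (famT hN P) ∧ Cmp (famT hN P) (famF c hC) := by
  constructor
  · intro z hz z' _ hzz
    have hzz' : z = N (cov (plr z')) := hzz
    exact absurd ⟨_, plr_CC z', hzz'.symm⟩ hz.2
  · intro z' _ z hz hzz
    have hzz' : N (cov (plr z')) = z := hzz
    exact absurd ⟨_, plr_CC z', hzz'⟩ hz.2

end Pool.Agent.H.MP_1611f1_gt.TW
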