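import Pool.Agent.H.MP_1611f1_gt.TW.CU

/-!
Charts for the families.
-/

namespace Pool.Agent.H.MP_1611f1_gt.TW

open Topology Set Filter
open Pool.Agent.H.MP_1611f1_gt.BR.U (Ci)

variable {M : Type} [TopologicalSpace M] {N : Ci × Ci × Ci → M}
  (hN : IsOpenEmbedding (VV.domRestrict N))

/-- PROOF: `exists_zeta_3` composed with the open embedding `Subtype.val : UU → ℝ × ℝ × ℝ` (as `zeta_open` in Fam.lean). -/
theorem exists_zeta_U : ∃ ζ ζ' : OpenPartialHomeomorph UU ((ℝ × ℝ) × ℝ),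
    ζ.source = univ ∧ (∀ z, ζ z = ((z.1.2.1, z.1.2.2), z.1.1)) ∧
    ζ'.source = univ ∧ ∀ z, ζ' z = ((z.1.1, z.1.2.1), z.1.2.2) := by
  obtain ⟨ζ, ζ', h1, h2, h3, h4⟩ := exists_zeta_3
  have ho : IsOpen {z : ℝ × ℝ × ℝ | cov z ∈ VV} := VV_open.preimage cov_loc.continuous
  have hemb : IsOpenEmbedding (Subtype.val : UU → ℝ × ℝ × ℝ) := ho.isOpenEmbedding_subtypeVal
  have hmem : cov ((0 : ℝ), (0 : ℝ), (0 : ℝ)) ∈ VV := by
    refine Or.inl ?_
    show ‖((0 : ℝ) : Ci)‖ < 1 / 4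
    have h0 : ((0 : ℝ) : Ci) = 0 := rfl
    rw [h0, norm_zero]
    norm_num
  have hne : Nonempty UU := ⟨⟨_, hmem⟩⟩
  refine ⟨(hemb.toOpenPartialHomeomorph _).trans ζ, (hemb.toOpenPartialHomeomorph _).trans ζ',
    ?_, fun z => ?_, ?_, fun z => ?_⟩
  · rw [OpenPartialHomeomorph.trans_source, h1]
    simp
  · exact h2 z.1
  · rw [OpenPartialHomeomorph.trans_source, h3]
    simp
  · exact h4 z.1

/-- GENERAL CRITERION for a function `D` which is strictly increasing in `yy` for fixed `b`. PROOF: if `ff a₀` is not an integer: `hasChart_of_mono` with `ζ` and the open set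
`{w | ff w.1 ∉ ℤ}` (`ff_lt`, `yy_lt`). If `ff a₀ = n`: `ζ'` and the open set `{w | |ff w.1 - n| < 1/10}` (`yy_lt_t`). -/
theorem chart_U {X : Set (ℝ × ℝ × ℝ)} {hX : IsOpen X} {D : ℝ × ℝ × ℝ → ℝ} (hD : Continuous D)
    (h : ∀ z z' : ℝ × ℝ × ℝ, z.2.1 = z'.2.1 → yy z < yy z' → D z < D z') (z : UU) (hz : z.1 ∈ X) :
    HasChart (famU hN X hX D) z := by
  obtain ⟨ζ, ζ', h1, h2, h3, h4⟩ := exists_zeta_U
  have hDc : Continuous (fun w : UU => D w.1) := hD.comp continuous_subtype_val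
  have hff : Continuous (fun w : UU => ff w.1.1) :=
    ff_cont.comp (continuous_fst.comp continuous_subtype_val)
  by_cases hn : ∃ n : ℤ, ff z.1.1 = n
  · obtain ⟨n, hn⟩ := hn
    have key : ∀ w w' : UU, |ff w.1.1 - n| < 1 / 10 → (ζ' w).1 = (ζ' w').1 →
        (ζ' w).2 < (ζ' w').2 → D w.1 < D w'.1 := by
      intro w w' hw he hlt
      rw [h4, h4] at he hlt
      obtain ⟨⟨a, b, t⟩, hwV⟩ := w
      obtain ⟨⟨a', b', t'⟩, hwV'⟩ := w'
      simp only [Prod.mk.injEq] at he hlt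
      obtain ⟨rfl, rfl⟩ := he
      exact h _ _ rfl (yy_lt_t (le_of_lt hw) hlt)
    refine hasChart_of_mono (famU hN X hX D) hz ζ' (by rw [h3]; exact mem_univ _)
      (N := {w : UU | |ff w.1.1 - n| < 1 / 10}) ?_ ?_ hDc.continuousOn ?_
    · exact isOpen_lt (hff.sub continuous_const).abs continuous_const
    · show |ff z.1.1 - n| < 1 / 10
      rw [hn, sub_self, abs_zero]
      norm_num
    · intro w hw w' _ _ _ he hlt
      exact key w w' hw he hlt
  · have key : ∀ w w' : UU, ff w.1.1 ∉ range ((↑) : ℤ → ℝ) → (ζ w).1 = (ζ w').1 →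
        (ζ w).2 < (ζ w').2 → D w.1 < D w'.1 := by
      intro w w' hw he hlt
      rw [h2, h2] at he hlt
      obtain ⟨⟨a, b, t⟩, hwV⟩ := w
      obtain ⟨⟨a', b', t'⟩, hwV'⟩ := w'
      simp only [Prod.mk.injEq] at he hlt
      obtain ⟨rfl, rfl⟩ := he
      exact h _ _ rfl (yy_lt hlt (Or.inl (ff_lt hlt fun n hn' => hw ⟨n, hn'.symm⟩)))
    refine hasChart_of_mono (famU hN X hX D) hz ζ (by rw [h1]; exact mem_univ _)
      (N := {w : UU | ff w.1.1 ∉ range ((↑) : ℤ → ℝ)}) ?_ ?_ hDc.continuousOn ?_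
    · exact (Int.isClosedEmbedding_coe_real.isClosed_range.isOpen_compl).preimage hff
    · rintro ⟨n, hn'⟩
      exact hn ⟨n, hn'.symm⟩
    · intro w hw w' _ _ _ he hlt
      exact key w w' hw he hlt

/-- PROOF: `exists_zeta_th`, `TT_lt`, `TT_cont` on the open set `XT`. -/
theorem chart_T (P : Par) (z : ℝ × Ioo (1 : ℝ) 2 × ℝ) (hz : z ∈ XT) :
    HasChart (famT hN P) z := by
  obtain ⟨ζ, h1, h2⟩ := exists_zeta_th
  have key : ∀ w w' : ℝ × Ioo (1 : ℝ) 2 × ℝ, (w.2.1 : ℝ) < 11 / 6 → (ζ w).1 = (ζ w').1 →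
      (ζ w).2 < (ζ w').2 → P.TT w < P.TT w' := by
    intro w w' hw he hlt
    rw [h2, h2] at he hlt
    obtain ⟨θ, r, ψ⟩ := w
    obtain ⟨θ', r', ψ'⟩ := w'
    simp only [Prod.mk.injEq] at he hlt
    obtain ⟨e1, rfl⟩ := he
    have e2 : r = r' := Subtype.ext e1
    subst e2
    exact P.TT_lt hlt hw
  refine hasChart_of_mono (famT hN P) hz ζ (by rw [h1]; exact mem_univ _) (N := XT) XT_open hz
    P.TT_cont.continuousOn ?_
  intro w hw w' _ _ _ he hlt
  exact key w w' hw he hlt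

/-- PROOF: the chart `c` restricted to the open set `c.source \ C` (`OpenPartialHomeomorph.restrOpen`). -/
theorem chart_F (c : OpenPartialHomeomorph M ((ℝ × ℝ) × ℝ)) {C : Set M} (hC : IsClosed C) (y : M)
    (hy : y ∈ c.source \ C) : HasChart (famF c hC) y := by
  refine ⟨c.restrOpen Cᶜ hC.isOpen_compl, c.source \ C, c.open_source.sdiff hC, hy, fun w hw => hw,
    ?_, fun w _ => rfl⟩
  show c.source ∩ Cᶜ = (fun y => y) '' (c.source \ C)
  rw [image_id']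
  rfl

end Pool.Agent.H.MP_1611f1_gt.TW
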