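import Pool.Agent.H.MP_1611f1_gt.LS.Base

/-!
Foliations given by families of local transverse functions on coverings; charts from functions
which are strictly monotone in one coordinate direction.
-/

namespace Pool.Agent.H.MP_1611f1_gt.TW

open Topology Set Filter

/-- a family of transverse functions: a function `D` on an open set `X` of a space `Z` which is
mapped to `M` by a local homeomorphism `R` -/
structure Fam (M : Type) [TopologicalSpace M] where
  Z : Type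
  top : TopologicalSpace Z
  R : Z → M
  loc : IsLocalHomeomorph R
  X : Set Z
  opn : IsOpen X
  D : Z → ℝ

attribute [instance] Fam.top

variable {M : Type} [TopologicalSpace M]

/-- a function on `M` which has the order germ of the family `F` (over one point) has also the
order germ of the family `G` (over the same point) -/
def Cmp (F G : Fam M) : Prop :=
  ∀ z ∈ F.X, ∀ z' ∈ G.X, F.R z = G.R z' → ∀ f : M → ℝ,
    OrdEq z (fun w => f (F.R w)) F.D → OrdEq z' (fun w => f (G.R w)) G.D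

/-- comparison by a map of the covering spaces. PROOF: `OrdEq.comp_cont` along `σ`, `OrdEq.congr`
(`F.R (σ w) = G.R w` near `z'`), `OrdEq.trans`. -/
theorem cmp_of_map {F G : Fam M}
    (h : ∀ z ∈ F.X, ∀ z' ∈ G.X, F.R z = G.R z' → ∃ σ : G.Z → F.Z, ContinuousAt σ z' ∧ σ z' = z ∧
      (∀ᶠ w in 𝓝 z', F.R (σ w) = G.R w) ∧ OrdEq z' (fun w => F.D (σ w)) G.D) : Cmp F G := by
  intro z hz z' hz' hzz f hf
  obtain ⟨σ, hσ, hσz, hσR, hD⟩ := h z hz z' hz' hzz
  rw [← hσz] at hf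
  have h1 := OrdEq.comp_cont hσ hf
  refine OrdEq.trans ?_ (OrdEq.trans h1 hD)
  refine (OrdEq.refl z' _).congr ?_ (Eventually.of_forall fun _ => rfl)
  filter_upwards [hσR] with w hw
  show f (G.R w) = f (F.R (σ w))
  rw [hw]

/-- comparison in the other direction. PROOF: `σ` is a local homeomorphism near `z'` (`F.R ∘ σ = G.R`, both `F.R`, `G.R`
are local homeomorphisms); or directly: from `OrdEq z (f ∘ G.R) G.D` we want `OrdEq z' ..`; take the local inverse `τ` of `F.R`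
at `z` (`IsLocalHomeomorph`, an open partial homeomorphism `e` with `e = F.R`), `τ w = e.symm (G.R ..)`. In short: given `σ : G.Z → F.Z` with
`F.R (σ w) = G.R w` near `z'`, the map `ρ = (local inverse of G.R at z') ∘ F.R : F.Z → G.Z` is continuous at `z`, `ρ z = z'`,
`G.R (ρ w) = F.R w` near `z`, and `σ (ρ w) = w` near `z` (local injectivity of `F.R`), so `OrdEq z (G.D ∘ ρ) F.D` follows from
`OrdEq z' (F.D ∘ σ) G.D` by `OrdEq.comp_cont` along `ρ`. -/
theorem cmp_of_map' {F G : Fam M}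
    (h : ∀ z ∈ F.X, ∀ z' ∈ G.X, F.R z = G.R z' → ∃ σ : G.Z → F.Z, ContinuousAt σ z' ∧ σ z' = z ∧
      (∀ᶠ w in 𝓝 z', F.R (σ w) = G.R w) ∧ OrdEq z' (fun w => F.D (σ w)) G.D) : Cmp G F := by
  intro z' hz' z hz hzz f hf
  obtain ⟨σ, hσ, hσz, hσR, hD⟩ := h z hz z' hz' hzz.symm
  obtain ⟨e, he, heR⟩ := G.loc z'
  obtain ⟨e', he', heR'⟩ := F.loc z
  have hρ : ContinuousAt (fun w => e.symm (F.R w)) z := by
    have h1 : F.R z ∈ e.target := by
      rw [← hzz, heR]
      exact e.map_source he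
    exact (e.continuousAt_symm h1).comp F.loc.continuous.continuousAt
  have hρz : e.symm (F.R z) = z' := by
    rw [← hzz, heR]
    exact e.left_inv he
  have hmem : ∀ᶠ w in 𝓝 z, F.R w ∈ e.target := by
    refine F.loc.continuous.continuousAt.eventually_mem (e.open_target.mem_nhds ?_)
    rw [← hzz, heR]
    exact e.map_source he
  have h2 : ∀ᶠ w in 𝓝 z, F.R (σ (e.symm (F.R w))) = G.R (e.symm (F.R w)) := by
    have h3 : Tendsto (fun w => e.symm (F.R w)) (𝓝 z) (𝓝 z') := by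
      have := hρ.tendsto
      rwa [hρz] at this
    exact h3.eventually hσR
  have h4 : Tendsto (fun w => σ (e.symm (F.R w))) (𝓝 z) (𝓝 z) := by
    have h3 : Tendsto (fun w => e.symm (F.R w)) (𝓝 z) (𝓝 z') := by
      have := hρ.tendsto
      rwa [hρz] at this
    have h5 := hσ.tendsto
    rw [hσz] at h5
    exact h5.comp h3
  have h6 : ∀ᶠ w in 𝓝 z, σ (e.symm (F.R w)) = w := by
    filter_upwards [h2, hmem, h4.eventually (e'.open_source.mem_nhds he'),
      e'.open_source.mem_nhds he'] with w hw1 hw2 hw3 hw4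
    have h7 : G.R (e.symm (F.R w)) = F.R w := by
      rw [heR]
      exact e.right_inv hw2
    have h8 : e' (σ (e.symm (F.R w))) = e' w := by
      rw [← heR', hw1, h7]
    exact e'.injOn hw3 hw4 h8
  have h9 : OrdEq z' (fun w => f (G.R w)) (fun w => F.D (σ w)) := hf.trans hD.symm
  rw [← hρz] at h9
  have h10 := OrdEq.comp_cont hρ h9
  refine h10.congr ?_ ?_
  · filter_upwards [hmem] with w hw
    show f (F.R w) = f (G.R (e.symm (F.R w)))
    rw [heR, e.right_inv hw]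
  · filter_upwards [h6] with w hw
    show F.D w = F.D (σ (e.symm (F.R w)))
    rw [hw]

/-- there is a chart of `M` whose last coordinate is the function of the family, near the point
`z` of the family -/
def HasChart (F : Fam M) (z : F.Z) : Prop :=
  ∃ (c : OpenPartialHomeomorph M ((ℝ × ℝ) × ℝ)) (V : Set F.Z), IsOpen V ∧ z ∈ V ∧ V ⊆ F.X ∧
    c.source = F.R '' V ∧ ∀ w ∈ V, (c (F.R w)).2 = F.D w

/-- THE FOLIATION OF THE FAMILIES. PROOF: the charts are all `c` such that for all `y ∈ c.source` there are `i`, `z ∈ (F i).X` with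
`(F i).R z = y` and `OrdEq z (fun w => (c ((F i).R w)).2) (F i).D` (and `y` is in the source). By `hc` this then holds for all `j`
and `z'` over `y`. Compatibility: `OrdEq z' (c ∘ R) (c' ∘ R)` for some `z'` over `y`, and `OrdEq.of_openMap` (a local homeomorphism is
open, `IsLocalHomeomorph.isOpenMap`). The charts of `hx` are in the set: for `y = R w`, `w ∈ V`: near `w` (in the open set `V`)
`(c (R w')).2 = D w'`. -/
theorem exists_pre {ι : Type} (F : ι → Fam M) (hc : ∀ i j, Cmp (F i) (F j))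
    (hx : ∀ i, ∀ z ∈ (F i).X, HasChart (F i) z) :
    ∃ P : LS.PreFol M, P.dom = ⋃ i, (F i).R '' (F i).X ∧
      ∀ c ∈ P.charts, ∀ i, ∀ z ∈ (F i).X, (F i).R z ∈ c.source →
        OrdEq z (fun w => (c ((F i).R w)).2) (F i).D := by
  let C : Set (OpenPartialHomeomorph M ((ℝ × ℝ) × ℝ)) := {c | ∀ y ∈ c.source, ∃ i, ∃ z ∈ (F i).X,
    (F i).R z = y ∧ OrdEq z (fun w => (c ((F i).R w)).2) (F i).D}
  have key : ∀ c ∈ C, ∀ i, ∀ z ∈ (F i).X, (F i).R z ∈ c.source →
      OrdEq z (fun w => (c ((F i).R w)).2) (F i).D := by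
    intro c hc' i z hz hs
    obtain ⟨j, z', hz', hzz, h1⟩ := hc' _ hs
    exact hc j i z' hz' z hz hzz (fun y => (c y).2) h1
  refine ⟨⟨C, ?_⟩, ?_, key⟩
  · intro c hc1 c' hc2 y hy hy'
    obtain ⟨i, z, hz, rfl, h1⟩ := hc1 y hy
    have h2 := key c' hc2 i z hz hy'
    exact OrdEq.of_openMap (F i).loc.isOpenMap (f := fun y => (c y).2) (g := fun y => (c' y).2)
      (h1.trans h2.symm)
  · ext y
    simp only [mem_iUnion]
    constructor
    · rintro ⟨c, hc', hy⟩
      obtain ⟨i, z, hz, hzy, -⟩ := hc' y hy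
      exact ⟨i, z, hz, hzy⟩
    · rintro ⟨i, z, hz, rfl⟩
      obtain ⟨c, V, hV, hzV, hVX, hcs, hcD⟩ := hx i z hz
      refine ⟨c, ?_, ?_⟩
      · intro y hy
        rw [hcs] at hy
        obtain ⟨w, hw, rfl⟩ := hy
        refine ⟨i, w, hVX hw, rfl, ?_⟩
        refine (OrdEq.refl w _).congr ?_ (Eventually.of_forall fun _ => rfl)
        filter_upwards [hV.mem_nhds hw] with w' hw'
        exact hcD w' hw'
      · rw [hcs]
        exact ⟨z, hzV, rfl⟩

/-- CHARTS. `ζ` is a chart of the covering space `Z` such that the function `D` is strictly increasing in the last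
coordinate of `ζ` (the first two being fixed), near `z`. PROOF: let `e` be an open partial homeomorphism with `e = R` near `z`
(`F.loc z`). Choose a box `B = ball a r ×ˢ Ioo (s - r) (s + r)` around `ζ z = (a, s)`, contained in the image of the open set
`ζ.source ∩ e.source ∩ N ∩ X`. `exists_chart` (file Fib.lean), applied to the space `ℝ × ℝ` instead of `S`, needs a local homeomorphism
of `(ℝ × ℝ) × ℝ`; instead apply its proof, or: the map `(ξ, s) ↦ (ξ, D (ζ.symm (ξ, s)))` of the box is continuous, injective and open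
(`Fib_isOpenMap` with `ξ` the identity chart `OpenPartialHomeomorph.refl (ℝ × ℝ)`, `U` the ball), so it is an open partial
homeomorphism of `(ℝ × ℝ) × ℝ` with source the box; compose it with `ζ` and with `e.symm`. -/
theorem hasChart_of_mono (F : Fam M) {z : F.Z} (hz : z ∈ F.X)
    (ζ : OpenPartialHomeomorph F.Z ((ℝ × ℝ) × ℝ)) (hζ : z ∈ ζ.source) {N : Set F.Z}
    (hN : IsOpen N) (hzN : z ∈ N) (hD : ContinuousOn F.D N)
    (hm : ∀ w ∈ N, ∀ w' ∈ N, w ∈ ζ.source → w' ∈ ζ.source → (ζ w).1 = (ζ w').1 →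
      (ζ w).2 < (ζ w').2 → F.D w < F.D w') : HasChart F z := by
  obtain ⟨e, he, heR⟩ := F.loc z
  have hW0 : IsOpen (e.source ∩ N ∩ F.X) := (e.open_source.inter hN).inter F.opn
  have hW1 : IsOpen (ζ.target ∩ ζ.symm ⁻¹' (e.source ∩ N ∩ F.X)) :=
    ζ.isOpen_inter_preimage_symm hW0
  have hz1 : ζ z ∈ ζ.target ∩ ζ.symm ⁻¹' (e.source ∩ N ∩ F.X) := by
    refine ⟨ζ.map_source hζ, ?_⟩
    rw [mem_preimage, ζ.left_inv hζ]
    exact ⟨⟨he, hzN⟩, hz⟩
  obtain ⟨r, hr, hball⟩ := Metric.isOpen_iff.1 hW1 _ hz1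
  let a : ℝ × ℝ := (ζ z).1
  let s : ℝ := (ζ z).2
  let U : Set (ℝ × ℝ) := Metric.ball a r
  have hU : IsOpen U := Metric.isOpen_ball
  have hB : U ×ˢ Ioo (s - r) (s + r) ⊆ ζ.target ∩ ζ.symm ⁻¹' (e.source ∩ N ∩ F.X) := by
    rintro ⟨q, t⟩ ⟨hq, ht⟩
    apply hball
    rw [Metric.mem_ball, Prod.dist_eq, max_lt_iff]
    refine ⟨hq, ?_⟩
    rw [Real.dist_eq, abs_lt]
    constructor
    · have := ht.1
      show -r < t - s
      linarith
    · have := ht.2
      show t - s < r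
      linarith
  let f : (ℝ × ℝ) × ℝ → ℝ := fun q => F.D (ζ.symm q)
  have hf : ContinuousOn f (U ×ˢ Ioo (s - r) (s + r)) := by
    refine hD.comp (ζ.continuousOn_symm.mono fun q hq => (hB hq).1) ?_
    intro q hq
    exact (hB hq).2.1.2
  have hmono : ∀ x ∈ U, StrictMonoOn (fun t => f (x, t)) (Ioo (s - r) (s + r)) := by
    intro x hx t ht t' ht' htt
    have h1 := hB (show (x, t) ∈ U ×ˢ Ioo (s - r) (s + r) from ⟨hx, ht⟩)
    have h2 := hB (show (x, t') ∈ U ×ˢ Ioo (s - r) (s + r) from ⟨hx, ht'⟩)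
    refine hm _ h1.2.1.2 _ h2.2.1.2 (ζ.map_target h1.1) (ζ.map_target h2.1) ?_ ?_
    · rw [ζ.right_inv h1.1, ζ.right_inv h2.1]
    · rw [ζ.right_inv h1.1, ζ.right_inv h2.1]
      exact htt
  have hWo : IsOpen (U ×ˢ Ioo (s - r) (s + r)) := hU.prod isOpen_Ioo
  have hinj2 : InjOn (fun q : (ℝ × ℝ) × ℝ => (q.1, f q)) (U ×ˢ Ioo (s - r) (s + r)) := by
    rintro ⟨x, t⟩ hq ⟨x', t'⟩ hq' h
    simp only [Prod.mk.injEq] at h
    obtain ⟨hx, h⟩ := h
    subst hx
    have ht : t = t' := (hmono x hq.1).injOn hq.2 hq'.2 h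
    rw [ht]
  have hcont2 : ContinuousOn (fun q : (ℝ × ℝ) × ℝ => (q.1, f q)) (U ×ˢ Ioo (s - r) (s + r)) :=
    continuous_fst.continuousOn.prodMk hf
  let e2 : OpenPartialHomeomorph ((ℝ × ℝ) × ℝ) ((ℝ × ℝ) × ℝ) :=
    OpenPartialHomeomorph.ofContinuousOpenRestrict
      (hinj2.toPartialEquiv (fun q : (ℝ × ℝ) × ℝ => (q.1, f q)) (U ×ˢ Ioo (s - r) (s + r)))
      hcont2 (Fib_isOpenMap (OpenPartialHomeomorph.refl (ℝ × ℝ)) hU (subset_univ _) f hf hmono) hWo
  have he2 : ∀ q, e2 q = (q.1, f q) := fun q => rfl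
  have he2s : e2.source = U ×ˢ Ioo (s - r) (s + r) := rfl
  let V : Set F.Z := ζ.source ∩ ζ ⁻¹' (U ×ˢ Ioo (s - r) (s + r))
  have hV : IsOpen V := ζ.isOpen_inter_preimage hWo
  have hVs : V ⊆ e.source ∩ N ∩ F.X := by
    rintro w ⟨hw, hw'⟩
    have h1 := (hB hw').2
    rw [mem_preimage, ζ.left_inv hw] at h1
    exact h1
  have hzV : z ∈ V := by
    refine ⟨hζ, ?_, ?_⟩
    · exact Metric.mem_ball_self hr
    · exact ⟨by show s - r < s; linarith, by show s < s + r; linarith⟩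
  refine ⟨e.symm.trans (ζ.trans e2), V, hV, hzV, fun w hw => (hVs hw).2, ?_, ?_⟩
  · rw [OpenPartialHomeomorph.trans_source, OpenPartialHomeomorph.symm_source,
      OpenPartialHomeomorph.trans_source, he2s]
    ext y
    constructor
    · rintro ⟨hy, hy'⟩
      refine ⟨e.symm y, hy', ?_⟩
      rw [heR, e.right_inv hy]
    · rintro ⟨w, hw, rfl⟩
      have hwe := (hVs hw).1.1
      rw [heR]
      refine ⟨e.map_source hwe, ?_⟩
      rw [mem_preimage, e.left_inv hwe]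
      exact hw
  · intro w hw
    have hwe := (hVs hw).1.1
    rw [heR]
    show (e2 (ζ (e.symm (e w)))).2 = F.D w
    rw [e.left_inv hwe, he2]
    show F.D (ζ.symm (ζ w)) = F.D w
    rw [ζ.left_inv hw.1]

/-- charts of products: `((ξ x), e t)`, where `e = 1` or `e = -1` -/
theorem exists_zeta_t {S : Type} [TopologicalSpace S] (ξ : OpenPartialHomeomorph S (ℝ × ℝ)) (e : ℝ)
    (he : e = 1 ∨ e = -1) : ∃ ζ : OpenPartialHomeomorph (S × ℝ) ((ℝ × ℝ) × ℝ),
      ζ.source = ξ.source ×ˢ univ ∧ ∀ z, ζ z = (ξ z.1, e * z.2) := by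
  have he0 : e ≠ 0 := by rcases he with rfl | rfl <;> norm_num
  refine ⟨ξ.prod (Homeomorph.mulLeft₀ e he0).toOpenPartialHomeomorph, ?_, fun z => rfl⟩
  rfl

/-- charts of products: `((t, second coordinate of x), first coordinate of x)` -/
theorem exists_zeta_v {S : Type} [TopologicalSpace S] (ξ : OpenPartialHomeomorph S (ℝ × ℝ)) :
    ∃ ζ : OpenPartialHomeomorph (S × ℝ) ((ℝ × ℝ) × ℝ),
      ζ.source = ξ.source ×ˢ univ ∧ ∀ z, ζ z = ((z.2, (ξ z.1).2), (ξ z.1).1) := by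
  let H : (ℝ × ℝ) × ℝ ≃ₜ (ℝ × ℝ) × ℝ :=
    { toFun := fun q => ((q.2, q.1.2), q.1.1)
      invFun := fun q => ((q.2, q.1.2), q.1.1)
      left_inv := fun q => rfl
      right_inv := fun q => rfl
      continuous_toFun := by fun_prop
      continuous_invFun := by fun_prop }
  refine ⟨(ξ.prod (OpenPartialHomeomorph.refl ℝ)).trans H.toOpenPartialHomeomorph, ?_,
    fun z => rfl⟩
  rw [OpenPartialHomeomorph.trans_source]
  ext z
  simp

theorem zeta_open (H : ℝ × ℝ × ℝ ≃ₜ (ℝ × ℝ) × ℝ) :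
    ∃ ζ : OpenPartialHomeomorph (ℝ × Ioo (1 : ℝ) 2 × ℝ) ((ℝ × ℝ) × ℝ),
      ζ.source = univ ∧ ∀ z, ζ z = H (z.1, ((z.2.1 : ℝ), z.2.2)) := by
  have h0 : IsOpenEmbedding (Subtype.val : Ioo (1 : ℝ) 2 → ℝ) := isOpen_Ioo.isOpenEmbedding_subtypeVal
  have h2 : IsOpenEmbedding (fun z : ℝ × Ioo (1 : ℝ) 2 × ℝ => (z.1, ((z.2.1 : ℝ), z.2.2))) :=
    IsOpenEmbedding.id.prodMap (h0.prodMap IsOpenEmbedding.id)
  have h1 : IsOpenEmbedding (fun z : ℝ × Ioo (1 : ℝ) 2 × ℝ => H (z.1, ((z.2.1 : ℝ), z.2.2))) :=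
    H.isOpenEmbedding.comp h2
  have : Nonempty (ℝ × Ioo (1 : ℝ) 2 × ℝ) := ⟨(0, ⟨3 / 2, by norm_num, by norm_num⟩, 0)⟩
  exact ⟨h1.toOpenPartialHomeomorph _, rfl, fun z => rfl⟩

/-- charts of `ℝ × (1,2) × ℝ`: `((r, t), θ)` -/
theorem exists_zeta_th : ∃ ζ : OpenPartialHomeomorph (ℝ × Ioo (1 : ℝ) 2 × ℝ) ((ℝ × ℝ) × ℝ),
    ζ.source = univ ∧ ∀ z, ζ z = (((z.2.1 : ℝ), z.2.2), z.1) := by
  let H : ℝ × ℝ × ℝ ≃ₜ (ℝ × ℝ) × ℝ :=
    { toFun := fun q => ((q.2.1, q.2.2), q.1)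
      invFun := fun q => (q.2, (q.1.1, q.1.2))
      left_inv := fun q => rfl
      right_inv := fun q => rfl
      continuous_toFun := by fun_prop
      continuous_invFun := by fun_prop }
  exact zeta_open H

/-- charts of `ℝ × (1,2) × ℝ`: `((θ, t), e r)` and `((θ, r), e t)` -/
theorem exists_zeta_r (e : ℝ) (he : e = 1 ∨ e = -1) :
    ∃ ζ : OpenPartialHomeomorph (ℝ × Ioo (1 : ℝ) 2 × ℝ) ((ℝ × ℝ) × ℝ),
      ζ.source = univ ∧ ∀ z, ζ z = ((z.1, z.2.2), e * (z.2.1 : ℝ)) := by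
  have he2 : e * e = 1 := by rcases he with rfl | rfl <;> norm_num
  let H : ℝ × ℝ × ℝ ≃ₜ (ℝ × ℝ) × ℝ :=
    { toFun := fun q => ((q.1, q.2.2), e * q.2.1)
      invFun := fun q => (q.1.1, (e * q.2, q.1.2))
      left_inv := fun q => by
        show (q.1, (e * (e * q.2.1), q.2.2)) = q
        rw [← mul_assoc, he2, one_mul]
      right_inv := fun q => by
        show ((q.1.1, q.1.2), e * (e * q.2)) = q
        rw [← mul_assoc, he2, one_mul]
      continuous_toFun := by fun_prop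
      continuous_invFun := by fun_prop }
  exact zeta_open H

theorem exists_zeta_rt (e : ℝ) (he : e = 1 ∨ e = -1) :
    ∃ ζ : OpenPartialHomeomorph (ℝ × Ioo (1 : ℝ) 2 × ℝ) ((ℝ × ℝ) × ℝ),
      ζ.source = univ ∧ ∀ z, ζ z = ((z.1, (z.2.1 : ℝ)), e * z.2.2) := by
  have he2 : e * e = 1 := by rcases he with rfl | rfl <;> norm_num
  let H : ℝ × ℝ × ℝ ≃ₜ (ℝ × ℝ) × ℝ :=
    { toFun := fun q => ((q.1, q.2.1), e * q.2.2)
      invFun := fun q => (q.1.1, (q.1.2, e * q.2))
      left_inv := fun q => by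
        show (q.1, (q.2.1, e * (e * q.2.2))) = q
        rw [← mul_assoc, he2, one_mul]
      right_inv := fun q => by
        show ((q.1.1, q.1.2), e * (e * q.2)) = q
        rw [← mul_assoc, he2, one_mul]
      continuous_toFun := by fun_prop
      continuous_invFun := by fun_prop }
  exact zeta_open H

/-- charts of `ℝ × ℝ × ℝ`: `((u, t), θ)` and `((θ, u), t)` -/
theorem exists_zeta_3 : ∃ ζ ζ' : OpenPartialHomeomorph (ℝ × ℝ × ℝ) ((ℝ × ℝ) × ℝ),
    ζ.source = univ ∧ (∀ z, ζ z = ((z.2.1, z.2.2), z.1)) ∧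
    ζ'.source = univ ∧ ∀ z, ζ' z = ((z.1, z.2.1), z.2.2) := by
  let H : ℝ × ℝ × ℝ ≃ₜ (ℝ × ℝ) × ℝ :=
    { toFun := fun q => ((q.2.1, q.2.2), q.1)
      invFun := fun q => (q.2, (q.1.1, q.1.2))
      left_inv := fun q => rfl
      right_inv := fun q => rfl
      continuous_toFun := by fun_prop
      continuous_invFun := by fun_prop }
  let H' : ℝ × ℝ × ℝ ≃ₜ (ℝ × ℝ) × ℝ :=
    { toFun := fun q => ((q.1, q.2.1), q.2.2)
      invFun := fun q => (q.1.1, (q.1.2, q.2))
      left_inv := fun q => rfl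
      right_inv := fun q => rfl
      continuous_toFun := by fun_prop
      continuous_invFun := by fun_prop }
  exact ⟨H.toOpenPartialHomeomorph, H'.toOpenPartialHomeomorph, rfl, fun z => rfl, rfl,
    fun z => rfl⟩

end Pool.Agent.H.MP_1611f1_gt.TW
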