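import Pool.Agent.H.MP_1611f1_gt.TW.LoA
import Pool.Agent.H.MP_1611f1_gt.LS.RcB

/-!
Polar coordinates.
-/

namespace Pool.Agent.H.MP_1611f1_gt.TW

open Topology Set Filter
open Pool.Agent.H.MP_1611f1_gt.BR.U (Ci)

theorem plr_cont : Continuous plr := by
  unfold plr
  fun_prop

private theorem LoB_norm {x : ℝ} (h : |x| < 1 / 2) : ‖(x : Ci)‖ = |x| := by
  obtain ⟨h1, h2⟩ := abs_lt.1 h
  rw [BR.U.norm_cl, BR.U.cl_coe ⟨by linarith, h2⟩]

private theorem LoB_int {x y : ℝ} (h : (x : Ci) = (y : Ci)) : ∃ n : ℤ, x = y + n := by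
  have h2 : ((x - y : ℝ) : Ci) = 0 := by
    rw [AddCircle.coe_sub, h, sub_self]
  rw [AddCircle.coe_eq_zero_iff] at h2
  obtain ⟨k, hk⟩ := h2
  rw [zsmul_one] at hk
  exact ⟨k, by linarith⟩

private theorem LoB_cl (x : ℝ) : ∃ n : ℤ, x = BR.U.cl (x : Ci) + n :=
  LoB_int (BR.U.coe_cl (x : Ci)).symm

private theorem LoB_r (z : ℝ × Ioo (1 : ℝ) 2 × ℝ) : (z.2.1 : ℝ) / 16 < 1 / 8 := by
  have := z.2.1.2.2
  linarith

/-- `|b|, |t| ≤ r / 16 < 1/8`. -/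
theorem plr_lt (z : ℝ × Ioo (1 : ℝ) 2 × ℝ) :
    |(plr z).2.1| ≤ (z.2.1 : ℝ) / 16 ∧ |(plr z).2.2| ≤ (z.2.1 : ℝ) / 16 := by
  have h1 : (1 : ℝ) < z.2.1 := z.2.1.2.1
  have h2 := Real.abs_cos_le_one (2 * Real.pi * z.2.2)
  have h3 := Real.abs_sin_le_one (2 * Real.pi * z.2.2)
  constructor
  · show |(z.2.1 : ℝ) * Real.cos (2 * Real.pi * z.2.2) / 16| ≤ (z.2.1 : ℝ) / 16
    rw [abs_div, abs_mul, abs_of_pos (by linarith : (0 : ℝ) < z.2.1),
      abs_of_pos (by norm_num : (0 : ℝ) < 16)]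
    have : (z.2.1 : ℝ) * |Real.cos (2 * Real.pi * z.2.2)| ≤ (z.2.1 : ℝ) * 1 :=
      mul_le_mul_of_nonneg_left h2 (by linarith)
    linarith
  · show |(z.2.1 : ℝ) * Real.sin (2 * Real.pi * z.2.2) / 16| ≤ (z.2.1 : ℝ) / 16
    rw [abs_div, abs_mul, abs_of_pos (by linarith : (0 : ℝ) < z.2.1),
      abs_of_pos (by norm_num : (0 : ℝ) < 16)]
    have : (z.2.1 : ℝ) * |Real.sin (2 * Real.pi * z.2.2)| ≤ (z.2.1 : ℝ) * 1 :=
      mul_le_mul_of_nonneg_left h3 (by linarith)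
    linarith

private theorem LoB_nb (z : ℝ × Ioo (1 : ℝ) 2 × ℝ) :
    ‖((plr z).2.1 : Ci)‖ = |(plr z).2.1| ∧ ‖((plr z).2.2 : Ci)‖ = |(plr z).2.2| := by
  obtain ⟨h1, h2⟩ := plr_lt z
  have h3 := LoB_r z
  exact ⟨LoB_norm (by linarith), LoB_norm (by linarith)⟩

/-- (`‖(x : Ci)‖ ≤ |x|`) -/
theorem plr_CC (z : ℝ × Ioo (1 : ℝ) 2 × ℝ) : cov (plr z) ∈ CC := by
  obtain ⟨h1, h2⟩ := plr_lt z
  obtain ⟨h3, h4⟩ := LoB_nb z
  have h5 := LoB_r z
  right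
  show ‖((plr z).2.1 : Ci)‖ ≤ 1 / 8 ∧ ‖((plr z).2.2 : Ci)‖ ≤ 1 / 8
  rw [h3, h4]
  constructor <;> linarith

theorem plr_VV (z : ℝ × Ioo (1 : ℝ) 2 × ℝ) : cov (plr z) ∈ VV := CC_sub (plr_CC z)

/-- PROOF: for `|b|, |t| ≤ 1/2` the norms in `rt` are `|b|, |t|`, so `rt = r ^ 2 (cos ^ 2 + sin ^ 2)` -/
theorem rt_plr (z : ℝ × Ioo (1 : ℝ) 2 × ℝ) : rt (plr z) = (z.2.1 : ℝ) ^ 2 := by
  obtain ⟨h3, h4⟩ := LoB_nb z
  unfold rt
  rw [h3, h4, sq_abs, sq_abs]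
  show 256 * (((z.2.1 : ℝ) * Real.cos (2 * Real.pi * z.2.2) / 16) ^ 2 +
    ((z.2.1 : ℝ) * Real.sin (2 * Real.pi * z.2.2) / 16) ^ 2) = (z.2.1 : ℝ) ^ 2
  linear_combination (z.2.1 : ℝ) ^ 2 * Real.sin_sq_add_cos_sq (2 * Real.pi * z.2.2)

/-- Every point with `1 < rt < 4` has polar coordinates. PROOF: take the lift with `|b|, |t| ≤ 1/2`; `LS.exists_pol` for `(a, (16 b, 16 t - 4))`. -/
theorem exists_plr {z : ℝ × ℝ × ℝ} (h1 : 1 < rt z) (h2 : rt z < 4) :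
    ∃ (w : ℝ × Ioo (1 : ℝ) 2 × ℝ) (m n k : ℤ), z = tr m n k (plr w) := by
  obtain ⟨n, hn⟩ := LoB_cl z.2.1
  obtain ⟨k, hk⟩ := LoB_cl z.2.2
  have h3 : rt z = 256 * (BR.U.cl (z.2.1 : Ci) ^ 2 + BR.U.cl (z.2.2 : Ci) ^ 2) := by
    unfold rt
    rw [BR.U.norm_cl, BR.U.norm_cl, sq_abs, sq_abs]
  obtain ⟨b, hb⟩ : ∃ b, b = BR.U.cl (z.2.1 : Ci) := ⟨_, rfl⟩
  obtain ⟨t, ht⟩ : ∃ t, t = BR.U.cl (z.2.2 : Ci) := ⟨_, rfl⟩
  rw [← hb, ← ht] at h3
  rw [← hb] at hn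
  rw [← ht] at hk
  have h4 : LS.rr ((16 * b, 16 * t - 4) : ℝ × ℝ) = rt z := by
    rw [h3]
    show (16 * b) ^ 2 + (16 * t - 4 + 4) ^ 2 = _
    ring
  obtain ⟨w, hw⟩ := LS.exists_pol ((z.1, (16 * b, 16 * t - 4)) : LS.Cov)
    (by
      show 1 < LS.rr ((16 * b, 16 * t - 4) : ℝ × ℝ)
      rw [h4]
      exact h1)
    (by
      show LS.rr ((16 * b, 16 * t - 4) : ℝ × ℝ) < 4
      rw [h4]
      exact h2)
  have e1 : w.1 = z.1 := congrArg Prod.fst hw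
  have e2 : (w.2.1 : ℝ) * Real.cos (2 * Real.pi * w.2.2) = 16 * b :=
    congrArg (fun y : LS.Cov => y.2.1) hw
  have e3 : -4 + (w.2.1 : ℝ) * Real.sin (2 * Real.pi * w.2.2) = 16 * t - 4 :=
    congrArg (fun y : LS.Cov => y.2.2) hw
  refine ⟨w, 0, n, k, ?_⟩
  unfold tr plr
  refine Prod.ext ?_ (Prod.ext ?_ ?_)
  · show z.1 = w.1 + ((0 : ℤ) : ℝ)
    rw [e1, Int.cast_zero, add_zero]
  · show z.2.1 = (w.2.1 : ℝ) * Real.cos (2 * Real.pi * w.2.2) / 16 + (n : ℝ)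
    rw [e2]
    linarith
  · show z.2.2 = (w.2.1 : ℝ) * Real.sin (2 * Real.pi * w.2.2) / 16 + (k : ℝ)
    linarith

/-- PROOF: the translation is only in the first coordinate (`|b|, |t| < 1/8`), then `LS.pol_eq`. -/
theorem plr_eq {z w : ℝ × Ioo (1 : ℝ) 2 × ℝ} (h : cov (plr z) = cov (plr w)) :
    ∃ m n : ℤ, z = (w.1 + m, w.2.1, w.2.2 + n) := by
  obtain ⟨a1, a2⟩ := plr_lt z
  obtain ⟨b1, b2⟩ := plr_lt w
  have a3 := LoB_r z
  have b3 := LoB_r w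
  rw [abs_le] at a1 a2 b1 b2
  have h1 : ((plr z).1 : Ci) = ((plr w).1 : Ci) := congrArg (fun y : Ci × Ci × Ci => y.1) h
  have h2 : ((plr z).2.1 : Ci) = ((plr w).2.1 : Ci) := congrArg (fun y : Ci × Ci × Ci => y.2.1) h
  have h3 : ((plr z).2.2 : Ci) = ((plr w).2.2 : Ci) := congrArg (fun y : Ci × Ci × Ci => y.2.2) h
  obtain ⟨m, hm⟩ := LoB_int h1
  have h4 : (plr z).2.1 = (plr w).2.1 := BR.U.NCov_coe h2 (by
    rw [abs_lt]
    constructor <;> linarith [a1.1, a1.2, b1.1, b1.2])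
  have h5 : (plr z).2.2 = (plr w).2.2 := BR.U.NCov_coe h3 (by
    rw [abs_lt]
    constructor <;> linarith [a2.1, a2.2, b2.1, b2.2])
  have h4' : (z.2.1 : ℝ) * Real.cos (2 * Real.pi * z.2.2) / 16 =
      (w.2.1 : ℝ) * Real.cos (2 * Real.pi * w.2.2) / 16 := h4
  have h5' : (z.2.1 : ℝ) * Real.sin (2 * Real.pi * z.2.2) / 16 =
      (w.2.1 : ℝ) * Real.sin (2 * Real.pi * w.2.2) / 16 := h5
  have h6 : LS.pol ((0, z.2) : LS.Plr) = LS.pol ((0, w.2) : LS.Plr) := by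
    unfold LS.pol
    refine Prod.ext rfl (Prod.ext ?_ ?_)
    · show (z.2.1 : ℝ) * Real.cos (2 * Real.pi * z.2.2) =
        (w.2.1 : ℝ) * Real.cos (2 * Real.pi * w.2.2)
      linarith
    · show -4 + (z.2.1 : ℝ) * Real.sin (2 * Real.pi * z.2.2) =
        -4 + (w.2.1 : ℝ) * Real.sin (2 * Real.pi * w.2.2)
      linarith
  obtain ⟨-, h7, j, h8⟩ := (LS.pol_eq _ _).1 h6
  have h7' : w.2.1 = z.2.1 := h7
  have h8' : w.2.2 = z.2.2 + j := h8
  refine ⟨m, -j, Prod.ext hm (Prod.ext h7'.symm ?_)⟩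
  show z.2.2 = w.2.2 + ((-j : ℤ) : ℝ)
  push_cast
  linarith

/-- (`2 π`-periodicity) -/
theorem plr_add (θ ψ : ℝ) (r : Ioo (1 : ℝ) 2) (m n : ℤ) :
    plr (θ + m, r, ψ + n) = tr m 0 0 (plr (θ, r, ψ)) := by
  have h3 : 2 * Real.pi * (ψ + n) = 2 * Real.pi * ψ + n * (2 * Real.pi) := by ring
  unfold plr tr
  simp only [h3, Real.cos_add_int_mul_two_pi, Real.sin_add_int_mul_two_pi, Int.cast_zero,
    add_zero]

/-- PROOF: `plr` is `LS.pol` composed with the homeomorphism `(θ, (u, s)) ↦ (θ, u/16, (s + 4)/16)`; `LS.pol` is a local homeomorphism: it is continuous,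
open (`LS.pol_open`) and locally injective (`LS.pol_eq`); see also the proofs in LS/RcB.lean. -/
theorem plr_loc : IsLocalHomeomorph plr := by
  let g : ℝ × (ℝ × ℝ) ≃ₜ ℝ × ℝ × ℝ :=
    { toFun := fun z => (z.1, z.2.1 / 16, (z.2.2 + 4) / 16)
      invFun := fun z => (z.1, 16 * z.2.1, 16 * z.2.2 - 4)
      left_inv := fun z => by
        refine Prod.ext rfl (Prod.ext ?_ ?_)
        · show 16 * (z.2.1 / 16) = z.2.1
          ring
        · show 16 * ((z.2.2 + 4) / 16) - 4 = z.2.2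
          ring
      right_inv := fun z => by
        refine Prod.ext rfl (Prod.ext ?_ ?_)
        · show 16 * z.2.1 / 16 = z.2.1
          ring
        · show (16 * z.2.2 - 4 + 4) / 16 = z.2.2
          ring
      continuous_toFun := by fun_prop
      continuous_invFun := by fun_prop }
  have hg : ∀ z, plr z = g (LS.pol z) := by
    intro z
    refine Prod.ext rfl (Prod.ext rfl ?_)
    show (z.2.1 : ℝ) * Real.sin (2 * Real.pi * z.2.2) / 16 =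
      (-4 + (z.2.1 : ℝ) * Real.sin (2 * Real.pi * z.2.2) + 4) / 16
    ring
  have ho : IsOpenMap plr := by
    have h1 : plr = g ∘ LS.pol := funext hg
    rw [h1]
    exact g.isOpenMap.comp LS.pol_open
  rw [isLocalHomeomorph_iff_isOpenEmbedding_restrict]
  rintro ⟨a, r, t⟩
  have hU : IsOpen ((univ : Set ℝ) ×ˢ ((univ : Set (Ioo (1 : ℝ) 2)) ×ˢ
      Ioo (t - 1 / 2) (t + 1 / 2))) := isOpen_univ.prod (isOpen_univ.prod isOpen_Ioo)
  have hinj : InjOn plr ((univ : Set ℝ) ×ˢ ((univ : Set (Ioo (1 : ℝ) 2)) ×ˢ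
      Ioo (t - 1 / 2) (t + 1 / 2))) := by
    rintro z ⟨-, -, hz⟩ w ⟨-, -, hw⟩ h
    rw [hg, hg] at h
    obtain ⟨h1, h2, j, h3⟩ := (LS.pol_eq _ _).1 (g.injective h)
    have hz' : z.2.2 ∈ Ioo (t - 1 / 2) (t + 1 / 2) := hz
    have hw' : w.2.2 ∈ Ioo (t - 1 / 2) (t + 1 / 2) := hw
    have hj : j = 0 := by
      have a1 : (j : ℝ) < 1 := by linarith [hz'.1, hz'.2, hw'.1, hw'.2]
      have a2 : (-1 : ℝ) < j := by linarith [hz'.1, hz'.2, hw'.1, hw'.2]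
      have b1 : j < 1 := by exact_mod_cast a1
      have b2 : -1 < j := by exact_mod_cast a2
      omega
    rw [hj, Int.cast_zero, add_zero] at h3
    exact Prod.ext h1.symm (Prod.ext h2.symm h3.symm)
  refine ⟨_, hU.mem_nhds ⟨mem_univ _, mem_univ _, ?_⟩,
    IsOpenEmbedding.of_continuous_injective_isOpenMap
      (plr_cont.comp continuous_subtype_val) (injOn_iff_injective.mp hinj)
      (ho.comp hU.isOpenMap_subtype_val)⟩
  simp only [mem_Ioo]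
  constructor <;> linarith

/-- The new domains cover `VV` outside of the tube and inside of `CC`. PROOF: if `rt z < (11/6) ^ 2` then `exists_plr`. Otherwise `rt z > 25/9`. If
`‖b‖ > 1/16` then `z ∈ XS`. Otherwise choose the translate with `|b| ≤ 1/16`, `0 ≤ t < 1`; `t ≠ 0` because `rt z > 1`. -/
theorem cover {z : ℝ × ℝ × ℝ} (hz : cov z ∈ VV) (h : 1 < rt z) :
    z ∈ XS ∨ (∃ m n k : ℤ, tr m n k z ∈ XW) ∨
      ∃ w ∈ XT, ∃ m n k : ℤ, z = tr m n k (plr w) := by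
  by_cases h1 : rt z < (11 / 6) ^ 2
  · obtain ⟨w, m, n, k, hw⟩ := exists_plr h (h1.trans (by norm_num))
    refine Or.inr (Or.inr ⟨w, ?_, m, n, k, hw⟩)
    show (w.2.1 : ℝ) < 11 / 6
    rw [hw, rt_tr, rt_plr] at h1
    exact lt_of_pow_lt_pow_left₀ 2 (by norm_num) h1
  · have h2 : 25 / 9 < rt z := lt_of_lt_of_le (by norm_num) (not_lt.1 h1)
    by_cases h3 : 1 / 16 < ‖(z.2.1 : Ci)‖
    · exact Or.inl ⟨hz, h3, h2⟩
    · obtain ⟨n, hn⟩ := LoB_cl z.2.1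
      have h4 : |BR.U.cl (z.2.1 : Ci)| ≤ 1 / 16 := by
        rw [← BR.U.norm_cl]
        exact not_lt.1 h3
      refine Or.inr (Or.inl ⟨0, -n, -⌊z.2.2⌋, ?_, ?_, ?_, ?_, ?_⟩)
      · rw [cov_tr]
        exact hz
      · show |z.2.1 + ((-n : ℤ) : ℝ)| < 3 / 16
        have h5 : z.2.1 + ((-n : ℤ) : ℝ) = BR.U.cl (z.2.1 : Ci) := by
          push_cast
          linarith
        rw [h5]
        linarith
      · show 0 < z.2.2 + ((-⌊z.2.2⌋ : ℤ) : ℝ)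
        have h5 : z.2.2 + ((-⌊z.2.2⌋ : ℤ) : ℝ) = Int.fract z.2.2 := by
          push_cast
          rw [← Int.self_sub_floor]
          ring
        rw [h5]
        refine lt_of_le_of_ne (Int.fract_nonneg _) fun h6 => ?_
        have h7 : (z.2.2 : Ci) = 0 := by
          rw [AddCircle.coe_eq_zero_iff]
          refine ⟨⌊z.2.2⌋, ?_⟩
          rw [zsmul_one]
          have h8 := Int.floor_add_fract z.2.2
          linarith
        have h8 : rt z = 256 * ‖(z.2.1 : Ci)‖ ^ 2 := by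
          unfold rt
          rw [h7, norm_zero]
          ring
        have h9 := norm_nonneg (z.2.1 : Ci)
        have h10 := not_lt.1 h3
        rw [h8] at h
        nlinarith
      · show z.2.2 + ((-⌊z.2.2⌋ : ℤ) : ℝ) < 1
        have h5 := Int.lt_floor_add_one z.2.2
        push_cast
        linarith
      · rw [rt_tr]
        exact h2

end Pool.Agent.H.MP_1611f1_gt.TW
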