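import Pool.Agent.H.MP_1611f1_gt.TW.Cha

/-!
The new foliation.
-/

namespace Pool.Agent.H.MP_1611f1_gt.TW

open Topology Set Filter
open Pool.Agent.H.MP_1611f1_gt.BR.U (Ci)

variable {M : Type} [TopologicalSpace M]

/-- the properties of the new foliation `G` -/
structure New (F : Foliation M) (N : Ci × Ci × Ci → M) (P : Par) (G : LS.PreFol M) : Prop where
  dom : G.dom = {y | y ∉ N '' KK}
  s : ∀ z ∈ XS, ∀ c ∈ G.charts, N (cov z) ∈ c.source →
    OrdEq z (fun w => (c (N (cov w))).2) yy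
  w : ∀ z ∈ XW, ∀ c ∈ G.charts, N (cov z) ∈ c.source →
    OrdEq z (fun w => (c (N (cov w))).2) P.E0
  t : ∀ z ∈ XT, ∀ c ∈ G.charts, N (cov (plr z)) ∈ c.source →
    OrdEq z (fun w => (c (N (cov (plr w)))).2) P.TT
  out : ∀ y ∉ N '' CC, ∀ c ∈ G.charts, ∀ c' ∈ F.charts, y ∈ c.source → y ∈ c'.source →
    OrdEq y (fun w => (c w).2) (fun w => (c' w).2)

/-- the index set of the families -/
inductive Fol_Ix (F : Foliation M) : Type
  | f (c : {c // c ∈ F.charts})
  | s
  | w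
  | t

/-- the families -/
noncomputable def Fol_fam {N : Ci × Ci × Ci → M} (hN : IsOpenEmbedding (VV.domRestrict N))
    (F : Foliation M) (hC : IsClosed (N '' CC)) (P : Par) : Fol_Ix F → Fam M
  | .f c => famF c.1 hC
  | .s => famU hN XS XS_open yy
  | .w => famU hN XW XW_open P.E0
  | .t => famT hN P

theorem Fol_norm (b : ℝ) (n : ℤ) : ‖((b + n : ℝ) : Ci)‖ = ‖(b : Ci)‖ := by
  have h : (((n : ℝ)) : Ci) = 0 := by
    rw [AddCircle.coe_eq_zero_iff]
    exact ⟨n, by simp⟩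
  rw [AddCircle.coe_add, h, add_zero]

theorem Fol_rt {z : ℝ × Ioo (1 : ℝ) 2 × ℝ} {m n k : ℤ} (h : 25 / 9 < rt (tr m n k (plr z))) :
    5 / 3 < (z.2.1 : ℝ) := by
  rw [rt_tr, rt_plr] at h
  have h1 := z.2.1.2.1
  nlinarith

theorem Fol_tube {N : Ci × Ci × Ci → M} (hN : IsOpenEmbedding (VV.domRestrict N))
    (z : ℝ × Ioo (1 : ℝ) 2 × ℝ) : N (cov (plr z)) ∉ N '' KK := by
  intro h
  have h1 := (N_mem hN (plr_VV z) (KK_sub.trans CC_sub)).1 h
  rw [KK_iff, rt_plr] at h1
  have h2 := z.2.1.2.1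
  nlinarith

/-- PROOF. `exists_pre` for the index set `{c // c ∈ F.charts} ⊕ Fin 3` (or `Option (Option ..)`), with the families `famF c`, `famU XS yy`,
`famU XW E0`, `famT`. Comparisons: `cmp_FF`; `cmp_FU` with `yy_out`, `Par.E0_out`; `cmp_FT`; `cmp_U` for `(yy, yy)`: `yy_tr_ord`; for
`(E0, E0)`: `tr m n k z ∈ XW` and `z ∈ XW` give `n = k = 0`, `E0_add`; for `z ∈ XW`, `tr m n k z ∈ XS` (`D' = yy`): `yy_tr_ord` and `Par.E0_side`; `cmp_TU` with `TT_W`, `TT_S` (`rt (plr z) = r ^ 2 > 25/9`,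
`rt_plr`, `rt_tr`); `cmp_TT`. Charts: `chart_F`, `chart_U` (`Par.E0_lt`), `chart_T`. The domain: `y ∉ N '' CC`: a chart of `F` (`F.cover`); `y = N (cov z)` with
`cov z ∈ CC`, `1 < rt z`: `cover` (with `N (cov (tr ..)) = N (cov ..)`); conversely no point of the families is in `N '' KK` (`N_mem`, `KK_sub`, `KK_iff`, `rt_plr`). The
functions on `UU` and on `ℝ × ℝ × ℝ`: `OrdEq.of_openMap` for the open map `Subtype.val : UU → ℝ × ℝ × ℝ`. -/
theorem exists_new [T2Space M] {F : Foliation M} {N : Ci × Ci × Ci → M} (B : Box F N) (P : Par) :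
    ∃ G : LS.PreFol M, New F N P G := by
  have hN := B.emb
  have hC : IsClosed (N '' CC) := N_closed hN CC_closed le_rfl
  -- comparisons
  have hss := cmp_U hN (hX := XS_open) (hX' := XS_open) (D := yy) (D' := yy)
    (fun z _ m n k _ => yy_tr_ord m n k z)
  have hww := cmp_U hN (hX := XW_open) (hX' := XW_open) (D := P.E0) (D' := P.E0) (by
    intro z hz m n k hz'
    obtain ⟨-, hb, h0, h1, -⟩ := hz
    obtain ⟨-, hb', h0', h1', -⟩ := hz'
    have hn : n = 0 := by
      have h2 : |z.2.1 + (n : ℝ)| < 3 / 16 := hb'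
      rw [abs_lt] at hb h2
      have h3 : (-1 : ℝ) < n := by linarith [h2.1, hb.2]
      have h4 : (n : ℝ) < 1 := by linarith [h2.2, hb.1]
      have h5 : -1 < n := by exact_mod_cast h3
      have h6 : n < 1 := by exact_mod_cast h4
      omega
    have hk : k = 0 := by
      have h2 : 0 < z.2.2 + (k : ℝ) := h0'
      have h3 : z.2.2 + (k : ℝ) < 1 := h1'
      have h4 : (-1 : ℝ) < k := by linarith
      have h5 : (k : ℝ) < 1 := by linarith
      have h6 : -1 < k := by exact_mod_cast h4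
      have h7 : k < 1 := by exact_mod_cast h5
      omega
    subst hn hk
    refine (OrdEq.of_comp (fun x => x + (m : ℝ)) (fun x y h => by
      show x + (m : ℝ) < y + m
      linarith) (Eventually.of_forall fun w => ?_)).symm
    exact P.E0_add m w)
  have hsw := cmp_U hN (hX := XW_open) (hX' := XS_open) (D := P.E0) (D' := yy) (by
    intro z hz m n k hz'
    have h1 : 1 / 16 < ‖(z.2.1 : Ci)‖ := by
      have h2 : 1 / 16 < ‖((z.2.1 + n : ℝ) : Ci)‖ := hz'.2.1
      rwa [Fol_norm] at h2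
    exact (yy_tr_ord m n k z).trans (P.E0_side hz.2.1 h1))
  have htw := cmp_TU hN P (hX := XW_open) (D := P.E0) (by
    intro z _ m n k hz'
    exact P.TT_W (Fol_rt hz'.2.2.2.2) hz')
  have hts := cmp_TU hN P (hX := XS_open) (D := yy) (by
    intro z _ m n k hz'
    exact P.TT_S (Fol_rt hz'.2.2) hz')
  have hfs : ∀ c : {c // c ∈ F.charts}, _ := fun c =>
    cmp_FU hN B hC c.2 (hX := XS_open) (D := yy) (fun z _ h => yy_out h)
  have hfw : ∀ c : {c // c ∈ F.charts}, _ := fun c =>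
    cmp_FU hN B hC c.2 (hX := XW_open) (D := P.E0)
      (fun z hz h => P.E0_out h hz.2.1 hz.2.2.1 hz.2.2.2.1)
  have hft : ∀ c : {c // c ∈ F.charts}, _ := fun c => cmp_FT hN P hC c.1
  have hcmp : ∀ i j, Cmp (Fol_fam hN F hC P i) (Fol_fam hN F hC P j) := by
    intro i j
    rcases i with c | _ | _ | _ <;> rcases j with c' | _ | _ | _
    · exact cmp_FF F hC c.2 c'.2
    · exact (hfs c).1
    · exact (hfw c).1
    · exact (hft c).1
    · exact (hfs c').2
    · exact hss.1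
    · exact hsw.1
    · exact hts.1
    · exact (hfw c').2
    · exact hsw.2
    · exact hww.1
    · exact htw.1
    · exact (hft c').2
    · exact hts.2
    · exact htw.2
    · exact cmp_TT hN P
  -- charts
  have hch : ∀ i, ∀ z ∈ (Fol_fam hN F hC P i).X, HasChart (Fol_fam hN F hC P i) z := by
    intro i
    rcases i with c | _ | _ | _
    · exact fun z hz => chart_F c.1 hC z hz
    · exact fun z hz => chart_U hN (hX := XS_open) yy_cont (fun _ _ _ h => h) z hz
    · exact fun z hz => chart_U hN (hX := XW_open) P.E0_cont (fun _ _ hb h => P.E0_lt hb h) z hz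
    · exact fun z hz => chart_T hN P z hz
  obtain ⟨G, hdom, hG⟩ := exists_pre (Fol_fam hN F hC P) hcmp hch
  have hUU : IsOpenMap (Subtype.val : UU → ℝ × ℝ × ℝ) :=
    (VV_open.preimage cov_loc.continuous).isOpenMap_subtype_val
  have hKV : KK ⊆ VV := KK_sub.trans CC_sub
  refine ⟨G, ?_, ?_, ?_, ?_, ?_⟩
  · rw [hdom]
    ext y
    rw [mem_iUnion]
    constructor
    · rintro ⟨i, hi⟩
      show y ∉ N '' KK
      rcases i with c | _ | _ | _
      · obtain ⟨x, hx, rfl⟩ := hi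
        exact fun h => hx.2 (image_mono KK_sub h)
      · obtain ⟨z, hz, rfl⟩ := hi
        intro h
        have h1 := (N_mem hN z.2 hKV).1 h
        rw [KK_iff] at h1
        have h2 : 25 / 9 < rt z.1 := hz.2.2
        linarith
      · obtain ⟨z, hz, rfl⟩ := hi
        intro h
        have h1 := (N_mem hN z.2 hKV).1 h
        rw [KK_iff] at h1
        have h2 : 25 / 9 < rt z.1 := hz.2.2.2.2
        linarith
      · obtain ⟨z, hz, rfl⟩ := hi
        exact Fol_tube hN z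
    · intro hy
      by_cases hyC : y ∈ N '' CC
      · obtain ⟨x, hx, rfl⟩ := hyC
        obtain ⟨z, rfl⟩ := cov_surj x
        have hz : 1 < rt z := by
          by_contra hc
          exact hy (mem_image_of_mem N ((KK_iff z).2 (not_lt.1 hc)))
        rcases cover (CC_sub hx) hz with h1 | ⟨m, n, k, h1⟩ | ⟨w, hw, m, n, k, h1⟩
        · exact ⟨.s, ⟨⟨z, CC_sub hx⟩, h1, rfl⟩⟩
        · refine ⟨.w, ⟨⟨tr m n k z, h1.1⟩, h1, ?_⟩⟩
          show N (cov (tr m n k z)) = N (cov z)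
          rw [cov_tr]
        · refine ⟨.t, ⟨w, hw, ?_⟩⟩
          show N (cov (plr w)) = N (cov z)
          rw [h1, cov_tr]
      · obtain ⟨c, hc, hyc⟩ := F.cover y
        exact ⟨.f ⟨c, hc⟩, ⟨y, ⟨hyc, hyC⟩, rfl⟩⟩
  · intro z hz c hc hs
    exact OrdEq.of_openMap hUU (z₀ := (⟨z, hz.1⟩ : UU)) (hG c hc .s ⟨z, hz.1⟩ hz hs)
  · intro z hz c hc hs
    exact OrdEq.of_openMap hUU (z₀ := (⟨z, hz.1⟩ : UU)) (hG c hc .w ⟨z, hz.1⟩ hz hs)
  · intro z hz c hc hs
    exact hG c hc .t z hz hs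
  · intro y hy c hc c' hc' hyc hyc'
    exact hG c hc (.f ⟨c', hc'⟩) y ⟨hyc', hy⟩ hyc

end Pool.Agent.H.MP_1611f1_gt.TW
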