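import Pool.Agent.H.MP_1611f1_gt.TW.TaB
import Pool.Agent.H.MP_1611f1_gt.LS.UpC

/-!
Tautness of the new foliation, over `VV`.
-/

namespace Pool.Agent.H.MP_1611f1_gt.TW

open Topology Set Filter
open Pool.Agent.H.MP_1611f1_gt.BR.U (Ci)

variable {M : Type} [TopologicalSpace M] {F : Foliation M} {N : Ci × Ci × Ci → M} {P : Par}
  {G : LS.PreFol M}

/-- near `0` the norm is the absolute value -/
private theorem TaC_norm {x : ℝ} (h : |x| ≤ 1 / 2) : ‖(x : Ci)‖ = |x| := by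
  rw [AddCircle.norm_coe_eq_abs_iff _ one_ne_zero]
  simpa using h

/-- the lift in `[-1/2, 1/2]` -/
private theorem TaC_lift (x : ℝ) : ∃ (y : ℝ) (n : ℤ), x = y + n ∧ |y| ≤ 1 / 2 ∧
    ‖(x : Ci)‖ = |y| :=
  ⟨x - round x, round x, by ring, abs_sub_round x, UnitAddCircle.norm_eq⟩

private theorem TaC_coe (x : ℝ) (n : ℤ) : ((x + n : ℝ) : Ci) = (x : Ci) := by
  have h1 := congrArg Prod.fst (cov_tr n 0 0 (x, 0, 0))
  exact h1

private theorem TaC_three : ‖((3 / 16 : ℝ) : Ci)‖ = 3 / 16 := by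
  rw [TaC_norm (by rw [abs_of_pos (by norm_num)]; norm_num), abs_of_pos (by norm_num)]

private theorem TaC_e {e : ℝ} (he : e = 1 / 8 ∨ e = -1 / 8) : ‖(e : Ci)‖ = 1 / 8 := by
  have h : |e| = 1 / 8 := by
    rcases he with rfl | rfl
    · rw [abs_of_pos (by norm_num)]
    · rw [abs_of_neg (by norm_num)]
      norm_num
  rw [TaC_norm (by rw [h]; norm_num), h]

/-- The circles in the `t`-direction, for `1/8 ≤ ‖a‖ < 1/4`, `1/8 ≤ ‖b‖`. PROOF: `ff a = n` (`ff_int`), `yy (a, b, t) = n + LL t` (`yy_flat`) is strictly increasing; `up_R` with `Z = UU`, `X = {z | z.1 ∈ XS}`, `D = yy`, `σ s = (a, b, t + s)`, `s ∈ [0, 1]`;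
`rt > 25/9` by `rt_lt`; `cov (a, b, t + 1) = cov (a, b, t)`. -/
theorem New.up_t (H : New F N P G) (B : Box F N) {a b : ℝ} (t : ℝ) (ha : 1 / 8 ≤ ‖(a : Ci)‖)
    (ha' : ‖(a : Ci)‖ < 1 / 4) (hb : 1 / 8 ≤ ‖(b : Ci)‖) :
    G.Up (N (cov (a, b, t))) (N (cov (a, b, t))) := by
  have hV : ∀ s : ℝ, cov (a, b, s) ∈ VV := fun s => Or.inl ha'
  have hb' : 1 / 16 < ‖(b : Ci)‖ := by linarith
  have hX : ∀ s : ℝ, (a, b, s) ∈ XS := fun s =>
    ⟨hV s, hb', rt_lt (hb.trans (le_max_left _ _))⟩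
  obtain ⟨n, hn⟩ := ff_int ha
  have h := up_R G (Z := UU) (R := fun z => N (cov z.1)) (RU_loc B.emb).continuous
    (X := {z | z.1 ∈ XS}) (D := fun z => yy z.1) (fun z hz => ?_) (fun z hz c hc hzc => ?_)
    (σ := fun s => (⟨(a, b, t + s), hV _⟩ : UU)) (a := 0) (b := 1) zero_lt_one ?_
    (fun s _ => hX _) (fun s _ s' _ hs => ?_)
  · have e1 : cov (a, b, t + 1) = cov (a, b, t) := by
      have e2 := cov_tr 0 0 1 (a, b, t)
      rw [← e2]
      simp only [tr]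
      norm_num
    have e3 : cov (a, b, t + 0) = cov (a, b, t) := by rw [add_zero]
    simp only [e1, e3] at h
    exact h
  · rw [H.dom]
    intro h1
    have h2 := (N_mem B.emb z.2 (KK_sub.trans CC_sub)).1 h1
    rw [KK_iff] at h2
    have h3 : 25 / 9 < rt z.1 := hz.2.2
    linarith
  · exact OrdEq.comp_cont (R := (Subtype.val : UU → ℝ × ℝ × ℝ)) (z₀ := z)
      continuous_subtype_val.continuousAt (H.s z.1 hz c hc hzc)
  · exact Continuous.continuousOn (by fun_prop)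
  · refine yy_lt_t (n := n) ?_ (by linarith)
    rw [hn, sub_self, abs_zero]
    norm_num

/-- `New.up_edge` if `‖a‖ < 1/4`: move `b` -/
private theorem TaC_edge (H : New F N P G) (B : Box F N) {a b t : ℝ} (ha : 1 / 8 ≤ ‖(a : Ci)‖)
    (ha' : ‖(a : Ci)‖ < 1 / 4) (hm : 1 / 8 ≤ max ‖(b : Ci)‖ ‖(t : Ci)‖) :
    G.Up (N (cov (a, b, t))) (N (cov (a, b, t))) := by
  rcases le_or_gt (1 / 8) ‖(b : Ci)‖ with hb | hb
  · exact H.up_t B t ha ha' hb
  have ht : 1 / 8 ≤ ‖(t : Ci)‖ := by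
    rcases le_max_iff.1 hm with h | h
    · exact absurd h (not_le.2 hb)
    · exact h
  obtain ⟨n, hn⟩ := ff_int ha
  refine H.up_flat B (σ := fun s => (a, s, t)) (a := b) (b := 3 / 16) (t₀ := t) (n := n)
    (by fun_prop) (fun s _ => Or.inl ha') (fun s _ => hn) (fun s _ => rfl)
    (fun s _ => ht.trans (le_max_right _ _)) (H.up_t B t ha ha' ?_)
  rw [TaC_three]
  norm_num

/-- The points with `1/8 ≤ ‖a‖` and `1/8 ≤ max ‖b‖ ‖t‖`. PROOF: at most two leaf paths (`New.up_flat`) to a point of `New.up_t`. First, if `1/4 ≤ ‖a‖` (then `‖b‖, ‖t‖ < 1/4`): move `a` inside of the flat interval of `ff` (`ff_flat`, `ff_add`) to a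
point with `‖a‖ = 3/16`. Then, if `‖b‖ < 1/8` (so `1/8 ≤ ‖t‖`): take the lift with `|b| < 1/8` and move `b` to `3/16` (`t` fixed). -/
theorem New.up_edge (H : New F N P G) (B : Box F N) {z : ℝ × ℝ × ℝ} (hz : cov z ∈ VV)
    (ha : 1 / 8 ≤ ‖(z.1 : Ci)‖) (hm : 1 / 8 ≤ max ‖(z.2.1 : Ci)‖ ‖(z.2.2 : Ci)‖) :
    G.Up (N (cov z)) (N (cov z)) := by
  obtain ⟨a, b, t⟩ := z
  simp only at ha hm
  rcases lt_or_ge ‖(a : Ci)‖ (1 / 4) with ha1 | ha1
  · exact TaC_edge H B ha ha1 hm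
  have hbt : ‖(b : Ci)‖ < 1 / 4 ∧ ‖(t : Ci)‖ < 1 / 4 := by
    rcases hz with h | h
    · have h1 : ‖(a : Ci)‖ < 1 / 4 := h
      linarith
    · exact h
  obtain ⟨a0, m, hab, ha0, han⟩ := TaC_lift a
  obtain ⟨e, he, hea⟩ : ∃ e : ℝ, (e = 1 ∨ e = -1) ∧ a0 = e * |a0| := by
    rcases le_total 0 a0 with h | h
    · exact ⟨1, Or.inl rfl, by rw [abs_of_nonneg h, one_mul]⟩
    · exact ⟨-1, Or.inr rfl, by rw [abs_of_nonpos h]; ring⟩
  have hI : ∀ s ∈ uIcc |a0| (3 / 16 : ℝ), 3 / 16 ≤ s ∧ s ≤ 1 / 2 := by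
    intro s hs
    rw [uIcc_of_ge (by linarith)] at hs
    exact ⟨hs.1, hs.2.trans ha0⟩
  obtain ⟨n, hn⟩ : ∃ n : ℤ, ∀ s ∈ uIcc |a0| (3 / 16 : ℝ), ff (e * s + m) = n := by
    rcases he with rfl | rfl
    · refine ⟨1 + m, fun s hs => ?_⟩
      obtain ⟨h1, h2⟩ := hI s hs
      rw [ff_add, ff_flat ⟨by linarith, by linarith⟩]
      push_cast
      ring
    · refine ⟨m, fun s hs => ?_⟩
      obtain ⟨h3, h4⟩ := hI s hs
      have h1 : (-1 : ℝ) * s + m = (1 - s) + ((m - 1 : ℤ) : ℝ) := by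
        push_cast
        ring
      rw [h1, ff_add, ff_flat ⟨by linarith, by linarith⟩]
      push_cast
      ring
  have h3 : ‖((e * (3 / 16) + m : ℝ) : Ci)‖ = 3 / 16 := by
    have h1 : |e * (3 / 16)| = 3 / 16 := by
      rw [abs_mul, abs_of_nonneg (by norm_num : (0 : ℝ) ≤ 3 / 16)]
      rcases he with rfl | rfl <;> simp
    rw [TaC_coe, TaC_norm (by rw [h1]; norm_num), h1]
  have h := H.up_flat B (σ := fun s => (e * s + m, b, t)) (a := |a0|) (b := 3 / 16) (t₀ := t)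
    (n := n) (by fun_prop) (fun s _ => Or.inr hbt) (fun s hs => hn s hs) (fun s _ => rfl)
    (fun s _ => hm) (TaC_edge H B ?_ ?_ hm)
  · have h1 : e * |a0| + (m : ℝ) = a := by rw [hab, ← hea]
    simp only [h1] at h
    exact h
  · rw [h3]
    norm_num
  · rw [h3]
    norm_num

/-- Paths in the set of points with `Up x x`. PROOF: `LS.PreFol.up_interval` for `N ∘ cov ∘ σ` (`N_cont`). -/
theorem New.up_move (B : Box F N) {σ : ℝ → ℝ × ℝ × ℝ} {a b : ℝ}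
    (hσ : ContinuousOn σ (uIcc a b)) (hV : ∀ s ∈ uIcc a b, cov (σ s) ∈ VV)
    (h : ∀ s ∈ uIcc a b, G.Up (N (cov (σ s))) (N (cov (σ s)))) :
    G.Up (N (cov (σ a))) (N (cov (σ b))) ∧ G.Up (N (cov (σ b))) (N (cov (σ a))) := by
  refine G.up_interval (fun s => N (cov (σ s))) ?_ h
  have h1 : ContinuousOn (fun s => cov (σ s)) (uIcc a b) := cov_loc.continuous.comp_continuousOn hσ
  exact (N_cont B.emb).comp h1 hV

/-- at `a = 1/8` or `a = -1/8` all `(b, t)` with `1/8 ≤ max ‖b‖ ‖t‖` are connected with `(3/16, 3/16)`. PROOF: take lifts with `|b|, |t| ≤ 1/2` (`cov_tr`). If `1/8 ≤ |b|`: first move `t` to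
`3/16` with `b` fixed, then `b` to `3/16`. If `1/8 ≤ |t|`: first `b`, then `t`. (`New.up_move` twice, with `New.up_edge`; `‖±1/8‖ = 1/8 < 1/4`.) -/
theorem New.up_corner (H : New F N P G) (B : Box F N) {e b t : ℝ} (he : e = 1 / 8 ∨ e = -1 / 8)
    (hm : 1 / 8 ≤ max ‖(b : Ci)‖ ‖(t : Ci)‖) :
    G.Up (N (cov (e, b, t))) (N (cov (e, 3 / 16, 3 / 16))) ∧
      G.Up (N (cov (e, 3 / 16, 3 / 16))) (N (cov (e, b, t))) := by
  have hen := TaC_e he
  have h3 := TaC_three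
  have hV : ∀ b t : ℝ, cov (e, b, t) ∈ VV := fun b t => Or.inl (by
    show ‖(e : Ci)‖ < 1 / 4
    rw [hen]
    norm_num)
  have hE : ∀ b t : ℝ, 1 / 8 ≤ ‖((e, b, t).1 : Ci)‖ := fun b t => hen.ge
  -- the move of `t`
  have mt : ∀ b t t' : ℝ, 1 / 8 ≤ ‖(b : Ci)‖ →
      G.Up (N (cov (e, b, t))) (N (cov (e, b, t'))) ∧
        G.Up (N (cov (e, b, t'))) (N (cov (e, b, t))) := fun b t t' h =>
    New.up_move B (σ := fun s => (e, b, s)) (by fun_prop) (fun s _ => hV _ _) (fun s _ =>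
      H.up_edge B (hV _ _) (hE b s) (h.trans (le_max_left _ _)))
  have mb : ∀ b b' t : ℝ, 1 / 8 ≤ ‖(t : Ci)‖ →
      G.Up (N (cov (e, b, t))) (N (cov (e, b', t))) ∧
        G.Up (N (cov (e, b', t))) (N (cov (e, b, t))) := fun b b' t h =>
    New.up_move B (σ := fun s => (e, s, t)) (by fun_prop) (fun s _ => hV _ _) (fun s _ =>
      H.up_edge B (hV _ _) (hE s t) (h.trans (le_max_right _ _)))
  have h3' : (1 : ℝ) / 8 ≤ ‖((3 / 16 : ℝ) : Ci)‖ := by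
    rw [h3]
    norm_num
  rcases le_max_iff.1 hm with h | h
  · have h1 := mt b t (3 / 16) h
    have h2 := mb b (3 / 16) (3 / 16) h3'
    exact ⟨h1.1.trans G h2.1, h2.2.trans G h1.2⟩
  · have h1 := mb b (3 / 16) t h
    have h2 := mt (3 / 16) t (3 / 16) h3'
    exact ⟨h1.1.trans G h2.1, h2.2.trans G h1.2⟩

/-- PROOF: `New.up_corner` for `1/8` and `-1/8`, and `New.up_move` for `σ s = (s, 3/16, 3/16)`, `s ∈ [1/8, 7/8]` (`New.up_edge`); `cov (7/8, ..) = cov (-1/8, ..)`. -/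
theorem New.up_across (H : New F N P G) (B : Box F N) {b t : ℝ}
    (hm : 1 / 8 ≤ max ‖(b : Ci)‖ ‖(t : Ci)‖) :
    G.Up (N (cov (1 / 8, b, t))) (N (cov (-1 / 8, b, t))) := by
  have h3 := TaC_three
  have h1 := (H.up_corner B (e := 1 / 8) (Or.inl rfl) hm).1
  have h2 := (H.up_corner B (e := -1 / 8) (Or.inr rfl) hm).2
  have hV : ∀ s : ℝ, cov (s, 3 / 16, 3 / 16) ∈ VV := fun s => Or.inr (by
    constructor
    · show ‖((3 / 16 : ℝ) : Ci)‖ < 1 / 4
      rw [h3]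
      norm_num
    · show ‖((3 / 16 : ℝ) : Ci)‖ < 1 / 4
      rw [h3]
      norm_num)
  have h4 := (New.up_move (G := G) B (σ := fun s => (s, 3 / 16, 3 / 16)) (a := 1 / 8) (b := 7 / 8)
    (by fun_prop) (fun s _ => hV s) (fun s hs => H.up_edge B (hV s) ?_ ?_)).1
  · have h5 : cov ((7 / 8 : ℝ), (3 / 16 : ℝ), (3 / 16 : ℝ)) = cov (-1 / 8, 3 / 16, 3 / 16) := by
      have h6 := cov_tr 1 0 0 ((-1 / 8 : ℝ), (3 / 16 : ℝ), (3 / 16 : ℝ))
      rw [← h6]
      simp only [tr]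
      norm_num
    rw [h5] at h4
    exact h1.trans G (h4.trans G h2)
  · rw [uIcc_of_le (by norm_num)] at hs
    show 1 / 8 ≤ ‖(s : Ci)‖
    rcases le_total s (1 / 2) with h | h
    · rw [TaC_norm (by rw [abs_of_nonneg (by linarith [hs.1])]; exact h),
        abs_of_nonneg (by linarith [hs.1])]
      exact hs.1
    · have h5 : s = (s - 1) + ((1 : ℤ) : ℝ) := by
        push_cast
        ring
      rw [h5, TaC_coe, TaC_norm (by rw [abs_of_nonpos (by linarith [hs.2])]; linarith),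
        abs_of_nonpos (by linarith [hs.2])]
      linarith [hs.2]
  · show 1 / 8 ≤ max ‖((3 / 16 : ℝ) : Ci)‖ ‖((3 / 16 : ℝ) : Ci)‖
    rw [max_self, h3]
    norm_num

/-- PROOF: if `max ‖b‖ ‖t‖ < 1/8`: `New.up_circle`. If `1/8 ≤ max` and `1/8 ≤ ‖a‖`: `New.up_edge`. Otherwise
choose the lift `|a| < 1/8`: `New.up_a` from `a` to `1/8` and from `-1/8` to `a` (`ff_core`: `ff` is strictly increasing on `[-1/8, 1/8]`; `rt_lt`), and `New.up_across`; `LS.PreFol.Up.trans`. -/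
theorem New.up_V (H : New F N P G) (B : Box F N) {z : ℝ × ℝ × ℝ} (hz : cov z ∈ VV)
    (h : 1 < rt z) : G.Up (N (cov z)) (N (cov z)) := by
  rcases lt_or_ge (max ‖(z.2.1 : Ci)‖ ‖(z.2.2 : Ci)‖) (1 / 8) with hm | hm
  · exact H.up_circle B h hm
  rcases le_or_gt (1 / 8) ‖(z.1 : Ci)‖ with ha | ha
  · exact H.up_edge B hz ha hm
  obtain ⟨a, b, t⟩ := z
  simp only at hm ha
  obtain ⟨a0, m, hab, ha0, han⟩ := TaC_lift a
  have hcov : cov (a, b, t) = cov (a0, b, t) := by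
    have h1 := cov_tr m 0 0 (a0, b, t)
    rw [← h1]
    simp only [tr, hab]
    norm_num
  have h8 : |a0| < 1 / 8 := by rw [← han]; exact ha
  obtain ⟨h9, h10⟩ := abs_lt.1 h8
  have hV : ∀ s : ℝ, |s| ≤ 1 / 8 → cov (s, b, t) ∈ VV := fun s hs => Or.inl (by
    show ‖(s : Ci)‖ < 1 / 4
    rw [TaC_norm (by linarith)]
    linarith)
  have hmono : ∀ {x y : ℝ}, -1 / 8 ≤ x → y ≤ 1 / 8 → StrictMonoOn ff (Icc x y) := by
    intro x y hx hy s hs s' hs' hss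
    rw [ff_core (abs_le.2 ⟨by linarith [hs.1], by linarith [hs.2]⟩),
      ff_core (abs_le.2 ⟨by linarith [hs'.1], by linarith [hs'.2]⟩)]
    linarith
  have h1 : G.Up (N (cov (a0, b, t))) (N (cov (1 / 8, b, t))) :=
    H.up_a B h10 (fun s hs => hV s (abs_le.2 ⟨by linarith [hs.1], by linarith [hs.2]⟩))
      (rt_lt hm) (Or.inl (hmono (by linarith) le_rfl))
  have h2 : G.Up (N (cov (-1 / 8, b, t))) (N (cov (a0, b, t))) :=
    H.up_a B (by linarith) (fun s hs => hV s (abs_le.2 ⟨by linarith [hs.1], by linarith [hs.2]⟩))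
      (rt_lt hm) (Or.inl (hmono le_rfl h10.le))
  rw [hcov]
  exact h1.trans G ((H.up_across B hm).trans G h2)

end Pool.Agent.H.MP_1611f1_gt.TW
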