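import Pool.Agent.H.MP_1611f1_gt.TW.SusC
import Pool.Agent.H.MP_1611f1_gt.TW.LoC

/-!
The mapping torus with two crossing annuli in the fibre: the coordinates.
-/

namespace Pool.Agent.H.MP_1611f1_gt.TW

open Topology Set Filter
open Pool.Agent.H.MP_1611f1_gt.BR.U (Ci cl coe_cl cl_mem cl_coe cl_zero cl_contAt' small_nhds
  cl_base norm_cl)
open Pool.Agent.H.MP_1611f1_gt.G (MTorus Ended)

/-- a map which becomes open and continuous after composition with an open surjection -/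
theorem openEmb_of_cover {X Y Z : Type*} [TopologicalSpace X] [TopologicalSpace Y]
    [TopologicalSpace Z] {q : X → Y} (hq : IsOpenMap q) (hqc : Continuous q)
    (hqs : Function.Surjective q) {f : Y → Z} (hf : Function.Injective f)
    (h : Continuous (f ∘ q)) (h' : IsOpenMap (f ∘ q)) : IsOpenEmbedding f := by
  have hQ : IsQuotientMap q := hq.isQuotientMap hqc hqs
  have hfc : Continuous f := hQ.continuous_iff.2 h
  refine IsOpenEmbedding.of_continuous_injective_isOpenMap hfc hf fun U hU => ?_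
  have e : f '' U = (f ∘ q) '' (q ⁻¹' U) := by
    rw [image_comp, image_preimage_eq U hqs]
  rw [e]
  exact h' _ (hU.preimage hqc)

namespace Cross

variable {S : Type*} [TopologicalSpace S] {J : Type*} (P : Cross S J)

theorem wt_eq {z : Ci × Ci} (h : z ∈ crs) : P.wt z = P.w ⟨z, h⟩ := by
  unfold wt
  rw [dif_pos h]

theorem wt_coe (z : crs) : P.wt z.1 = P.w z := P.wt_eq z.2

theorem c_wt (z : Ci × Ci) : P.c (P.wt z) = 0 := by
  unfold wt
  split_ifs
  · exact P.c_w _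
  · exact P.c_w _

theorem wt_contAt {z : Ci × Ci} (h : z ∈ crs) : ContinuousAt P.wt z := by
  have h1 : ContinuousOn P.wt crs := by
    rw [continuousOn_iff_continuous_domRestrict]
    have e : crs.domRestrict P.wt = P.w := funext fun z => P.wt_coe z
    rw [e]
    exact P.emb.continuous
  exact h1.continuousAt (crs_open.mem_nhds h)

variable {M : Type*} [TopologicalSpace M] {T : Ended M J} (Mt : MTorus P.E P.ψ T)

theorem fix_p {z : Ci × Ci} (h : ‖z.1‖ < 1 / 4) (t : ℝ) :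
    Mt.p (P.wt z, cl (t : Ci)) = Mt.p (P.wt z, t) := by
  have h1 : ((t - cl (t : Ci) : ℝ) : Ci) = 0 := by
    rw [AddCircle.coe_sub, coe_cl, sub_self]
  obtain ⟨k, hk⟩ := (AddCircle.coe_eq_zero_iff (1 : ℝ)).1 h1
  rw [zsmul_eq_mul, mul_one] at hk
  refine (Mt.p_eq _ _ _ _).2 ⟨k, by linarith, ?_⟩
  have hz : z ∈ crs := Or.inl h
  rw [P.wt_eq hz]
  exact (P.zpow_id (z := ⟨z, hz⟩) h k).symm

/-- the covering of the coordinate neighbourhood -/
abbrev OO := {z : crs × ℝ // ‖z.1.1.1‖ < 1 / 4 ∨ |z.2| < 1 / 4}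

theorem mem_VV (z : OO) : (z.1.1.1.1, z.1.1.1.2, (z.1.2 : Ci)) ∈ VV := by
  rcases lt_or_ge ‖z.1.1.1.1‖ (1 / 4) with h | h
  · exact Or.inl h
  · right
    constructor
    · rcases z.1.1.2 with h1 | h1
      · exact absurd h1 (not_lt.2 h)
      · exact h1
    · have h1 : |z.1.2| < 1 / 4 := by
        rcases z.2 with h1 | h1
        · exact absurd h1 (not_lt.2 h)
        · exact h1
      show ‖(z.1.2 : Ci)‖ < 1 / 4
      have h2 := abs_lt.1 h1
      rw [norm_cl, cl_coe ⟨by linarith [h2.1], by linarith [h2.2]⟩]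
      exact h1

/-- the covering map -/
def qq (z : OO) : VV := ⟨(z.1.1.1.1, z.1.1.1.2, (z.1.2 : Ci)), mem_VV z⟩

theorem OO_open : IsOpen {z : crs × ℝ | ‖z.1.1.1‖ < 1 / 4 ∨ |z.2| < 1 / 4} := by
  have h1 : Continuous fun z : crs × ℝ => ‖z.1.1.1‖ := by fun_prop
  have h2 : Continuous fun z : crs × ℝ => |z.2| := by fun_prop
  exact (isOpen_Iio.preimage h1).union (isOpen_Iio.preimage h2)

theorem qq_cont : Continuous qq := by
  unfold qq
  refine Continuous.subtype_mk ?_ _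
  refine Continuous.prodMk (by fun_prop) (Continuous.prodMk (by fun_prop) ?_)
  exact (AddCircle.continuous_mk' (1 : ℝ)).comp (by fun_prop)

theorem qq_open : IsOpenMap qq := by
  have h0 : IsOpenMap fun z : crs × ℝ => ((z.1.1.1, z.1.1.2, (z.2 : Ci)) : Ci × Ci × Ci) := by
    have h1 : IsOpenMap (Prod.map (Subtype.val : crs → Ci × Ci) (fun t : ℝ => (t : Ci))) :=
      crs_open.isOpenMap_subtype_val.prodMap QuotientAddGroup.isOpenMap_coe
    exact (Homeomorph.prodAssoc Ci Ci Ci).isOpenMap.comp h1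
  have h2 : IsOpenMap fun z : OO => ((z.1.1.1.1, z.1.1.1.2, (z.1.2 : Ci)) : Ci × Ci × Ci) :=
    h0.comp OO_open.isOpenMap_subtype_val
  intro U hU
  have e : qq '' U = Subtype.val ⁻¹'
      ((fun z : OO => ((z.1.1.1.1, z.1.1.1.2, (z.1.2 : Ci)) : Ci × Ci × Ci)) '' U) := by
    ext v
    constructor
    · rintro ⟨z, hz, rfl⟩
      exact ⟨z, hz, rfl⟩
    · rintro ⟨z, hz, h⟩
      exact ⟨z, hz, Subtype.ext h⟩
  rw [e]
  exact (h2 U hU).preimage continuous_subtype_val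

theorem mem_crs {v : Ci × Ci × Ci} (h : v ∈ VV) : (v.1, v.2.1) ∈ crs := by
  rcases h with h | ⟨h, -⟩
  · exact Or.inl h
  · exact Or.inr h

theorem qq_surj : Function.Surjective qq := by
  rintro ⟨v, hv⟩
  refine ⟨⟨(⟨(v.1, v.2.1), mem_crs hv⟩, cl v.2.2), ?_⟩, ?_⟩
  · rcases hv with h | ⟨-, h⟩
    · exact Or.inl h
    · right
      rw [norm_cl] at h
      exact h
  · apply Subtype.ext
    show (v.1, v.2.1, ((cl v.2.2 : ℝ) : Ci)) = v
    rw [coe_cl]

theorem NN_qq (z : OO) : P.NN Mt (qq z).1 = Mt.p (P.w z.1.1, z.1.2) := by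
  show Mt.p (P.wt z.1.1.1, cl (z.1.2 : Ci)) = _
  rw [← P.wt_coe]
  rcases z.2 with h | h
  · exact P.fix_p Mt h _
  · have h2 := abs_lt.1 h
    rw [cl_coe ⟨by linarith [h2.1], by linarith [h2.2]⟩]

theorem NN_emb : IsOpenEmbedding (VV.domRestrict (P.NN Mt)) := by
  refine openEmb_of_cover qq_open qq_cont qq_surj ?_ ?_ ?_
  · rintro ⟨v, hv⟩ ⟨v', hv'⟩ h
    have h1 : Mt.p (P.wt (v.1, v.2.1), cl v.2.2) = Mt.p (P.wt (v'.1, v'.2.1), cl v'.2.2) := h
    obtain ⟨k, hk, hx⟩ := (Mt.p_eq _ _ _ _).1 h1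
    have h3 : |(k : ℝ)| < 1 := by
      have h4 : (k : ℝ) = cl v'.2.2 - cl v.2.2 := by rw [hk]; ring
      have h5 := cl_mem v.2.2
      have h6 := cl_mem v'.2.2
      rw [h4, abs_lt]
      constructor <;> linarith [h5.1, h5.2, h6.1, h6.2]
    have h4 : k = 0 := by
      rw [← Int.abs_lt_one_iff]
      exact_mod_cast h3
    subst h4
    simp only [Int.cast_zero, add_zero] at hk
    simp only [zpow_zero, Homeomorph.one_apply] at hx
    rw [P.wt_eq (mem_crs hv), P.wt_eq (mem_crs hv')] at hx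
    have h5 : ((v.1, v.2.1) : Ci × Ci) = (v'.1, v'.2.1) :=
      congrArg Subtype.val (P.emb.injective hx)
    have h6 : v.2.2 = v'.2.2 := by rw [← coe_cl v.2.2, ← coe_cl v'.2.2, hk]
    apply Subtype.ext
    obtain ⟨h7, h8⟩ := Prod.mk.inj h5
    exact Prod.ext h7 (Prod.ext h8 h6)
  · have e : (VV.domRestrict (P.NN Mt)) ∘ qq = fun z : OO => Mt.p (P.w z.1.1, z.1.2) :=
      funext fun z => P.NN_qq Mt z
    rw [e]
    refine Mt.p_loc.continuous.comp (Continuous.prodMk ?_ (by fun_prop))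
    exact P.emb.continuous.comp (by fun_prop)
  · have e : (VV.domRestrict (P.NN Mt)) ∘ qq = fun z : OO => Mt.p (P.w z.1.1, z.1.2) :=
      funext fun z => P.NN_qq Mt z
    rw [e]
    have h1 : IsOpenMap (Prod.map P.w (id : ℝ → ℝ)) := P.emb.isOpenMap.prodMap IsOpenMap.id
    exact (Mt.p_loc.isOpenMap.comp h1).comp OO_open.isOpenMap_subtype_val

theorem K0_eq : P.K0 Mt = P.NN Mt '' CC := by
  ext y
  constructor
  · rintro ⟨z, t, hz, rfl⟩
    refine ⟨(z.1.1, z.1.2, (t : Ci)), ?_, ?_⟩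
    · rcases hz with h | ⟨h, h'⟩
      · exact Or.inl h
      · right
        refine ⟨h, ?_⟩
        have h2 := abs_le.1 h'
        show ‖(t : Ci)‖ ≤ 1 / 8
        rw [norm_cl, cl_coe ⟨by linarith [h2.1], by linarith [h2.2]⟩]
        exact h'
    · show Mt.p (P.wt z.1, cl (t : Ci)) = _
      rw [← P.wt_coe]
      rcases hz with h | ⟨h, h'⟩
      · exact P.fix_p Mt (lt_of_le_of_lt h (by norm_num)) _
      · have h2 := abs_le.1 h'
        rw [cl_coe ⟨by linarith [h2.1], by linarith [h2.2]⟩]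
  · rintro ⟨v, hv, rfl⟩
    refine ⟨⟨(v.1, v.2.1), mem_crs (CC_sub hv)⟩, cl v.2.2, ?_, ?_⟩
    · rcases hv with h | ⟨h, h'⟩
      · exact Or.inl h
      · right
        rw [norm_cl v.2.2] at h'
        exact ⟨h, h'⟩
    · rw [← P.wt_coe]
      rfl

variable {n : ℕ} (hn : 0 < n)

theorem box_fol (z : ℝ × ℝ × ℝ) (hz : cov z ∈ VV)
    {C : OpenPartialHomeomorph M ((ℝ × ℝ) × ℝ)} (hC : C ∈ (P.F Mt hn).charts)
    (hs : P.NN Mt (cov z) ∈ C.source) :
    OrdEq z (fun w => (C (P.NN Mt (cov w))).2) (fun w => w.2.2) := by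
  have hcov : Continuous fun w : ℝ × ℝ × ℝ => ((w.1 : Ci), (w.2.1 : Ci)) := by
    refine Continuous.prodMk ?_ ?_
    · exact (AddCircle.continuous_mk' (1 : ℝ)).comp continuous_fst
    · exact (AddCircle.continuous_mk' (1 : ℝ)).comp (continuous_fst.comp continuous_snd)
  obtain ⟨k, hk⟩ : ∃ k : ℤ, ∀ᶠ w : ℝ × ℝ × ℝ in 𝓝 z,
      P.NN Mt (cov w) = Mt.p (P.wt ((w.1 : Ci), (w.2.1 : Ci)), w.2.2 - k) := by
    rcases hz with h | ⟨-, h⟩
    · refine ⟨0, ?_⟩
      have h1 : Continuous fun w : ℝ × ℝ × ℝ => ‖(w.1 : Ci)‖ := hcov.fst.norm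
      have h' : ‖(z.1 : Ci)‖ < 1 / 4 := h
      filter_upwards [h1.continuousAt.eventually_lt_const h'] with w hw
      rw [Int.cast_zero, sub_zero]
      exact P.fix_p Mt (z := ((w.1 : Ci), (w.2.1 : Ci))) hw _
    · have h0 : ((z.2.2 - cl (z.2.2 : Ci) : ℝ) : Ci) = 0 := by
        rw [AddCircle.coe_sub, coe_cl, sub_self]
      obtain ⟨k, hk⟩ := (AddCircle.coe_eq_zero_iff (1 : ℝ)).1 h0
      rw [zsmul_eq_mul, mul_one] at hk
      refine ⟨k, ?_⟩
      have h2 : |z.2.2 - k| < 1 / 4 := by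
        have h3 : z.2.2 - k = cl (z.2.2 : Ci) := by rw [hk]; ring
        rw [h3, ← norm_cl]
        exact h
      have h1 : Continuous fun w : ℝ × ℝ × ℝ => |w.2.2 - k| := by fun_prop
      filter_upwards [h1.continuousAt.eventually_lt_const h2] with w hw
      have h3 := abs_lt.1 hw
      show Mt.p (P.wt ((w.1 : Ci), (w.2.1 : Ci)), cl (w.2.2 : Ci)) = _
      have h4 : (w.2.2 : Ci) = ((w.2.2 - k : ℝ) : Ci) := by
        have h5 : ((k : ℝ) : Ci) = 0 :=
          (AddCircle.coe_eq_zero_iff (1 : ℝ)).2 ⟨k, by simp⟩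
        rw [AddCircle.coe_sub, h5, sub_zero]
      rw [h4, cl_coe ⟨by linarith [h3.1], by linarith [h3.2]⟩]
  have hs1 : Mt.p (P.wt ((z.1 : Ci), (z.2.1 : Ci)), z.2.2 - k) ∈ C.source := by
    rw [← hk.self_of_nhds]
    exact hs
  have h1 := Sus.fol_ord P.inv hn Mt hC hs1
  have hm : ((z.1 : Ci), (z.2.1 : Ci)) ∈ crs := mem_crs (v := cov z) hz
  have hR1 : ContinuousAt (fun w : ℝ × ℝ × ℝ => P.wt ((w.1 : Ci), (w.2.1 : Ci))) z :=
    ContinuousAt.comp (g := P.wt) (f := fun w : ℝ × ℝ × ℝ => ((w.1 : Ci), (w.2.1 : Ci))) (x := z)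
      (P.wt_contAt hm) hcov.continuousAt
  have hR2 : ContinuousAt (fun w : ℝ × ℝ × ℝ => w.2.2 - (k : ℝ)) z := by fun_prop
  have hR : ContinuousAt (fun w : ℝ × ℝ × ℝ =>
      ((P.wt ((w.1 : Ci), (w.2.1 : Ci)), w.2.2 - k) : S × ℝ)) z := hR1.prodMk hR2
  have h2 := OrdEq.comp_cont (z₀ := z) hR h1
  have h3 : OrdEq z (fun w : ℝ × ℝ × ℝ => w.2.2 - k) (fun w => w.2.2) :=
    OrdEq.of_comp (fun s => s + k) (fun a b hab => by simpa using hab)
      (Eventually.of_forall fun w => by simp)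
  refine (h2.congr ?_ (Eventually.of_forall fun w => ?_)).trans h3
  · filter_upwards [hk] with w hw
    rw [hw]
    rfl
  · show w.2.2 - k = Sus.tr P.c n (P.wt ((z.1 : Ci), (z.2.1 : Ci)))
      (P.wt ((w.1 : Ci), (w.2.1 : Ci)), w.2.2 - k)
    unfold Sus.tr Sus.df
    simp only
    rw [c_wt, c_wt, sub_self, cl_zero, fl_zero hn]

end Cross

end Pool.Agent.H.MP_1611f1_gt.TW
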