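import Pool.Agent.H.MP_1611f1_gt.BR.NCl
import Pool.Agent.H.MP_1611f1_gt.Fib

/-!
Boxes: the part `VV` of the `3`-torus (a neighbourhood of the torus `x₁ = 0` and of the circle
`x₂ = t = 0`), and foliations which are `{t = const}` there.
-/

namespace Pool.Agent.H.MP_1611f1_gt.TW

open Topology Set Filter
open Pool.Agent.H.MP_1611f1_gt.BR.U (Ci)

/-- the part of the torus where the coordinates are given -/
def VV : Set (Ci × Ci × Ci) := {z | ‖z.1‖ < 1 / 4 ∨ (‖z.2.1‖ < 1 / 4 ∧ ‖z.2.2‖ < 1 / 4)}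

/-- the part where the foliation is changed -/
def CC : Set (Ci × Ci × Ci) := {z | ‖z.1‖ ≤ 1 / 8 ∨ (‖z.2.1‖ ≤ 1 / 8 ∧ ‖z.2.2‖ ≤ 1 / 8)}

/-- the universal cover of the torus; the coordinates are called `(a, b, t)` -/
noncomputable def cov (z : ℝ × ℝ × ℝ) : Ci × Ci × Ci := ((z.1 : Ci), (z.2.1 : Ci), (z.2.2 : Ci))

/-- Coordinates `N` of a part of the manifold `M`: the foliation `F` is `{t = const}` there. -/
structure Box {M : Type} [TopologicalSpace M] (F : Foliation M) (N : Ci × Ci × Ci → M) : Prop where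
  emb : IsOpenEmbedding (VV.domRestrict N)
  fol : ∀ z : ℝ × ℝ × ℝ, cov z ∈ VV → ∀ c ∈ F.charts, N (cov z) ∈ c.source →
    OrdEq z (fun w => (c (N (cov w))).2) (fun w => w.2.2)

end Pool.Agent.H.MP_1611f1_gt.TW
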