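import Mathlib

/-!
The line cut at the points `n / 2 + 1 / 4` (the walls) into cells of length `1/2`; homeomorphisms of
`ℝ`, transported to the cells.
-/

namespace Pool.Agent.H.MP_1611f1_gt.TW

open Topology Set Filter

/-- an increasing homeomorphism of `ℝ` onto `(-1/4, 1/4)` -/
noncomputable def LL (s : ℝ) : ℝ := s / (4 * (1 + |s|))

/-- its inverse -/
noncomputable def Lm (v : ℝ) : ℝ := 4 * v / (1 - 4 * |v|)

private theorem Cel_pos (s : ℝ) : 0 < 1 + |s| := by positivity

private theorem Cel_abs (s : ℝ) : |LL s| = |s| / (4 * (1 + |s|)) := by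
  unfold LL
  rw [abs_div, abs_of_pos (by positivity : 0 < 4 * (1 + |s|))]

private theorem Cel_one_sub (s : ℝ) : 1 - 4 * |LL s| = 1 / (1 + |s|) := by
  have h := Cel_pos s
  rw [Cel_abs]
  field_simp
  ring

/-- `4 |LL s| = |s| / (1 + |s|) < 1` -/
theorem LL_abs (s : ℝ) : |LL s| < 1 / 4 := by
  rw [Cel_abs, div_lt_div_iff₀ (by positivity) (by norm_num)]
  linarith

theorem LL_zero : LL 0 = 0 := by
  simp [LL]

theorem Lm_zero : Lm 0 = 0 := by
  simp [Lm]

theorem LL_neg (s : ℝ) : LL (-s) = -LL s := by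
  unfold LL
  rw [abs_neg, neg_div]

/-- `1 - 4 |LL s| = 1 / (1 + |s|)` -/
theorem Lm_LL (s : ℝ) : Lm (LL s) = s := by
  have h := Cel_pos s
  unfold Lm
  rw [Cel_one_sub]
  unfold LL
  field_simp

theorem LL_Lm {v : ℝ} (h : |v| < 1 / 4) : LL (Lm v) = v := by
  have hd : 0 < 1 - 4 * |v| := by linarith
  have h1 : |Lm v| = 4 * |v| / (1 - 4 * |v|) := by
    unfold Lm
    rw [abs_div, abs_of_pos hd, abs_mul, abs_of_pos (by norm_num : (0 : ℝ) < 4)]
  have h2 : 1 + |Lm v| = 1 / (1 - 4 * |v|) := by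
    rw [h1]
    field_simp
    ring
  have h3 : LL (Lm v) = Lm v / (4 * (1 + |Lm v|)) := rfl
  rw [h3, h2]
  unfold Lm
  field_simp

/-- cases: both nonnegative, both nonpositive, different signs -/
theorem LL_mono : StrictMono LL := by
  intro s t hst
  have h : s * |t| ≤ t * |s| := by
    rcases le_total 0 s with h1 | h1
    · rw [abs_of_nonneg h1, abs_of_nonneg (h1.trans hst.le)]
      linarith
    · rcases le_total 0 t with h2 | h2
      · have h3 : s * |t| ≤ 0 := mul_nonpos_of_nonpos_of_nonneg h1 (abs_nonneg t)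
        exact h3.trans (mul_nonneg h2 (abs_nonneg s))
      · rw [abs_of_nonpos h1, abs_of_nonpos h2]
        linarith
  unfold LL
  rw [div_lt_div_iff₀ (by positivity) (by positivity)]
  linarith

theorem LL_cont : Continuous LL := by
  unfold LL
  refine Continuous.div continuous_id (by fun_prop) fun s => ?_
  have := Cel_pos s
  positivity

theorem Lm_mono {v v' : ℝ} (h : |v| < 1 / 4) (h' : |v'| < 1 / 4) (hv : v < v') : Lm v < Lm v' := by
  rw [← LL_mono.lt_iff_lt, LL_Lm h, LL_Lm h']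
  exact hv

theorem Lm_cont : ContinuousOn Lm {v | |v| < 1 / 4} := by
  unfold Lm
  refine ContinuousOn.div (by fun_prop) (by fun_prop) fun v hv => ?_
  have h : |v| < 1 / 4 := hv
  have : 0 < 1 - 4 * |v| := by linarith
  exact this.ne'

/-- for small arguments `Lm` has the Lipschitz constant `16` (`|v|, |v'| ≤ 1/8`) -/
theorem Lm_lip {v v' : ℝ} (h : |v| ≤ 1 / 8) (h' : |v'| ≤ 1 / 8) :
    |Lm v - Lm v'| ≤ 16 * |v - v'| := by
  have hd : 1 / 2 ≤ 1 - 4 * |v| := by linarith
  have hd' : 1 / 2 ≤ 1 - 4 * |v'| := by linarith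
  have hn : |v * (1 - 4 * |v'|) - v' * (1 - 4 * |v|)| ≤ |v - v'| := by
    rcases le_total 0 v with h1 | h1
    · rcases le_total 0 v' with h2 | h2
      · rw [abs_of_nonneg h1, abs_of_nonneg h2]
        refine le_of_eq ?_
        congr 1
        ring
      · rw [abs_of_nonneg h1] at h ⊢
        rw [abs_of_nonpos h2] at h' ⊢
        have h3 : 0 ≤ v - v' := by linarith
        rw [abs_of_nonneg h3, abs_le]
        constructor <;> nlinarith
    · rcases le_total 0 v' with h2 | h2
      · rw [abs_of_nonpos h1] at h ⊢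
        rw [abs_of_nonneg h2] at h' ⊢
        have h3 : v - v' ≤ 0 := by linarith
        rw [abs_of_nonpos h3, abs_le]
        constructor <;> nlinarith
      · rw [abs_of_nonpos h1, abs_of_nonpos h2]
        refine le_of_eq ?_
        congr 1
        ring
  have hp : 0 < (1 - 4 * |v|) * (1 - 4 * |v'|) := by positivity
  have h3 : Lm v - Lm v' = 4 * (v * (1 - 4 * |v'|) - v' * (1 - 4 * |v|)) /
      ((1 - 4 * |v|) * (1 - 4 * |v'|)) := by
    unfold Lm
    rw [div_sub_div _ _ (by linarith : (0 : ℝ) < 1 - 4 * |v|).ne'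
      (by linarith : (0 : ℝ) < 1 - 4 * |v'|).ne']
    congr 1
    ring
  rw [h3, abs_div, abs_of_pos hp, abs_mul, abs_of_pos (by norm_num : (0 : ℝ) < 4),
    div_le_iff₀ hp]
  have h4 : 1 / 4 ≤ (1 - 4 * |v|) * (1 - 4 * |v'|) := by nlinarith
  have h5 := mul_le_mul_of_nonneg_left h4 (abs_nonneg (v - v'))
  nlinarith

/-- the function `g` transported to the cell `[-1/4, 1/4]` -/
noncomputable def blk (g : ℝ → ℝ) (v : ℝ) : ℝ := if |v| < 1 / 4 then LL (g (Lm v)) else v

/-- the index of the cell `[k/2 - 1/4, k/2 + 1/4)` -/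
noncomputable def kk (v : ℝ) : ℤ := ⌊2 * v + 1 / 2⌋

/-- the functions `g` (in the cells around the integers) and `g'` (in the cells around the half
integers), transported to the cells -/
noncomputable def celf (g g' : ℝ → ℝ) (v : ℝ) : ℝ :=
  kk v / 2 + blk (if Even (kk v) then g else g') (v - kk v / 2)

private theorem Cel_blk (g : ℝ → ℝ) (s : ℝ) : blk g (LL s) = LL (g s) := by
  unfold blk
  rw [if_pos (LL_abs s), Lm_LL]

theorem celf_J (g g' : ℝ → ℝ) (n : ℤ) (s : ℝ) : celf g g' (n + LL s) = n + LL (g s) := by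
  have h := abs_lt.1 (LL_abs s)
  have hk : kk (n + LL s) = 2 * n := by
    unfold kk
    rw [Int.floor_eq_iff]
    push_cast
    constructor <;> linarith
  have he : Even (kk (n + LL s)) := by
    rw [hk]
    exact even_two_mul n
  unfold celf
  rw [if_pos he, hk]
  push_cast
  have e1 : (n : ℝ) + LL s - 2 * n / 2 = LL s := by ring
  rw [e1, Cel_blk]
  ring

theorem celf_J' (g g' : ℝ → ℝ) (n : ℤ) (s : ℝ) :
    celf g g' (n + 1 / 2 + LL s) = n + 1 / 2 + LL (g' s) := by
  have h := abs_lt.1 (LL_abs s)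
  have hk : kk (n + 1 / 2 + LL s) = 2 * n + 1 := by
    unfold kk
    rw [Int.floor_eq_iff]
    push_cast
    constructor <;> linarith
  have he : ¬ Even (kk (n + 1 / 2 + LL s)) := by
    rw [hk, Int.not_even_iff_odd]
    exact ⟨n, rfl⟩
  unfold celf
  rw [if_neg he, hk]
  push_cast
  have e1 : (n : ℝ) + 1 / 2 + LL s - (2 * n + 1) / 2 = LL s := by ring
  rw [e1, Cel_blk]
  ring

/-- the walls are fixed -/
theorem celf_wall (g g' : ℝ → ℝ) (n : ℤ) : celf g g' (n / 2 + 1 / 4) = n / 2 + 1 / 4 := by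
  have hk : kk ((n : ℝ) / 2 + 1 / 4) = n + 1 := by
    unfold kk
    rw [Int.floor_eq_iff]
    push_cast
    constructor <;> linarith
  unfold celf
  rw [hk]
  push_cast
  have e1 : (n : ℝ) / 2 + 1 / 4 - (n + 1) / 2 = -(1 / 4) := by ring
  rw [e1]
  unfold blk
  have h2 : ¬ |(-(1 / 4) : ℝ)| < 1 / 4 := by
    rw [abs_neg, abs_of_pos (by norm_num : (0 : ℝ) < 1 / 4)]
    exact lt_irrefl _
  rw [if_neg h2]
  ring

private theorem Cel_kk (v : ℝ) : -(1 / 4) ≤ v - kk v / 2 ∧ v - kk v / 2 < 1 / 4 := by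
  have h1 := Int.floor_le (2 * v + 1 / 2)
  have h2 := Int.lt_floor_add_one (2 * v + 1 / 2)
  unfold kk
  constructor <;> linarith

/-- every real number is a wall, or in a cell of one of the two kinds -/
theorem cell_cases (v : ℝ) : (∃ n : ℤ, v = n / 2 + 1 / 4) ∨ (∃ (n : ℤ) (s : ℝ), v = n + LL s) ∨
    ∃ (n : ℤ) (s : ℝ), v = n + 1 / 2 + LL s := by
  have h1 := Cel_kk v
  rcases eq_or_lt_of_le h1.1 with h2 | h2
  · left
    refine ⟨kk v - 1, ?_⟩
    push_cast
    linarith
  · right
    have h3 : |v - kk v / 2| < 1 / 4 := abs_lt.2 ⟨h2, h1.2⟩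
    have h4 := LL_Lm h3
    rcases Int.even_or_odd' (kk v) with ⟨n, hn | hn⟩
    · left
      refine ⟨n, Lm (v - kk v / 2), ?_⟩
      rw [h4, hn]
      push_cast
      ring
    · right
      refine ⟨n, Lm (v - kk v / 2), ?_⟩
      rw [h4, hn]
      push_cast
      ring

/-- (from `cell_cases`, `celf_J`, `celf_J'`, `celf_wall`) -/
theorem celf_comp (g g' h h' : ℝ → ℝ) (v : ℝ) :
    celf g g' (celf h h' v) = celf (g ∘ h) (g' ∘ h') v := by
  rcases cell_cases v with ⟨n, rfl⟩ | ⟨n, s, rfl⟩ | ⟨n, s, rfl⟩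
  · rw [celf_wall, celf_wall, celf_wall]
  · rw [celf_J, celf_J, celf_J]
    rfl
  · rw [celf_J', celf_J', celf_J']
    rfl

theorem celf_id (v : ℝ) : celf (fun s => s) (fun s => s) v = v := by
  rcases cell_cases v with ⟨n, rfl⟩ | ⟨n, s, rfl⟩ | ⟨n, s, rfl⟩
  · rw [celf_wall]
  · rw [celf_J]
  · rw [celf_J']

theorem celf_add_int (g g' : ℝ → ℝ) (v : ℝ) (n : ℤ) : celf g g' (v + n) = celf g g' v + n := by
  have hk : kk (v + n) = kk v + 2 * n := by
    unfold kk
    have e : 2 * (v + n) + 1 / 2 = 2 * v + 1 / 2 + ((2 * n : ℤ) : ℝ) := by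
      push_cast
      ring
    rw [e, Int.floor_add_intCast]
  have he : Even (kk v + 2 * n) ↔ Even (kk v) := by
    rw [Int.even_add]
    simp
  unfold celf
  rw [hk]
  simp only [he]
  push_cast
  have e1 : v + (n : ℝ) - (kk v + 2 * n) / 2 = v - kk v / 2 := by ring
  rw [e1]
  ring

/-- PROOF: monotone (strictly) in each closed cell, the walls being fixed. E.g. for `v < v'`: if there is a wall `w` with
`v ≤ w ≤ v'` then `celf v ≤ w ≤ celf v'` (each open cell is mapped into itself), with one strict inequality; otherwise both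
are in the same open cell. -/
theorem celf_mono {g g' : ℝ → ℝ} (hg : StrictMono g) (hg' : StrictMono g') :
    StrictMono (celf g g') := by
  have hin : ∀ v, (kk v : ℝ) / 2 - 1 / 4 ≤ celf g g' v ∧ celf g g' v < kk v / 2 + 1 / 4 := by
    intro v
    have h1 := Cel_kk v
    unfold celf
    generalize (if Even (kk v) then g else g') = G
    unfold blk
    by_cases h2 : |v - kk v / 2| < 1 / 4
    · rw [if_pos h2]
      have h3 := abs_lt.1 (LL_abs (G (Lm (v - kk v / 2))))
      constructor <;> linarith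
    · rw [if_neg h2]
      constructor <;> linarith
  intro v v' hv
  have hk : kk v ≤ kk v' := by
    unfold kk
    exact Int.floor_le_floor (by linarith)
  rcases eq_or_lt_of_le hk with h1 | h1
  · have h2 : StrictMono (if Even (kk v') then g else g') := by
      split_ifs
      · exact hg
      · exact hg'
    have a1 := Cel_kk v
    have a2 := Cel_kk v'
    unfold celf
    rw [h1] at a1 ⊢
    generalize (if Even (kk v') then g else g') = G at h2 ⊢
    have a3 : v - kk v' / 2 < v' - kk v' / 2 := by linarith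
    have a4 : |v' - kk v' / 2| < 1 / 4 := abs_lt.2 ⟨lt_of_le_of_lt a1.1 a3, a2.2⟩
    unfold blk
    rw [if_pos a4]
    by_cases a5 : |v - kk v' / 2| < 1 / 4
    · rw [if_pos a5]
      have a6 := LL_mono (h2 (Lm_mono a5 a4 a3))
      linarith
    · rw [if_neg a5]
      have a6 := abs_lt.1 (LL_abs (G (Lm (v' - kk v' / 2))))
      have a7 : v - kk v' / 2 ≤ -(1 / 4) := by
        by_contra hc
        push Not at hc
        exact a5 (abs_lt.2 ⟨hc, a1.2⟩)
      linarith
  · have h2 : (kk v : ℝ) + 1 ≤ kk v' := by exact_mod_cast h1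
    have h3 := (hin v).2
    have h4 := (hin v').1
    linarith

/-- the displacement inside the cell around `0` only depends on `g`, and so on: agreement of two pairs of functions -/
theorem celf_congr {g g' h h' : ℝ → ℝ} {v : ℝ}
    (hJ : ∀ (n : ℤ) (s : ℝ), v = n + LL s → g s = h s)
    (hJ' : ∀ (n : ℤ) (s : ℝ), v = n + 1 / 2 + LL s → g' s = h' s) : celf g g' v = celf h h' v := by
  rcases cell_cases v with ⟨n, rfl⟩ | ⟨n, s, rfl⟩ | ⟨n, s, rfl⟩
  · rw [celf_wall, celf_wall]
  · rw [celf_J, celf_J, hJ n s rfl]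
  · rw [celf_J', celf_J', hJ' n s rfl]

private theorem Cel_le {g g' h h' : ℝ → ℝ} (h1 : ∀ s, g s ≤ h s) (h2 : ∀ s, g' s ≤ h' s)
    (v : ℝ) : celf g g' v ≤ celf h h' v := by
  rcases cell_cases v with ⟨n, rfl⟩ | ⟨n, s, rfl⟩ | ⟨n, s, rfl⟩
  · rw [celf_wall, celf_wall]
  · rw [celf_J, celf_J]
    have := LL_mono.monotone (h1 s)
    linarith
  · rw [celf_J', celf_J']
    have := LL_mono.monotone (h2 s)
    linarith

private theorem Cel_shift (C : ℝ) : Continuous (celf (fun s => s + C) (fun s => s + C)) := by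
  have hm : StrictMono (celf (fun s => s + C) (fun s => s + C)) :=
    celf_mono (fun s t h => by simpa using h) (fun s t h => by simpa using h)
  have hr : Function.RightInverse (celf (fun s => s + -C) (fun s => s + -C))
      (celf (fun s => s + C) (fun s => s + C)) := by
    intro v
    rw [celf_comp]
    have e : (fun s : ℝ => s + C) ∘ (fun s : ℝ => s + -C) = fun s => s := by
      funext s
      simp
    rw [e, celf_id]
  exact (StrictMono.orderIsoOfRightInverse _ hm _ hr).continuous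

/-- JOINT CONTINUITY. At a point `x₀` of `U` with `v x₀` in an open cell `celf` is
`n + LL (g x (Lm (v x - n)))` near `x₀`. At a wall: squeezed between the two homeomorphisms
`celf (fun s => s - C) (fun s => s - C)` and `celf (fun s => s + C) (fun s => s + C)`, which fix the walls. -/
theorem celf_cont {X : Type*} [TopologicalSpace X] {U : Set X} (hU : IsOpen U)
    {g g' : X → ℝ → ℝ} {v : X → ℝ} {C : ℝ}
    (hg : ContinuousOn (fun q : X × ℝ => g q.1 q.2) (U ×ˢ univ))
    (hg' : ContinuousOn (fun q : X × ℝ => g' q.1 q.2) (U ×ˢ univ))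
    (hC : ∀ x ∈ U, ∀ s, |g x s - s| ≤ C) (hC' : ∀ x ∈ U, ∀ s, |g' x s - s| ≤ C)
    (hv : ContinuousOn v U) : ContinuousOn (fun x => celf (g x) (g' x) (v x)) U := by
  have hUn : ∀ x₀ ∈ U, U ∈ 𝓝 x₀ := fun x₀ h => hU.mem_nhds h
  have hvat : ∀ x₀ ∈ U, ContinuousAt v x₀ := fun x₀ h => hv.continuousAt (hUn x₀ h)
  have hjoint : ∀ (G : X → ℝ → ℝ), ContinuousOn (fun q : X × ℝ => G q.1 q.2) (U ×ˢ univ) →
      ∀ x₀ ∈ U, ∀ c : ℝ, |v x₀ - c| < 1 / 4 →
      ContinuousAt (fun x => c + LL (G x (Lm (v x - c)))) x₀ := by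
    intro G hG x₀ hx c hc
    have h1 : ContinuousAt (fun x => v x - c) x₀ := (hvat x₀ hx).sub continuousAt_const
    have h2 : ContinuousAt Lm (v x₀ - c) :=
      Lm_cont.continuousAt ((isOpen_lt continuous_abs continuous_const).mem_nhds hc)
    have h3 : ContinuousAt (fun x => Lm (v x - c)) x₀ :=
      ContinuousAt.comp (f := fun x => v x - c) (g := Lm) h2 h1
    have h4 : ContinuousAt (fun q : X × ℝ => G q.1 q.2) (x₀, Lm (v x₀ - c)) :=
      hG.continuousAt ((hU.prod isOpen_univ).mem_nhds ⟨hx, mem_univ _⟩)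
    have h5 : ContinuousAt (fun x => (x, Lm (v x - c))) x₀ := continuousAt_id.prodMk h3
    have h6 : ContinuousAt (fun x => G x (Lm (v x - c))) x₀ :=
      ContinuousAt.comp (f := fun x => (x, Lm (v x - c))) (g := fun q : X × ℝ => G q.1 q.2) h4 h5
    exact continuousAt_const.add (LL_cont.continuousAt.comp h6)
  have hnear : ∀ x₀ ∈ U, ∀ c : ℝ, |v x₀ - c| < 1 / 4 → ∀ᶠ x in 𝓝 x₀, |v x - c| < 1 / 4 := by
    intro x₀ hx c hc
    have h1 : ContinuousAt (fun x => |v x - c|) x₀ := ((hvat x₀ hx).sub continuousAt_const).abs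
    exact h1.eventually_lt_const hc
  intro x₀ hx
  apply ContinuousAt.continuousWithinAt
  rcases cell_cases (v x₀) with ⟨n, hn⟩ | ⟨n, s, hn⟩ | ⟨n, s, hn⟩
  · -- a wall
    have hlow : ∀ᶠ x in 𝓝 x₀, celf (fun s => s - C) (fun s => s - C) (v x) ≤
        celf (g x) (g' x) (v x) := by
      filter_upwards [hUn x₀ hx] with x hxU
      exact Cel_le (fun s => by linarith [(abs_le.1 (hC x hxU s)).1])
        (fun s => by linarith [(abs_le.1 (hC' x hxU s)).1]) _
    have hupp : ∀ᶠ x in 𝓝 x₀, celf (g x) (g' x) (v x) ≤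
        celf (fun s => s + C) (fun s => s + C) (v x) := by
      filter_upwards [hUn x₀ hx] with x hxU
      exact Cel_le (fun s => by linarith [(abs_le.1 (hC x hxU s)).2])
        (fun s => by linarith [(abs_le.1 (hC' x hxU s)).2]) _
    have t1 : Tendsto (fun x => celf (fun s => s - C) (fun s => s - C) (v x)) (𝓝 x₀)
        (𝓝 (celf (fun s => s - C) (fun s => s - C) (v x₀))) := by
      have := (Cel_shift (-C)).continuousAt (x := v x₀)
      simp only [← sub_eq_add_neg] at this
      exact this.tendsto.comp (hvat x₀ hx)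
    have t2 : Tendsto (fun x => celf (fun s => s + C) (fun s => s + C) (v x)) (𝓝 x₀)
        (𝓝 (celf (fun s => s + C) (fun s => s + C) (v x₀))) :=
      (Cel_shift C).continuousAt.tendsto.comp (hvat x₀ hx)
    rw [hn, celf_wall] at t1 t2
    show Tendsto (fun x => celf (g x) (g' x) (v x)) (𝓝 x₀) (𝓝 (celf (g x₀) (g' x₀) (v x₀)))
    rw [hn, celf_wall]
    exact tendsto_of_tendsto_of_tendsto_of_le_of_le' t1 t2 hlow hupp
  · have hc : |v x₀ - n| < 1 / 4 := by
      rw [hn, add_sub_cancel_left]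
      exact LL_abs s
    refine (hjoint g hg x₀ hx n hc).congr ?_
    filter_upwards [hnear x₀ hx n hc] with x h1
    rw [← celf_J (g x) (g' x) n (Lm (v x - n)), LL_Lm h1, add_sub_cancel]
  · have hc : |v x₀ - (n + 1 / 2)| < 1 / 4 := by
      rw [hn, add_sub_cancel_left]
      exact LL_abs s
    refine (hjoint g' hg' x₀ hx (n + 1 / 2) hc).congr ?_
    filter_upwards [hnear x₀ hx (n + 1 / 2) hc] with x h1
    rw [← celf_J' (g x) (g' x) n (Lm (v x - (n + 1 / 2))), LL_Lm h1, add_sub_cancel]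

/-- the version for continuous functions on the whole space, with a bound near every point -/
theorem celf_cont' {X : Type*} [TopologicalSpace X]
    {g g' : X → ℝ → ℝ} {v : X → ℝ}
    (hg : Continuous (fun q : X × ℝ => g q.1 q.2)) (hg' : Continuous (fun q : X × ℝ => g' q.1 q.2))
    (hC : ∀ x₀, ∃ C, ∀ᶠ x in 𝓝 x₀, ∀ s, |g x s - s| ≤ C ∧ |g' x s - s| ≤ C)
    (hv : Continuous v) : Continuous (fun x => celf (g x) (g' x) (v x)) := by
  rw [continuous_iff_continuousAt]
  intro x₀
  obtain ⟨C, hCx⟩ := hC x₀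
  obtain ⟨V, hV, hVo, hxV⟩ := eventually_nhds_iff.1 hCx
  exact (celf_cont hVo hg.continuousOn hg'.continuousOn (fun x hx s => (hV x hx s).1)
    (fun x hx s => (hV x hx s).2) hv.continuousOn).continuousAt (hVo.mem_nhds hxV)

/-- the homeomorphism `celf g g'` for homeomorphisms `g`, `g'` -/
noncomputable def cel (g g' : ℝ ≃o ℝ) : ℝ ≃o ℝ where
  toFun := celf g g'
  invFun := celf g.symm g'.symm
  left_inv v := by
    rw [celf_comp]
    have h1 : (g.symm : ℝ → ℝ) ∘ g = fun s => s := by
      funext s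
      exact g.symm_apply_apply s
    have h2 : (g'.symm : ℝ → ℝ) ∘ g' = fun s => s := by
      funext s
      exact g'.symm_apply_apply s
    rw [h1, h2, celf_id]
  right_inv v := by
    rw [celf_comp]
    have h1 : (g : ℝ → ℝ) ∘ g.symm = fun s => s := by
      funext s
      exact g.apply_symm_apply s
    have h2 : (g' : ℝ → ℝ) ∘ g'.symm = fun s => s := by
      funext s
      exact g'.apply_symm_apply s
    rw [h1, h2, celf_id]
  map_rel_iff' := (celf_mono g.strictMono g'.strictMono).le_iff_le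

theorem cel_apply (g g' : ℝ ≃o ℝ) (v : ℝ) : cel g g' v = celf g g' v := rfl

/-- the flow: down in the cells around the integers, up in the cells around the half integers -/
noncomputable def phi (t : ℝ) (v : ℝ) : ℝ := celf (fun s => s - t) (fun s => s + t) v

/-- the flow at the time `1` -/
noncomputable def T0 : ℝ ≃o ℝ := cel (OrderIso.addRight (-1)) (OrderIso.addRight 1)

theorem phi_one (v : ℝ) : phi 1 v = T0 v := by
  unfold phi T0
  rw [cel_apply]
  rfl

theorem phi_zero (v : ℝ) : phi 0 v = v := by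
  unfold phi
  simp only [sub_zero, add_zero]
  exact celf_id v

theorem phi_add (t t' v : ℝ) : phi (t + t') v = phi t (phi t' v) := by
  unfold phi
  rw [celf_comp]
  congr 1
  · funext s
    simp only [Function.comp_apply]
    ring
  · funext s
    simp only [Function.comp_apply]
    ring

theorem phi_int (t v : ℝ) (n : ℤ) : phi t (v + n) = phi t v + n := celf_add_int _ _ _ _

theorem phi_mono (t : ℝ) : StrictMono (phi t) := by
  exact celf_mono (fun s s' h => by simpa using h) (fun s s' h => by simpa using h)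

/-- (`celf_cont'`) -/
theorem phi_cont : Continuous (fun q : ℝ × ℝ => phi q.1 q.2) := by
  unfold phi
  refine celf_cont' (g := fun (q : ℝ × ℝ) (s : ℝ) => s - q.1)
    (g' := fun (q : ℝ × ℝ) (s : ℝ) => s + q.1) (v := fun q : ℝ × ℝ => q.2)
    (by fun_prop) (by fun_prop) (fun x₀ => ⟨|x₀.1| + 1, ?_⟩) (by fun_prop)
  have h1 : ContinuousAt (fun q : ℝ × ℝ => |q.1|) x₀ := by fun_prop
  filter_upwards [h1.eventually_lt_const (lt_add_one |x₀.1|)] with q hq s
  constructor
  · have e : s - q.1 - s = -q.1 := by ring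
    rw [e, abs_neg]
    exact hq.le
  · have e : s + q.1 - s = q.1 := by ring
    rw [e]
    exact hq.le

theorem phi_J (t : ℝ) (n : ℤ) (s : ℝ) : phi t (n + LL s) = n + LL (s - t) := celf_J _ _ _ _

theorem phi_J' (t : ℝ) (n : ℤ) (s : ℝ) : phi t (n + 1 / 2 + LL s) = n + 1 / 2 + LL (s + t) :=
  celf_J' _ _ _ _

theorem phi_wall (t : ℝ) (n : ℤ) : phi t (n / 2 + 1 / 4) = n / 2 + 1 / 4 := celf_wall _ _ _

theorem T0_per (v : ℝ) : T0 (v + 1) = T0 v + 1 := by
  have h := celf_add_int (OrderIso.addRight (-1 : ℝ)) (OrderIso.addRight (1 : ℝ)) v 1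
  rw [Int.cast_one] at h
  exact h

end Pool.Agent.H.MP_1611f1_gt.TW
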