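import Mathlib

/-!
Piecewise linear circle homeomorphisms with two fixed points.
-/

namespace Pool.Agent.H.MP_1611f1_gt.TW

open Topology Set Filter

/-- `f` commutes with the translation by `1` and has (mod `1`) the two fixed points `c` and `c'`; it
moves the points in `(c, c')` up and the points in `(c', c + 1)` down -/
structure UD (f : ℝ ≃o ℝ) (c c' : ℝ) : Prop where
  per : ∀ x, f (x + 1) = f x + 1
  lt : c < c'
  lt' : c' < c + 1
  fix : f c = c
  fix' : f c' = c'
  up : ∀ v ∈ Ioo c c', v < f v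
  down : ∀ v ∈ Ioo c' (c + 1), f v < v

/-- `f` after the translation by `a` -/
noncomputable def aft (f : ℝ ≃o ℝ) (a : ℝ) : ℝ ≃o ℝ := (OrderIso.addRight a).trans f

theorem aft_apply (f : ℝ ≃o ℝ) (a x : ℝ) : aft f a x = f (x + a) := rfl

private theorem pl_int {f : ℝ ≃o ℝ} (h : ∀ x, f (x + 1) = f x + 1) (n : ℤ) (x : ℝ) :
    f (x + n) = f x + n := by
  induction n using Int.induction_on with
  | zero => simp
  | succ n ih =>
    have h2 : x + (((n : ℤ) + 1 : ℤ) : ℝ) = x + ((n : ℤ) : ℝ) + 1 := by push_cast; ring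
    rw [h2, h, ih]
    push_cast
    ring
  | pred n ih =>
    have h1 := h (x + ((-(n : ℤ) - 1 : ℤ) : ℝ))
    have h2 : x + ((-(n : ℤ) - 1 : ℤ) : ℝ) + 1 = x + ((-(n : ℤ) : ℤ) : ℝ) := by push_cast; ring
    rw [h2, ih] at h1
    push_cast at h1 ⊢
    linarith

/-- an integer shift of the two points -/
theorem UD.shift {f : ℝ ≃o ℝ} {c c' : ℝ} (h : UD f c c') (n : ℤ) : UD f (c + n) (c' + n) := by
  have hv : ∀ v : ℝ, f v = f (v - n) + n := by
    intro v
    rw [← pl_int h.per n (v - n), sub_add_cancel]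
  refine ⟨h.per, ?_, ?_, ?_, ?_, ?_, ?_⟩
  · linarith [h.lt]
  · linarith [h.lt']
  · rw [pl_int h.per, h.fix]
  · rw [pl_int h.per, h.fix']
  · intro v hv'
    have h1 := h.up (v - n) ⟨by linarith [hv'.1], by linarith [hv'.2]⟩
    rw [hv v]
    linarith
  · intro v hv'
    have h1 := h.down (v - n) ⟨by linarith [hv'.1], by linarith [hv'.2]⟩
    rw [hv v]
    linarith

/-- the periodic displacement -/
private noncomputable def pl_G (h κ κ' t : ℝ) : ℝ := max (h - κ * t) (h + κ' * (t - 1))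

private theorem pl_ex {h κ κ' : ℝ} (h0 : 0 < κ) (h1 : κ < 1) (h2 : 0 < κ') :
    ∃ f : ℝ ≃o ℝ, (∀ x, f (x + 1) = f x + 1) ∧ ∀ x, f x = x + pl_G h κ κ' (Int.fract x) := by
  let F : ℝ → ℝ := fun t => t + pl_G h κ κ' t
  have hF : ∀ t, F t = max (h + (1 - κ) * t) (h - κ' + (1 + κ') * t) := by
    intro t
    show t + max (h - κ * t) (h + κ' * (t - 1)) = _
    rw [← max_add_add_left]
    congr 1 <;> ring
  have hmono : StrictMono F := by
    have e : F = fun t => max (h + (1 - κ) * t) (h - κ' + (1 + κ') * t) := funext hF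
    rw [e]
    intro x y hxy
    have h3 : (1 - κ) * x < (1 - κ) * y := mul_lt_mul_of_pos_left hxy (by linarith)
    have h4 : (1 + κ') * x < (1 + κ') * y := mul_lt_mul_of_pos_left hxy (by linarith)
    exact max_lt_max (by linarith) (by linarith)
  have hcont : Continuous F := by
    have e : F = fun t => max (h + (1 - κ) * t) (h - κ' + (1 + κ') * t) := funext hF
    rw [e]
    fun_prop
  have hF0 : F 0 = h := by
    rw [hF, mul_zero, mul_zero, add_zero, add_zero, max_eq_left (by linarith)]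
  have hF1 : F 1 = 1 + h := by
    rw [hF, max_eq_right (by linarith)]
    ring
  let φ : ℝ → ℝ := fun x => x + pl_G h κ κ' (Int.fract x)
  have hφ : ∀ x, φ x = ⌊x⌋ + F (Int.fract x) := by
    intro x
    show x + pl_G h κ κ' (Int.fract x) = ⌊x⌋ + (Int.fract x + pl_G h κ κ' (Int.fract x))
    have := Int.floor_add_fract x
    linarith
  have hsm : StrictMono φ := by
    intro x y hxy
    rw [hφ, hφ]
    rcases eq_or_lt_of_le (Int.floor_le_floor hxy.le) with he | hl
    · rw [← he]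
      have h3 : Int.fract x < Int.fract y := by
        have h4 := Int.floor_add_fract x
        have h5 := Int.floor_add_fract y
        rw [← he] at h5
        linarith
      have := hmono h3
      linarith
    · have h3 : F (Int.fract x) < F 1 := hmono (Int.fract_lt_one x)
      have h4 : F 0 ≤ F (Int.fract y) := hmono.monotone (Int.fract_nonneg y)
      have h5 : ((⌊x⌋ : ℤ) : ℝ) + 1 ≤ ⌊y⌋ := by exact_mod_cast hl
      rw [hF1] at h3
      rw [hF0] at h4
      linarith
  have hsurj : Function.Surjective φ := by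
    intro y
    have h3 := Int.floor_le (y - h)
    have h4 := Int.lt_floor_add_one (y - h)
    have h5 : y - ⌊y - h⌋ ∈ Ico (F 0) (F 1) := by
      rw [hF0, hF1]
      constructor <;> linarith
    obtain ⟨t, ht, he⟩ := intermediate_value_Ico zero_le_one hcont.continuousOn h5
    refine ⟨⌊y - h⌋ + t, ?_⟩
    have h6 : ⌊((⌊y - h⌋ : ℤ) : ℝ) + t⌋ = ⌊y - h⌋ := by
      rw [Int.floor_intCast_add, Int.floor_eq_zero_iff.2 ht, add_zero]
    have h7 : Int.fract (((⌊y - h⌋ : ℤ) : ℝ) + t) = t := by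
      rw [Int.fract_intCast_add, Int.fract_eq_self.2 ⟨ht.1, ht.2⟩]
    rw [hφ, h6, h7, he]
    ring
  have hval : ∀ x, hsm.orderIsoOfSurjective φ hsurj x = φ x := fun x => rfl
  refine ⟨hsm.orderIsoOfSurjective φ hsurj, fun x => ?_, fun x => hval x⟩
  rw [hval, hval]
  show x + 1 + pl_G h κ κ' (Int.fract (x + 1)) = x + pl_G h κ κ' (Int.fract x) + 1
  rw [Int.fract_add_one]
  ring

/-- the values of the displacement -/
private theorem pl_val {h κ κ' a b : ℝ} (hh : 0 < h) (h0 : 0 < κ) (h2 : 0 < κ')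
    (e1 : κ * (1 - h) = a + 2 * h) (e2 : κ' * h = a + 2 * h) (hb0 : 0 ≤ b) (hba : b ≤ a) :
    ∃ c c' : ℝ, c < c' ∧ c' < c + 1 ∧ pl_G h κ κ' (Int.fract c) = -b ∧
      pl_G h κ κ' (Int.fract c') = -b ∧ (∀ v ∈ Ioo c c', -b < pl_G h κ κ' (Int.fract v)) ∧
      ∀ v ∈ Ioo c' (c + 1), pl_G h κ κ' (Int.fract v) < -b := by
  have hu0 : 0 < (h + b) / κ := by positivity
  have hu1 : (h + b) / κ < 1 - h := by
    rw [div_lt_iff₀ h0]
    linarith
  have hw0 : 0 < (h + b) / κ' := by positivity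
  have hw1 : (h + b) / κ' < h := by
    rw [div_lt_iff₀ h2]
    linarith
  have ku : κ * ((h + b) / κ) = h + b := by field_simp
  have kw : κ' * ((h + b) / κ') = h + b := by field_simp
  have hup : ∀ t, t < (h + b) / κ → -b < pl_G h κ κ' t := by
    intro t ht
    have h3 : κ * t < κ * ((h + b) / κ) := mul_lt_mul_of_pos_left ht h0
    refine lt_of_lt_of_le ?_ (le_max_left _ _)
    linarith
  have hup' : ∀ t, 1 - (h + b) / κ' < t → -b < pl_G h κ κ' t := by
    intro t ht
    have h3 : κ' * (1 - t) < κ' * ((h + b) / κ') := mul_lt_mul_of_pos_left (by linarith) h2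
    refine lt_of_lt_of_le ?_ (le_max_right _ _)
    linarith
  have hdn : ∀ t, (h + b) / κ < t → t < 1 - (h + b) / κ' → pl_G h κ κ' t < -b := by
    intro t ht ht'
    have h3 : κ * ((h + b) / κ) < κ * t := mul_lt_mul_of_pos_left ht h0
    have h4 : κ' * ((h + b) / κ') < κ' * (1 - t) := mul_lt_mul_of_pos_left (by linarith) h2
    refine max_lt ?_ ?_
    · linarith
    · linarith
  refine ⟨1 - (h + b) / κ' - 1, (h + b) / κ, by linarith, by linarith, ?_, ?_, ?_, ?_⟩
  · have hf : Int.fract (1 - (h + b) / κ' - 1) = 1 - (h + b) / κ' := by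
      rw [Int.fract_sub_one, Int.fract_eq_self.2 ⟨by linarith, by linarith⟩]
    rw [hf]
    unfold pl_G
    have h3 : κ * ((h + b) / κ) < κ * (1 - (h + b) / κ') :=
      mul_lt_mul_of_pos_left (by linarith) h0
    have h4 : h + κ' * (1 - (h + b) / κ' - 1) = -b := by linarith
    rw [h4, max_eq_right (by linarith)]
  · rw [Int.fract_eq_self.2 ⟨hu0.le, by linarith⟩]
    unfold pl_G
    have h3 : κ' * ((h + b) / κ') < κ' * (1 - (h + b) / κ) :=
      mul_lt_mul_of_pos_left (by linarith) h2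
    have h4 : h - κ * ((h + b) / κ) = -b := by linarith
    rw [h4, max_eq_left (by linarith)]
  · intro v hv
    rcases lt_or_ge v 0 with hv0 | hv0
    · have hf : Int.fract v = v + 1 := by
        rw [← Int.fract_add_one v, Int.fract_eq_self.2 ⟨by linarith [hv.1], by linarith⟩]
      rw [hf]
      exact hup' _ (by linarith [hv.1])
    · rw [Int.fract_eq_self.2 ⟨hv0, by linarith [hv.2]⟩]
      exact hup _ hv.2
  · intro v hv
    rw [Int.fract_eq_self.2 ⟨by linarith [hv.1], by linarith [hv.2]⟩]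
    exact hdn _ hv.1 (by linarith [hv.2])

/-- PROOF. Let `h = (1 - a) / 4`, `κ = 2 (1 + a) / (3 + a) < 1`, `κ' = (a + 2 h) / h`, `A x = x + h - κ x`,
`B x = x + h + κ' (x - 1)`, `F x = max (A x) (B x)` for `x ∈ [0, 1]`: strictly increasing and continuous, `F 0 = h`,
`F 1 = 1 + h`; `A = B` at `x = 1 - h`, `A > B` before and `A < B` after. Put `f x = ⌊x⌋ + F (fract x)` (an increasing
homeomorphism of `ℝ` commuting with the translation by `1`; `StrictMono.orderIsoOfSurjective`, surjective by the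
intermediate value theorem). `g = f - id` on `[0, 1]` falls strictly from `h` to `-a - h` on `[0, 1 - h]` and rises strictly
to `h` on `[1 - h, 1]`. For `b = 0` and `b = a`: `g = -b` exactly at `u_b = (h + b) / κ ∈ (0, 1 - h)` and at
`w_b = 1 - (h + b) / κ' ∈ (1 - h, 1)`, `g < -b` between them, `g > -b` in `(w_b - 1, u_b)`. So `f` has the property `UD` with
`c = w_0 - 1`, `c' = u_0`, and `x ↦ f (x + a)` (its displacement is `g (x + a) + a`) with `c = w_a - 1 - a`, `c' = u_a - a`. -/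
theorem exists_pl {a : ℝ} (h0 : 0 < a) (h1 : a < 1) :
    ∃ (f : ℝ ≃o ℝ) (c c' d d' : ℝ), UD f c c' ∧ UD (aft f a) d d' := by
  have hh : 0 < (1 - a) / 4 := by linarith
  have hκ : 0 < 2 * (1 + a) / (3 + a) := by positivity
  have hκ1 : 2 * (1 + a) / (3 + a) < 1 := by
    rw [div_lt_one (by linarith)]
    linarith
  have hκ' : 0 < (a + 2 * ((1 - a) / 4)) / ((1 - a) / 4) := by positivity
  have e1 : 2 * (1 + a) / (3 + a) * (1 - (1 - a) / 4) = a + 2 * ((1 - a) / 4) := by
    field_simp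
    ring
  have e2 : (a + 2 * ((1 - a) / 4)) / ((1 - a) / 4) * ((1 - a) / 4) = a + 2 * ((1 - a) / 4) :=
    div_mul_cancel₀ _ hh.ne'
  obtain ⟨f, hper, hf⟩ := pl_ex (h := (1 - a) / 4) hκ hκ1 hκ'
  obtain ⟨c, c', h3, h4, h5, h6, h7, h8⟩ := pl_val hh hκ hκ' e1 e2 le_rfl h0.le
  obtain ⟨d, d', k3, k4, k5, k6, k7, k8⟩ := pl_val hh hκ hκ' e1 e2 h0.le le_rfl
  refine ⟨f, c, c', d - a, d' - a, ⟨hper, h3, h4, ?_, ?_, ?_, ?_⟩,
    ⟨?_, by linarith, by linarith, ?_, ?_, ?_, ?_⟩⟩
  · rw [hf, h5]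
    ring
  · rw [hf, h6]
    ring
  · intro v hv
    rw [hf]
    linarith [h7 v hv]
  · intro v hv
    rw [hf]
    linarith [h8 v hv]
  · intro x
    rw [aft_apply, aft_apply, add_right_comm, hper]
  · rw [aft_apply, hf, sub_add_cancel, k5]
    ring
  · rw [aft_apply, hf, sub_add_cancel, k6]
    ring
  · intro v hv
    have h9 := k7 (v + a) ⟨by linarith [hv.1], by linarith [hv.2]⟩
    rw [aft_apply, hf]
    linarith
  · intro v hv
    have h9 := k8 (v + a) ⟨by linarith [hv.1], by linarith [hv.2]⟩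
    rw [aft_apply, hf]
    linarith

end Pool.Agent.H.MP_1611f1_gt.TW
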