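import Pool.Agent.H.MP_1611f1_gt.TW.Cel
import Pool.Agent.H.MP_1611f1_gt.TW.Pl

/-!
Conjugation of circle homeomorphisms with two fixed points.
-/

namespace Pool.Agent.H.MP_1611f1_gt.TW

open Topology Set Filter

theorem Cnj_monoOn {F τ : ℝ → ℝ} {a : ℝ} (hτ : StrictMono τ) (h : ∀ x, F (x + 1) = τ (F x))
    (hm : StrictMonoOn F (Icc a (a + 1))) (n : ℤ) : StrictMonoOn F (Icc (a + n) (a + n + 1)) := by
  induction n using Int.induction_on with
  | zero => simpa using hm
  | succ k ih =>
    intro x hx y hy hxy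
    have h1 := h (x - 1)
    have h2 := h (y - 1)
    rw [sub_add_cancel] at h1 h2
    rw [h1, h2]
    push_cast at hx hy ih
    exact hτ (ih ⟨by linarith [hx.1], by linarith [hx.2]⟩ ⟨by linarith [hy.1], by linarith [hy.2]⟩
      (by linarith))
  | pred k ih =>
    intro x hx y hy hxy
    have h1 := h x
    have h2 := h y
    push_cast at hx hy ih
    rw [← hτ.lt_iff_lt, ← h1, ← h2]
    exact ih ⟨by linarith [hx.1], by linarith [hx.2]⟩ ⟨by linarith [hy.1], by linarith [hy.2]⟩
      (by linarith)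

theorem Cnj_mono {F τ : ℝ → ℝ} {a : ℝ} (hτ : StrictMono τ) (h : ∀ x, F (x + 1) = τ (F x))
    (hm : StrictMonoOn F (Icc a (a + 1))) : StrictMono F := by
  have key := Cnj_monoOn hτ h hm
  have hint : StrictMono (fun n : ℤ => F (a + n)) := by
    refine strictMono_int_of_lt_succ fun n => ?_
    have h1 := key n ⟨le_refl _, by linarith⟩ ⟨by linarith, le_refl _⟩
      (by linarith : a + (n : ℝ) < a + n + 1)
    show F (a + n) < F (a + ((n + 1 : ℤ) : ℝ))
    push_cast
    rw [← add_assoc]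
    exact h1
  intro s t hst
  have hs1 := Int.floor_le (s - a)
  have hs2 := Int.lt_floor_add_one (s - a)
  have ht1 := Int.floor_le (t - a)
  have ht2 := Int.lt_floor_add_one (t - a)
  set m := ⌊s - a⌋ with hmdef
  set n := ⌊t - a⌋ with hndef
  have hmn : m ≤ n := Int.floor_le_floor (by linarith)
  rcases hmn.eq_or_lt with h1 | h1
  · rw [← h1] at ht1 ht2
    exact key m ⟨by linarith, by linarith⟩ ⟨by linarith, by linarith⟩ hst
  · have h2 : F s < F (a + m + 1) :=
      key m ⟨by linarith, by linarith⟩ ⟨by linarith, le_refl _⟩ (by linarith)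
    have h3 : F (a + m + 1) ≤ F (a + n) := by
      have h4 : m + 1 ≤ n := h1
      have h5 := hint.monotone h4
      have h6 : F (a + ((m + 1 : ℤ) : ℝ)) = F (a + m + 1) := by
        push_cast
        rw [add_assoc]
      rw [← h6]
      exact h5
    have h4 : F (a + n) ≤ F t := by
      refine (key n).monotoneOn ⟨le_refl _, by linarith⟩ ⟨by linarith, by linarith⟩ (by linarith)
    linarith

theorem Cnj_contOn {F : ℝ → ℝ} {f : ℝ ≃o ℝ} {a : ℝ} (h : ∀ x, F (x + 1) = f (F x))
    (hm : ContinuousOn F (Icc a (a + 1))) (n : ℤ) : ContinuousOn F (Icc (a + n) (a + n + 1)) := by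
  induction n using Int.induction_on with
  | zero => simpa using hm
  | succ k ih =>
    have h1 : ContinuousOn (fun x => f (F (x - 1))) (Icc (a + ((k + 1 : ℤ) : ℝ))
        (a + ((k + 1 : ℤ) : ℝ) + 1)) := by
      refine f.continuous.comp_continuousOn ?_
      refine ih.comp (by fun_prop) fun x hx => ?_
      push_cast at hx
      exact ⟨by push_cast; linarith [hx.1], by push_cast; linarith [hx.2]⟩
    refine h1.congr fun x _ => ?_
    have h2 := h (x - 1)
    rw [sub_add_cancel] at h2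
    exact h2
  | pred k ih =>
    have h1 : ContinuousOn (fun x => f.symm (F (x + 1))) (Icc (a + ((-k - 1 : ℤ) : ℝ))
        (a + ((-k - 1 : ℤ) : ℝ) + 1)) := by
      refine f.symm.continuous.comp_continuousOn ?_
      refine ih.comp (by fun_prop) fun x hx => ?_
      push_cast at hx
      exact ⟨by push_cast; linarith [hx.1], by push_cast; linarith [hx.2]⟩
    refine h1.congr fun x _ => ?_
    show F x = f.symm (F (x + 1))
    rw [h x, f.symm_apply_apply]

theorem Cnj_cont {F : ℝ → ℝ} {f : ℝ ≃o ℝ} {a : ℝ} (h : ∀ x, F (x + 1) = f (F x))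
    (hm : ContinuousOn F (Icc a (a + 1))) : Continuous F := by
  rw [continuous_iff_continuousAt]
  intro x
  have hs1 := Int.floor_le (x - a)
  have hs2 := Int.lt_floor_add_one (x - a)
  set n := ⌊x - a⌋ with hndef
  have h1 := Cnj_contOn h hm (n - 1)
  have h2 := Cnj_contOn h hm n
  have h3 := h1.union_of_isClosed h2 isClosed_Icc isClosed_Icc
  refine h3.continuousAt ?_
  refine Filter.mem_of_superset (Ioo_mem_nhds (a := a + n - 1) (b := a + n + 1) (by linarith)
    (by linarith)) ?_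
  intro y hy
  rcases le_total y (a + n) with h4 | h4
  · left
    push_cast
    exact ⟨by linarith [hy.1], by linarith⟩
  · right
    exact ⟨h4, hy.2.le⟩

/-- the points of `(a, b)` tend to `a` -/
theorem Cnj_down {f : ℝ → ℝ} (hf : Continuous f) {a b : ℝ}
    (hd : ∀ v ∈ Ioo a b, f v < v) (hk : ∀ v ∈ Ioo a b, f v ∈ Ioo a b) {p y : ℝ}
    (hp : p ∈ Ioo a b) (hy : a < y) : ∃ n : ℕ, f^[n] p < y := by
  by_contra hcon
  push Not at hcon
  have hmem : ∀ n : ℕ, f^[n] p ∈ Ioo a b := by
    intro n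
    induction n with
    | zero => exact hp
    | succ k ih =>
      rw [Function.iterate_succ_apply']
      exact hk _ ih
  have hanti : Antitone (fun n : ℕ => f^[n] p) := by
    refine antitone_nat_of_succ_le fun n => ?_
    show f^[n + 1] p ≤ f^[n] p
    rw [Function.iterate_succ_apply']
    exact (hd _ (hmem n)).le
  have hbdd : BddBelow (range (fun n : ℕ => f^[n] p)) := ⟨y, by
    rintro _ ⟨n, rfl⟩
    exact hcon n⟩
  have hlim := tendsto_atTop_ciInf hanti hbdd
  set L := ⨅ n : ℕ, f^[n] p with hL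
  have hL1 : y ≤ L := le_ciInf hcon
  have hL2 : L ≤ p := ciInf_le hbdd 0
  have hlim2 : Tendsto (fun n : ℕ => f^[n + 1] p) atTop (𝓝 L) :=
    hlim.comp (tendsto_add_atTop_nat 1)
  have hlim3 : Tendsto (fun n : ℕ => f^[n + 1] p) atTop (𝓝 (f L)) := by
    have h1 := (hf.tendsto L).comp hlim
    refine h1.congr fun n => ?_
    rw [Function.iterate_succ_apply']
    rfl
  have h2 := tendsto_nhds_unique hlim2 hlim3
  have h3 := hd L ⟨by linarith, by linarith [hp.2]⟩
  linarith

/-- the points of `(a, b)` tend to `b` -/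
theorem Cnj_up {f : ℝ → ℝ} (hf : Continuous f) {a b : ℝ}
    (hd : ∀ v ∈ Ioo a b, v < f v) (hk : ∀ v ∈ Ioo a b, f v ∈ Ioo a b) {p y : ℝ}
    (hp : p ∈ Ioo a b) (hy : y < b) : ∃ n : ℕ, y < f^[n] p := by
  by_contra hcon
  push Not at hcon
  have hmem : ∀ n : ℕ, f^[n] p ∈ Ioo a b := by
    intro n
    induction n with
    | zero => exact hp
    | succ k ih =>
      rw [Function.iterate_succ_apply']
      exact hk _ ih
  have hanti : Monotone (fun n : ℕ => f^[n] p) := by
    refine monotone_nat_of_le_succ fun n => ?_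
    show f^[n] p ≤ f^[n + 1] p
    rw [Function.iterate_succ_apply']
    exact (hd _ (hmem n)).le
  have hbdd : BddAbove (range (fun n : ℕ => f^[n] p)) := ⟨y, by
    rintro _ ⟨n, rfl⟩
    exact hcon n⟩
  have hlim := tendsto_atTop_ciSup hanti hbdd
  set L := ⨆ n : ℕ, f^[n] p with hL
  have hL1 : L ≤ y := ciSup_le hcon
  have hL2 : p ≤ L := le_ciSup hbdd 0
  have hlim2 : Tendsto (fun n : ℕ => f^[n + 1] p) atTop (𝓝 L) :=
    hlim.comp (tendsto_add_atTop_nat 1)
  have hlim3 : Tendsto (fun n : ℕ => f^[n + 1] p) atTop (𝓝 (f L)) := by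
    have h1 := (hf.tendsto L).comp hlim
    refine h1.congr fun n => ?_
    rw [Function.iterate_succ_apply']
    rfl
  have h2 := tendsto_nhds_unique hlim2 hlim3
  have h3 := hd L ⟨by linarith [hp.1], by linarith⟩
  linarith

/-- CONJUGATION TO A TRANSLATION with a prescribed fundamental domain. PROOF: `G s = (f ^ (-⌊s⌋)) (g₀ (fract s))`. It is strictly increasing and
continuous: on `[n, n + 1)` it is `f ^ (-n) ∘ g₀ (· - n)`, with values in `[f ^ (-n) (f p), f ^ (-n) p)`, and
`f ^ (-n) p = f ^ (-(n+1)) (f p)`, so the pieces fit together. `G (s - 1) = f (G s)` is clear. The range is in `Ioo a b`, which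
`f` preserves. It is the whole interval: it is an interval (continuity), without lower bound `L > a` or upper bound `M < b`:
`L = inf` would be a fixed point of `f` in `(a, b)` (`G (s - 1) = f (G s)`, `s → -∞`, continuity of `f`), similarly `M`. -/
theorem exists_G {f : ℝ ≃o ℝ} {a b : ℝ} (fa : f a = a) (fb : f b = b)
    (hd : ∀ v ∈ Ioo a b, f v < v) {p : ℝ} (hp : p ∈ Ioo a b) {g₀ : ℝ → ℝ} (h0 : g₀ 0 = f p)
    (h1 : g₀ 1 = p) (hc : ContinuousOn g₀ (Icc 0 1)) (hm : StrictMonoOn g₀ (Icc 0 1)) :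
    ∃ G : ℝ → ℝ, StrictMono G ∧ Continuous G ∧ range G = Ioo a b ∧
      (∀ s, G (s - 1) = f (G s)) ∧ ∀ s ∈ Icc (0 : ℝ) 1, G s = g₀ s := by
  obtain ⟨G, hG⟩ : ∃ G : ℝ → ℝ, ∀ s, G s = (f ^ (-⌊s⌋)) (g₀ (Int.fract s)) := ⟨_, fun _ => rfl⟩
  have hper : ∀ s, G (s - 1) = f (G s) := by
    intro s
    rw [hG, hG, Int.floor_sub_one, Int.fract_sub_one,
      show -(⌊s⌋ - 1) = 1 + -⌊s⌋ by ring, zpow_add, zpow_one]
    rfl
  have hper' : ∀ s, G (s + 1) = f.symm (G s) := by
    intro s
    have h2 := hper (s + 1)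
    rw [add_sub_cancel_right] at h2
    rw [h2, f.symm_apply_apply]
  have hIcc : ∀ s ∈ Icc (0 : ℝ) 1, G s = g₀ s := by
    intro s hs
    rcases hs.2.eq_or_lt with h2 | h2
    · rw [h2, h1, hG]
      have h3 : ⌊(1 : ℝ)⌋ = 1 := Int.floor_one
      have h4 : Int.fract (1 : ℝ) = 0 := Int.fract_one
      rw [h3, h4, h0, zpow_neg, zpow_one]
      exact f.symm_apply_apply p
    · rw [hG]
      have h3 : ⌊s⌋ = 0 := Int.floor_eq_zero_iff.2 ⟨hs.1, h2⟩
      have h4 : Int.fract s = s := Int.fract_eq_self.2 ⟨hs.1, h2⟩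
      rw [h3, h4, neg_zero, zpow_zero]
      rfl
  have hmono : StrictMono G := by
    refine Cnj_mono (a := 0) f.symm.strictMono hper' ?_
    rw [zero_add]
    intro x hx y hy hxy
    rw [hIcc x hx, hIcc y hy]
    exact hm hx hy hxy
  have hcont : Continuous G := by
    refine Cnj_cont (f := f.symm) (a := 0) hper' ?_
    rw [zero_add]
    exact hc.congr hIcc
  have hk : ∀ v ∈ Ioo a b, f v ∈ Ioo a b := by
    intro v hv
    constructor
    · rw [← fa]
      exact f.strictMono hv.1
    · rw [← fb]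
      exact f.strictMono hv.2
  have fa' : f.symm a = a := by
    rw [f.symm_apply_eq, fa]
  have fb' : f.symm b = b := by
    rw [f.symm_apply_eq, fb]
  have hk' : ∀ v ∈ Ioo a b, f.symm v ∈ Ioo a b := by
    intro v hv
    constructor
    · rw [← fa']
      exact f.symm.strictMono hv.1
    · rw [← fb']
      exact f.symm.strictMono hv.2
  have hd' : ∀ v ∈ Ioo a b, v < f.symm v := by
    intro v hv
    have h2 := hd _ (hk' v hv)
    rwa [f.apply_symm_apply] at h2
  have hG0 : G 0 = f p := by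
    rw [hIcc 0 ⟨le_refl _, zero_le_one⟩, h0]
  have hG1 : G 1 = p := by
    rw [hIcc 1 ⟨zero_le_one, le_refl _⟩, h1]
  have hneg : ∀ n : ℕ, G (1 - n) = f^[n] p := by
    intro n
    induction n with
    | zero => simpa using hG1
    | succ k ih =>
      rw [Function.iterate_succ_apply', ← ih, ← hper]
      push_cast
      ring_nf
  have hpos : ∀ n : ℕ, G (1 + n) = f.symm^[n] p := by
    intro n
    induction n with
    | zero => simpa using hG1
    | succ k ih =>
      rw [Function.iterate_succ_apply', ← ih, ← hper']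
      push_cast
      ring_nf
  have hmemn : ∀ n : ℕ, f^[n] p ∈ Ioo a b := by
    intro n
    induction n with
    | zero => exact hp
    | succ k ih =>
      rw [Function.iterate_succ_apply']
      exact hk _ ih
  have hmemp : ∀ n : ℕ, f.symm^[n] p ∈ Ioo a b := by
    intro n
    induction n with
    | zero => exact hp
    | succ k ih =>
      rw [Function.iterate_succ_apply']
      exact hk' _ ih
  refine ⟨G, hmono, hcont, ?_, hper, hIcc⟩
  apply Subset.antisymm
  · rintro _ ⟨s, rfl⟩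
    constructor
    · obtain ⟨n, hn⟩ := exists_nat_gt (1 - s)
      have h2 : G (1 - n) < G s := hmono (by linarith)
      rw [hneg] at h2
      exact (hmemn n).1.trans h2
    · obtain ⟨n, hn⟩ := exists_nat_gt (s - 1)
      have h2 : G s < G (1 + n) := hmono (by linarith)
      rw [hpos] at h2
      exact h2.trans (hmemp n).2
  · intro y hy
    obtain ⟨m, hm'⟩ := Cnj_down f.continuous hd hk hp hy.1
    obtain ⟨n, hn⟩ := Cnj_up f.symm.continuous hd' hk' hp hy.2
    rw [← hneg] at hm'
    rw [← hpos] at hn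
    have h2 : y ∈ Icc (G (1 - m)) (G (1 + n)) := ⟨hm'.le, hn.le⟩
    have h3 : (1 : ℝ) - m ≤ 1 + n := by
      have h4 : (0 : ℝ) ≤ m := Nat.cast_nonneg m
      have h5 : (0 : ℝ) ≤ n := Nat.cast_nonneg n
      linarith
    obtain ⟨s, _, hs⟩ := intermediate_value_Icc h3 hcont.continuousOn h2
    exact ⟨s, hs⟩

/-- the same for a homeomorphism moving the points of the interval up. PROOF: `exists_G` for `f.symm` and any linear `g₀`. -/
theorem exists_G_up {f : ℝ ≃o ℝ} {a b : ℝ} (hab : a < b) (fa : f a = a) (fb : f b = b)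
    (hu : ∀ v ∈ Ioo a b, v < f v) :
    ∃ G : ℝ → ℝ, StrictMono G ∧ Continuous G ∧ range G = Ioo a b ∧ ∀ s, G (s + 1) = f (G s) := by
  have fa' : f.symm a = a := by
    rw [f.symm_apply_eq, fa]
  have fb' : f.symm b = b := by
    rw [f.symm_apply_eq, fb]
  have hk' : ∀ v ∈ Ioo a b, f.symm v ∈ Ioo a b := by
    intro v hv
    constructor
    · rw [← fa']
      exact f.symm.strictMono hv.1
    · rw [← fb']
      exact f.symm.strictMono hv.2
  have hd : ∀ v ∈ Ioo a b, f.symm v < v := by
    intro v hv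
    have h2 := hu _ (hk' v hv)
    rwa [f.apply_symm_apply] at h2
  have hp : (a + b) / 2 ∈ Ioo a b := ⟨by linarith, by linarith⟩
  have hlt := hd _ hp
  obtain ⟨G, h1, h2, h3, h4, -⟩ := exists_G (f := f.symm) fa' fb' hd hp
    (g₀ := fun s => f.symm ((a + b) / 2) + s * ((a + b) / 2 - f.symm ((a + b) / 2)))
    (by ring) (by ring) (by fun_prop) (by
      intro x _ y _ hxy
      show f.symm ((a + b) / 2) + x * ((a + b) / 2 - f.symm ((a + b) / 2)) <
        f.symm ((a + b) / 2) + y * ((a + b) / 2 - f.symm ((a + b) / 2))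
      have h5 := mul_lt_mul_of_pos_right hxy (sub_pos.2 hlt)
      linarith)
  refine ⟨G, h1, h2, h3, fun s => ?_⟩
  have h5 := h4 (s + 1)
  rw [add_sub_cancel_right] at h5
  rw [h5, f.apply_symm_apply]

theorem Cnj_per_int {f : ℝ ≃o ℝ} (h : ∀ x, f (x + 1) = f x + 1) (n : ℤ) (x : ℝ) :
    f (x + n) = f x + n := by
  induction n using Int.induction_on with
  | zero => simp
  | succ k ih =>
    push_cast
    push_cast at ih
    rw [← add_assoc, h, ih, add_assoc]
  | pred k ih =>
    have h1 := h (x + ((-k - 1 : ℤ) : ℝ))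
    push_cast at h1 ih ⊢
    have h2 : x + (-(k : ℝ) - 1) + 1 = x + -(k : ℝ) := by ring
    rw [h2, ih] at h1
    linarith

/-- PROOF. `e (n + LL s) = n + G s`, `e (n + 1/2 + LL s) = n + G' s`, `e (n + 1/4) = n + c`, `e (n + 3/4) = n + c'` (formally: with
`k = kk v`, `n` = half of `k` or `k - 1`, and `Lm` of the position in the cell; `cell_cases`). It is strictly increasing: in the
order of the line the cells and walls `(n - 1/4, n + 1/4)`, `n + 1/4`, `(n + 1/4, n + 3/4)`, `n + 3/4`, ... are mapped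
onto `(n + c' - 1, n + c)`, `n + c`, `(n + c, n + c')`, `n + c'`, ...; and it is surjective, since these sets cover the line.
The conjugation: `T0 (n + LL s) = n + LL (s - 1)`, `T0 (n + 1/2 + LL s) = n + 1/2 + LL (s + 1)` (`celf_J`, `celf_J'`), walls are
fixed, and `f` commutes with integer translations. -/
theorem exists_conj {f : ℝ ≃o ℝ} {c c' : ℝ} (h : UD f c c') {G G' : ℝ → ℝ} (hG : StrictMono G)
    (hGc : Continuous G) (hGr : range G = Ioo (c' - 1) c) (hGf : ∀ s, G (s - 1) = f (G s))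
    (hG' : StrictMono G') (hGc' : Continuous G') (hGr' : range G' = Ioo c c')
    (hGf' : ∀ s, G' (s + 1) = f (G' s)) :
    ∃ e : ℝ ≃o ℝ, (∀ x, e (x + 1) = e x + 1) ∧ (∀ s, e (LL s) = G s) ∧
      ∀ v, e (T0 v) = f (e v) := by
  classical
  obtain ⟨B, hB⟩ : ∃ B : ℝ → ℝ, ∀ w, B w = if w = -1 / 4 then c' - 1 else
      if w < 1 / 4 then G (Lm w) else if w = 1 / 4 then c else G' (Lm (w - 1 / 2)) :=
    ⟨_, fun _ => rfl⟩
  have hB0 : B (-1 / 4) = c' - 1 := by
    rw [hB, if_pos rfl]
  have hB1 : ∀ w, -1 / 4 < w → w < 1 / 4 → B w = G (Lm w) := by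
    intro w h1 h2
    rw [hB, if_neg h1.ne', if_pos h2]
  have hB2 : B (1 / 4) = c := by
    rw [hB, if_neg (by norm_num), if_neg (lt_irrefl _), if_pos rfl]
  have hB3 : ∀ w, 1 / 4 < w → B w = G' (Lm (w - 1 / 2)) := by
    intro w h1
    rw [hB, if_neg (by intro h2; rw [h2] at h1; norm_num at h1), if_neg (not_lt.2 h1.le),
      if_neg h1.ne']
  have hGm : ∀ s, G s ∈ Ioo (c' - 1) c := by
    intro s
    rw [← hGr]
    exact mem_range_self s
  have hGm' : ∀ s, G' s ∈ Ioo c c' := by
    intro s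
    rw [← hGr']
    exact mem_range_self s
  have hlt := h.lt
  have hlt' := h.lt'
  obtain ⟨e, he⟩ : ∃ e : ℝ → ℝ, ∀ v, e v = ⌊v + 1 / 4⌋ + B (v - ⌊v + 1 / 4⌋) :=
    ⟨_, fun _ => rfl⟩
  have heint : ∀ (v : ℝ) (n : ℤ), e (v + n) = e v + n := by
    intro v n
    have h1 : ⌊v + n + 1 / 4⌋ = ⌊v + 1 / 4⌋ + n := by
      rw [show v + (n : ℝ) + 1 / 4 = v + 1 / 4 + n by ring, Int.floor_add_intCast]
    rw [he, he, h1]
    push_cast
    have h2 : v + (n : ℝ) - ((⌊v + 1 / 4⌋ : ℝ) + n) = v - ⌊v + 1 / 4⌋ := by ring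
    rw [h2]
    ring
  have heper : ∀ v, e (v + 1) = e v + 1 := by
    intro v
    have h1 := heint v 1
    push_cast at h1
    exact h1
  have he0 : ∀ w, -1 / 4 ≤ w → w < 3 / 4 → e w = B w := by
    intro w h1 h2
    have h3 : ⌊w + 1 / 4⌋ = 0 := Int.floor_eq_zero_iff.2 ⟨by linarith, by linarith⟩
    rw [he, h3]
    simp
  have he1 : ∀ w, -1 / 4 < w → w < 1 / 4 → e w = G (Lm w) := by
    intro w h1 h2
    rw [he0 w h1.le (by linarith), hB1 w h1 h2]
  have he3 : ∀ w, 1 / 4 < w → w < 3 / 4 → e w = G' (Lm (w - 1 / 2)) := by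
    intro w h1 h2
    rw [he0 w (by linarith) h2, hB3 w h1]
  have hew0 : e (-1 / 4) = c' - 1 := by
    rw [he0 _ (le_refl _) (by norm_num), hB0]
  have hew2 : e (1 / 4) = c := by
    rw [he0 _ (by norm_num) (by norm_num), hB2]
  have hew4 : e (3 / 4) = c' := by
    have h1 := heper (-1 / 4)
    rw [hew0] at h1
    have h2 : (-1 / 4 : ℝ) + 1 = 3 / 4 := by norm_num
    rw [h2] at h1
    linarith
  have hmon1 : ∀ x y, -1 / 4 < x → x < y → y < 1 / 4 → e x < e y := by
    intro x y h1 h2 h3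
    rw [he1 x h1 (by linarith), he1 y (by linarith) h3]
    refine hG (Lm_mono ?_ ?_ h2)
    · rw [abs_lt]
      constructor <;> linarith
    · rw [abs_lt]
      constructor <;> linarith
  have hmon3 : ∀ x y, 1 / 4 < x → x < y → y < 3 / 4 → e x < e y := by
    intro x y h1 h2 h3
    rw [he3 x h1 (by linarith), he3 y (by linarith) h3]
    refine hG' (Lm_mono ?_ ?_ (by linarith))
    · rw [abs_lt]
      constructor <;> linarith
    · rw [abs_lt]
      constructor <;> linarith
  have hval1 : ∀ x, -1 / 4 < x → x < 1 / 4 → c' - 1 < e x ∧ e x < c := by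
    intro x h1 h2
    rw [he1 x h1 h2]
    exact hGm _
  have hval3 : ∀ x, 1 / 4 < x → x < 3 / 4 → c < e x ∧ e x < c' := by
    intro x h1 h2
    rw [he3 x h1 h2]
    exact hGm' _
  have hmono : StrictMono e := by
    refine Cnj_mono (a := -1 / 4) (τ := fun x => x + 1) (fun x y hxy => by
      show x + 1 < y + 1
      linarith) heper ?_
    have hend : (-1 / 4 : ℝ) + 1 = 3 / 4 := by norm_num
    rw [hend]
    intro x hx y hy hxy
    rcases hy.2.eq_or_lt with hy2 | hy2
    · rw [hy2, hew4]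
      rcases hx.1.eq_or_lt with hx1 | hx1
      · rw [← hx1, hew0]
        linarith
      · rcases lt_trichotomy x (1 / 4) with hx2 | hx2 | hx2
        · linarith [(hval1 x hx1 hx2).2]
        · rw [hx2, hew2]
          exact hlt
        · exact (hval3 x hx2 (by linarith)).2
    · rcases hx.1.eq_or_lt with hx1 | hx1
      · rw [← hx1, hew0]
        rcases lt_trichotomy y (1 / 4) with hy3 | hy3 | hy3
        · exact (hval1 y (by linarith) hy3).1
        · rw [hy3, hew2]
          linarith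
        · linarith [(hval3 y hy3 hy2).1]
      · rcases lt_trichotomy x (1 / 4) with hx2 | hx2 | hx2
        · rcases lt_trichotomy y (1 / 4) with hy3 | hy3 | hy3
          · exact hmon1 x y hx1 hxy hy3
          · rw [hy3, hew2]
            exact (hval1 x hx1 hx2).2
          · linarith [(hval3 y hy3 hy2).1, (hval1 x hx1 hx2).2]
        · rw [hx2, hew2]
          exact (hval3 y (by linarith) hy2).1
        · exact hmon3 x y hx2 hxy hy2
  have heLL : ∀ s, e (LL s) = G s := by
    intro s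
    have h1 := abs_lt.1 (LL_abs s)
    rw [he1 _ (by linarith [h1.1]) h1.2, Lm_LL]
  have heLL' : ∀ s, e (1 / 2 + LL s) = G' s := by
    intro s
    have h1 := abs_lt.1 (LL_abs s)
    rw [he3 _ (by linarith [h1.1]) (by linarith [h1.2]), add_sub_cancel_left, Lm_LL]
  have hsurj : Function.Surjective e := by
    intro y
    have hs1 := Int.floor_le (y - (c' - 1))
    have hs2 := Int.lt_floor_add_one (y - (c' - 1))
    set n := ⌊y - (c' - 1)⌋ with hn
    suffices hsuf : ∃ w, e w = y - n by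
      obtain ⟨w, hw⟩ := hsuf
      refine ⟨w + n, ?_⟩
      rw [heint, hw]
      ring
    have h1 : c' - 1 ≤ y - n := by linarith
    have h2 : y - n < c' := by linarith
    rcases h1.eq_or_lt with h3 | h3
    · exact ⟨-1 / 4, by rw [hew0, h3]⟩
    · rcases lt_trichotomy (y - n) c with h4 | h4 | h4
      · have h5 : y - n ∈ range G := by
          rw [hGr]
          exact ⟨h3, h4⟩
        obtain ⟨s, hs⟩ := h5
        exact ⟨LL s, by rw [heLL, hs]⟩
      · exact ⟨1 / 4, by rw [hew2, h4]⟩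
      · have h5 : y - n ∈ range G' := by
          rw [hGr']
          exact ⟨h4, h2⟩
        obtain ⟨s, hs⟩ := h5
        exact ⟨1 / 2 + LL s, by rw [heLL', hs]⟩
  refine ⟨hmono.orderIsoOfSurjective e hsurj, heper, heLL, fun v => ?_⟩
  show e (T0 v) = f (e v)
  have hT : T0 v = celf (OrderIso.addRight (-1) : ℝ ≃o ℝ) (OrderIso.addRight 1 : ℝ ≃o ℝ) v := rfl
  rcases cell_cases v with ⟨n, hv⟩ | ⟨n, s, hv⟩ | ⟨n, s, hv⟩
  · rw [hT, hv, celf_wall]
    have hfix : ∃ m : ℤ, e (n / 2 + 1 / 4) = c + m ∨ e (n / 2 + 1 / 4) = c' + m := by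
      rcases Int.even_or_odd' n with ⟨m, hm | hm⟩
      · refine ⟨m, Or.inl ?_⟩
        have h1 := heint (1 / 4) m
        rw [hew2] at h1
        rw [← h1, hm]
        congr 1
        push_cast
        ring
      · refine ⟨m, Or.inr ?_⟩
        have h1 := heint (3 / 4) m
        rw [hew4] at h1
        rw [← h1, hm]
        congr 1
        push_cast
        ring
    obtain ⟨m, hm | hm⟩ := hfix
    · rw [hm, Cnj_per_int h.per, h.fix]
    · rw [hm, Cnj_per_int h.per, h.fix']
  · rw [hT, hv, celf_J]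
    have h1 : (OrderIso.addRight (-1) : ℝ ≃o ℝ) s = s - 1 := by
      show s + -1 = s - 1
      ring
    rw [h1, add_comm (n : ℝ) (LL (s - 1)), add_comm (n : ℝ) (LL s), heint, heint, heLL, heLL,
      Cnj_per_int h.per, hGf]
  · rw [hT, hv, celf_J']
    have h1 : (OrderIso.addRight 1 : ℝ ≃o ℝ) s = s + 1 := rfl
    rw [h1, show (n : ℝ) + 1 / 2 + LL (s + 1) = 1 / 2 + LL (s + 1) + n by ring,
      show (n : ℝ) + 1 / 2 + LL s = 1 / 2 + LL s + n by ring, heint, heint, heLL', heLL',
      Cnj_per_int h.per, hGf']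

end Pool.Agent.H.MP_1611f1_gt.TW
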