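import Pool.Agent.H.MP_1611f1_gt.TW.BoxDefs
import Pool.Agent.H.MP_1611f1_gt.TW.Fam
import Pool.Agent.H.MP_1611f1_gt.TW.Cel
import Pool.Agent.H.MP_1611f1_gt.BR.NCl
import Pool.Agent.H.MP_1611f1_gt.G.Ended

/-!
Walls: definitions. A foliation which is `{t = const}` on a part `VV` of a `3`-torus (a neighbourhood of the torus
`x₁ = 0` and of the circle `x₂ = t = 0`) is changed inside the smaller part `CC`: the circle
`x₂ = t = 0` is removed, and the new foliation has the two vertical annuli `x₁ = ± 1/16` as leaves (away from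
this circle).
-/

namespace Pool.Agent.H.MP_1611f1_gt.TW

open Topology Set Filter
open Pool.Agent.H.MP_1611f1_gt.BR.U (Ci)

/-- the solid torus around the circle `x₂ = t = 0` which is removed -/
def KK : Set (Ci × Ci × Ci) := {z | 256 * (‖z.2.1‖ ^ 2 + ‖z.2.2‖ ^ 2) ≤ 1}

/-- The numerical data: the slope `μ` at the tube and the homeomorphisms `em`, `ep` on the two sides of
it. -/
structure Par where
  μ : ℝ
  em : ℝ ≃o ℝ
  ep : ℝ ≃o ℝ
  em_per : ∀ x, em (x + 1) = em x + 1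
  ep_per : ∀ x, ep (x + 1) = ep x + 1
  rel : ∀ y, em (T0 (em.symm (y + μ))) = ep (T0 (ep.symm y))
  agree : ∀ s ∈ Icc (1 / 8 : ℝ) (7 / 8), em (LL s) = ep (LL s)

/-- the collapse of `ℝ` to the strips `[n - 1/8, n + 1/8]`: it increases from `n` to `n + 1` there, and it is constant
between the strips -/
noncomputable def ff (a : ℝ) : ℝ := ⌊a + 1 / 2⌋ + max 0 (min 1 (4 * (a - ⌊a + 1 / 2⌋) + 1 / 2))

/-- the amount by which `ff` is made strictly increasing: positive where both of the last two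
coordinates are smaller than `1/8` -/
noncomputable def lam (b t : ℝ) : ℝ :=
  1 / 1600 * max 0 (min 1 (6 * (2 - 16 * max ‖(b : Ci)‖ ‖(t : Ci)‖)))

/-- the transverse function beside the tube -/
noncomputable def yy (z : ℝ × ℝ × ℝ) : ℝ :=
  phi (-z.2.2) (ff z.1 + lam z.2.1 z.2.2 * (z.1 - ff z.1))

/-- the ramp: `0` for `u ≤ -1`, `1` for `1 ≤ u` -/
noncomputable def chi (u : ℝ) : ℝ := max 0 (min 1 ((1 + u) / 2))

/-- `256` times the square of the distance from the lines `b, t ∈ ℤ` -/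
noncomputable def rt (z : ℝ × ℝ × ℝ) : ℝ := 256 * (‖(z.2.1 : Ci)‖ ^ 2 + ‖(z.2.2 : Ci)‖ ^ 2)

/-- the point with the polar coordinates `(θ, r, ψ)` around the circle `x₂ = t = 0` -/
noncomputable def plr (z : ℝ × Ioo (1 : ℝ) 2 × ℝ) : ℝ × ℝ × ℝ :=
  (z.1, (z.2.1 : ℝ) * Real.cos (2 * Real.pi * z.2.2) / 16,
    (z.2.1 : ℝ) * Real.sin (2 * Real.pi * z.2.2) / 16)

/-- translations -/
def tr (m n k : ℤ) (z : ℝ × ℝ × ℝ) : ℝ × ℝ × ℝ := (z.1 + m, z.2.1 + n, z.2.2 + k)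

section

variable (P : Par)

/-- the transverse function for `0 < t < 1`, near `b = 0` -/
noncomputable def Par.E0 (z : ℝ × ℝ × ℝ) : ℝ :=
  (1 - chi (16 * z.2.1)) * P.em (yy z) + chi (16 * z.2.1) * P.ep (yy z)

/-- the inverse of the holonomy on the left side -/
noncomputable def Par.tmi (y : ℝ) : ℝ := P.em (T0.symm (P.em.symm y))

/-- the function `E0` continued around the tube: above the tube `tmi (E0)`, below the tube `E0` at
the time `t + 1`, and minus `μ` for every turn -/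
noncomputable def Par.XX (z : ℝ × Ioo (1 : ℝ) 2 × ℝ) : ℝ :=
  (if Int.fract z.2.2 ≤ 1 / 2 then P.tmi (P.E0 (plr z)) else P.E0 (tr 0 0 1 (plr z))) -
    P.μ * ⌊z.2.2⌋

/-- the transverse function near the tube, in polar coordinates -/
noncomputable def Par.TT (z : ℝ × Ioo (1 : ℝ) 2 × ℝ) : ℝ :=
  LS.cut z.2.1 * P.XX z + (1 - LS.cut z.2.1) * (z.1 - P.μ * z.2.2)

end

/-- the domain of `yy` -/
def XS : Set (ℝ × ℝ × ℝ) := {z | cov z ∈ VV ∧ 1 / 16 < ‖(z.2.1 : Ci)‖ ∧ 25 / 9 < rt z}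

/-- the domain of `E0` -/
def XW : Set (ℝ × ℝ × ℝ) :=
  {z | cov z ∈ VV ∧ |z.2.1| < 3 / 16 ∧ 0 < z.2.2 ∧ z.2.2 < 1 ∧ 25 / 9 < rt z}

/-- the domain of `TT` -/
def XT : Set (ℝ × Ioo (1 : ℝ) 2 × ℝ) := {z | (z.2.1 : ℝ) < 11 / 6}

/-- the universal cover of the part `VV` (`ℤ³`-cover) -/
abbrev UU := {z : ℝ × ℝ × ℝ // cov z ∈ VV}

end Pool.Agent.H.MP_1611f1_gt.TW
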