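import Pool.Agent.H.MP_1611f1_gt.TW.Defs

/-!
The functions `ff`, `lam`, `chi`.
-/

namespace Pool.Agent.H.MP_1611f1_gt.TW

open Topology Set Filter
open Pool.Agent.H.MP_1611f1_gt.BR.U (Ci)

/-- PROOF: `Int.floor_add_intCast` with `a + n + 1/2 = (a + 1/2) + n`. -/
theorem ff_add (a : ℝ) (n : ℤ) : ff (a + n) = ff a + n := by
  have h : ⌊a + n + 1 / 2⌋ = ⌊a + 1 / 2⌋ + n := by
    rw [show a + (n : ℝ) + 1 / 2 = (a + 1 / 2) + n by ring, Int.floor_add_intCast]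
  unfold ff
  rw [h]
  push_cast
  rw [show a + (n : ℝ) - ((⌊a + 1 / 2⌋ : ℝ) + n) = a - (⌊a + 1 / 2⌋ : ℝ) by ring]
  ring

/-- on the period `[-1/2, 1/2]` (closed!): PROOF: for `a < 1/2` the floor is `0`; for `a = 1/2` the floor is `1` and both sides are `1`. -/
theorem ff_eq_clamp {a : ℝ} (h : a ∈ Icc (-1 / 2 : ℝ) (1 / 2)) :
    ff a = max 0 (min 1 (4 * a + 1 / 2)) := by
  rcases lt_or_eq_of_le h.2 with h1 | h1
  · have hf : ⌊a + 1 / 2⌋ = 0 := by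
      rw [Int.floor_eq_iff]
      push_cast
      constructor <;> linarith [h.1]
    unfold ff
    rw [hf, Int.cast_zero, sub_zero, zero_add]
  · subst h1
    have hf : ⌊(1 / 2 : ℝ) + 1 / 2⌋ = 1 := by
      rw [Int.floor_eq_iff]
      push_cast
      constructor <;> norm_num
    unfold ff
    rw [hf, Int.cast_one]
    norm_num

private theorem FF_red (a : ℝ) : ∃ (n : ℤ) (s : ℝ), a = s + n ∧ -1 / 2 ≤ s ∧ s < 1 / 2 := by
  refine ⟨⌊a + 1 / 2⌋, a - ⌊a + 1 / 2⌋, by ring, ?_, ?_⟩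
  · linarith [Int.floor_le (a + 1 / 2)]
  · linarith [Int.lt_floor_add_one (a + 1 / 2)]

private theorem FF_clamp_nonneg (x : ℝ) : 0 ≤ max 0 (min 1 x) := le_max_left _ _

private theorem FF_clamp_le (x : ℝ) : max 0 (min 1 x) ≤ 1 :=
  max_le zero_le_one (min_le_left _ _)

private theorem FF_clamp_mono {x y : ℝ} (h : x ≤ y) : max 0 (min 1 x) ≤ max 0 (min 1 y) :=
  max_le_max le_rfl (min_le_min le_rfl h)

/-- PROOF: on every interval `[n - 1/2, n + 1/2]` by `ff_eq_clamp` and `ff_add`: two points `a ≤ a'` in one such interval; in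
different intervals `ff a ≤ n + 1 ≤ ff a'`. -/
theorem ff_mono : Monotone ff := by
  intro a a' h
  have h1 : ⌊a + 1 / 2⌋ ≤ ⌊a' + 1 / 2⌋ := Int.floor_le_floor (by linarith)
  rcases lt_or_eq_of_le h1 with h2 | h2
  · have h3 : (⌊a + 1 / 2⌋ : ℝ) + 1 ≤ ⌊a' + 1 / 2⌋ := by exact_mod_cast h2
    unfold ff
    have h4 := FF_clamp_le (4 * (a - ⌊a + 1 / 2⌋) + 1 / 2)
    have h5 := FF_clamp_nonneg (4 * (a' - ⌊a' + 1 / 2⌋) + 1 / 2)
    linarith
  · unfold ff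
    rw [← h2]
    have h3 : max 0 (min 1 (4 * (a - ⌊a + 1 / 2⌋) + 1 / 2)) ≤
        max 0 (min 1 (4 * (a' - ⌊a + 1 / 2⌋) + 1 / 2)) := FF_clamp_mono (by linarith)
    linarith

/-- PROOF: `ff_eq_clamp`, `ff_add`: on the closed sets `[n - 1/2, n + 1/2]` (locally finite); or: near `a` with
`a + 1/2 ∉ ℤ` the floor is constant; near `a = n + 1/2` `ff a' = n + 1` on `[n + 1/8, n + 7/8]` (`ff_flat`). -/
theorem ff_cont : Continuous ff := by
  have hg : Continuous ((fun x : ℝ => -x + max 0 (min 1 (4 * (x - 1 / 2) + 1 / 2))) ∘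
      (Int.fract : ℝ → ℝ)) := by
    refine ContinuousOn.comp_fract'' ?_ ?_
    · exact Continuous.continuousOn (by fun_prop)
    · norm_num
  have h1 : Continuous fun a : ℝ => a + 1 / 2 +
      ((fun x : ℝ => -x + max 0 (min 1 (4 * (x - 1 / 2) + 1 / 2))) ∘ (Int.fract : ℝ → ℝ))
        (a + 1 / 2) := by
    exact (continuous_id.add continuous_const).add (hg.comp (continuous_id.add continuous_const))
  have h2 : ff = fun a : ℝ => a + 1 / 2 +
      ((fun x : ℝ => -x + max 0 (min 1 (4 * (x - 1 / 2) + 1 / 2))) ∘ (Int.fract : ℝ → ℝ))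
        (a + 1 / 2) := by
    funext a
    show ff a = a + 1 / 2 + (-Int.fract (a + 1 / 2) +
      max 0 (min 1 (4 * (Int.fract (a + 1 / 2) - 1 / 2) + 1 / 2)))
    unfold ff Int.fract
    rw [show a + 1 / 2 - (⌊a + 1 / 2⌋ : ℝ) - 1 / 2 = a - ⌊a + 1 / 2⌋ by ring]
    ring
  rw [h2]
  exact h1

theorem ff_core {a : ℝ} (h : |a| ≤ 1 / 8) : ff a = 4 * a + 1 / 2 := by
  obtain ⟨h1, h2⟩ := abs_le.1 h
  rw [ff_eq_clamp ⟨by linarith, by linarith⟩, min_eq_right (by linarith), max_eq_right (by linarith)]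

/-- PROOF: `a ≤ 1/2`: `ff_eq_clamp`; `1/2 ≤ a`: `ff_eq_clamp` for `a - 1`. -/
theorem ff_flat {a : ℝ} (h : a ∈ Icc (1 / 8 : ℝ) (7 / 8)) : ff a = 1 := by
  rcases le_total a (1 / 2) with h1 | h1
  · rw [ff_eq_clamp ⟨by linarith [h.1], h1⟩, min_eq_left (by linarith [h.1]),
      max_eq_right zero_le_one]
  · have h2 : ff (a - 1) = 0 := by
      rw [ff_eq_clamp ⟨by linarith, by linarith [h.2]⟩, min_eq_right (by linarith [h.2]),
        max_eq_left (by linarith [h.2])]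
    have h3 := ff_add (a - 1) 1
    rw [Int.cast_one, sub_add_cancel, h2, zero_add] at h3
    exact h3

/-- PROOF: add an integer so that `a ∈ [-1/8, 7/8]`; if `a ≥ 1/8` the value is `1`; if `a < 1/8` then
`ff a = 4 a + 1/2 < ff a'` for `a' > a` (`ff_core`, `ff_mono`). -/
theorem ff_inj {a a' : ℝ} (h : a < a') (hf : ff a = ff a') : ∃ n : ℤ, ff a = n := by
  obtain ⟨n, hn⟩ : ∃ n : ℤ, n = ⌊a + 1 / 8⌋ := ⟨_, rfl⟩
  have h1 : (n : ℝ) ≤ a + 1 / 8 := by rw [hn]; exact Int.floor_le _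
  have h2 : a + 1 / 8 < n + 1 := by rw [hn]; exact Int.lt_floor_add_one _
  obtain ⟨b, hb⟩ : ∃ b : ℝ, b = a - n := ⟨_, rfl⟩
  obtain ⟨b', hb'⟩ : ∃ b' : ℝ, b' = a' - n := ⟨_, rfl⟩
  have ha : a = b + n := by rw [hb]; ring
  have ha' : a' = b' + n := by rw [hb']; ring
  rw [ha, ha', ff_add, ff_add] at hf
  have hbb : b < b' := by rw [hb, hb']; linarith
  have hff : ff b = ff b' := by linarith
  rcases le_or_gt (1 / 8) b with h3 | h3
  · refine ⟨1 + n, ?_⟩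
    rw [ha, ff_add, ff_flat ⟨h3, by rw [hb]; linarith⟩]
    push_cast
    ring
  · exfalso
    have h4 : ff b = 4 * b + 1 / 2 := ff_core (abs_le.2 ⟨by rw [hb]; linarith, h3.le⟩)
    have h5 : ff (min b' (1 / 8)) = 4 * min b' (1 / 8) + 1 / 2 := by
      refine ff_core (abs_le.2 ⟨le_min ?_ (by norm_num), min_le_right _ _⟩)
      rw [hb']
      linarith
    have h6 : b < min b' (1 / 8) := lt_min hbb h3
    have h7 : ff (min b' (1 / 8)) ≤ ff b' := ff_mono (min_le_left _ _)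
    linarith

theorem ff_lt {a a' : ℝ} (h : a < a') (hf : ∀ n : ℤ, ff a ≠ n) : ff a < ff a' := by
  refine lt_of_le_of_ne (ff_mono h.le) fun h1 => ?_
  obtain ⟨n, hn⟩ := ff_inj h h1
  exact hf n hn

private theorem FF_norm (a : ℝ) : ∃ (n : ℤ) (s : ℝ), a = s + n ∧ |s| ≤ 1 / 2 ∧ ‖(a : Ci)‖ = |s| := by
  refine ⟨round a, a - round a, by ring, abs_sub_round a, ?_⟩
  rw [UnitAddCircle.norm_eq]

/-- PROOF: `ff_add`: add an integer so that `a ∈ [-1/2, 1/2]` (`UnitAddCircle.norm_eq` or `BR.U.norm_cl`), then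
`1/8 ≤ |a|`, and `ff a = 0` or `1` by `ff_eq_clamp`. -/
theorem ff_int {a : ℝ} (h : 1 / 8 ≤ ‖(a : Ci)‖) : ∃ n : ℤ, ff a = n := by
  obtain ⟨n, s, ha, hs, hn⟩ := FF_norm a
  rw [hn] at h
  obtain ⟨hs1, hs2⟩ := abs_le.1 hs
  rcases le_total 0 s with h0 | h0
  · rw [abs_of_nonneg h0] at h
    refine ⟨1 + n, ?_⟩
    rw [ha, ff_add, ff_flat ⟨h, by linarith⟩]
    push_cast
    ring
  · rw [abs_of_nonpos h0] at h
    refine ⟨n, ?_⟩
    have h1 := ff_add s 1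
    rw [Int.cast_one, ff_flat (a := s + 1) ⟨by linarith, by linarith⟩] at h1
    rw [ha, ff_add]
    linarith

/-- PROOF: as `ff_int`: a neighbourhood of `a` lies in `(n + 1/8, n + 7/8)`. -/
theorem ff_near {a : ℝ} (h : 1 / 8 < ‖(a : Ci)‖) : ∃ n : ℤ, ∀ᶠ a' in 𝓝 a, ff a' = n := by
  obtain ⟨n, s, ha, hs, hn⟩ := FF_norm a
  rw [hn] at h
  obtain ⟨hs1, hs2⟩ := abs_le.1 hs
  obtain ⟨k, hk1, hk2⟩ : ∃ k : ℤ, (k : ℝ) + 1 / 8 < a ∧ a < k + 7 / 8 := by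
    rcases le_total 0 s with h0 | h0
    · rw [abs_of_nonneg h0] at h
      exact ⟨n, by linarith, by linarith⟩
    · rw [abs_of_nonpos h0] at h
      refine ⟨n - 1, ?_, ?_⟩ <;> push_cast <;> linarith
  refine ⟨1 + k, ?_⟩
  filter_upwards [Ioo_mem_nhds hk1 hk2] with a' ha'
  have h1 := ff_add (a' - k) k
  rw [sub_add_cancel, ff_flat (a := a' - k) ⟨by linarith [ha'.1], by linarith [ha'.2]⟩] at h1
  rw [h1]
  push_cast
  ring

theorem ff_dist (a : ℝ) : |a - ff a| ≤ 7 / 8 := by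
  obtain ⟨n, s, ha, hs1, hs2⟩ := FF_red a
  have h1 : a - ff a = s - ff s := by
    rw [ha, ff_add]
    ring
  rw [h1]
  rcases le_total s (-1 / 8) with h2 | h2
  · have h3 : ff s = 0 := by
      rw [ff_eq_clamp ⟨hs1, hs2.le⟩, min_eq_right (by linarith), max_eq_left (by linarith)]
    rw [h3, abs_le]
    constructor <;> linarith
  · rcases le_total s (1 / 8) with h3 | h3
    · rw [ff_core (abs_le.2 ⟨by linarith, h3⟩), abs_le]
      constructor <;> linarith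
    · rw [ff_flat ⟨h3, by linarith⟩, abs_le]
      constructor <;> linarith

theorem lam_nonneg (b t : ℝ) : 0 ≤ lam b t :=
  mul_nonneg (by norm_num) (FF_clamp_nonneg _)

theorem lam_le (b t : ℝ) : lam b t ≤ 1 / 1600 := by
  unfold lam
  have h := FF_clamp_le (6 * (2 - 16 * max ‖(b : Ci)‖ ‖(t : Ci)‖))
  linarith

private theorem FF_norm_cont : Continuous fun x : ℝ => ‖(x : Ci)‖ :=
  continuous_norm.comp (AddCircle.continuous_mk' (1 : ℝ))

theorem lam_cont : Continuous fun q : ℝ × ℝ => lam q.1 q.2 := by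
  unfold lam
  have h1 : Continuous fun q : ℝ × ℝ => ‖((q.1 : ℝ) : Ci)‖ := FF_norm_cont.comp continuous_fst
  have h2 : Continuous fun q : ℝ × ℝ => ‖((q.2 : ℝ) : Ci)‖ := FF_norm_cont.comp continuous_snd
  have h3 := h1.max h2
  exact continuous_const.mul (continuous_const.max (continuous_const.min
    (continuous_const.mul (continuous_const.sub (continuous_const.mul h3)))))

private theorem FF_coe_add (x : ℝ) (n : ℤ) : ((x + n : ℝ) : Ci) = (x : Ci) := by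
  rw [AddCircle.coe_add]
  have h : (((n : ℝ)) : Ci) = 0 := by
    rw [AddCircle.coe_eq_zero_iff]
    exact ⟨n, by simp⟩
  rw [h, add_zero]

theorem lam_add (b t : ℝ) (n k : ℤ) : lam (b + n) (t + k) = lam b t := by
  unfold lam
  rw [FF_coe_add, FF_coe_add]

theorem lam_zero {b t : ℝ} (h : 1 / 8 ≤ max ‖(b : Ci)‖ ‖(t : Ci)‖) : lam b t = 0 := by
  unfold lam
  have h1 : min 1 (6 * (2 - 16 * max ‖(b : Ci)‖ ‖(t : Ci)‖)) ≤ 0 :=
    (min_le_right _ _).trans (by linarith)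
  rw [max_eq_left h1, mul_zero]

theorem lam_pos {b t : ℝ} (h : max ‖(b : Ci)‖ ‖(t : Ci)‖ < 1 / 8) : 0 < lam b t := by
  unfold lam
  have h1 : 0 < min 1 (6 * (2 - 16 * max ‖(b : Ci)‖ ‖(t : Ci)‖)) :=
    lt_min one_pos (by linarith)
  exact mul_pos (by norm_num) (lt_max_of_lt_right h1)

private theorem FF_clamp_lip (x y : ℝ) : |max 0 (min 1 x) - max 0 (min 1 y)| ≤ |x - y| := by
  have h1 := abs_max_sub_max_le_max (0 : ℝ) (min 1 x) 0 (min 1 y)
  have h2 := abs_min_sub_min_le_max (1 : ℝ) x 1 y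
  rw [sub_self, abs_zero] at h1 h2
  exact (h1.trans (max_le (abs_nonneg _) le_rfl)).trans (h2.trans (max_le (abs_nonneg _) le_rfl))

/-- PROOF: `max 0 (min 1 ·)` and `max c ·` are `1`-Lipschitz, `|‖(t : Ci)‖ - ‖(t' : Ci)‖| ≤ ‖((t - t' : ℝ) : Ci)‖ ≤ |t - t'|`. -/
theorem lam_lip (b t t' : ℝ) : |lam b t - lam b t'| ≤ 96 / 1600 * |t - t'| := by
  have h1 : |‖(t : Ci)‖ - ‖(t' : Ci)‖| ≤ |t - t'| := by
    refine (abs_norm_sub_norm_le (t : Ci) (t' : Ci)).trans ?_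
    rw [← AddCircle.coe_sub, UnitAddCircle.norm_eq]
    have := round_le (t - t') 0
    rwa [Int.cast_zero, sub_zero] at this
  have h2 : |max ‖(b : Ci)‖ ‖(t : Ci)‖ - max ‖(b : Ci)‖ ‖(t' : Ci)‖| ≤ |‖(t : Ci)‖ - ‖(t' : Ci)‖| := by
    have h3 := abs_max_sub_max_le_max ‖(b : Ci)‖ ‖(t : Ci)‖ ‖(b : Ci)‖ ‖(t' : Ci)‖
    rw [sub_self, abs_zero] at h3
    exact h3.trans (max_le (abs_nonneg _) le_rfl)
  have h3 := FF_clamp_lip (6 * (2 - 16 * max ‖(b : Ci)‖ ‖(t : Ci)‖))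
    (6 * (2 - 16 * max ‖(b : Ci)‖ ‖(t' : Ci)‖))
  have h4 : |6 * (2 - 16 * max ‖(b : Ci)‖ ‖(t : Ci)‖) - 6 * (2 - 16 * max ‖(b : Ci)‖ ‖(t' : Ci)‖)| =
      96 * |max ‖(b : Ci)‖ ‖(t : Ci)‖ - max ‖(b : Ci)‖ ‖(t' : Ci)‖| := by
    rw [show 6 * (2 - 16 * max ‖(b : Ci)‖ ‖(t : Ci)‖) - 6 * (2 - 16 * max ‖(b : Ci)‖ ‖(t' : Ci)‖) =
      (-96) * (max ‖(b : Ci)‖ ‖(t : Ci)‖ - max ‖(b : Ci)‖ ‖(t' : Ci)‖) by ring, abs_mul]
    norm_num
  unfold lam
  rw [← mul_sub, abs_mul]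
  rw [h4] at h3
  have h5 : |(1 / 1600 : ℝ)| = 1 / 1600 := abs_of_pos (by norm_num)
  rw [h5]
  linarith

theorem chi_cont : Continuous chi := by
  unfold chi
  fun_prop

theorem chi_nonneg (u : ℝ) : 0 ≤ chi u := FF_clamp_nonneg _

theorem chi_le_one (u : ℝ) : chi u ≤ 1 := FF_clamp_le _

theorem chi_zero {u : ℝ} (h : u ≤ -1) : chi u = 0 := by
  unfold chi
  rw [min_eq_right (by linarith), max_eq_left (by linarith)]

theorem chi_one {u : ℝ} (h : 1 ≤ u) : chi u = 1 := by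
  unfold chi
  rw [min_eq_left (by linarith), max_eq_right zero_le_one]

end Pool.Agent.H.MP_1611f1_gt.TW
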