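import Pool.Agent.H.MP_1611f1_gt.TW.Defs
import Pool.Agent.H.MP_1611f1_gt.BR.NCov

/-!
The universal cover of the torus, and the open sets.
-/

namespace Pool.Agent.H.MP_1611f1_gt.TW

open Topology Set Filter
open Pool.Agent.H.MP_1611f1_gt.BR.U (Ci)

private theorem LoA_ccoe : Continuous fun x : ℝ => (x : Ci) :=
  BR.U.NCov_coe_loc.continuous

/-- (`BR.U.NCov_prodMap`, `BR.U.NCov_coe_loc`) -/
theorem cov_loc : IsLocalHomeomorph cov :=
  BR.U.NCov_prodMap BR.U.NCov_coe_loc (BR.U.NCov_prodMap BR.U.NCov_coe_loc BR.U.NCov_coe_loc)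

private theorem LoA_coe (x : ℝ) (m : ℤ) : ((x + m : ℝ) : Ci) = (x : Ci) := by
  rw [AddCircle.coe_add]
  have h : ((m : ℝ) : Ci) = 0 :=
    (AddCircle.coe_eq_zero_iff (1 : ℝ)).2 ⟨m, by rw [zsmul_eq_mul, mul_one]⟩
  rw [h, add_zero]

private theorem LoA_ex {x y : ℝ} (h : (x : Ci) = (y : Ci)) : ∃ m : ℤ, x = y + m := by
  have h2 : ((x - y : ℝ) : Ci) = 0 := by
    rw [AddCircle.coe_sub, h, sub_self]
  obtain ⟨n, hn⟩ := (AddCircle.coe_eq_zero_iff (1 : ℝ)).1 h2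
  rw [zsmul_eq_mul, mul_one] at hn
  exact ⟨n, by linarith⟩

theorem cov_tr (m n k : ℤ) (z : ℝ × ℝ × ℝ) : cov (tr m n k z) = cov z := by
  obtain ⟨a, b, t⟩ := z
  simp only [cov, tr, LoA_coe]

/-- (`AddCircle.coe_eq_zero_iff` for the differences) -/
theorem exists_tr {z z' : ℝ × ℝ × ℝ} (h : cov z = cov z') : ∃ m n k : ℤ, z = tr m n k z' := by
  obtain ⟨a, b, t⟩ := z
  obtain ⟨a', b', t'⟩ := z'
  simp only [cov, Prod.mk.injEq] at h
  obtain ⟨m, hm⟩ := LoA_ex h.1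
  obtain ⟨n, hn⟩ := LoA_ex h.2.1
  obtain ⟨k, hk⟩ := LoA_ex h.2.2
  exact ⟨m, n, k, by simp only [tr]; rw [hm, hn, hk]⟩

theorem tr_cont (m n k : ℤ) : Continuous (tr m n k) := by
  unfold tr
  fun_prop

theorem cov_surj : Function.Surjective cov := by
  rintro ⟨a, b, t⟩
  obtain ⟨a, rfl⟩ := QuotientAddGroup.mk_surjective a
  obtain ⟨b, rfl⟩ := QuotientAddGroup.mk_surjective b
  obtain ⟨t, rfl⟩ := QuotientAddGroup.mk_surjective t
  exact ⟨(a, b, t), rfl⟩

private theorem LoA_n1 : Continuous fun z : Ci × Ci × Ci => ‖z.1‖ := continuous_fst.norm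

private theorem LoA_n2 : Continuous fun z : Ci × Ci × Ci => ‖z.2.1‖ :=
  (continuous_fst.comp continuous_snd).norm

private theorem LoA_n3 : Continuous fun z : Ci × Ci × Ci => ‖z.2.2‖ :=
  (continuous_snd.comp continuous_snd).norm

theorem VV_open : IsOpen VV :=
  (isOpen_lt LoA_n1 continuous_const).union ((isOpen_lt LoA_n2 continuous_const).inter
    (isOpen_lt LoA_n3 continuous_const))

theorem CC_closed : IsClosed CC :=
  (isClosed_le LoA_n1 continuous_const).union ((isClosed_le LoA_n2 continuous_const).inter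
    (isClosed_le LoA_n3 continuous_const))

theorem KK_closed : IsClosed KK :=
  isClosed_le (continuous_const.mul ((LoA_n2.pow 2).add (LoA_n3.pow 2))) continuous_const

theorem CC_sub : CC ⊆ VV := by
  rintro z (h | ⟨h, h'⟩)
  · exact Or.inl (by linarith)
  · exact Or.inr ⟨by linarith, by linarith⟩

/-- `‖x₂‖, ‖t‖ ≤ 1/16` -/
theorem KK_sub : KK ⊆ CC := by
  intro z hz
  have h1 : 256 * (‖z.2.1‖ ^ 2 + ‖z.2.2‖ ^ 2) ≤ 1 := hz
  have h2 := norm_nonneg z.2.1
  have h3 := norm_nonneg z.2.2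
  exact Or.inr ⟨by nlinarith [sq_nonneg ‖z.2.2‖], by nlinarith [sq_nonneg ‖z.2.1‖]⟩

theorem rt_tr (m n k : ℤ) (z : ℝ × ℝ × ℝ) : rt (tr m n k z) = rt z := by
  obtain ⟨a, b, t⟩ := z
  simp only [rt, tr, LoA_coe]

theorem KK_iff (z : ℝ × ℝ × ℝ) : cov z ∈ KK ↔ rt z ≤ 1 := Iff.rfl

private theorem LoA_cov : IsOpen {z : ℝ × ℝ × ℝ | cov z ∈ VV} :=
  VV_open.preimage cov_loc.continuous

private theorem LoA_rt : Continuous rt := by
  have h1 : Continuous fun z : ℝ × ℝ × ℝ => (z.2.1 : Ci) :=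
    LoA_ccoe.comp (continuous_fst.comp continuous_snd)
  have h2 : Continuous fun z : ℝ × ℝ × ℝ => (z.2.2 : Ci) :=
    LoA_ccoe.comp (continuous_snd.comp continuous_snd)
  exact continuous_const.mul ((h1.norm.pow 2).add (h2.norm.pow 2))

theorem XS_open : IsOpen XS := by
  have h1 : Continuous fun z : ℝ × ℝ × ℝ => (z.2.1 : Ci) :=
    LoA_ccoe.comp (continuous_fst.comp continuous_snd)
  exact LoA_cov.inter ((isOpen_lt continuous_const h1.norm).inter
    (isOpen_lt continuous_const LoA_rt))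

theorem XW_open : IsOpen XW := by
  have h1 : IsOpen {z : ℝ × ℝ × ℝ | |z.2.1| < 3 / 16} :=
    isOpen_lt (by fun_prop) continuous_const
  have h2 : IsOpen {z : ℝ × ℝ × ℝ | 0 < z.2.2} := isOpen_lt continuous_const (by fun_prop)
  have h3 : IsOpen {z : ℝ × ℝ × ℝ | z.2.2 < 1} := isOpen_lt (by fun_prop) continuous_const
  have h4 : IsOpen {z : ℝ × ℝ × ℝ | 25 / 9 < rt z} := isOpen_lt continuous_const LoA_rt
  exact LoA_cov.inter (h1.inter (h2.inter (h3.inter h4)))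

theorem XT_open : IsOpen XT :=
  isOpen_lt (by fun_prop) continuous_const

end Pool.Agent.H.MP_1611f1_gt.TW
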