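import Pool.Agent.H.MP_1611f1_gt.TW.Multi
import Pool.Agent.H.MP_1611f1_gt.TW.Main

/-!
Several walls: one step.
-/

namespace Pool.Agent.H.MP_1611f1_gt.TW

open Topology Set Filter
open Pool.Agent.H.MP_1611f1_gt.BR.U (Ci)
open Pool.Agent.H.MP_1611f1_gt.G (Ended Linear Detected)
open Pool.Agent.H.MP_1611f1_gt.LG (Drilled Cylinder solidTorus LeafCurve)

/-- **One step.** The foliation is changed in the box `none`, and the curve `e none` is removed; the curves in `C none`
become leaf curves. PROOF: the proof of `walls_pos` up to `LG.leaf_detected` (`exists_two`, `exists_new`, `LS.exists_pull`, `New.up`,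
`exists_D1`, `New.leafC`, `New.leafO`), with `M₁ = {y // y ∉ N none '' KK}`, `T₁` and the curves `N1` from there. New: for
`w : W` put `N' w z = ⟨N (some w) z, _⟩` if `N (some w) z ∉ N none '' KK` (always for `z ∈ VV`, by `sep`), and any point
otherwise; `Box F' (N' w)` because the foliation is unchanged off `N none '' CC` (`New.out`, `sep`). The curves: for `j = e (some w)` and `j ∈ C (some w)`
let `N1 j z` be the formula of `e_nbh`, `C_nbh` with `N' w` (this agrees with `Nb j z` for `|u| ≤ 2`, `|s + 4| ≤ 2`, where the point is in `VV`); for `j ∈ C none` as in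
`walls_pos` (`NC`); for the other curves `Nb j z`, which is in `M₁` by `leaf_out`. (A curve in `C none` is not in `C (some w)`, and `e (some w)` is
not in `C none`: `e_notMem`, `sep`: the point `Nb j (0, 0, -4)`.) -/
theorem boxes_step {W : Type} {M : Type} [TopologicalSpace M] {J : Type} {T : Ended M J} {x y : J → ℝ}
    {M₀ : Type} [TopologicalSpace M₀] [T2Space M₀] {F : Foliation M₀} {N : Option W → Ci × Ci × Ci → M₀}
    (B : ∀ w, Box F (N w)) (hF : F.Taut) {old : J → Prop} {T₀ : Ended M₀ {j // old j}}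
    (hlin : Linear T₀ F (fun j => x j) (fun j => y j)) {Nb : {j // ¬ old j} → Cylinder → M₀}
    {e : Option W → {j // ¬ old j}} {C : Option W → Set {j // ¬ old j}} (Q : Boxes F N T₀ Nb e C x)
    (D : Drilled T₀ Nb T) (hC : ∀ w, ∀ j ∈ C w, x j.1 ≠ 0) (hy : y (e none).1 ≠ 0)
    (hxy : |y (e none).1| < x (e none).1) :
    ∃ (M₁ : Type) (_ : TopologicalSpace M₁) (_ : T2Space M₁) (F' : Foliation M₁)
      (N' : W → Ci × Ci × Ci → M₁) (old' : J → Prop) (T₁ : Ended M₁ {j // old' j})
      (Nb' : {j // ¬ old' j} → Cylinder → M₁) (e' : W → {j // ¬ old' j}) (C' : W → Set {j // ¬ old' j}),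
      (∀ w, Box F' (N' w)) ∧ F'.Taut ∧ Linear T₁ F' (fun j => x j) (fun j => y j) ∧
      Nonempty (Boxes F' N' T₁ Nb' e' C' x) ∧ Nonempty (Drilled T₁ Nb' T) ∧
      (∀ j, old j → old' j) ∧ (∀ w, (e' w).1 = (e (some w)).1) ∧
      ∀ w, ∀ j ∈ C' w, ∃ k ∈ C (some w), k.1 = j.1 := by
  classical
  have hx : 0 < x (e none).1 := (abs_nonneg _).trans_lt hxy
  obtain ⟨μ, hμ⟩ : ∃ μ : ℝ, μ = -(y (e none).1 / x (e none).1) := ⟨_, rfl⟩
  have hμ0 : μ ≠ 0 := by
    rw [hμ, neg_ne_zero]
    exact div_ne_zero hy hx.ne'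
  have hμ1 : |μ| < 1 := by
    rw [hμ, abs_neg, abs_div, abs_of_pos hx, div_lt_one hx]
    exact hxy
  obtain ⟨em, ep, h1, h2, h3, h4⟩ := exists_two hμ0 hμ1 (δ := 1 / 8) (by norm_num) (by norm_num)
  let P : Par := ⟨μ, em, ep, h1, h2, h3, fun s hs => h4 s ⟨hs.1, by linarith [hs.2]⟩⟩
  obtain ⟨G, H⟩ := exists_new (B none) P
  obtain ⟨K, hK⟩ : ∃ K : Set M₀, K = N none '' KK := ⟨_, rfl⟩
  have hKc : IsClosed K := by
    rw [hK]
    exact N_closed (B none).emb KK_closed KK_sub
  have hKe : K = Nb (e none) '' solidTorus := by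
    rw [hK, ← solid_eq]
    exact image_congr fun z _ => (Q.e_nbh none z).symm
  have hdom : G.dom = {y | y ∉ K} := by
    rw [hK]
    exact H.dom
  let p : {y : M₀ // y ∉ K} → M₀ := Subtype.val
  have hp : IsOpenEmbedding p := hKc.isOpen_compl.isOpenEmbedding_subtypeVal
  obtain ⟨F', hF'⟩ := LS.exists_pull hp G (fun y => by rw [hdom]; exact y.2)
  have hT : F'.Taut := by
    refine LS.pull_taut hp G ?_ hF' fun y hy => ?_
    · rw [hdom]
      exact Subtype.range_coe
    · rw [hdom] at hy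
      refine H.up (B none) hF ?_
      rw [← hK]
      exact hy
  -- the sets of curves are disjoint
  have hCV : ∀ w, ∀ j ∈ C w, Nb j (0, (0, -4)) ∈ N w '' VV := by
    intro w j hj
    refine ⟨_, ?_, (Q.C_nbh w j hj (0, (0, -4))).symm⟩
    left
    show ‖(((-4 + 4) / 64 : ℝ) : Ci)‖ < 1 / 4
    have e1 : ((-4 + 4) / 64 : ℝ) = 0 := by norm_num
    rw [e1, AddCircle.coe_zero, norm_zero]
    norm_num
  have hCdis : ∀ w w' j, j ∈ C w → j ∈ C w' → w = w' := by
    intro w w' j hj hj'
    by_contra hne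
    exact Set.disjoint_left.1 (Q.sep w w' hne) (hCV w j hj) (hCV w' j hj')
  have hsepn : ∀ w : W, ∀ v ∈ VV, N (some w) v ∉ N none '' VV := by
    intro w v hv h
    exact Set.disjoint_left.1 (Q.sep (some w) none (by simp)) (mem_image_of_mem _ hv) h
  have hbk : ∀ w : W, ∀ v ∈ VV, N (some w) v ∉ K := by
    intro w v hv h
    rw [hK] at h
    exact hsepn w v hv (image_mono (KK_sub.trans CC_sub) h)
  have h0V : (0 : Ci × Ci × Ci) ∈ VV := by
    left
    show ‖(0 : Ci)‖ < 1 / 4
    rw [norm_zero]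
    norm_num
  -- the other boxes
  let N' : W → Ci × Ci × Ci → {y : M₀ // y ∉ K} := fun w z =>
    if h : N (some w) z ∉ K then ⟨N (some w) z, h⟩ else ⟨N (some w) 0, hbk w 0 h0V⟩
  have hN' : ∀ w, ∀ v ∈ VV, p (N' w v) = N (some w) v := by
    intro w v hv
    show (N' w v).1 = _
    simp only [N', dif_pos (hbk w v hv)]
  have hbox : ∀ w, Box F' (N' w) := by
    intro w
    have hemb : IsOpenEmbedding (VV.domRestrict (N' w)) := by
      refine IsOpenEmbedding.of_comp _ hp ?_
      have h5 : p ∘ VV.domRestrict (N' w) = VV.domRestrict (N (some w)) :=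
        funext fun v => hN' w v.1 v.2
      rw [h5]
      exact (B (some w)).emb
    refine ⟨hemb, fun z hz c hc hs => ?_⟩
    rw [hF'] at hc
    obtain ⟨c0, hc0, hsrc, hval⟩ := hc
    have hO : IsOpen {u : ℝ × ℝ × ℝ | cov u ∈ VV} := VV_open.preimage cov_loc.continuous
    have hnear : ∀ᶠ u in 𝓝 z, cov u ∈ VV := hO.mem_nhds hz
    have hct' : ContinuousAt (fun u => N' w (cov u)) z :=
      ContinuousAt.comp (f := cov) (g := N' w) (((N_cont hemb) _ hz).continuousAt (VV_open.mem_nhds hz))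
        cov_loc.continuous.continuousAt
    have hct : ContinuousAt (fun u => N (some w) (cov u)) z :=
      ContinuousAt.comp (f := cov) (g := N (some w))
        (((N_cont (B (some w)).emb) _ hz).continuousAt (VV_open.mem_nhds hz))
        cov_loc.continuous.continuousAt
    have hs0 : N (some w) (cov z) ∈ c0.source := by
      rw [hsrc] at hs
      have h5 : p (N' w (cov z)) ∈ c0.source := hs
      rwa [hN' w _ hz] at h5
    obtain ⟨c', hc', hs'⟩ := F.cover (N (some w) (cov z))
    have h5 := H.out _ (fun h => hsepn w _ hz (image_mono CC_sub h)) c0 hc0 c' hc' hs0 hs'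
    have h6 := OrdEq.comp_cont hct h5
    have h7 := h6.trans ((B (some w)).fol z hz c' hc' hs')
    refine h7.congr ?_ (Eventually.of_forall fun u => rfl)
    filter_upwards [hct' (c.open_source.mem_nhds hs), hnear] with u hu hu'
    have h8 := hval _ hu
    rw [h8]
    show (c0 (p (N' w (cov u)))).2 = (c0 (N (some w) (cov u))).2
    rw [hN' w _ hu']
  -- the neighbourhoods of the other curves
  let o : {j // ¬ (old j ∨ j = (e none).1)} → {j // ¬ old j} := fun j =>
    ⟨j.1, fun h => j.2 (Or.inl h)⟩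
  have ho : ∀ j, o j ≠ e none := fun j h => j.2 (Or.inr (congrArg Subtype.val h))
  have hoi : ∀ j k, o j = o k → j = k := fun j k h => by
    have h' : (o j).1 = (o k).1 := congrArg Subtype.val h
    exact Subtype.ext h'
  have hCC : ∀ j ∈ C none, ∀ z w : LG.Cylinder, ∀ v ∈ VV, ‖v.2.1‖ ≤ 1 / 8 →
      NC (N none) (Q.l j) Q.ρ z ≠ N none v := by
    intro j hj z _ v hv hv1 h
    obtain ⟨w, hw, h5, h6⟩ := NC_mem (N := N none) (l := Q.l j) Q.ρ_pos z
    have h7 : w = v := N_inj (B none).emb (CC_sub hw) hv (h5.symm.trans h)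
    subst h7
    have h8 := Q.l_norm none j hj
    have h9 : ‖(Q.l j : Ci)‖ ≤ ‖w.2.1‖ + ‖w.2.1 - (Q.l j : Ci)‖ := by
      have e1 : (Q.l j : Ci) = w.2.1 - (w.2.1 - (Q.l j : Ci)) := by abel
      conv_lhs => rw [e1]
      exact norm_sub_le _ _
    have h10 := Q.ρ_pos
    linarith
  have hKK : ∀ v ∈ KK, v ∈ VV ∧ ‖v.2.1‖ ≤ 1 / 8 := by
    intro v hv
    refine ⟨CC_sub (KK_sub hv), ?_⟩
    have h5 : 256 * (‖v.2.1‖ ^ 2 + ‖v.2.2‖ ^ 2) ≤ 1 := hv
    have h6 := sq_nonneg ‖v.2.2‖
    have h7 := norm_nonneg v.2.1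
    nlinarith
  have hm1 : ∀ j ∈ C none, ∀ z, NC (N none) (Q.l j) Q.ρ z ∉ K := by
    intro j hj z h
    rw [hK] at h
    obtain ⟨v, hv, h5⟩ := h
    exact hCC j hj z z v (hKK v hv).1 (hKK v hv).2 h5.symm
  have hm2 : ∀ j, (∀ w, j ≠ e w) → (∀ w, j ∉ C w) → ∀ z, Nb j z ∉ K := by
    intro j hje hj z h
    rw [hK] at h
    exact Q.leaf_out j hje hj none z (image_mono KK_sub h)
  have hall : ∀ j : {j // ¬ (old j ∨ j = (e none).1)}, o j ∉ C none →
      (¬ ∃ w, o j = e (some w)) → (¬ ∃ w, o j ∈ C (some w)) →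
      (∀ w, o j ≠ e w) ∧ ∀ w, o j ∉ C w := by
    intro j h5 h6 h7
    refine ⟨fun w => ?_, fun w => ?_⟩
    · cases w with
      | none => exact ho j
      | some w => exact fun h => h6 ⟨w, h⟩
    · cases w with
      | none => exact h5
      | some w => exact fun h => h7 ⟨w, h⟩
  let N1 : {j // ¬ (old j ∨ j = (e none).1)} → Cylinder → {y : M₀ // y ∉ K} := fun j z =>
    if hj : o j ∈ C none then ⟨NC (N none) (Q.l (o j)) Q.ρ z, hm1 _ hj z⟩
    else if hw : ∃ w, o j = e (some w) then
      N' hw.choose (z.1, ((z.2.1 / 16 : ℝ) : Ci), (((z.2.2 + 4) / 16 : ℝ) : Ci))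
    else if hw' : ∃ w, o j ∈ C (some w) then
      N' hw'.choose ((((z.2.2 + 4) / 64 : ℝ) : Ci), ((Q.l (o j) + Q.ρ * z.2.1 : ℝ) : Ci), z.1)
    else ⟨Nb (o j) z, hm2 _ (hall j hj hw hw').1 (hall j hj hw hw').2 z⟩
  have hN1 : ∀ j, o j ∈ C none → ∀ z, p (N1 j z) = NC (N none) (Q.l (o j)) Q.ρ z := by
    intro j hj z
    show (N1 j z).1 = _
    simp only [N1, dif_pos hj]
  have hN2 : ∀ j w, o j = e (some w) → ∀ z,
      N1 j z = N' w (z.1, ((z.2.1 / 16 : ℝ) : Ci), (((z.2.2 + 4) / 16 : ℝ) : Ci)) := by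
    intro j w hj z
    have h5 : o j ∉ C none := by
      rw [hj]
      exact Q.e_notMem _ _
    have h6 : ∃ w, o j = e (some w) := ⟨w, hj⟩
    have h7 : h6.choose = w := by
      have h8 := h6.choose_spec
      exact Option.some.inj (Q.e_inj (h8.symm.trans hj))
    have h9 : N1 j z = N' h6.choose (z.1, ((z.2.1 / 16 : ℝ) : Ci),
        (((z.2.2 + 4) / 16 : ℝ) : Ci)) := by
      simp only [N1, dif_neg h5, dif_pos h6]
    rw [h9, h7]
  have hN3 : ∀ j w, o j ∈ C (some w) → ∀ z,
      N1 j z = N' w ((((z.2.2 + 4) / 64 : ℝ) : Ci), ((Q.l (o j) + Q.ρ * z.2.1 : ℝ) : Ci), z.1) := by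
    intro j w hj z
    have h5 : o j ∉ C none := fun h => by
      have := hCdis _ _ _ h hj
      simp at this
    have h6 : ¬ ∃ w, o j = e (some w) := by
      rintro ⟨w', h⟩
      rw [h] at hj
      exact Q.e_notMem _ _ hj
    have h7 : ∃ w, o j ∈ C (some w) := ⟨w, hj⟩
    have h8 : h7.choose = w := Option.some.inj (hCdis _ _ _ h7.choose_spec hj)
    have h9 : N1 j z = N' h7.choose ((((z.2.2 + 4) / 64 : ℝ) : Ci),
        ((Q.l (o j) + Q.ρ * z.2.1 : ℝ) : Ci), z.1) := by
      simp only [N1, dif_neg h5, dif_neg h6, dif_pos h7]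
    rw [h9, h8]
  have hN4 : ∀ j, o j ∉ C none → (¬ ∃ w, o j = e (some w)) → (¬ ∃ w, o j ∈ C (some w)) → ∀ z,
      p (N1 j z) = Nb (o j) z := by
    intro j h5 h6 h7 z
    show (N1 j z).1 = _
    simp only [N1, dif_neg h5, dif_neg h6, dif_neg h7]
  have hno : ∀ r : ℝ, ‖(r : Ci)‖ ≤ |r| := by
    intro r
    rw [UnitAddCircle.norm_eq]
    have := round_le r 0
    simpa using this
  obtain ⟨T1, hT1, ⟨D1⟩⟩ := exists_D1 D (e none) hKe hKc N1 (by
    intro j z hz1 hz2
    show p (N1 j z) = Nb (o j) z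
    by_cases hj : o j ∈ C none
    · rw [hN1 j hj z, Q.C_nbh none _ hj, NC, sq_id (by linarith), sq_id (by linarith)]
    · by_cases hw : ∃ w, o j = e (some w)
      · obtain ⟨w, hw⟩ := hw
        rw [hN2 j w hw, hN' w _ ?_, hw, Q.e_nbh]
        right
        refine ⟨(hno _).trans_lt ?_, (hno _).trans_lt ?_⟩
        · rw [abs_div, abs_of_pos (by norm_num : (0 : ℝ) < 16)]
          linarith
        · rw [abs_div, abs_of_pos (by norm_num : (0 : ℝ) < 16)]
          linarith
      · by_cases hw' : ∃ w, o j ∈ C (some w)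
        · obtain ⟨w, hw'⟩ := hw'
          rw [hN3 j w hw', hN' w _ ?_, Q.C_nbh _ _ hw']
          left
          refine (hno _).trans_lt ?_
          rw [abs_div, abs_of_pos (by norm_num : (0 : ℝ) < 64)]
          linarith
        · exact hN4 j hj hw hw' z)
  -- the ends
  have hcv : Continuous fun z : ℝ × Ioo (1 : ℝ) 2 × ℝ =>
      ((z.1 : Ci), z.2.1, (z.2.2 : Ci)) := by
    refine Continuous.prodMk ?_ (Continuous.prodMk ?_ ?_)
    · exact (AddCircle.continuous_mk' (1 : ℝ)).comp continuous_fst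
    · exact continuous_fst.comp continuous_snd
    · exact (AddCircle.continuous_mk' (1 : ℝ)).comp (continuous_snd.comp continuous_snd)
  have hcov : ∀ {M' : Type} [TopologicalSpace M'] {J' : Type} (T' : Ended M' J') (j : J'),
      Continuous (T'.cov j) := by
    intro M' _ J' T' j
    exact (T'.emb j).continuous.comp hcv
  have hold : ∀ (j : {j // old j ∨ j = (e none).1}) (hj : old j.1) w,
      p (T1.tor j w) = T₀.tor ⟨j.1, hj⟩ w := by
    intro j hj w
    exact (hT1 j w).trans (D.old_tor ⟨j.1, hj⟩ w)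
  have hnew : ∀ (j : {j // old j ∨ j = (e none).1}), ¬ old j.1 →
      ∀ w : ℝ × Ioo (1 : ℝ) 2 × ℝ, p (T1.cov j w) = N none (cov (plr w)) := by
    rintro ⟨j, hj⟩ hj' w
    have hj2 : j = (e none).1 := hj.resolve_left hj'
    subst hj2
    refine (hT1 _ _).trans ((D.new_tor (e none) _ _ _).trans ?_)
    rw [Q.e_nbh]
    unfold cov plr
    simp only
    congr 3
    congr 1
    ring
  have hlin1 : Linear T1 F' (fun j => x j) (fun j => y j) := by
    intro j z hz c hc hs
    rw [hF'] at hc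
    obtain ⟨c0, hc0, hsrc, hval⟩ := hc
    have hs0 : p (T1.cov j z) ∈ c0.source := by
      rw [hsrc] at hs
      exact hs
    have hev : ∀ᶠ w in 𝓝 z, (c (T1.cov j w)).2 = (c0 (p (T1.cov j w))).2 := by
      filter_upwards [(hcov T1 j).continuousAt (c.open_source.mem_nhds hs)] with w hw
      exact hval _ hw
    by_cases hj : old j.1
    · have e1 : ∀ w, p (T1.cov j w) = T₀.cov ⟨j.1, hj⟩ w := fun w => hold j hj _
      obtain ⟨c', hc', hs'⟩ := F.cover (T₀.cov ⟨j.1, hj⟩ z)
      rw [e1] at hs0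
      have h5 := H.out _ (Q.away none ⟨j.1, hj⟩ _) c0 hc0 c' hc' hs0 hs'
      have h6 := OrdEq.comp_cont ((hcov T₀ ⟨j.1, hj⟩).continuousAt (x := z)) h5
      have h7 := h6.trans (hlin ⟨j.1, hj⟩ z hz c' hc' hs')
      refine h7.congr ?_ (Eventually.of_forall fun w => rfl)
      filter_upwards [hev] with w hw
      rw [hw, e1]
      rfl
    · have e1 := hnew j hj
      have hje : j.1 = (e none).1 := j.2.resolve_left hj
      rw [e1] at hs0
      have hzT : z ∈ XT := lt_trans hz (by norm_num)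
      have h5 := H.t z hzT c0 hc0 hs0
      have h6 : ∀ᶠ w : ℝ × Ioo (1 : ℝ) 2 × ℝ in 𝓝 z, (w.2.1 : ℝ) < 4 / 3 := by
        have h7 : Continuous fun w : ℝ × Ioo (1 : ℝ) 2 × ℝ => (w.2.1 : ℝ) := by fun_prop
        exact h7.continuousAt.eventually_lt_const hz
      have h7 : OrdEq z P.TT (fun w => x j * w.1 + y j * w.2.2) := by
        refine OrdEq.of_comp (fun v => x (e none).1 * v)
          (fun a b hab => mul_lt_mul_of_pos_left hab hx) ?_
        filter_upwards [h6] with w hw
        rw [P.TT_lin hw.le, hje]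
        show x (e none).1 * w.1 + y (e none).1 * w.2.2 = x (e none).1 * (w.1 - μ * w.2.2)
        rw [hμ]
        field_simp
        ring
      refine (h5.trans h7).congr ?_ (Eventually.of_forall fun w => rfl)
      filter_upwards [hev] with w hw
      rw [hw, e1]
  have hin : ∀ j, o j ∈ C none → ∀ z, p (N1 j z) ∈ N none '' CC := by
    intro j hj z
    rw [hN1 j hj]
    obtain ⟨w, hw, h5, -⟩ := NC_mem (N := N none) (l := Q.l (o j)) Q.ρ_pos z
    exact ⟨w, hw, h5.symm⟩
  -- the points of the new end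
  have hend : ∀ (k : {j // old j ∨ j = (e none).1}), ¬ old k.1 → ∀ w,
      ∃ u, p (T1.tor k w) = N none (cov (plr u)) := by
    rintro k hk ⟨θ, r, t⟩
    obtain ⟨θ, rfl⟩ := QuotientAddGroup.mk_surjective θ
    obtain ⟨t, rfl⟩ := QuotientAddGroup.mk_surjective t
    exact ⟨(θ, r, t), hnew k hk (θ, r, t)⟩
  have hVN : ∀ (w : W) (q : {y : M₀ // y ∉ K}), q ∈ N' w '' VV → p q ∉ N none '' VV := by
    rintro w q ⟨v, hv, rfl⟩ h
    rw [hN' w v hv] at h
    exact hsepn w v hv h
  have hVS : ∀ (w : W) (S : Set (Ci × Ci × Ci)), S ⊆ VV → ∀ q : {y : M₀ // y ∉ K},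
      q ∈ N' w '' S → p q ∈ N (some w) '' S := by
    rintro w S hS q ⟨v, hv, rfl⟩
    rw [hN' w v (hS hv)]
    exact ⟨v, hv, rfl⟩
  let e' : W → {j // ¬ (old j ∨ j = (e none).1)} := fun w => ⟨(e (some w)).1, by
    rintro (h | h)
    · exact (e (some w)).2 h
    · have h5 := Q.e_inj (Subtype.ext h)
      simp at h5⟩
  have hoe : ∀ w, o (e' w) = e (some w) := fun w => rfl
  let C' : W → Set {j // ¬ (old j ∨ j = (e none).1)} := fun w => {j | o j ∈ C (some w)}
  have hne : ∀ j, (∀ w, j ≠ e' w) → ¬ ∃ w, o j = e (some w) := by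
    rintro j h ⟨w, hw⟩
    exact h w (hoi _ _ (hw.trans (hoe w).symm))
  have hnc : ∀ j, (∀ w, j ∉ C' w) → ¬ ∃ w, o j ∈ C (some w) := by
    rintro j h ⟨w, hw⟩
    exact h w hw
  have hQ : Boxes F' N' T1 N1 e' C' x :=
    { sep := by
        intro w w' hw
        rw [Set.disjoint_left]
        intro q hq hq'
        have h5 : some w ≠ some w' := fun h => hw (Option.some.inj h)
        exact Set.disjoint_left.1 (Q.sep _ _ h5) (hVS w VV le_rfl q hq) (hVS w' VV le_rfl q hq')
      away := by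
        intro w k z h
        by_cases hk : old k.1
        · have h5 := hVS w CC CC_sub _ h
          rw [hold k hk] at h5
          exact Q.away (some w) _ _ h5
        · obtain ⟨u, hu⟩ := hend k hk z
          refine hVN w _ (image_mono CC_sub h) ?_
          rw [hu]
          exact ⟨_, plr_VV u, rfl⟩
      e_inj := by
        intro w w' h
        have h5 : o (e' w) = o (e' w') := congrArg o h
        exact Option.some.inj (Q.e_inj h5)
      e_notMem := fun w w' h => Q.e_notMem (some w) (some w') h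
      e_nbh := fun w z => hN2 (e' w) w rfl z
      l := fun j => Q.l (o j)
      ρ := Q.ρ
      ρ_pos := Q.ρ_pos
      l_norm := fun w j hj => Q.l_norm (some w) (o j) hj
      l_sep := fun w j hj k hk hjk => Q.l_sep (some w) (o j) hj (o k) hk fun h => hjk (hoi _ _ h)
      C_nbh := fun w j hj z => hN3 j w hj z
      leaf := by
        intro j hj1 hj2
        by_cases hj : o j ∈ C none
        · exact H.leafC (B none) hp hF' Q.ρ_pos (Q.l_norm none _ hj) (hN1 j hj) (hC none _ hj)
        · have h5 := hall j hj (hne j hj1) (hnc j hj2)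
          exact H.leafO hp hF' (Q.leaf _ h5.1 h5.2) (Q.leaf_out _ h5.1 h5.2 none)
            (hN4 j hj (hne j hj1) (hnc j hj2))
      leaf_out := by
        intro j hj1 hj2 w z h
        by_cases hj : o j ∈ C none
        · exact hVN w _ (image_mono CC_sub h) (image_mono CC_sub (hin j hj z))
        · have h5 := hall j hj (hne j hj1) (hnc j hj2)
          have h6 := hVS w CC CC_sub _ h
          rw [hN4 j hj (hne j hj1) (hnc j hj2)] at h6
          exact Q.leaf_out _ h5.1 h5.2 (some w) z h6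
      leaf_away := by
        intro j hj1 hj2 z k w h
        have h' : p (N1 j z) = p (T1.tor k w) := congrArg p h
        by_cases hk : old k.1
        · rw [hold k hk] at h'
          by_cases hj : o j ∈ C none
          · exact Q.away none ⟨k.1, hk⟩ _ (h' ▸ hin j hj z)
          · have h5 := hall j hj (hne j hj1) (hnc j hj2)
            rw [hN4 j hj (hne j hj1) (hnc j hj2)] at h'
            exact Q.leaf_away _ h5.1 h5.2 _ _ _ h'
        · obtain ⟨u, hu⟩ := hend k hk w
          have h6 : p (N1 j z) = N none (cov (plr u)) := h'.trans hu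
          by_cases hj : o j ∈ C none
          · rw [hN1 j hj] at h6
            refine hCC _ hj z z _ (plr_VV _) ?_ h6
            have h7 := (plr_lt u).1
            have h9 : (u.2.1 : ℝ) < 2 := u.2.1.2.2
            refine (hno _).trans (h7.trans ?_)
            linarith
          · have h5 := hall j hj (hne j hj1) (hnc j hj2)
            rw [hN4 j hj (hne j hj1) (hnc j hj2)] at h6
            exact Q.leaf_out _ h5.1 h5.2 none z (h6 ▸ ⟨_, plr_CC _, rfl⟩)
      leaf_disj := by
        intro j k hj1 hj2 hk1 hk2 z w h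
        have h' : p (N1 j z) = p (N1 k w) := congrArg p h
        by_cases hj : o j ∈ C none
        · by_cases hk : o k ∈ C none
          · rw [hN1 j hj, hN1 k hk] at h'
            obtain ⟨v, hv, h5, h6⟩ := NC_mem (N := N none) (l := Q.l (o j)) Q.ρ_pos z
            obtain ⟨v', hv', h5', h6'⟩ := NC_mem (N := N none) (l := Q.l (o k)) Q.ρ_pos w
            have h7 : v = v' :=
              N_inj (B none).emb (CC_sub hv) (CC_sub hv') (h5.symm.trans (h'.trans h5'))
            subst h7
            by_contra hjk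
            have h8 := Q.l_sep none _ hj _ hk fun h => hjk (hoi j k h)
            have h9 : ‖((Q.l (o j) - Q.l (o k) : ℝ) : Ci)‖ ≤
                ‖v.2.1 - (Q.l (o k) : Ci)‖ + ‖v.2.1 - (Q.l (o j) : Ci)‖ := by
              have e1 : ((Q.l (o j) - Q.l (o k) : ℝ) : Ci) =
                  (v.2.1 - (Q.l (o k) : Ci)) - (v.2.1 - (Q.l (o j) : Ci)) := by
                rw [AddCircle.coe_sub]
                abel
              rw [e1]
              exact norm_sub_le _ _
            have h10 := Q.ρ_pos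
            linarith
          · have h5 := hall k hk (hne k hk1) (hnc k hk2)
            rw [hN4 k hk (hne k hk1) (hnc k hk2)] at h'
            exact absurd (h' ▸ hin j hj z) (Q.leaf_out _ h5.1 h5.2 none w)
        · have h5 := hall j hj (hne j hj1) (hnc j hj2)
          rw [hN4 j hj (hne j hj1) (hnc j hj2)] at h'
          by_cases hk : o k ∈ C none
          · exact absurd (h'.symm ▸ hin k hk w) (Q.leaf_out _ h5.1 h5.2 none z)
          · have h6 := hall k hk (hne k hk1) (hnc k hk2)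
            rw [hN4 k hk (hne k hk1) (hnc k hk2)] at h'
            exact hoi _ _ (Q.leaf_disj _ _ h5.1 h5.2 h6.1 h6.2 _ _ h') }
  exact ⟨{y : M₀ // y ∉ K}, inferInstance, inferInstance, F', N', _, T1, N1, e', C', hbox, hT, hlin1,
    ⟨hQ⟩, ⟨D1⟩, fun j hj => Or.inl hj, fun w => rfl, fun w j hj => ⟨o j, hj, rfl⟩⟩

end Pool.Agent.H.MP_1611f1_gt.TW
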