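import Pool.Agent.H.MP_1611f1_gt.TW.FF

/-!
The function `yy`.
-/

namespace Pool.Agent.H.MP_1611f1_gt.TW

open Topology Set Filter
open Pool.Agent.H.MP_1611f1_gt.BR.U (Ci)

/-- the interpolated value `(1 - lam) ff a + lam a` -/
noncomputable def vv (z : ℝ × ℝ × ℝ) : ℝ := ff z.1 + lam z.2.1 z.2.2 * (z.1 - ff z.1)

theorem yy_eq (z : ℝ × ℝ × ℝ) : yy z = phi (-z.2.2) (vv z) := rfl

theorem vv_cont : Continuous vv := by
  unfold vv
  have h1 : Continuous fun z : ℝ × ℝ × ℝ => ff z.1 := ff_cont.comp continuous_fst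
  have h2 : Continuous fun z : ℝ × ℝ × ℝ => lam z.2.1 z.2.2 := lam_cont.comp continuous_snd
  exact h1.add (h2.mul (continuous_fst.sub h1))

/-- PROOF: `vv z = (1 - lam) ff a + lam a` with `0 ≤ lam < 1`, and `ff` is monotone. -/
theorem vv_lt {a a' b t : ℝ} (h : a < a') (hf : ff a < ff a' ∨ 0 < lam b t) :
    vv (a, b, t) < vv (a', b, t) := by
  have h1 := lam_nonneg b t
  have h2 := lam_le b t
  have h3 := ff_mono h.le
  show ff a + lam b t * (a - ff a) < ff a' + lam b t * (a' - ff a')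
  have h4 : 0 ≤ lam b t * (a' - a) := mul_nonneg h1 (by linarith)
  have h5 : 0 ≤ (1 - lam b t) * (ff a' - ff a) := mul_nonneg (by linarith) (by linarith)
  have e : ff a' + lam b t * (a' - ff a') - (ff a + lam b t * (a - ff a)) =
      (1 - lam b t) * (ff a' - ff a) + lam b t * (a' - a) := by ring
  rcases hf with h6 | h6
  · have h7 : 0 < (1 - lam b t) * (ff a' - ff a) := mul_pos (by linarith) (by linarith)
    linarith
  · have h7 : 0 < lam b t * (a' - a) := mul_pos h6 (by linarith)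
    linarith

theorem vv_add (m n k : ℤ) (z : ℝ × ℝ × ℝ) : vv (tr m n k z) = vv z + m := by
  unfold vv tr
  simp only
  rw [ff_add, lam_add]
  ring

/-- `|vv z - ff z.1| ≤ 1/1600` (`lam_le`, `ff_dist`) -/
theorem vv_dist (z : ℝ × ℝ × ℝ) : |vv z - ff z.1| ≤ 1 / 1600 := by
  unfold vv
  rw [add_sub_cancel_left, abs_mul, abs_of_nonneg (lam_nonneg _ _)]
  calc lam z.2.1 z.2.2 * |z.1 - ff z.1| ≤ 1 / 1600 * (7 / 8) :=
        mul_le_mul (lam_le _ _) (ff_dist _) (abs_nonneg _) (by norm_num)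
    _ ≤ 1 / 1600 := by norm_num

/-- (`phi_cont`) -/
theorem yy_cont : Continuous yy := by
  have h1 : Continuous fun z : ℝ × ℝ × ℝ => (-z.2.2, vv z) :=
    (continuous_snd.comp continuous_snd).neg.prodMk vv_cont
  have h2 := phi_cont.comp h1
  have e : yy = (fun q : ℝ × ℝ => phi q.1 q.2) ∘ fun z : ℝ × ℝ × ℝ => (-z.2.2, vv z) := by
    funext z
    exact yy_eq z
  rw [e]
  exact h2

/-- (`phi_mono`, `vv_lt`) -/
theorem yy_lt {a a' b t : ℝ} (h : a < a') (hf : ff a < ff a' ∨ 0 < lam b t) :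
    yy (a, b, t) < yy (a', b, t) := phi_mono _ (vv_lt h hf)

/-- The function is strictly increasing in `t` if `ff a` is near an integer. PROOF: `v (t) = vv (a, b, t) - n` satisfies `|v| ≤ 1/8`
(`vv_dist`) and `|v t - v t'| ≤ 96/1600 * 7/8 * |t - t'|` (`lam_lip`, `ff_dist`). So `v t = LL (σ t)` with `σ t = Lm (v t)` (`LL_Lm`), and `|σ t - σ t'| ≤ 16 * 84/1600 * |t - t'|`
(`Lm_lip`), less than `|t - t'|`. `yy (a, b, t) = n + LL (σ t + t)` (`phi_J`), and `σ t + t` is strictly increasing; `LL_mono`. -/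
theorem yy_lt_t {a b t t' : ℝ} {n : ℤ} (hn : |ff a - n| ≤ 1 / 10) (h : t < t') :
    yy (a, b, t) < yy (a, b, t') := by
  have hv : ∀ s, |vv (a, b, s) - n| ≤ 1 / 8 := by
    intro s
    have h1 := vv_dist (a, b, s)
    have h2 : vv (a, b, s) - n = (vv (a, b, s) - ff a) + (ff a - n) := by ring
    rw [h2]
    calc |(vv (a, b, s) - ff a) + (ff a - n)| ≤ |vv (a, b, s) - ff a| + |ff a - n| :=
          abs_add_le _ _
      _ ≤ 1 / 1600 + 1 / 10 := add_le_add h1 hn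
      _ ≤ 1 / 8 := by norm_num
  have hy : ∀ s, yy (a, b, s) = n + LL (Lm (vv (a, b, s) - n) + s) := by
    intro s
    rw [yy_eq]
    have h1 : vv (a, b, s) = n + LL (Lm (vv (a, b, s) - n)) := by
      rw [LL_Lm (lt_of_le_of_lt (hv s) (by norm_num))]
      ring
    show phi (-s) (vv (a, b, s)) = _
    conv_lhs => rw [h1]
    rw [phi_J, sub_neg_eq_add]
  have hd : |(vv (a, b, t) - n) - (vv (a, b, t') - n)| ≤ 84 / 1600 * (t' - t) := by
    have e : (vv (a, b, t) - n) - (vv (a, b, t') - n) = (lam b t - lam b t') * (a - ff a) := by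
      show (ff a + lam b t * (a - ff a) - n) - (ff a + lam b t' * (a - ff a) - n) = _
      ring
    rw [e, abs_mul]
    have h1 := lam_lip b t t'
    have h2 := ff_dist a
    have h3 : |t - t'| = t' - t := by
      rw [abs_of_neg (by linarith)]
      ring
    rw [h3] at h1
    calc |lam b t - lam b t'| * |a - ff a| ≤ 96 / 1600 * (t' - t) * (7 / 8) :=
          mul_le_mul h1 h2 (abs_nonneg _) (by nlinarith)
      _ = 84 / 1600 * (t' - t) := by ring
  have hs := Lm_lip (hv t) (hv t')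
  have hs2 : |Lm (vv (a, b, t) - n) - Lm (vv (a, b, t') - n)| ≤ 84 / 100 * (t' - t) := by
    linarith
  have hs3 := (abs_le.1 hs2).2
  have hlt : Lm (vv (a, b, t) - n) + t < Lm (vv (a, b, t') - n) + t' := by
    nlinarith
  rw [hy t, hy t']
  have := LL_mono hlt
  linarith

/-- PROOF: `vv_add`, `phi_add` (`-(t + k) = -k + -t`), `phi_int`. -/
theorem yy_tr (m n k : ℤ) (z : ℝ × ℝ × ℝ) : yy (tr m n k z) = phi (-k) (yy z) + m := by
  rw [yy_eq, yy_eq, vv_add, phi_int, ← phi_add]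
  have e : -(tr m n k z).2.2 = -(k : ℝ) + -z.2.2 := by
    show -(z.2.2 + (k : ℝ)) = _
    ring
  rw [e]

/-- where `ff a = n` and `lam = 0` the function is `n + LL t`. PROOF: `lam_zero`, `vv z = n = n + LL 0`, `phi_J`. -/
theorem yy_flat {z : ℝ × ℝ × ℝ} {n : ℤ} (hf : ff z.1 = n)
    (hl : 1 / 8 ≤ max ‖(z.2.1 : Ci)‖ ‖(z.2.2 : Ci)‖) : yy z = n + LL z.2.2 := by
  have h1 : vv z = n + LL 0 := by
    unfold vv
    rw [lam_zero hl, hf, LL_zero]
    ring
  rw [yy_eq, h1, phi_J, sub_neg_eq_add, zero_add]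

/-- PROOF: `cov z ∉ CC` says `1/8 < ‖a‖` and `1/8 < max ‖b‖ ‖t‖`; the conditions of `yy_flat` hold near `z` with a fixed `n`
(`ff_near`; the norm is continuous). -/
theorem yy_flat_near {z : ℝ × ℝ × ℝ} (h : cov z ∉ CC) :
    ∃ n : ℤ, ∀ᶠ w in 𝓝 z, ff w.1 = n ∧ 1 / 8 ≤ max ‖(w.2.1 : Ci)‖ ‖(w.2.2 : Ci)‖ ∧
      yy w = n + LL w.2.2 := by
  have h1 : 1 / 8 < ‖(z.1 : Ci)‖ := by
    by_contra hc
    push Not at hc
    exact h (Or.inl hc)
  have h2 : 1 / 8 < max ‖(z.2.1 : Ci)‖ ‖(z.2.2 : Ci)‖ := by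
    by_contra hc
    push Not at hc
    rw [max_le_iff] at hc
    exact h (Or.inr hc)
  obtain ⟨n, hn⟩ := ff_near h1
  refine ⟨n, ?_⟩
  have h3 : ∀ᶠ w : ℝ × ℝ × ℝ in 𝓝 z, ff w.1 = n := (continuous_fst.tendsto z).eventually hn
  have hc : Continuous fun x : ℝ => ‖(x : Ci)‖ :=
    continuous_norm.comp (AddCircle.continuous_mk' (1 : ℝ))
  have h4 : Continuous fun w : ℝ × ℝ × ℝ => max ‖(w.2.1 : Ci)‖ ‖(w.2.2 : Ci)‖ :=
    (hc.comp (continuous_fst.comp continuous_snd)).max (hc.comp (continuous_snd.comp continuous_snd))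
  have h5 : ∀ᶠ w : ℝ × ℝ × ℝ in 𝓝 z, 1 / 8 < max ‖(w.2.1 : Ci)‖ ‖(w.2.2 : Ci)‖ :=
    h4.continuousAt.eventually_const_lt h2
  filter_upwards [h3, h5] with w hw1 hw2
  exact ⟨hw1, hw2.le, yy_flat hw1 hw2.le⟩

/-- outside of `CC` the function has the order of `t`. PROOF: `yy_flat_near`, `OrdEq.of_comp` with `s ↦ n + LL s`. -/
theorem yy_out {z : ℝ × ℝ × ℝ} (h : cov z ∉ CC) : OrdEq z (fun w => w.2.2) yy := by
  obtain ⟨n, hn⟩ := yy_flat_near h
  refine OrdEq.of_comp (fun s => n + LL s) (fun s t hst => ?_) (hn.mono fun w hw => hw.2.2)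
  have := LL_mono hst
  show (n : ℝ) + LL s < n + LL t
  linarith

/-- PROOF: `yy_tr`, `phi_mono`, `OrdEq.of_comp` -/
theorem yy_tr_ord (m n k : ℤ) (z : ℝ × ℝ × ℝ) : OrdEq z (fun w => yy (tr m n k w)) yy := by
  refine (OrdEq.of_comp (fun y => phi (-k) y + m) (fun s t hst => ?_)
    (Eventually.of_forall fun w => yy_tr m n k w)).symm
  have := phi_mono (-k) hst
  show phi (-k) s + (m : ℝ) < phi (-k) t + m
  linarith

end Pool.Agent.H.MP_1611f1_gt.TW
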