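import Pool.Agent.H.MP_1611f1_gt.TW.SB

/-!
The function `E0`.
-/

namespace Pool.Agent.H.MP_1611f1_gt.TW

open Topology Set Filter
open Pool.Agent.H.MP_1611f1_gt.BR.U (Ci)

variable (P : Par)

private theorem SE_int {f : ℝ → ℝ} (h : ∀ x, f (x + 1) = f x + 1) (x : ℝ) (n : ℤ) :
    f (x + n) = f x + n := by
  induction n using Int.induction_on with
  | zero => simp
  | succ i ih =>
    have h1 := h (x + ((i : ℤ) : ℝ))
    push_cast at h1 ih ⊢
    rw [← add_assoc, h1, ih]
    ring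
  | pred i ih =>
    have h1 := h (x + ((-(i : ℤ) - 1 : ℤ) : ℝ))
    push_cast at h1 ih ⊢
    rw [show x + (-(i : ℝ) - 1) + 1 = x + -(i : ℝ) by ring, ih] at h1
    linarith

private theorem SE_norm_le (x : ℝ) (m : ℤ) : ‖(x : Ci)‖ ≤ |x - m| := by
  rw [UnitAddCircle.norm_eq]
  exact round_le x m

private theorem SE_le_norm {x : ℝ} (h : x ∈ Icc (1 / 8 : ℝ) (7 / 8)) : 1 / 8 ≤ ‖(x : Ci)‖ := by
  rw [UnitAddCircle.norm_eq]
  rcases le_or_gt (round x) 0 with hk | hk
  · have h1 : ((round x : ℤ) : ℝ) ≤ 0 := by exact_mod_cast hk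
    exact le_trans (by linarith [h.1]) (le_abs_self _)
  · have h1 : (1 : ℝ) ≤ ((round x : ℤ) : ℝ) := by exact_mod_cast hk
    exact le_trans (by linarith [h.2]) (neg_le_abs _)

theorem Par.em_int (x : ℝ) (n : ℤ) : P.em (x + n) = P.em x + n := SE_int P.em_per x n

theorem Par.ep_int (x : ℝ) (n : ℤ) : P.ep (x + n) = P.ep x + n := SE_int P.ep_per x n

theorem Par.E0_cont : Continuous P.E0 := by
  unfold Par.E0
  have h1 : Continuous fun z : ℝ × ℝ × ℝ => chi (16 * z.2.1) :=
    chi_cont.comp (continuous_const.mul (continuous_fst.comp continuous_snd))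
  have h2 : Continuous fun z : ℝ × ℝ × ℝ => P.em (yy z) := P.em.continuous.comp yy_cont
  have h3 : Continuous fun z : ℝ × ℝ × ℝ => P.ep (yy z) := P.ep.continuous.comp yy_cont
  exact ((continuous_const.sub h1).mul h2).add (h1.mul h3)

theorem Par.E0_left {z : ℝ × ℝ × ℝ} (h : z.2.1 ≤ -1 / 16) : P.E0 z = P.em (yy z) := by
  unfold Par.E0
  rw [chi_zero (by linarith)]
  ring

theorem Par.E0_right {z : ℝ × ℝ × ℝ} (h : 1 / 16 ≤ z.2.1) : P.E0 z = P.ep (yy z) := by
  unfold Par.E0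
  rw [chi_one (by linarith)]
  ring

/-- PROOF: a convex combination (with the same weights) of two strictly increasing functions of `yy`. -/
theorem Par.E0_lt {z z' : ℝ × ℝ × ℝ} (hb : z.2.1 = z'.2.1) (h : yy z < yy z') :
    P.E0 z < P.E0 z' := by
  unfold Par.E0
  rw [← hb]
  have h1 := P.em.strictMono h
  have h2 := P.ep.strictMono h
  have h3 := chi_nonneg (16 * z.2.1)
  have h4 := chi_le_one (16 * z.2.1)
  rcases h3.eq_or_lt with h5 | h5
  · rw [← h5]
    linarith
  · have h6 := mul_lt_mul_of_pos_left h2 h5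
    have h7 := mul_le_mul_of_nonneg_left h1.le (sub_nonneg.2 h4)
    linarith

/-- translations in the `a`-direction (`yy_tr` with `k = 0`, `phi_zero`, `em_int`, `ep_int`) -/
theorem Par.E0_add (m : ℤ) (z : ℝ × ℝ × ℝ) : P.E0 (tr m 0 0 z) = P.E0 z + m := by
  have h1 : yy (tr m 0 0 z) = yy z + m := by
    rw [yy_tr]
    congr 1
    have : (-((0 : ℤ) : ℝ)) = 0 := by simp
    rw [this, phi_zero]
  have h2 : (tr m 0 0 z).2.1 = z.2.1 := by
    show z.2.1 + ((0 : ℤ) : ℝ) = z.2.1
    simp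
  unfold Par.E0
  rw [h1, h2, P.em_int, P.ep_int]
  ring

/-- PROOF: `yy_flat`: `E0 z = (1 - chi) (n + em (LL t)) + chi (n + ep (LL t))`, and `em (LL t) = ep (LL t)` by `P.agree`. -/
theorem Par.E0_flat {z : ℝ × ℝ × ℝ} {n : ℤ} (hf : ff z.1 = n)
    (ht : z.2.2 ∈ Icc (1 / 8 : ℝ) (7 / 8)) : P.E0 z = n + P.em (LL z.2.2) := by
  have h1 : yy z = LL z.2.2 + n := by
    rw [yy_flat hf (le_max_of_le_right (SE_le_norm ht)), add_comm]
  unfold Par.E0
  rw [h1, P.em_int, P.ep_int, ← P.agree _ ht]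
  ring

/-- Outside of `CC` the function has the order of `t`, for `0 < t < 1`. PROOF: by `yy_flat_near`, near `z`: `yy w = n + LL w.2.2`. If `b < -1/16` or `1/16 < b`
then `E0 = em (yy)` or `ep (yy)` near `z` (`E0_left`, `E0_right`): `OrdEq.of_comp` with `s ↦ em (n + LL s)`. Otherwise `‖b‖ ≤ 1/16` (`b` is in `[-1/16, 1/16]`), so `1/8 < ‖t‖`
and `t ∈ (1/8, 7/8)`, and `E0_flat` applies near `z`: `OrdEq.of_comp` with `s ↦ n + em (LL s)`. -/
theorem Par.E0_out {z : ℝ × ℝ × ℝ} (h : cov z ∉ CC) (hb : |z.2.1| < 3 / 16) (h0 : 0 < z.2.2)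
    (h1 : z.2.2 < 1) : OrdEq z (fun w => w.2.2) P.E0 := by
  obtain ⟨n, hn⟩ := yy_flat_near h
  have c1 : Continuous fun w : ℝ × ℝ × ℝ => w.2.1 := continuous_fst.comp continuous_snd
  have c2 : Continuous fun w : ℝ × ℝ × ℝ => w.2.2 := continuous_snd.comp continuous_snd
  have mono : ∀ (e : ℝ ≃o ℝ), StrictMono fun s => e (n + LL s) := fun e s s' hs =>
    e.strictMono (by have := LL_mono hs; linarith)
  rcases lt_or_ge z.2.1 (-1 / 16) with hl | hl
  · refine OrdEq.of_comp (fun s => P.em (n + LL s)) (mono P.em) ?_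
    filter_upwards [hn, c1.continuousAt.eventually_lt_const hl] with w hw hw2
    rw [P.E0_left hw2.le, hw.2.2]
  rcases lt_or_ge (1 / 16) z.2.1 with hr | hr
  · refine OrdEq.of_comp (fun s => P.ep (n + LL s)) (mono P.ep) ?_
    filter_upwards [hn, c1.continuousAt.eventually_const_lt hr] with w hw hw2
    rw [P.E0_right hw2.le, hw.2.2]
  · have h2 : ‖(z.2.1 : Ci)‖ ≤ 1 / 8 := by
      refine (SE_norm_le z.2.1 0).trans ?_
      rw [Int.cast_zero, sub_zero, abs_le]
      constructor <;> linarith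
    have h3 : 1 / 8 < ‖(z.2.2 : Ci)‖ := by
      by_contra hc
      exact h (Or.inr ⟨h2, not_lt.1 hc⟩)
    have h4 : 1 / 8 < z.2.2 := by
      have := SE_norm_le z.2.2 0
      rw [Int.cast_zero, sub_zero, abs_of_pos h0] at this
      linarith
    have h5 : z.2.2 < 7 / 8 := by
      have := SE_norm_le z.2.2 1
      rw [Int.cast_one, abs_of_neg (by linarith)] at this
      linarith
    refine OrdEq.of_comp (fun s => n + P.em (LL s)) (fun s s' hs => ?_) ?_
    · have := P.em.strictMono (LL_mono hs)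
      show (n : ℝ) + P.em (LL s) < n + P.em (LL s')
      linarith
    · filter_upwards [hn, c2.continuousAt.eventually_const_lt h4,
        c2.continuousAt.eventually_lt_const h5] with w hw hw2 hw3
      exact P.E0_flat hw.1 ⟨hw2.le, hw3.le⟩

/-- beside the tube the order is the one of `yy`. PROOF: `‖b‖ > 1/16` and `|b| < 3/16` give `b < -1/16` or `1/16 < b`; then `E0_left`, `E0_right` near `z`
and `OrdEq.of_comp` with `em` or `ep`. -/
theorem Par.E0_side {z : ℝ × ℝ × ℝ} (hb : |z.2.1| < 3 / 16) (h : 1 / 16 < ‖(z.2.1 : Ci)‖) :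
    OrdEq z yy P.E0 := by
  have c1 : Continuous fun w : ℝ × ℝ × ℝ => w.2.1 := continuous_fst.comp continuous_snd
  have h1 : 1 / 16 < |z.2.1| := by
    have := SE_norm_le z.2.1 0
    rw [Int.cast_zero, sub_zero] at this
    linarith
  rcases lt_abs.1 h1 with h2 | h2
  · refine OrdEq.of_comp P.ep P.ep.strictMono ?_
    filter_upwards [c1.continuousAt.eventually_const_lt h2] with w hw
    exact P.E0_right hw.le
  · refine OrdEq.of_comp P.em P.em.strictMono ?_
    have h3 : z.2.1 < -1 / 16 := by linarith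
    filter_upwards [c1.continuousAt.eventually_lt_const h3] with w hw
    exact P.E0_left hw.le

end Pool.Agent.H.MP_1611f1_gt.TW
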