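import Pool.Agent.H.MP_1611f1_gt.TW.Cel
import Pool.Agent.H.MP_1611f1_gt.BR.NCl
import Pool.Agent.H.MP_1611f1_gt.G.Prod

/-!
The foliation of a mapping torus with the holonomy along the curves in a fibre given by a circle
valued function and a flow on the line.
-/

namespace Pool.Agent.H.MP_1611f1_gt.TW

open Topology Set Filter
open Pool.Agent.H.MP_1611f1_gt.BR.U (Ci cl coe_cl cl_mem cl_coe cl_zero cl_contAt' small_nhds
  cl_base)
open Pool.Agent.H.MP_1611f1_gt.G (MTorus Ended)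

/-- the flow with the fixed points `(2 i + 1) / (4 n)`, for integers `i` -/
noncomputable def fl (n : ℕ) (s v : ℝ) : ℝ := phi s (n * v) / n

theorem fl_zero {n : ℕ} (hn : 0 < n) (v : ℝ) : fl n 0 v = v := by
  have : (0 : ℝ) < n := by exact_mod_cast hn
  unfold fl
  rw [phi_zero]
  field_simp

theorem fl_add {n : ℕ} (hn : 0 < n) (s t v : ℝ) : fl n (s + t) v = fl n s (fl n t v) := by
  have : (0 : ℝ) < n := by exact_mod_cast hn
  unfold fl
  rw [phi_add]
  congr 2
  field_simp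

theorem fl_int {n : ℕ} (hn : 0 < n) (s v : ℝ) (k : ℤ) : fl n s (v + k) = fl n s v + k := by
  have : (0 : ℝ) < n := by exact_mod_cast hn
  unfold fl
  have h : (n : ℝ) * (v + k) = n * v + ((n * k : ℤ) : ℝ) := by
    push_cast
    ring
  rw [h, phi_int]
  push_cast
  field_simp

theorem fl_mono {n : ℕ} (hn : 0 < n) (s : ℝ) : StrictMono (fl n s) := by
  have : (0 : ℝ) < n := by exact_mod_cast hn
  intro v v' h
  unfold fl
  have h1 := phi_mono s (show (n : ℝ) * v < n * v' by nlinarith)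
  gcongr

theorem fl_cont (n : ℕ) : Continuous (fun q : ℝ × ℝ => fl n q.1 q.2) := by
  unfold fl
  have h : Continuous fun q : ℝ × ℝ => phi q.1 (n * q.2) :=
    phi_cont.comp (continuous_fst.prodMk (continuous_const.mul continuous_snd))
  exact h.div_const _

theorem fl_wall {n : ℕ} (hn : 0 < n) (s : ℝ) (i : ℤ) :
    fl n s ((2 * i + 1) / (4 * n)) = (2 * i + 1) / (4 * n) := by
  have : (0 : ℝ) < n := by exact_mod_cast hn
  unfold fl
  have h : (n : ℝ) * ((2 * i + 1) / (4 * n)) = i / 2 + 1 / 4 := by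
    field_simp
    ring
  rw [h, phi_wall]
  field_simp
  ring

theorem fl_neg {n : ℕ} (hn : 0 < n) (s v : ℝ) : fl n (-s) (fl n s v) = v := by
  rw [← fl_add hn, neg_add_cancel, fl_zero hn]

theorem fl_neg' {n : ℕ} (hn : 0 < n) (s v : ℝ) : fl n s (fl n (-s) v) = v := by
  rw [← fl_add hn, add_neg_cancel, fl_zero hn]

namespace Sus

variable {S : Type*} [TopologicalSpace S] (c : C(S, Ci)) (n : ℕ)

/-- the difference of the values of `c`, near `x` -/
noncomputable def df (x w : S) : ℝ := cl (c w - c x)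

/-- the domain of the difference -/
def dm (x : S) : Set S := {w | |cl (c w - c x)| < 1 / 4}

theorem df_self (x : S) : df c x x = 0 := by
  unfold df
  rw [sub_self, cl_zero]

theorem mem_dm (x : S) : x ∈ dm c x := by
  show |cl (c x - c x)| < 1 / 4
  rw [sub_self, cl_zero]
  norm_num

theorem dm_open (x : S) : IsOpen (dm c x) := by
  rw [isOpen_iff_mem_nhds]
  intro w hw
  have h : ContinuousAt (fun w => |cl (c w - c x)|) w := by
    refine ContinuousAt.abs (ContinuousAt.comp (g := cl) (f := fun w => c w - c x)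
      (cl_contAt' (lt_trans hw (by norm_num))) (Continuous.continuousAt (by fun_prop)))
  exact h.eventually (gt_mem_nhds hw)

theorem df_contOn (x : S) : ContinuousOn (df c x) (dm c x) := by
  intro w hw
  refine ContinuousAt.continuousWithinAt ?_
  exact ContinuousAt.comp (g := cl) (f := fun w => c w - c x)
    (cl_contAt' (lt_trans hw (by norm_num))) (Continuous.continuousAt (by fun_prop))

/-- change of the base point -/
theorem df_base {x y : S} (hy : y ∈ dm c x) :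
    ∀ᶠ w in 𝓝 y, df c y w = df c x w - df c x y := by
  filter_upwards [(dm_open c x).mem_nhds hy] with w hw
  exact cl_base hy hw

variable {c} {ψ : S ≃ₜ S} (hc : ∀ x, c (ψ x) = c x)

include hc in
theorem c_zpow (k : ℤ) (x : S) : c ((ψ ^ k) x) = c x :=
  G.PF.f_zpow (f := fun _ : Unit => c) (fun _ => hc) k () x

include hc in
theorem df_zpow (k : ℤ) (x w : S) : df c ((ψ ^ k) x) ((ψ ^ k) w) = df c x w := by
  unfold df
  rw [c_zpow hc, c_zpow hc]

variable {n} (hn : 0 < n) {J : Type*} {E : Surf S J} {M : Type*} [TopologicalSpace M]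
  {T : Ended M J} (Mt : MTorus E ψ T)

/-- the transverse function near `x` -/
noncomputable def tr (c : C(S, Ci)) (n : ℕ) (x : S) (w : S × ℝ) : ℝ := fl n (df c x w.1) w.2

include hn in
theorem tr_base {x y : S} (hy : y ∈ dm c x) :
    ∀ᶠ w : S × ℝ in 𝓝 y ×ˢ ⊤, tr c n y w = fl n (-df c x y) (tr c n x w) := by
  have h := (tendsto_fst (f := 𝓝 y) (g := (⊤ : Filter ℝ))).eventually (df_base c hy)
  filter_upwards [h] with w hw
  unfold tr
  rw [hw, ← fl_add hn]
  congr 1
  ring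

include hn hc in
theorem chart_at (x : S) (t : ℝ) : ∃ C : OpenPartialHomeomorph M ((ℝ × ℝ) × ℝ),
    (∀ z, Mt.p z ∈ C.source → OrdEq z (fun w => (C (Mt.p w)).2) (tr c n z.1)) ∧
    Mt.p (x, t) ∈ C.source := by
  obtain ⟨ξ, hξ⟩ := E.flat x
  have hU : IsOpen (ξ.source ∩ dm c x) := ξ.open_source.inter (dm_open c x)
  have hinj : InjOn Mt.p ((ξ.source ∩ dm c x) ×ˢ Ioo (t - 1 / 2) (t + 1 / 2)) := by
    rintro ⟨x1, t1⟩ ⟨-, h1⟩ ⟨x2, t2⟩ ⟨-, h2⟩ h
    obtain ⟨k, hk, hx⟩ := (Mt.p_eq x1 t1 x2 t2).1 h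
    simp only [mem_Ioo] at h1 h2
    have hk0 : k = 0 := by
      rw [← Int.abs_lt_one_iff]
      have h3 : |(k : ℝ)| < 1 := by
        rw [abs_lt]
        constructor <;> linarith [h1.1, h1.2, h2.1, h2.2]
      exact_mod_cast h3
    subst hk0
    simp only [Int.cast_zero, add_zero] at hk
    simp only [zpow_zero, Homeomorph.one_apply] at hx
    rw [hk, hx]
  have hcon : ContinuousOn (tr c n x)
      ((ξ.source ∩ dm c x) ×ˢ Ioo (t - 1 / 2) (t + 1 / 2)) := by
    have h1 : ContinuousOn (fun z : S × ℝ => df c x z.1)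
        ((ξ.source ∩ dm c x) ×ˢ Ioo (t - 1 / 2) (t + 1 / 2)) :=
      (df_contOn c x).comp continuousOn_fst fun z hz => hz.1.2
    exact Continuous.comp_continuousOn (g := fun q : ℝ × ℝ => fl n q.1 q.2)
      (f := fun z : S × ℝ => (df c x z.1, z.2)) (fl_cont n) (h1.prodMk continuousOn_snd)
  obtain ⟨C, hC, hC'⟩ := exists_chart Mt.p_loc ξ hU inter_subset_left hinj
    (tr c n x) hcon (fun w _ a _ b _ hab => fl_mono hn _ hab)
  refine ⟨C, ?_, ?_⟩
  · rintro ⟨x', t'⟩ hz'
    rw [hC] at hz'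
    obtain ⟨⟨x1, t1⟩, ⟨hx1, ht1⟩, hz⟩ := hz'
    obtain ⟨k, hk, hx⟩ := (Mt.p_eq x1 t1 x' t').1 hz
    simp only at hx1 ht1
    -- the order near `(x1, t1)`
    have hO : OrdEq (x1, t1) (fun w => (C (Mt.p w)).2) (tr c n x1) := by
      refine OrdEq.of_comp (fl n (-df c x x1)) (fl_mono hn _) ?_
      have h1 : (ξ.source ∩ dm c x) ×ˢ Ioo (t - 1 / 2) (t + 1 / 2) ∈ 𝓝 (x1, t1) :=
        (hU.prod isOpen_Ioo).mem_nhds ⟨hx1, ht1⟩
      have h2 : ∀ᶠ w : S × ℝ in 𝓝 (x1, t1), tr c n x1 w = fl n (-df c x x1) (tr c n x w) := by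
        rw [nhds_prod_eq]
        exact (tr_base (c := c) hn hx1.2).filter_mono (prod_mono le_rfl le_top)
      filter_upwards [h1, h2] with w hw1 hw2
      rw [hC' w hw1, hw2]
    have hD : ContinuousAt (fun w : S × ℝ => ((ψ ^ k) w.1, w.2 - k)) (x', t') := by
      refine Continuous.continuousAt ?_
      exact ((ψ ^ k).continuous.comp continuous_fst).prodMk (continuous_snd.sub continuous_const)
    have hDz : ((ψ ^ k) x', t' - k) = (x1, t1) := by
      rw [← hx, hk]
      simp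
    have hO' : OrdEq ((ψ ^ k) x', t' - (k : ℝ)) (fun w => (C (Mt.p w)).2) (tr c n x1) := by
      rw [hDz]
      exact hO
    have h3 : OrdEq (x', t') (fun w : S × ℝ => (C (Mt.p ((ψ ^ k) w.1, w.2 - k))).2)
        (fun w : S × ℝ => tr c n x1 ((ψ ^ k) w.1, w.2 - k)) :=
      OrdEq.comp_cont (R := fun w : S × ℝ => ((ψ ^ k) w.1, w.2 - (k : ℝ))) hD hO'
    have h4 : ∀ w : S × ℝ, Mt.p ((ψ ^ k) w.1, w.2 - k) = Mt.p w := by
      rintro ⟨w, s⟩
      exact (Mt.p_eq _ _ _ _).2 ⟨k, by simp, rfl⟩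
    have h5 : ∀ w : S × ℝ, tr c n x1 ((ψ ^ k) w.1, w.2 - k) = tr c n x' w - k := by
      rintro ⟨w, s⟩
      unfold tr
      simp only
      rw [hx, df_zpow hc]
      have h6 := fl_int hn (df c x' w) (s - k) k
      rw [sub_add_cancel] at h6
      rw [h6]
      ring
    simp only [h4, h5] at h3
    refine h3.trans (OrdEq.of_comp (fun s => s + k) (fun a b hab => by simpa using hab)
      (Eventually.of_forall fun w => ?_))
    simp only
    ring
  · rw [hC]
    exact ⟨(x, t), ⟨⟨hξ, mem_dm c x⟩, ⟨by simp only; linarith, by simp only; linarith⟩⟩, rfl⟩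

/-- the foliation -/
noncomputable def fol : Foliation M where
  charts := {C | ∀ z, Mt.p z ∈ C.source →
    OrdEq z (fun w => (C (Mt.p w)).2) (tr c n z.1)}
  cover y := by
    obtain ⟨⟨x, t⟩, rfl⟩ := Mt.p_surj y
    obtain ⟨C, h1, h2⟩ := chart_at hc hn Mt x t
    exact ⟨C, h1, h2⟩
  compat C hC C' hC' y hy hy' := by
    obtain ⟨z, rfl⟩ := Mt.p_surj y
    exact OrdEq.of_openMap Mt.p_loc.isOpenMap (f := fun w => (C w).2) (g := fun w => (C' w).2)
      ((hC z hy).trans (hC' z hy').symm)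

theorem fol_ord {C : OpenPartialHomeomorph M ((ℝ × ℝ) × ℝ)} (hC : C ∈ (fol hc hn Mt).charts)
    {z : S × ℝ} (hz : Mt.p z ∈ C.source) :
    OrdEq z (fun w => (C (Mt.p w)).2) (tr c n z.1) := hC z hz

/-- leaf paths: along the path `γ` in the surface the time is `fl (-κ) t`, if `κ` is a lift of
`c` along `γ` -/
theorem fol_path {κ : ℝ → ℝ} {γ : ℝ → S} (hκ : Continuous κ) (hγ : Continuous γ)
    (h : ∀ s, ((κ s : ℝ) : Ci) = c (γ s)) (t s : ℝ) {C : OpenPartialHomeomorph M ((ℝ × ℝ) × ℝ)}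
    (hC : C ∈ (fol hc hn Mt).charts) (hs : Mt.p (γ s, fl n (-κ s) t) ∈ C.source) :
    ∀ᶠ s' in 𝓝 s, (C (Mt.p (γ s', fl n (-κ s') t))).2 = (C (Mt.p (γ s, fl n (-κ s) t))).2 := by
  obtain ⟨N, hN, hO⟩ := fol_ord hc hn Mt hC hs
  have hcon : Continuous fun s' => (γ s', fl n (-κ s') t) := by
    refine hγ.prodMk ?_
    exact Continuous.comp (g := fun q : ℝ × ℝ => fl n q.1 q.2) (f := fun s' => (-κ s', t))
      (fl_cont n) (hκ.neg.prodMk continuous_const)
  have h1 : ∀ᶠ s' in 𝓝 s, (γ s', fl n (-κ s') t) ∈ N := hcon.continuousAt hN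
  have h2 : ∀ᶠ s' in 𝓝 s, |κ s' - κ s| < 1 / 4 := by
    have h3 : ContinuousAt (fun s' => |κ s' - κ s|) s := by fun_prop
    exact h3.eventually_lt_const (by simp only; rw [sub_self, abs_zero]; norm_num)
  have key : ∀ s', |κ s' - κ s| < 1 / 4 → tr c n (γ s) (γ s', fl n (-κ s') t) = fl n (-κ s) t := by
    intro s' h3
    have h4 := abs_lt.1 h3
    unfold tr df
    simp only
    rw [← h, ← h, ← AddCircle.coe_sub, cl_coe ⟨by linarith [h4.1], by linarith [h4.2]⟩,
      ← fl_add hn]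
    congr 1
    ring
  filter_upwards [h1, h2] with s' hN' hs'
  have h5 := hO _ hN' _ (mem_of_mem_nhds hN)
  have h6 := hO _ (mem_of_mem_nhds hN) _ hN'
  have k1 := key s' hs'
  have k2 := key s (by rw [sub_self, abs_zero]; norm_num)
  simp only at h5 h6
  rw [k1, k2] at h5 h6
  exact le_antisymm (not_lt.1 fun k => absurd (h6.1 k) (lt_irrefl _))
    (not_lt.1 fun k => absurd (h5.1 k) (lt_irrefl _))

/-- the circle in the time direction -/
theorem circle_transversal {x₀ : S} (h0 : ψ x₀ = x₀) :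
    (fol hc hn Mt).ClosedTransversal fun s => Mt.p (x₀, s) := by
  refine (fol hc hn Mt).transversal_of _ (Mt.p_loc.continuous.comp (by fun_prop)) ?_ ?_
  · intro s
    refine (Mt.p_eq _ _ _ _).2 ⟨-1, by simp, ?_⟩
    have h1 : (ψ⁻¹ : S ≃ₜ S) x₀ = x₀ := by
      have h2 : ψ.symm x₀ = x₀ := by
        rw [Homeomorph.symm_apply_eq]
        exact h0.symm
      exact h2
    rw [zpow_neg_one, h1]
  · intro s
    obtain ⟨C, hC, hy⟩ := (fol hc hn Mt).cover (Mt.p (x₀, s))
    obtain ⟨N, hN, hO⟩ := fol_ord hc hn Mt hC hy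
    have hc : Continuous fun s' : ℝ => ((x₀, s') : S × ℝ) := by fun_prop
    obtain ⟨ε, hε, hb⟩ := Metric.mem_nhds_iff.1 (hc.continuousAt (x := s) hN)
    refine ⟨C, hC, hy, ε, hε, fun a ha b hb' hab => ?_⟩
    rw [← Real.ball_eq_Ioo] at ha hb'
    refine (hO _ (hb ha) _ (hb hb')).2 ?_
    unfold tr
    exact fl_mono hn _ hab

end Sus

end Pool.Agent.H.MP_1611f1_gt.TW
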