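import Pool.Agent.H.MP_1611f1_gt.TW.SusA

/-!
The foliation of the mapping torus is taut.
-/

namespace Pool.Agent.H.MP_1611f1_gt.TW

open Topology Set Filter
open Pool.Agent.H.MP_1611f1_gt.BR.U (Ci cl coe_cl cl_mem cl_coe cl_zero cl_contAt' small_nhds
  cl_base)
open Pool.Agent.H.MP_1611f1_gt.G (MTorus Ended)

namespace Sus

variable {S : Type*} [TopologicalSpace S] {c : C(S, Ci)} {n : ℕ}
  {ψ : S ≃ₜ S} (hc : ∀ x, c (ψ x) = c x)
  (hn : 0 < n) {J : Type*} {E : Surf S J} {M : Type*} [TopologicalSpace M]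
  {T : Ended M J} (Mt : MTorus E ψ T)

/-- a leaf path over a path `γ` in the surface which lies near `x`; the time is
`fl (-df x (γ s)) t` -/
theorem leaf_over {x : S} (γ : unitInterval → S) (hγ : Continuous γ)
    (hγx : ∀ s, γ s ∈ dm c x) (t : ℝ) :
    (fol hc hn Mt).SameLeaf (Mt.p (γ 0, fl n (-df c x (γ 0)) t))
      (Mt.p (γ 1, fl n (-df c x (γ 1)) t)) := by
  have hκ : Continuous fun s => df c x (γ s) := (df_contOn c x).comp_continuous hγ hγx
  have hcon : Continuous fun s => (γ s, fl n (-df c x (γ s)) t) := by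
    refine hγ.prodMk ?_
    exact Continuous.comp (g := fun q : ℝ × ℝ => fl n q.1 q.2) (f := fun s => (-df c x (γ s), t))
      (fl_cont n) (hκ.neg.prodMk continuous_const)
  refine (fol hc hn Mt).sameLeaf_of (fun s => Mt.p (γ s, fl n (-df c x (γ s)) t))
    (Mt.p_loc.continuous.comp hcon) (fun s => ?_)
  obtain ⟨C, hC, hy⟩ := (fol hc hn Mt).cover (Mt.p (γ s, fl n (-df c x (γ s)) t))
  refine ⟨C, hC, hy, ?_⟩
  obtain ⟨N, hN, hO⟩ := fol_ord hc hn Mt hC hy
  have h1 : ∀ᶠ s' in 𝓝 s, (γ s', fl n (-df c x (γ s')) t) ∈ N := hcon.continuousAt hN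
  have h2 : ∀ᶠ s' in 𝓝 s, df c (γ s) (γ s') = df c x (γ s') - df c x (γ s) :=
    (hγ.continuousAt (x := s)).eventually (df_base c (hγx s))
  have key : ∀ s', df c (γ s) (γ s') = df c x (γ s') - df c x (γ s) →
      tr c n (γ s) (γ s', fl n (-df c x (γ s')) t) = fl n (-df c x (γ s)) t := by
    intro s' h3
    unfold tr
    simp only
    rw [h3, ← fl_add hn]
    congr 1
    ring
  filter_upwards [h1, h2] with s' hN' hs'
  have h5 := hO _ hN' _ (mem_of_mem_nhds hN)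
  have h6 := hO _ (mem_of_mem_nhds hN) _ hN'
  have k1 := key s' hs'
  have k2 := key s (by rw [df_self, sub_self])
  simp only at h5 h6
  rw [k1, k2] at h5 h6
  exact le_antisymm (not_lt.1 fun k => absurd (h6.1 k) (lt_irrefl _))
    (not_lt.1 fun k => absurd (h5.1 k) (lt_irrefl _))

theorem fol_local (x : S) : ∀ᶠ y in 𝓝 x, ∀ t,
    (fol hc hn Mt).SameLeaf (Mt.p (x, t)) (Mt.p (y, fl n (-df c x y) t)) := by
  have _ := E.locPath
  obtain ⟨V, ⟨hV, hVp⟩, hVd⟩ := (path_connected_basis x).mem_iff.1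
    ((dm_open c x).mem_nhds (mem_dm c x))
  filter_upwards [hV] with y hy t
  obtain ⟨γ, hγ⟩ := hVp.joinedIn x (mem_of_mem_nhds hV) y hy
  have h := leaf_over (n := n) hc hn Mt (x := x) γ γ.continuous (fun s => hVd (hγ s)) t
  rw [γ.source, γ.target, df_self, neg_zero, fl_zero hn] at h
  exact h

theorem fol_conn [ConnectedSpace S] (x y : S) : ∀ t, ∃ t',
    (fol hc hn Mt).SameLeaf (Mt.p (x, t)) (Mt.p (y, t')) := by
  refine PreconnectedSpace.induction₂' (fun x y => ∀ t, ∃ t',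
    (fol hc hn Mt).SameLeaf (Mt.p (x, t)) (Mt.p (y, t'))) (fun x => ?_) ?_ x y
  · filter_upwards [fol_local hc hn Mt x] with y hy
    refine ⟨fun t => ⟨_, hy t⟩, fun t => ⟨fl n (df c x y) t, ?_⟩⟩
    have h := (hy (fl n (df c x y) t)).symm
    rw [fl_neg hn] at h
    exact h
  · refine ⟨fun x y z h h' t => ?_⟩
    obtain ⟨t', h1⟩ := h t
    obtain ⟨t'', h2⟩ := h' t'
    exact ⟨t'', h1.trans _ h2⟩

theorem fol_taut [ConnectedSpace S] {x₀ : S} (h0 : ψ x₀ = x₀) : (fol hc hn Mt).Taut := by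
  intro y
  obtain ⟨⟨x, t⟩, rfl⟩ := Mt.p_surj y
  obtain ⟨t', h⟩ := fol_conn hc hn Mt x x₀ t
  exact ⟨fun s => Mt.p (x₀, s), t', circle_transversal hc hn Mt h0, h⟩

end Sus

end Pool.Agent.H.MP_1611f1_gt.TW
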