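import Pool.Agent.H.MP_1611f1_gt.BR.NCl
import Pool.Agent.H.MP_1611f1_gt.G.MT
import Pool.Agent.H.MP_1611f1_gt.LG.Defs

/-!
Surface bundles with curves which cross, once, annuli on which the monodromy is the identity:
definitions.
-/

namespace Pool.Agent.H.MP_1611f1_gt.TW

open Topology Set Filter
open Pool.Agent.H.MP_1611f1_gt.BR.U (Ci cl)
open Pool.Agent.H.MP_1611f1_gt.G (MTorus Ended)
open Pool.Agent.H.MP_1611f1_gt.LG (Cylinder)

/-- two crossing annuli in the torus, `‖x₁‖ < 1/4` and `‖x₂‖ < 1/4` -/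
def crs : Set (Ci × Ci) := {z | ‖z.1‖ < 1 / 4 ∨ ‖z.2‖ < 1 / 4}

/-- A surface with ends, a homeomorphism `ψ`, two crossing annuli `w` off the ends, such that `ψ`
is the identity on the annulus `‖x₁‖ < 1/4`, and an invariant circle valued function `c` which is
`0` on the two annuli. -/
structure Cross (S : Type*) [TopologicalSpace S] (J : Type*) where
  E : Surf S J
  ψ : S ≃ₜ S
  w : crs → S
  emb : IsOpenEmbedding w
  id_w : ∀ z : crs, ‖z.1.1‖ < 1 / 4 → ψ (w z) = w z
  c : C(S, Ci)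
  inv : ∀ x, c (ψ x) = c x
  c_w : ∀ z, c (w z) = 0

namespace Cross

variable {S : Type*} [TopologicalSpace S] {J : Type*} (P : Cross S J)

open Classical in
/-- the two annuli, as a map which is defined on the whole torus -/
noncomputable def wt (z : Ci × Ci) : S :=
  if h : z ∈ crs then P.w ⟨z, h⟩ else P.w ⟨(0, 0), Or.inl (by simp)⟩

variable {M : Type*} [TopologicalSpace M] {T : Ended M J} (Mt : MTorus P.E P.ψ T)

/-- the coordinates -/
noncomputable def NN (z : Ci × Ci × Ci) : M := Mt.p (P.wt (z.1, z.2.1), cl z.2.2)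

end Cross

/-- A level curve: an annulus `ν` of the surface, crossing the levels of `c` (`f` is a lift of
`c` along the curve, its degree is not `0`), at the time `(2 i + 1) / (4 n)`. -/
structure Lev {S : Type*} [TopologicalSpace S] (c : C(S, Ci)) where
  ν : Ci × ℝ → S
  emb : IsOpenEmbedding ν
  f : ℝ → ℝ
  f_cont : Continuous f
  deg : ℤ
  deg_ne : deg ≠ 0
  f_add : ∀ θ, f (θ + 1) = f θ + deg
  cross : ∀ θ u : ℝ, c (ν ((θ : Ci), u)) = (f θ : Ci)
  i : ℤ

/-- the time of the curve -/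
noncomputable def Lev.time {S : Type*} [TopologicalSpace S] {c : C(S, Ci)} (L : Lev c) (n : ℕ) : ℝ :=
  (2 * L.i + 1) / (4 * n)

/-- A surface with ends `j ∈ J`, a homeomorphism `ψ`, which is the identity on the collars, disjoint
pairs `w b` (`b ∈ W`) of crossing annuli `‖x₁‖ < 1/4`, `‖x₂‖ < 1/4` off the ends, such that `ψ` is
the identity on the annuli `‖x₁‖ < 1/4`, and an invariant circle valued function `c` which is `0` on
the annuli and at the ends. -/
structure Crosses (S : Type) [TopologicalSpace S] (J W : Type) where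
  E : Surf S J
  ψ : S ≃ₜ S
  fix : ∀ j z, ψ (E.collar j z) = E.collar j z
  w : W → crs → S
  emb : ∀ b, IsOpenEmbedding (w b)
  sep : ∀ b b' z z', w b z = w b' z' → b = b'
  out : ∀ b z j w', w b z ≠ E.collar j w'
  id_w : ∀ b (z : crs), ‖z.1.1‖ < 1 / 4 → ψ (w b z) = w b z
  c : C(S, Ci)
  inv : ∀ x, c (ψ x) = c x
  c_w : ∀ b z, c (w b z) = 0
  c_end : ∀ j z, c (E.collar j z) = 0

namespace Crosses

variable {S : Type} [TopologicalSpace S] {J W : Type} (P : Crosses S J W)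

/-- one of the pairs of annuli -/
def one (b : W) : Cross S J where
  E := P.E
  ψ := P.ψ
  w := P.w b
  emb := P.emb b
  id_w := P.id_w b
  c := P.c
  inv := P.inv
  c_w := P.c_w b

variable {M : Type} [TopologicalSpace M] {T : Ended M J} (Mt : MTorus P.E P.ψ T)

/-- the coordinates near the annuli: `NN b (x₁, x₂, t)` is the point `w b (x₁, x₂)` at the time
`t` (for `‖x₁‖ < 1/4`, or `‖x₂‖ < 1/4`, `-1/4 < t < 1/4`) -/
noncomputable def NN (b : W) (z : Ci × Ci × Ci) : M := (P.one b).NN Mt z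

end Crosses

/-- The curves `k ∈ K` which are removed from the mapping torus, with the neighbourhoods `Nb k`
(coordinates `(θ, (u, s))`; only the part `|u| ≤ 2`, `|s + 4| ≤ 2` is used):
* the curves `e b`: the cores `x₂ = 0` of the second annuli, in the fibre at the time `0`;
* the curves `k ∈ C b`: the circles in the time direction over the points `(0, l k)` of the core
  `x₁ = 0` of the first annulus, where `ψ` is the identity;
* the other curves are level curves `lev k` (see `Lev`): cores of annuli `ν` in fibres, off the parts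
  `‖x₁‖ ≤ 1/8` of the first annuli, at the times `t = (2 i + 1) / (4 n)` with
  `1/8 ≤ t - 7 / (64 n)` and `t + 1 / (64 n) ≤ 7/8`, along which `c` has degree `≠ 0`. -/
structure FibCurves {S : Type} [TopologicalSpace S] {J W K : Type} (P : Crosses S J W)
    {M : Type} [TopologicalSpace M] {T : Ended M J} (Mt : MTorus P.E P.ψ T) (n : ℕ)
    (Nb : K → Cylinder → M) (e : W → K) (C : W → Set K) where
  n_pos : 0 < n
  e_inj : Function.Injective e
  e_notMem : ∀ b b', e b ∉ C b'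
  e_nbh : ∀ b z, |z.2.1| ≤ 2 → |z.2.2 + 4| ≤ 2 → Nb (e b) z =
    P.NN Mt b (z.1, ((z.2.1 / 16 : ℝ) : Ci), (((z.2.2 + 4) / 16 : ℝ) : Ci))
  l : K → ℝ
  ρ : ℝ
  ρ_pos : 0 < ρ
  l_norm : ∀ b, ∀ k ∈ C b, 1 / 8 + 8 * ρ < ‖(l k : Ci)‖
  l_sep : ∀ b, ∀ j ∈ C b, ∀ k ∈ C b, j ≠ k → 16 * ρ < ‖((l j - l k : ℝ) : Ci)‖
  C_nbh : ∀ b, ∀ k ∈ C b, ∀ z, |z.2.1| ≤ 2 → |z.2.2 + 4| ≤ 2 → Nb k z =
    P.NN Mt b ((((z.2.2 + 4) / 64 : ℝ) : Ci), ((l k + ρ * z.2.1 : ℝ) : Ci), z.1)
  lev : {k // (∀ b, k ≠ e b) ∧ ∀ b, k ∉ C b} → Lev P.c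
  lev_nbh : ∀ k z, |z.2.1| ≤ 2 → |z.2.2 + 4| ≤ 2 → Nb k.1 z =
    Mt.p ((lev k).ν (z.1, z.2.1), (lev k).time n + z.2.2 / (64 * n))
  lev_time : ∀ k, 1 / 8 ≤ (lev k).time n - 7 / (64 * n) ∧ (lev k).time n + 1 / (64 * n) ≤ 7 / 8
  lev_out : ∀ k z j w', (lev k).ν z ≠ P.E.collar j w'
  lev_off : ∀ k z b z', (lev k).ν z = P.w b z' → 1 / 8 < ‖z'.1.1‖
  lev_disj : ∀ j k z z', (lev j).i = (lev k).i → (lev j).ν z = (lev k).ν z' → j = k

end Pool.Agent.H.MP_1611f1_gt.TW
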