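import Pool.Agent.H.MP_1611f1_gt.TW.SusB
import Pool.Agent.H.MP_1611f1_gt.TW.SusDefs

/-!
The mapping torus with two crossing annuli in the fibre.
-/

namespace Pool.Agent.H.MP_1611f1_gt.TW

open Topology Set Filter
open Pool.Agent.H.MP_1611f1_gt.BR.U (Ci cl coe_cl cl_mem cl_coe cl_zero cl_contAt' small_nhds
  cl_base norm_cl)
open Pool.Agent.H.MP_1611f1_gt.G (MTorus Ended)

theorem crs_open : IsOpen crs := by
  have h1 : Continuous fun z : Ci × Ci => ‖z.1‖ := by fun_prop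
  have h2 : Continuous fun z : Ci × Ci => ‖z.2‖ := by fun_prop
  exact (isOpen_Iio.preimage h1).union (isOpen_Iio.preimage h2)

namespace Cross

variable {S : Type*} [TopologicalSpace S] {J : Type*} (P : Cross S J)

theorem zpow_id {z : crs} (hz : ‖z.1.1‖ < 1 / 4) (k : ℤ) : (P.ψ ^ k) (P.w z) = P.w z := by
  have h0 := P.id_w z hz
  induction k using Int.induction_on with
  | zero => simp
  | succ k ih => rw [zpow_add_one, Homeomorph.mul_apply, h0, ih]
  | pred k ih =>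
    rw [zpow_sub_one, Homeomorph.mul_apply]
    have h : (P.ψ⁻¹) (P.w z) = P.w z := by
      have h1 := P.ψ.symm_apply_apply (P.w z)
      rw [h0] at h1
      exact h1
    rw [h, ih]

variable {M : Type*} [TopologicalSpace M] {T : Ended M J} (Mt : MTorus P.E P.ψ T)

/-- the neighbourhood of the two tori in the mapping torus -/
def K0 : Set M := {y | ∃ (z : crs) (t : ℝ),
  (‖z.1.1‖ ≤ 1 / 8 ∨ (‖z.1.2‖ ≤ 1 / 8 ∧ |t| ≤ 1 / 8)) ∧ Mt.p (P.w z, t) = y}

theorem mem_K0 {x : S} {t : ℝ} (ht : |t| < 7 / 8) (h : Mt.p (x, t) ∈ P.K0 Mt) :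
    ∃ z, P.w z = x ∧ (‖z.1.1‖ ≤ 1 / 8 ∨ (‖z.1.2‖ ≤ 1 / 8 ∧ |t| ≤ 1 / 8)) := by
  obtain ⟨z, t', hz, h⟩ := h
  obtain ⟨k, hk, hx⟩ := (Mt.p_eq _ _ _ _).1 h.symm
  rcases hz with h1 | ⟨h1, h2⟩
  · rw [P.zpow_id (lt_of_le_of_lt h1 (by norm_num))] at hx
    exact ⟨z, hx.symm, Or.inl h1⟩
  · have h3 : |(k : ℝ)| < 1 := by
      have h4 : (k : ℝ) = t' - t := by rw [hk]; ring
      have h5 := abs_le.1 h2
      have h6 := abs_lt.1 ht
      rw [h4, abs_lt]
      constructor <;> linarith [h5.1, h5.2, h6.1, h6.2]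
    have h4 : k = 0 := by
      rw [← Int.abs_lt_one_iff]
      exact_mod_cast h3
    subst h4
    simp only [Int.cast_zero, add_zero] at hk
    simp only [zpow_zero, Homeomorph.one_apply] at hx
    refine ⟨z, hx.symm, Or.inr ⟨h1, ?_⟩⟩
    rw [← hk]
    exact h2

variable {n : ℕ} (hn : 0 < n)

/-- the foliation -/
noncomputable abbrev F : Foliation M := Sus.fol P.inv hn Mt

end Cross

end Pool.Agent.H.MP_1611f1_gt.TW
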