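import Pool.Agent.H.MP_1611f1_gt.TW.SusD
import Pool.Agent.H.MP_1611f1_gt.LG.Defs
import Pool.Agent.H.MP_1611f1_gt.LS.LvB

/-!
The mapping torus with two crossing annuli in the fibre: the box, and level curves.
-/

namespace Pool.Agent.H.MP_1611f1_gt.TW

open Topology Set Filter
open Pool.Agent.H.MP_1611f1_gt.BR.U (Ci cl coe_cl cl_mem cl_coe cl_zero cl_contAt' small_nhds
  cl_base norm_cl)
open Pool.Agent.H.MP_1611f1_gt.G (MTorus Ended)
open Pool.Agent.H.MP_1611f1_gt.LG (LeafCurve Cylinder)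
open Pool.Agent.H.MP_1611f1_gt.LS (tim tim_mem tim_mono tim_cont tim_open)

namespace Cross

/-- the foliation of the mapping torus is in a box -/
theorem box {S : Type} [TopologicalSpace S] {J : Type} (P : Cross S J)
    {M : Type} [TopologicalSpace M] {T : Ended M J} (Mt : MTorus P.E P.ψ T) {n : ℕ}
    (hn : 0 < n) : Box (P.F Mt hn) (P.NN Mt) where
  emb := P.NN_emb Mt
  fol z hz _ hC hs := P.box_fol Mt hn z hz hC hs

end Cross

/-- in the cells next to a wall the flow moves the points in different directions -/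
theorem fl_move {n : ℕ} (hn : 0 < n) {s : ℝ} (hs : s ≠ 0) (i : ℤ) {x : ℝ} (hx : x ≠ 0) {ε : ℝ}
    (hε : 0 < ε) : ∃ z, |z| < ε ∧
      0 < x * (fl n s (z + (2 * i + 1) / (4 * n)) - (2 * i + 1) / (4 * n) - z) := by
  have hn' : (0 : ℝ) < n := by exact_mod_cast hn
  -- the displacement of the points near the wall
  have key : ∀ (m : ℤ) (v : ℝ), |v| < 1 / 4 →
      (phi s (m + v) - (m + v) < 0 ↔ 0 < s) ∧
      (0 < phi s (m + v) - (m + v) ↔ s < 0) ∧
      (phi s (m + 1 / 2 + v) - (m + 1 / 2 + v) < 0 ↔ s < 0) ∧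
      (0 < phi s (m + 1 / 2 + v) - (m + 1 / 2 + v) ↔ 0 < s) := by
    intro m v hv
    have hv' : v = LL (Lm v) := (LL_Lm hv).symm
    obtain ⟨σ, hσ⟩ : ∃ σ, v = LL σ := ⟨_, hv'⟩
    subst hσ
    rw [phi_J, phi_J']
    have e1 : (m : ℝ) + LL (σ - s) - (m + LL σ) = LL (σ - s) - LL σ := by ring
    have e2 : (m : ℝ) + 1 / 2 + LL (σ + s) - (m + 1 / 2 + LL σ) = LL (σ + s) - LL σ := by ring
    rw [e1, e2]
    refine ⟨?_, ?_, ?_, ?_⟩
    · rw [sub_neg, LL_mono.lt_iff_lt]
      constructor <;> intro h <;> linarith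
    · rw [sub_pos, LL_mono.lt_iff_lt]
      constructor <;> intro h <;> linarith
    · rw [sub_neg, LL_mono.lt_iff_lt]
      constructor <;> intro h <;> linarith
    · rw [sub_pos, LL_mono.lt_iff_lt]
      constructor <;> intro h <;> linarith
  obtain ⟨δ, hδ, hδ1, hδ2⟩ : ∃ δ : ℝ, 0 < δ ∧ δ < ε ∧ n * δ < 1 / 4 := by
    refine ⟨min (ε / 2) (1 / (8 * n)), by positivity, ?_, ?_⟩
    · exact lt_of_le_of_lt (min_le_left _ _) (by linarith)
    · have h1 : min (ε / 2) (1 / (8 * (n : ℝ))) ≤ 1 / (8 * n) := min_le_right _ _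
      have h2 : (n : ℝ) * (1 / (8 * n)) = 1 / 8 := by field_simp
      nlinarith
  have hnδ : 0 < n * δ := by positivity
  -- the displacement at `z`
  have disp : ∀ z : ℝ, fl n s (z + (2 * i + 1) / (4 * n)) - (2 * i + 1) / (4 * n) - z =
      (phi s (i / 2 + 1 / 4 + n * z) - (i / 2 + 1 / 4 + n * z)) / n := by
    intro z
    unfold fl
    have e : (n : ℝ) * (z + (2 * i + 1) / (4 * n)) = i / 2 + 1 / 4 + n * z := by
      field_simp
      ring
    rw [e]
    field_simp
    ring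
  -- the signs on the two sides
  obtain ⟨σ, hσ, hup, hdn⟩ : ∃ σ : ℝ, (σ = 1 ∨ σ = -1) ∧
      0 < σ * s * (phi s (i / 2 + 1 / 4 + n * δ) - (i / 2 + 1 / 4 + n * δ)) ∧
      σ * s * (phi s (i / 2 + 1 / 4 + n * -δ) - (i / 2 + 1 / 4 + n * -δ)) < 0 := by
    have sg : ∀ {X : ℝ}, ((X < 0 ↔ 0 < s) ∧ (0 < X ↔ s < 0)) → s * X < 0 := by
      intro X h
      rcases lt_or_gt_of_ne hs with h1 | h1
      · exact mul_neg_of_neg_of_pos h1 (h.2.2 h1)
      · exact mul_neg_of_pos_of_neg h1 (h.1.2 h1)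
    have sg' : ∀ {X : ℝ}, ((X < 0 ↔ s < 0) ∧ (0 < X ↔ 0 < s)) → 0 < s * X := by
      intro X h
      rcases lt_or_gt_of_ne hs with h1 | h1
      · exact mul_pos_of_neg_of_neg h1 (h.1.2 h1)
      · exact mul_pos h1 (h.2.2 h1)
    have hv1 : |n * δ - 1 / 4| < 1 / 4 := by
      rw [abs_lt]
      constructor <;> linarith
    have hv2 : |1 / 4 - n * δ| < 1 / 4 := by
      rw [abs_lt]
      constructor <;> linarith
    obtain ⟨m, hm⟩ := Int.even_or_odd' i
    rcases hm with hm | hm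
    · -- even: above the wall the half integral cell, below the integral one
      have e1 : (i : ℝ) / 2 + 1 / 4 + n * δ = m + 1 / 2 + (n * δ - 1 / 4) := by
        rw [hm]
        push_cast
        ring
      have e2 : (i : ℝ) / 2 + 1 / 4 + n * -δ = m + (1 / 4 - n * δ) := by
        rw [hm]
        push_cast
        ring
      refine ⟨1, Or.inl rfl, ?_, ?_⟩
      · rw [e1, one_mul]
        exact sg' (key m _ hv1).2.2
      · rw [e2, one_mul]
        exact sg ⟨(key m _ hv2).1, (key m _ hv2).2.1⟩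
    · have e1 : (i : ℝ) / 2 + 1 / 4 + n * δ = (m + 1 : ℤ) + (n * δ - 1 / 4) := by
        rw [hm]
        push_cast
        ring
      have e2 : (i : ℝ) / 2 + 1 / 4 + n * -δ = m + 1 / 2 + (1 / 4 - n * δ) := by
        rw [hm]
        push_cast
        ring
      refine ⟨-1, Or.inr rfl, ?_, ?_⟩
      · rw [e1]
        have h := sg ⟨(key (m + 1) _ hv1).1, (key (m + 1) _ hv1).2.1⟩
        linarith
      · rw [e2]
        have h := sg' (key m _ hv2).2.2
        linarith
  have hσs : σ * s ≠ 0 := by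
    rcases hσ with rfl | rfl <;> simp [hs]
  rcases lt_or_gt_of_ne (mul_ne_zero hx hσs) with h | h
  · refine ⟨-δ, by rw [abs_neg, abs_of_pos hδ]; exact hδ1, ?_⟩
    rw [disp, mul_div_assoc']
    refine div_pos ?_ hn'
    by_contra hcon
    have h1 := not_lt.1 hcon
    have h2 : 0 < (x * (σ * s)) * (σ * s *
        (phi s (i / 2 + 1 / 4 + n * -δ) - (i / 2 + 1 / 4 + n * -δ))) :=
      mul_pos_of_neg_of_neg h hdn
    have h3 : 0 < (σ * s) ^ 2 := by positivity
    nlinarith
  · refine ⟨δ, by rw [abs_of_pos hδ]; exact hδ1, ?_⟩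
    rw [disp, mul_div_assoc']
    refine div_pos ?_ hn'
    by_contra hcon
    have h1 := not_lt.1 hcon
    have h2 : 0 < (x * (σ * s)) * (σ * s *
        (phi s (i / 2 + 1 / 4 + n * δ) - (i / 2 + 1 / 4 + n * δ))) := mul_pos h hup
    have h3 : 0 < (σ * s) ^ 2 := by positivity
    nlinarith

/-- the holonomy along the curve -/
noncomputable def flIso {n : ℕ} (hn : 0 < n) (s c : ℝ) : ℝ ≃o ℝ where
  toFun z := fl n s (z + c) - c
  invFun z := fl n (-s) (z + c) - c
  left_inv z := by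
    simp only [sub_add_cancel]
    rw [fl_neg hn, add_sub_cancel_right]
  right_inv z := by
    simp only [sub_add_cancel]
    rw [fl_neg' hn, add_sub_cancel_right]
  map_rel_iff' := by
    intro a b
    show fl n s (a + c) - c ≤ fl n s (b + c) - c ↔ a ≤ b
    rw [sub_le_sub_iff_right, (fl_mono hn s).le_iff_le, add_le_add_iff_right]

namespace Lev

variable {S : Type*} [TopologicalSpace S] {c : C(S, Ci)} (L : Lev c)

/-- the time in the coordinates -/
noncomputable def tm (n : ℕ) (s : ℝ) : ℝ := L.time n + 1 / (8 * n) * tim s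

theorem tm_mem {n : ℕ} (hn : 0 < n) (s : ℝ) :
    L.tm n s ∈ Ioo (L.time n - 7 / (64 * n)) (L.time n + 1 / (64 * n)) := by
  have hn' : (0 : ℝ) < n := by exact_mod_cast hn
  have h := tim_mem s
  have h1 : 0 < 1 / (8 * (n : ℝ)) := by positivity
  have e1 : 7 / (64 * (n : ℝ)) = 1 / (8 * n) * (7 / 8) := by
    field_simp
    ring
  have e2 : 1 / (64 * (n : ℝ)) = 1 / (8 * n) * (1 / 8) := by
    field_simp
    ring
  unfold tm
  rw [e1, e2]
  constructor
  · nlinarith [h.1]
  · nlinarith [h.2]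

theorem tm_mono {n : ℕ} (hn : 0 < n) : StrictMono (L.tm n) := by
  have hn' : (0 : ℝ) < n := by exact_mod_cast hn
  intro s s' h
  unfold tm
  have := tim_mono h
  gcongr

theorem tm_cont (n : ℕ) : Continuous (L.tm n) :=
  continuous_const.add (continuous_const.mul tim_cont)

theorem tm_open {n : ℕ} (hn : 0 < n) : IsOpenMap (L.tm n) := by
  have hn' : (0 : ℝ) < n := by exact_mod_cast hn
  have h0 : 1 / (8 * (n : ℝ)) ≠ 0 := by positivity
  exact (Homeomorph.addLeft (L.time n)).isOpenMap.comp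
    ((Homeomorph.mulLeft₀ _ h0).isOpenMap.comp tim_open)

variable {ψ : S ≃ₜ S} {J : Type*} {E : Surf S J} {M : Type*} [TopologicalSpace M]
  {T : Ended M J} (Mt : MTorus E ψ T)

/-- the neighbourhood -/
noncomputable def nbh (n : ℕ) (z : Cylinder) : M := Mt.p (L.ν (z.1, z.2.1), L.tm n z.2.2)

theorem nbh_emb {n : ℕ} (hn : 0 < n) : IsOpenEmbedding (L.nbh Mt n) := by
  have hn1 : (1 : ℝ) ≤ n := by exact_mod_cast hn
  let Gm : Cylinder → S × ℝ := (Prod.map L.ν (L.tm n)) ∘
    (Homeomorph.prodAssoc (AddCircle (1 : ℝ)) ℝ ℝ).symm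
  have hG : L.nbh Mt n = Mt.p ∘ Gm := rfl
  have hGo : IsOpenMap Gm := (L.emb.isOpenMap.prodMap (L.tm_open hn)).comp (Homeomorph.isOpenMap _)
  have hGc : Continuous Gm := (L.emb.continuous.prodMap (L.tm_cont n)).comp
    (Homeomorph.continuous _)
  apply IsOpenEmbedding.of_continuous_injective_isOpenMap
  · rw [hG]
    exact Mt.p_loc.continuous.comp hGc
  · intro z w h
    obtain ⟨k, hk, hx⟩ := (Mt.p_eq _ _ _ _).1 h
    have h1 := L.tm_mem hn z.2.2
    have h2 := L.tm_mem hn w.2.2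
    have h3 : 7 / (64 * (n : ℝ)) + 1 / (64 * n) ≤ 1 / 8 := by
      have e : 7 / (64 * (n : ℝ)) + 1 / (64 * n) = 1 / (8 * n) := by
        field_simp
        ring
      rw [e, div_le_div_iff₀ (by positivity) (by norm_num)]
      linarith
    have h4 : |(k : ℝ)| < 1 := by
      have h5 : (k : ℝ) = L.tm n w.2.2 - L.tm n z.2.2 := by rw [hk]; ring
      rw [h5, abs_lt]
      constructor <;> linarith [h1.1, h1.2, h2.1, h2.2]
    have h5 : k = 0 := by
      rw [← Int.abs_lt_one_iff]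
      exact_mod_cast h4
    subst h5
    simp only [Int.cast_zero, add_zero] at hk
    simp only [zpow_zero, Homeomorph.one_apply] at hx
    have h6 := L.emb.injective hx
    have h7 := (L.tm_mono hn).injective hk
    obtain ⟨h8, h9⟩ := Prod.mk.inj h6
    exact Prod.ext h8 (Prod.ext h9 h7.symm)
  · rw [hG]
    exact Mt.p_loc.isOpenMap.comp hGo

/-- the level curve is a leaf curve -/
theorem leafCurve (hc : ∀ x, c (ψ x) = c x) {n : ℕ} (hn : 0 < n) {x : ℝ} (hx : x ≠ 0) :
    LeafCurve (Sus.fol hc hn Mt) (L.nbh Mt n) x := by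
  refine ⟨L.nbh_emb Mt hn, 1, fun q => fl n (L.f q.1) (L.tm n q.2) - L.time n,
    flIso hn L.deg (L.time n), one_pos, ?_, ?_, ?_, ?_, ?_, ?_⟩
  · refine Continuous.continuousOn (Continuous.sub ?_ continuous_const)
    exact Continuous.comp (g := fun q : ℝ × ℝ => fl n q.1 q.2)
      (f := fun q : ℝ × ℝ => (L.f q.1, L.tm n q.2)) (fl_cont n)
      ((L.f_cont.comp continuous_fst).prodMk ((L.tm_cont n).comp continuous_snd))
  · intro θ s _ s' _ h
    exact sub_lt_sub_right (fl_mono hn _ (L.tm_mono hn h)) _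
  · intro θ
    have h1 : L.tm n 0 = L.time n := by
      unfold tm
      rw [LS.tim_mid (by norm_num) le_rfl]
      ring
    simp only
    rw [h1]
    unfold time
    rw [fl_wall hn, sub_self]
  · intro θ s _
    show fl n (L.f (θ + 1)) (L.tm n s) - L.time n =
      fl n L.deg (fl n (L.f θ) (L.tm n s) - L.time n + L.time n) - L.time n
    rw [sub_add_cancel, ← fl_add hn, L.f_add, add_comm (L.f θ)]
  · intro θ u s _ C hC hs
    have hs' : Mt.p (L.ν ((θ : Ci), u), L.tm n s) ∈ C.source := hs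
    obtain ⟨W, hW, hO⟩ := Sus.fol_ord hc hn Mt hC hs'
    have hcon : Continuous fun w : ℝ × (ℝ × ℝ) =>
        ((L.ν ((w.1 : Ci), w.2.1), L.tm n w.2.2) : S × ℝ) := by
      refine Continuous.prodMk (L.emb.continuous.comp (Continuous.prodMk ?_ ?_)) ?_
      · exact (AddCircle.continuous_mk' (1 : ℝ)).comp continuous_fst
      · exact continuous_fst.comp continuous_snd
      · exact (L.tm_cont n).comp (continuous_snd.comp continuous_snd)
    have h1 : ∀ᶠ w : ℝ × (ℝ × ℝ) in 𝓝 (θ, (u, s)), (L.ν ((w.1 : Ci), w.2.1), L.tm n w.2.2) ∈ W :=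
      hcon.continuousAt hW
    have h2 : ∀ᶠ w : ℝ × (ℝ × ℝ) in 𝓝 (θ, (u, s)), |L.f w.1 - L.f θ| < 1 / 4 := by
      have h3 : Continuous fun w : ℝ × (ℝ × ℝ) => |L.f w.1 - L.f θ| :=
        ((L.f_cont.comp continuous_fst).sub continuous_const).abs
      have h4 : |L.f ((θ, (u, s)) : ℝ × (ℝ × ℝ)).1 - L.f θ| < 1 / 4 := by
        rw [sub_self, abs_zero]
        norm_num
      exact h3.continuousAt.eventually_lt_const h4
    refine ⟨_, h1.and h2, fun w hw w' hw' => ?_⟩
    have key : ∀ v : ℝ × (ℝ × ℝ), |L.f v.1 - L.f θ| < 1 / 4 →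
        Sus.tr c n (L.ν ((θ : Ci), u)) (L.ν ((v.1 : Ci), v.2.1), L.tm n v.2.2) =
          fl n (-L.f θ) (fl n (L.f v.1) (L.tm n v.2.2)) := by
      intro v hv
      have h3 := abs_lt.1 hv
      unfold Sus.tr Sus.df
      simp only
      rw [L.cross, L.cross, ← AddCircle.coe_sub, cl_coe ⟨by linarith [h3.1], by linarith [h3.2]⟩,
        ← fl_add hn]
      congr 1
      ring
    have h3 := hO _ hw.1 _ hw'.1
    simp only at h3
    rw [key w hw.2, key w' hw'.2, (fl_mono hn _).lt_iff_lt] at h3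
    refine h3.trans ?_
    show _ ↔ fl n (L.f w.1) (L.tm n w.2.2) - L.time n < fl n (L.f w'.1) (L.tm n w'.2.2) - L.time n
    rw [sub_lt_sub_iff_right]
  · intro ε hε
    have hd : ((L.deg : ℤ) : ℝ) ≠ 0 := by exact_mod_cast L.deg_ne
    obtain ⟨z, h1, h2⟩ := fl_move hn hd L.i hx hε
    exact ⟨z, h1, h2⟩

end Lev

end Pool.Agent.H.MP_1611f1_gt.TW
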