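import Pool.Agent.H.MP_1611f1_gt.TW.SE

/-!
The function `XX`.
-/

namespace Pool.Agent.H.MP_1611f1_gt.TW

open Topology Set Filter
open Pool.Agent.H.MP_1611f1_gt.BR.U (Ci)

variable (P : Par)

private theorem TB_T0_symm_add (y : ℝ) (m : ℤ) : T0.symm (y + m) = T0.symm y + m := by
  apply T0.injective
  rw [T0.apply_symm_apply, ← phi_one, phi_int, phi_one, T0.apply_symm_apply]

private theorem TB_em_symm_add (y : ℝ) (m : ℤ) : P.em.symm (y + m) = P.em.symm y + m := by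
  apply P.em.injective
  rw [P.em.apply_symm_apply, P.em_int, P.em.apply_symm_apply]

theorem Par.tmi_mono : StrictMono P.tmi := by
  intro x y h
  exact P.em.strictMono (T0.symm.strictMono (P.em.symm.strictMono h))

theorem Par.tmi_cont : Continuous P.tmi :=
  P.em.continuous.comp (T0.symm.continuous.comp P.em.symm.continuous)

/-- PROOF: `em_int`, `T0_per` for integers (induction) and the same for the inverse maps. -/
theorem Par.tmi_add (y : ℝ) (m : ℤ) : P.tmi (y + m) = P.tmi y + m := by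
  unfold Par.tmi
  rw [TB_em_symm_add, TB_T0_symm_add, P.em_int]

theorem Par.tmi_em (y : ℝ) : P.tmi (P.em y) = P.em (T0.symm y) := by
  unfold Par.tmi
  rw [P.em.symm_apply_apply]

/-- PROOF: `P.rel (ep (T0.symm y))`: `em (T0 (em.symm (ep (T0.symm y) + μ))) = ep y`; apply `tmi`. -/
theorem Par.tmi_ep (y : ℝ) : P.tmi (P.ep y) = P.ep (T0.symm y) + P.μ := by
  have h := P.rel (P.ep (T0.symm y))
  rw [P.ep.symm_apply_apply, T0.apply_symm_apply] at h
  rw [← h, P.tmi_em, T0.symm_apply_apply, P.em.apply_symm_apply]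

/-- PROOF: `yy_tr 0 0 1`: `phi (-1) = T0.symm` (`phi_one`, `phi_add`, `phi_zero`). -/
theorem yy_sh (z : ℝ × ℝ × ℝ) : yy (tr 0 0 1 z) = T0.symm (yy z) := by
  rw [yy_tr]
  apply T0.injective
  rw [T0.apply_symm_apply, ← phi_one, Int.cast_zero, add_zero, ← phi_add, Int.cast_one,
    add_neg_cancel, phi_zero]

private theorem TB_plr_b (z : ℝ × Ioo (1 : ℝ) 2 × ℝ) :
    (plr z).2.1 = (z.2.1 : ℝ) * Real.cos (2 * Real.pi * z.2.2) / 16 := rfl

private theorem TB_tr_b (z : ℝ × ℝ × ℝ) : (tr 0 0 1 z).2.1 = z.2.1 := by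
  show z.2.1 + ((0 : ℤ) : ℝ) = z.2.1
  rw [Int.cast_zero, add_zero]

/-- on the left side. PROOF: both cases of `XX`: `E0_left`, `tmi_em`, resp. `E0_left` and `yy_sh`. -/
theorem Par.XX_left {z : ℝ × Ioo (1 : ℝ) 2 × ℝ}
    (h : (z.2.1 : ℝ) * Real.cos (2 * Real.pi * z.2.2) ≤ -1) :
    P.XX z = P.em (T0.symm (yy (plr z))) - P.μ * ⌊z.2.2⌋ := by
  have hb : (plr z).2.1 ≤ -1 / 16 := by
    rw [TB_plr_b]
    linarith
  have hb' : (tr 0 0 1 (plr z)).2.1 ≤ -1 / 16 := by
    rw [TB_tr_b]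
    exact hb
  unfold Par.XX
  split_ifs with hf
  · rw [P.E0_left hb, P.tmi_em]
  · rw [P.E0_left hb', yy_sh]

/-- on the right side, near `ψ = n`. PROOF: if `n ≤ ψ` then `⌊ψ⌋ = n`, `fract ψ ≤ 1/2` and `tmi_ep`; if `ψ < n` then `⌊ψ⌋ = n - 1`, `fract ψ > 1/2` and
`E0_right`, `yy_sh`. -/
theorem Par.XX_right {z : ℝ × Ioo (1 : ℝ) 2 × ℝ}
    (h : 1 ≤ (z.2.1 : ℝ) * Real.cos (2 * Real.pi * z.2.2)) {n : ℤ} (hn : |z.2.2 - n| < 1 / 2) :
    P.XX z = P.ep (T0.symm (yy (plr z))) + P.μ - P.μ * n := by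
  have hb : 1 / 16 ≤ (plr z).2.1 := by
    rw [TB_plr_b]
    linarith
  have hb' : 1 / 16 ≤ (tr 0 0 1 (plr z)).2.1 := by
    rw [TB_tr_b]
    exact hb
  rw [abs_lt] at hn
  unfold Par.XX
  rcases le_or_gt (n : ℝ) z.2.2 with h1 | h1
  · have hfl : ⌊z.2.2⌋ = n := by
      rw [Int.floor_eq_iff]
      constructor <;> linarith
    have hfr : Int.fract z.2.2 ≤ 1 / 2 := by
      rw [Int.fract, hfl]
      linarith
    rw [if_pos hfr, hfl, P.E0_right hb, P.tmi_ep]
  · have hfl : ⌊z.2.2⌋ = n - 1 := by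
      rw [Int.floor_eq_iff]
      push_cast
      constructor <;> linarith
    have hfr : ¬ Int.fract z.2.2 ≤ 1 / 2 := by
      rw [Int.fract, hfl]
      push_cast
      linarith
    rw [if_neg hfr, hfl, P.E0_right hb', yy_sh]
    push_cast
    ring

private theorem TB_plr_cont : Continuous plr := by
  unfold plr
  refine Continuous.prodMk continuous_fst (Continuous.prodMk ?_ ?_)
  · have h1 : Continuous fun z : ℝ × Ioo (1 : ℝ) 2 × ℝ => (z.2.1 : ℝ) :=
      continuous_subtype_val.comp (continuous_fst.comp continuous_snd)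
    have h2 : Continuous fun z : ℝ × Ioo (1 : ℝ) 2 × ℝ => z.2.2 :=
      continuous_snd.comp continuous_snd
    exact (h1.mul (Real.continuous_cos.comp (continuous_const.mul h2))).div_const 16
  · have h1 : Continuous fun z : ℝ × Ioo (1 : ℝ) 2 × ℝ => (z.2.1 : ℝ) :=
      continuous_subtype_val.comp (continuous_fst.comp continuous_snd)
    have h2 : Continuous fun z : ℝ × Ioo (1 : ℝ) 2 × ℝ => z.2.2 :=
      continuous_snd.comp continuous_snd
    exact (h1.mul (Real.continuous_sin.comp (continuous_const.mul h2))).div_const 16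

private theorem TB_tr_cont (m n k : ℤ) : Continuous (tr m n k) := by
  unfold tr
  fun_prop

/-- PROOF: at `z` with `fract ψ ∈ (0, 1/2)` or `(1/2, 1)`: near `z` the floor is constant and one of the two formulas holds; at `fract ψ = 1/2`: `cos (2πψ) = -1`,
`r cos < -1` near `z` (`1 < r`), `XX_left` near `z` and the floor is constant near `z`; at `ψ = n`: `XX_right` near `z`. -/
theorem Par.XX_cont : Continuous P.XX := by
  rw [continuous_iff_continuousAt]
  intro z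
  have hψ : Continuous fun z : ℝ × Ioo (1 : ℝ) 2 × ℝ => z.2.2 :=
    continuous_snd.comp continuous_snd
  have hr : Continuous fun z : ℝ × Ioo (1 : ℝ) 2 × ℝ => (z.2.1 : ℝ) :=
    continuous_subtype_val.comp (continuous_fst.comp continuous_snd)
  have hcos : Continuous fun z : ℝ × Ioo (1 : ℝ) 2 × ℝ =>
      (z.2.1 : ℝ) * Real.cos (2 * Real.pi * z.2.2) :=
    hr.mul (Real.continuous_cos.comp (continuous_const.mul hψ))
  have hyy : Continuous fun z : ℝ × Ioo (1 : ℝ) 2 × ℝ => T0.symm (yy (plr z)) :=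
    T0.symm.continuous.comp (yy_cont.comp TB_plr_cont)
  obtain ⟨n, hn⟩ : ∃ n : ℤ, n = ⌊z.2.2⌋ := ⟨_, rfl⟩
  have hfl := Int.floor_eq_iff.1 hn.symm
  have hr1 : 1 < (z.2.1 : ℝ) := z.2.1.2.1
  rcases eq_or_lt_of_le hfl.1 with h0 | h0
  · -- `ψ = n`
    have hc1 : Real.cos (2 * Real.pi * z.2.2) = 1 := by
      rw [← h0]
      have : 2 * Real.pi * (n : ℝ) = n * (2 * Real.pi) := by ring
      rw [this, Real.cos_int_mul_two_pi]
    have h1 : ∀ᶠ w in 𝓝 z, 1 < (w.2.1 : ℝ) * Real.cos (2 * Real.pi * w.2.2) := by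
      refine hcos.continuousAt.eventually_const_lt ?_
      show 1 < (z.2.1 : ℝ) * Real.cos (2 * Real.pi * z.2.2)
      rw [hc1, mul_one]
      exact hr1
    have h2 : ∀ᶠ w in 𝓝 z, |w.2.2 - (n : ℝ)| < 1 / 2 := by
      have hc : Continuous fun w : ℝ × Ioo (1 : ℝ) 2 × ℝ => |w.2.2 - (n : ℝ)| :=
        (hψ.sub continuous_const).abs
      refine hc.continuousAt.eventually_lt_const ?_
      show |z.2.2 - (n : ℝ)| < 1 / 2
      rw [← h0, sub_self, abs_zero]
      norm_num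
    have h3 : ContinuousAt (fun w => P.ep (T0.symm (yy (plr w))) + P.μ - P.μ * n) z :=
      (((P.ep.continuous.comp hyy).add continuous_const).sub continuous_const).continuousAt
    refine h3.congr ?_
    filter_upwards [h1, h2] with w hw1 hw2
    exact (P.XX_right hw1.le hw2).symm
  · have hfloor : ∀ᶠ w in 𝓝 z, ⌊w.2.2⌋ = n := by
      have h1 : ∀ᶠ w in 𝓝 z, (n : ℝ) < w.2.2 := hψ.continuousAt.eventually_const_lt h0
      have h2 : ∀ᶠ w in 𝓝 z, w.2.2 < (n : ℝ) + 1 := hψ.continuousAt.eventually_lt_const hfl.2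
      filter_upwards [h1, h2] with w hw1 hw2
      rw [Int.floor_eq_iff]
      exact ⟨hw1.le, hw2⟩
    rcases lt_trichotomy z.2.2 (n + 1 / 2) with h1 | h1 | h1
    · have h2 : ∀ᶠ w in 𝓝 z, w.2.2 < (n : ℝ) + 1 / 2 := hψ.continuousAt.eventually_lt_const h1
      have h3 : ContinuousAt (fun w => P.tmi (P.E0 (plr w)) - P.μ * n) z :=
        ((P.tmi_cont.comp (P.E0_cont.comp TB_plr_cont)).sub continuous_const).continuousAt
      refine h3.congr ?_
      filter_upwards [h2, hfloor] with w hw1 hw2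
      have hfr : Int.fract w.2.2 ≤ 1 / 2 := by
        rw [Int.fract, hw2]
        linarith
      unfold Par.XX
      rw [if_pos hfr, hw2]
    · have hc1 : Real.cos (2 * Real.pi * z.2.2) = -1 := by
        rw [h1]
        have : 2 * Real.pi * ((n : ℝ) + 1 / 2) = Real.pi + n * (2 * Real.pi) := by ring
        rw [this, Real.cos_add_int_mul_two_pi, Real.cos_pi]
      have h2 : ∀ᶠ w in 𝓝 z, (w.2.1 : ℝ) * Real.cos (2 * Real.pi * w.2.2) < -1 := by
        refine hcos.continuousAt.eventually_lt_const ?_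
        show (z.2.1 : ℝ) * Real.cos (2 * Real.pi * z.2.2) < -1
        rw [hc1]
        linarith
      have h3 : ContinuousAt (fun w => P.em (T0.symm (yy (plr w))) - P.μ * n) z :=
        ((P.em.continuous.comp hyy).sub continuous_const).continuousAt
      refine h3.congr ?_
      filter_upwards [h2, hfloor] with w hw1 hw2
      rw [P.XX_left hw1.le, hw2]
    · have h2 : ∀ᶠ w in 𝓝 z, (n : ℝ) + 1 / 2 < w.2.2 := hψ.continuousAt.eventually_const_lt h1
      have h3 : ContinuousAt (fun w => P.E0 (tr 0 0 1 (plr w)) - P.μ * n) z :=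
        ((P.E0_cont.comp ((TB_tr_cont 0 0 1).comp TB_plr_cont)).sub
          continuous_const).continuousAt
      refine h3.congr ?_
      filter_upwards [h2, hfloor] with w hw1 hw2
      have hfr : ¬ Int.fract w.2.2 ≤ 1 / 2 := by
        rw [Int.fract, hw2]
        linarith
      unfold Par.XX
      rw [if_neg hfr, hw2]

private theorem TB_norm (x : ℝ) : ‖(x : Ci)‖ ≤ |x| := by
  have h : ‖(x : Ci)‖ ≤ ‖x‖ := QuotientAddGroup.norm_mk_le_norm
  rwa [Real.norm_eq_abs] at h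

/-- PROOF: for `r < 11/6` the point `plr z` has `‖b‖, ‖t‖ ≤ r / 16 < 1/8`, so `lam > 0` (`lam_pos`; also for the translated point,
`lam_add`), `yy_lt`, `E0_lt`, `tmi_mono`. -/
theorem Par.XX_lt {θ θ' ψ : ℝ} {r : Ioo (1 : ℝ) 2} (h : θ < θ') (hr : (r : ℝ) < 11 / 6) :
    P.XX (θ, r, ψ) < P.XX (θ', r, ψ) := by
  obtain ⟨b, hb⟩ : ∃ b, b = (r : ℝ) * Real.cos (2 * Real.pi * ψ) / 16 := ⟨_, rfl⟩
  obtain ⟨t, ht⟩ : ∃ t, t = (r : ℝ) * Real.sin (2 * Real.pi * ψ) / 16 := ⟨_, rfl⟩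
  have hp : ∀ θ : ℝ, plr (θ, r, ψ) = (θ, b, t) := fun θ => by
    rw [hb, ht]
    rfl
  have hr0 : 0 < (r : ℝ) := by
    have := r.2.1
    linarith
  have hbb : |b| < 1 / 8 := by
    have h1 := Real.abs_cos_le_one (2 * Real.pi * ψ)
    rw [hb, abs_div, abs_mul, abs_of_pos hr0, abs_of_pos (by norm_num : (0 : ℝ) < 16)]
    have h2 := mul_le_mul_of_nonneg_left h1 hr0.le
    linarith
  have htt : |t| < 1 / 8 := by
    have h1 := Real.abs_sin_le_one (2 * Real.pi * ψ)
    rw [ht, abs_div, abs_mul, abs_of_pos hr0, abs_of_pos (by norm_num : (0 : ℝ) < 16)]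
    have h2 := mul_le_mul_of_nonneg_left h1 hr0.le
    linarith
  have hl : 0 < lam b t := by
    refine lam_pos (max_lt ?_ ?_)
    · exact (TB_norm b).trans_lt hbb
    · exact (TB_norm t).trans_lt htt
  have h1 : P.E0 (θ, b, t) < P.E0 (θ', b, t) := P.E0_lt rfl (yy_lt h (Or.inr hl))
  have h2 : P.E0 (tr 0 0 1 (θ, b, t)) < P.E0 (tr 0 0 1 (θ', b, t)) := by
    refine P.E0_lt rfl ?_
    have hl2 : 0 < lam (b + ((0 : ℤ) : ℝ)) (t + ((1 : ℤ) : ℝ)) := by
      rw [lam_add]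
      exact hl
    have h3 : θ + ((0 : ℤ) : ℝ) < θ' + ((0 : ℤ) : ℝ) := by linarith
    exact yy_lt h3 (Or.inr hl2)
  unfold Par.XX
  rw [hp, hp]
  dsimp only
  split_ifs
  · have := P.tmi_mono h1
    linarith
  · linarith

private theorem TB_plr_add (θ ψ : ℝ) (r : Ioo (1 : ℝ) 2) (m n : ℤ) :
    plr (θ + m, r, ψ + n) = tr m 0 0 (plr (θ, r, ψ)) := by
  have h : 2 * Real.pi * (ψ + n) = 2 * Real.pi * ψ + n * (2 * Real.pi) := by ring
  unfold plr tr
  simp only [h, Real.cos_add_int_mul_two_pi, Real.sin_add_int_mul_two_pi, Int.cast_zero, add_zero]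

private theorem TB_tr_comm (m : ℤ) (z : ℝ × ℝ × ℝ) :
    tr 0 0 1 (tr m 0 0 z) = tr m 0 0 (tr 0 0 1 z) := by
  unfold tr
  simp only [Int.cast_zero, add_zero]

/-- PROOF: `plr` only changes by `(m, 0, 0)`; `E0_add`, `tmi_add`; `⌊ψ + n⌋ = ⌊ψ⌋ + n`. -/
theorem Par.XX_add (θ ψ : ℝ) (r : Ioo (1 : ℝ) 2) (m n : ℤ) :
    P.XX (θ + m, r, ψ + n) = P.XX (θ, r, ψ) + (m - P.μ * n) := by
  unfold Par.XX
  rw [TB_plr_add, TB_tr_comm, P.E0_add, P.E0_add, P.tmi_add]
  dsimp only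
  rw [Int.fract_add_intCast, Int.floor_add_intCast]
  push_cast
  split_ifs
  · ring
  · ring

end Pool.Agent.H.MP_1611f1_gt.TW
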