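import Pool.Agent.H.MP_1611f1_gt.LS.UpD
import Pool.Agent.H.MP_1611f1_gt.LS.UpE

/-!
Leaf paths in partial foliations, and transverse paths in the coordinates of a covering.
-/

namespace Pool.Agent.H.MP_1611f1_gt.TW

open Topology Set Filter

variable {M : Type} [TopologicalSpace M] (G : LS.PreFol M)

/-- PROOF: as `LS.up_leaf` (file LS/UpD.lean), on the interval instead of `unitInterval`: reparametrize `γ` by `s ↦ a + s (b - a)` on `unitInterval`, and use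
`LS.PreFol.up_plaque` (the set of `s` with `Up (γ s) (γ s)` is open and closed). -/
theorem up_leaf_interval {γ : ℝ → M} {a b : ℝ} (hγ : ContinuousOn γ (uIcc a b))
    (h : ∀ s ∈ uIcc a b, ∃ c ∈ G.charts, γ s ∈ c.source ∧
      ∀ᶠ s' in 𝓝[uIcc a b] s, (c (γ s')).2 = (c (γ s)).2)
    (hb : G.Up (γ b) (γ b)) : G.Up (γ a) (γ a) := by
  have key : ∀ s : uIcc a b, ∀ᶠ s' : uIcc a b in 𝓝 s,
      (G.Up (γ s') (γ s') ↔ G.Up (γ s) (γ s)) := by
    intro s
    obtain ⟨c, hc, hs, hev⟩ := h s s.2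
    obtain ⟨B, hB, hBp⟩ := LS.PreFol.up_plaque G (c := c) hc hs
    have h1 : ∀ᶠ s' in 𝓝[uIcc a b] (s : ℝ), γ s' ∈ B := (hγ s s.2) hB
    have h2 : ∀ᶠ s' in 𝓝[uIcc a b] (s : ℝ),
        (G.Up (γ s') (γ s') ↔ G.Up (γ s) (γ s)) := by
      filter_upwards [h1, hev] with s' h2 h3
      have h4 : γ s ∈ B := mem_of_mem_nhds hB
      exact ⟨fun h => hBp (γ s') h2 (γ s) h4 h3 h, fun h => hBp (γ s) h4 (γ s') h2 h3.symm h⟩
    rw [nhdsWithin_eq_map_subtype_coe s.2] at h2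
    exact h2
  have hclopen : IsClopen {s : uIcc a b | G.Up (γ s) (γ s)} := by
    constructor
    · rw [← isOpen_compl_iff, isOpen_iff_mem_nhds]
      intro s hs
      filter_upwards [key s] with s' h1 h2
      exact hs (h1.mp h2)
    · rw [isOpen_iff_mem_nhds]
      intro s hs
      filter_upwards [key s] with s' h1
      exact h1.mpr hs
  have : PreconnectedSpace (uIcc a b) :=
    isPreconnected_iff_preconnectedSpace.mp isPreconnected_uIcc
  have hne : ({s : uIcc a b | G.Up (γ s) (γ s)}).Nonempty := ⟨⟨b, right_mem_uIcc⟩, hb⟩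
  have huniv := hclopen.eq_univ hne
  have h0 : (⟨a, left_mem_uIcc⟩ : uIcc a b) ∈ {s : uIcc a b | G.Up (γ s) (γ s)} := by
    rw [huniv]
    exact mem_univ _
  exact h0

/-- A leaf path in the coordinates `R : Z → M`, where the foliation is given by `D` near every point of `X`. PROOF: `up_leaf_interval` for `R ∘ σ`; `OrdEq (σ s) (c ∘ R) D` and the continuity of `σ`
give the condition: `D (σ s') = D (σ s)` implies `(c (R (σ s'))).2 = (c (R (σ s))).2` (not `<` and not `>`). -/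
theorem up_leaf_R {Z : Type} [TopologicalSpace Z] {R : Z → M} (hR : Continuous R) {X : Set Z}
    {D : Z → ℝ} (hdom : ∀ z ∈ X, R z ∈ G.dom)
    (h : ∀ z ∈ X, ∀ c ∈ G.charts, R z ∈ c.source → OrdEq z (fun w => (c (R w)).2) D)
    {σ : ℝ → Z} {a b : ℝ} (hσ : ContinuousOn σ (uIcc a b)) (hX : ∀ s ∈ uIcc a b, σ s ∈ X)
    (hD : ∀ s ∈ uIcc a b, D (σ s) = D (σ a)) (hb : G.Up (R (σ b)) (R (σ b))) :
    G.Up (R (σ a)) (R (σ a)) := by
  refine up_leaf_interval G (γ := fun s => R (σ s)) (hR.comp_continuousOn hσ) ?_ hb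
  intro s hs
  obtain ⟨c, hc, hcs⟩ := hdom (σ s) (hX s hs)
  refine ⟨c, hc, hcs, ?_⟩
  obtain ⟨N, hN, hcmp⟩ := h (σ s) (hX s hs) c hc hcs
  have h1 : ∀ᶠ s' in 𝓝[uIcc a b] s, σ s' ∈ N := (hσ s hs) hN
  have h3 : σ s ∈ N := mem_of_mem_nhds hN
  filter_upwards [h1, self_mem_nhdsWithin] with s' h2 hs'
  have e1 : D (σ s') = D (σ s) := by rw [hD s' hs', hD s hs]
  apply le_antisymm
  · by_contra hlt
    rw [not_le] at hlt
    have := (hcmp _ h3 _ h2).1 hlt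
    rw [e1] at this
    exact lt_irrefl _ this
  · by_contra hlt
    rw [not_le] at hlt
    have := (hcmp _ h2 _ h3).1 hlt
    rw [e1] at this
    exact lt_irrefl _ this

/-- A transverse path in the coordinates. PROOF: `LS.PreFol.pos_of` for `R ∘ σ`, `LS.PreFol.Pos.up`. -/
theorem up_R {Z : Type} [TopologicalSpace Z] {R : Z → M} (hR : Continuous R) {X : Set Z}
    {D : Z → ℝ} (hdom : ∀ z ∈ X, R z ∈ G.dom)
    (h : ∀ z ∈ X, ∀ c ∈ G.charts, R z ∈ c.source → OrdEq z (fun w => (c (R w)).2) D)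
    {σ : ℝ → Z} {a b : ℝ} (hab : a < b) (hσ : ContinuousOn σ (Icc a b))
    (hX : ∀ s ∈ Icc a b, σ s ∈ X) (hD : StrictMonoOn (fun s => D (σ s)) (Icc a b)) :
    G.Up (R (σ a)) (R (σ b)) := by
  have hpos : G.Pos (fun s => R (σ s)) a b := by
    refine LS.PreFol.pos_of G (hR.comp_continuousOn hσ) fun t ht => ?_
    obtain ⟨c, hc, hcs⟩ := hdom (σ t) (hX t ht)
    obtain ⟨N, hN, hcmp⟩ := h (σ t) (hX t ht) c hc hcs
    have h1 : σ ⁻¹' N ∈ 𝓝[Icc a b] t := (hσ t ht) hN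
    obtain ⟨V, hV, hVs⟩ := mem_nhdsWithin_iff_exists_mem_nhds_inter.1 h1
    refine ⟨c, hc, hcs, V, hV, ?_⟩
    intro x hx y hy hxy
    exact (hcmp _ (hVs ⟨hx.2, hx.1⟩) _ (hVs ⟨hy.2, hy.1⟩)).2 (hD hx.1 hy.1 hxy)
  exact LS.PreFol.Pos.up G hpos hab

end Pool.Agent.H.MP_1611f1_gt.TW
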