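import Pool.Agent.H.MP_1611f1_gt.TW.Fol
import Pool.Agent.H.MP_1611f1_gt.TW.UpL

/-!
Tautness of the new foliation, outside of `CC`.
-/

namespace Pool.Agent.H.MP_1611f1_gt.TW

open Topology Set Filter
open Pool.Agent.H.MP_1611f1_gt.BR.U (Ci)

variable {M : Type} [TopologicalSpace M] {F : Foliation M} {N : Ci × Ci × Ci → M} {P : Par}
  {G : LS.PreFol M}

/-- PROOF: `H.dom`, `KK_sub`. -/
theorem New.dom_out (H : New F N P G) {y : M} (hy : y ∉ N '' CC) : y ∈ G.dom := by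
  rw [H.dom]
  exact fun h => hy (image_mono KK_sub h)

/-- Positive paths of `F` outside of `N '' CC` are positive for `G`. PROOF: at `γ t` take a chart `c` of `G` (`New.dom_out`) and the chart `c'` of `F` of the hypothesis; `H.out` (the orders agree
near `γ t`) and the continuity of `γ`; `LS.PreFol.pos_of`. -/
theorem New.pos_out (H : New F N P G) {γ : ℝ → M} {a b : ℝ} (h : F.pre.Pos γ a b)
    (hγ : ∀ t ∈ Icc a b, γ t ∉ N '' CC) : G.Pos γ a b := by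
  refine LS.PreFol.pos_of G h.1 fun t ht => ?_
  obtain ⟨c, hc, hs⟩ := H.dom_out (hγ t ht)
  obtain ⟨c', hc', hs', ε, hε, hmono⟩ := h.2 t ht
  obtain ⟨V, hV, hcmp⟩ := H.out (γ t) (hγ t ht) c hc c' hc' hs hs'
  have h1 : γ ⁻¹' V ∈ 𝓝[Icc a b] t := h.1 t ht hV
  obtain ⟨W, hW, hsub⟩ := mem_nhdsWithin_iff_exists_mem_nhds_inter.1 h1
  refine ⟨c, hc, hs, W ∩ Ioo (t - ε) (t + ε),
    inter_mem hW (Ioo_mem_nhds (by linarith) (by linarith)), ?_⟩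
  rintro x ⟨hx1, hx2, hx3⟩ x' ⟨hx1', hx2', hx3'⟩ hxx
  exact (hcmp _ (hsub ⟨hx2, hx1⟩) _ (hsub ⟨hx2', hx1'⟩)).2 (hmono ⟨hx1, hx3⟩ ⟨hx1', hx3'⟩ hxx)

/-- The hypothesis `hub` says that all points over `VV` outside of the tube can be joined by positive paths. PROOF. Let `γ` be a positive path of `F` from `y` to `y` (on `[0, 1]`), `A = {t ∈ [0, 1] | γ t ∈ N '' CC}`, a compact set
(`N_closed`, `CC_closed`). If it is empty: `New.pos_out`. Otherwise let `t₁`, `t₂` be its minimum and its maximum (`0 < t₁ ≤ t₂ < 1` because `y ∉ N '' CC`). `N '' VV` is open and contains `γ t₁`, `γ t₂`; so there are `0 < s₁ < t₁` and `t₂ < s₂ < 1`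
with `γ s₁, γ s₂ ∈ N '' VV` (and not in `N '' CC`, so not in `N '' KK`). `G.Up y (γ s₁)` and `G.Up (γ s₂) y` by `New.pos_out` (`LS.PreFol.Pos.sub`, `LS.PreFol.Pos.up`), `G.Up (γ s₁) (γ s₂)` by `hub`; `LS.PreFol.Up.trans`. -/
theorem New.up_out [T2Space M] (H : New F N P G) (B : Box F N)
    (hub : ∀ z ∈ VV, ∀ z' ∈ VV, z ∉ KK → z' ∉ KK → G.Up (N z) (N z')) {y : M}
    (hy : y ∉ N '' CC) (h : F.pre.Up y y) : G.Up y y := by
  obtain ⟨γ, hγ, h0, h1⟩ := h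
  have hcl : IsClosed (N '' CC) := N_closed B.emb CC_closed le_rfl
  have hop : IsOpen (N '' VV) := N_open B.emb VV_open le_rfl
  set A : Set ℝ := Icc (0 : ℝ) 1 ∩ γ ⁻¹' (N '' CC) with hA
  have hAc : IsCompact A :=
    isCompact_Icc.of_isClosed_subset (hγ.1.preimage_isClosed_of_isClosed isClosed_Icc hcl)
      inter_subset_left
  rcases A.eq_empty_or_nonempty with hE | hE
  · have h2 : G.Pos γ 0 1 := H.pos_out hγ fun t ht htC => by
      have h3 : t ∈ A := ⟨ht, htC⟩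
      rw [hE] at h3
      exact h3
    have h3 := LS.PreFol.Pos.up G h2 zero_lt_one
    rwa [h0, h1] at h3
  obtain ⟨t₁, ⟨⟨h10, h11⟩, h1C⟩, h1l⟩ := hAc.exists_isLeast hE
  obtain ⟨t₂, ⟨⟨h20, h21⟩, h2C⟩, h2g⟩ := hAc.exists_isGreatest hE
  have h10' : 0 < t₁ := by
    rcases h10.eq_or_lt with h2 | h2
    · exfalso
      apply hy
      rw [← h0, h2]
      exact h1C
    · exact h2
  have h21' : t₂ < 1 := by
    rcases h21.eq_or_lt with h2 | h2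
    · exfalso
      apply hy
      rw [← h1, ← h2]
      exact h2C
    · exact h2
  have hsub : N '' CC ⊆ N '' VV := image_mono CC_sub
  obtain ⟨s₁, hs1V, hs10, hs11⟩ : ∃ s, γ s ∈ N '' VV ∧ 0 < s ∧ s < t₁ := by
    have h2 : ContinuousWithinAt γ (Ioo 0 t₁) t₁ :=
      (hγ.1 t₁ ⟨h10, h11⟩).mono fun s hs => ⟨hs.1.le, by linarith [hs.2]⟩
    have h3 : ∀ᶠ s in 𝓝[Ioo 0 t₁] t₁, γ s ∈ N '' VV :=
      h2 (hop.mem_nhds (hsub h1C))
    have h4 : (𝓝[Ioo 0 t₁] t₁).NeBot := by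
      rw [nhdsWithin_Ioo_eq_nhdsLT h10']
      infer_instance
    obtain ⟨s, hs, hs'⟩ := (h3.and self_mem_nhdsWithin).exists
    exact ⟨s, hs, hs'.1, hs'.2⟩
  obtain ⟨s₂, hs2V, hs20, hs21⟩ : ∃ s, γ s ∈ N '' VV ∧ t₂ < s ∧ s < 1 := by
    have h2 : ContinuousWithinAt γ (Ioo t₂ 1) t₂ :=
      (hγ.1 t₂ ⟨h20, h21⟩).mono fun s hs => ⟨by linarith [hs.1], hs.2.le⟩
    have h3 : ∀ᶠ s in 𝓝[Ioo t₂ 1] t₂, γ s ∈ N '' VV :=
      h2 (hop.mem_nhds (hsub h2C))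
    have h4 : (𝓝[Ioo t₂ 1] t₂).NeBot := by
      rw [nhdsWithin_Ioo_eq_nhdsGT h21']
      infer_instance
    obtain ⟨s, hs, hs'⟩ := (h3.and self_mem_nhdsWithin).exists
    exact ⟨s, hs, hs'.1, hs'.2⟩
  have hlow : ∀ t, 0 ≤ t → t < t₁ → γ t ∉ N '' CC := fun t ht ht' hC =>
    absurd (h1l ⟨⟨ht, by linarith⟩, hC⟩) (not_le.2 ht')
  have hhigh : ∀ t, t₂ < t → t ≤ 1 → γ t ∉ N '' CC := fun t ht ht' hC =>
    absurd (h2g ⟨⟨by linarith, ht'⟩, hC⟩) (not_le.2 ht)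
  have hu1 : G.Up (γ 0) (γ s₁) :=
    LS.PreFol.Pos.up G (H.pos_out (LS.PreFol.Pos.sub F.pre hγ le_rfl (by linarith))
      fun t ht => hlow t ht.1 (by linarith [ht.2])) hs10
  have hu3 : G.Up (γ s₂) (γ 1) :=
    LS.PreFol.Pos.up G (H.pos_out (LS.PreFol.Pos.sub F.pre hγ (by linarith) le_rfl)
      fun t ht => hhigh t (by linarith [ht.1]) ht.2) hs21
  have hu2 : G.Up (γ s₁) (γ s₂) := by
    obtain ⟨z, hz, hzs⟩ := hs1V
    obtain ⟨z', hz', hzs'⟩ := hs2V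
    have h2 : z ∉ KK := fun hK => hlow s₁ hs10.le hs11 (hzs ▸ mem_image_of_mem N (KK_sub hK))
    have h3 : z' ∉ KK := fun hK => hhigh s₂ hs20 hs21.le (hzs' ▸ mem_image_of_mem N (KK_sub hK))
    rw [← hzs, ← hzs']
    exact hub z hz z' hz' h2 h3
  have h2 := LS.PreFol.Up.trans G (LS.PreFol.Up.trans G hu1 hu2) hu3
  rwa [h0, h1] at h2

end Pool.Agent.H.MP_1611f1_gt.TW
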