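import Pool.Agent.H.MP_1611f1_gt.TW.TaA

/-!
Tautness of the new foliation: transverse paths in the `a`-direction, and the boundary of `CC`.
-/

namespace Pool.Agent.H.MP_1611f1_gt.TW

open Topology Set Filter
open Pool.Agent.H.MP_1611f1_gt.BR.U (Ci)

variable {M : Type} [TopologicalSpace M] {F : Foliation M} {N : Ci × Ci × Ci → M} {P : Par}
  {G : LS.PreFol M}

/-- `25/9 < rt z` if one of `‖b‖`, `‖t‖` is at least `1/8`. -/
theorem rt_lt {z : ℝ × ℝ × ℝ} (h : 1 / 8 ≤ max ‖(z.2.1 : Ci)‖ ‖(z.2.2 : Ci)‖) : 25 / 9 < rt z := by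
  have h1 := norm_nonneg (z.2.1 : Ci)
  have h2 := norm_nonneg (z.2.2 : Ci)
  unfold rt
  rcases le_max_iff.1 h with h3 | h3
  · nlinarith
  · nlinarith

private theorem TaB_dom (H : New F N P G) (B : Box F N) {z : ℝ × ℝ × ℝ} (hz : cov z ∈ VV)
    (hr : 1 < rt z) : N (cov z) ∈ G.dom := by
  rw [H.dom]
  intro h
  have h1 := (N_mem B.emb hz (KK_sub.trans CC_sub)).1 h
  rw [KK_iff] at h1
  linarith

private theorem TaB_norm_le (x : ℝ) : ‖(x : Ci)‖ ≤ |x| := by
  rw [UnitAddCircle.norm_eq]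
  simpa using round_le x 0

/-- a translate with `|b| ≤ 1/16`, `0 < t < 1` -/
private theorem TaB_tr {b t : ℝ} (hb : ‖(b : Ci)‖ ≤ 1 / 16) (hr : ∀ a : ℝ, 25 / 9 < rt (a, b, t)) :
    ∃ n k : ℤ, |b + n| ≤ 1 / 16 ∧ 0 < t + k ∧ t + k < 1 := by
  refine ⟨-round b, -⌊t⌋, ?_, ?_, ?_⟩
  · rw [UnitAddCircle.norm_eq] at hb
    push_cast
    rw [← sub_eq_add_neg]
    exact hb
  · push_cast
    rw [← sub_eq_add_neg]
    have h1 := Int.fract_nonneg t
    rcases eq_or_lt_of_le h1 with h2 | h2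
    · exfalso
      have h3 : (t : Ci) = 0 := by
        have h4 : t = ⌊t⌋ := by
          have := Int.floor_add_fract t
          linarith
        rw [h4, AddCircle.coe_eq_zero_iff]
        exact ⟨⌊t⌋, by simp⟩
      have h4 := hr 0
      unfold rt at h4
      simp only [h3, norm_zero] at h4
      have h5 := norm_nonneg (b : Ci)
      nlinarith
    · exact h2
  · push_cast
    rw [← sub_eq_add_neg]
    exact Int.fract_lt_one t

/-- the transverse path for a function of the universal cover -/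
private theorem TaB_up (H : New F N P G) (B : Box F N) {X : Set (ℝ × ℝ × ℝ)}
    {D : ℝ × ℝ × ℝ → ℝ}
    (h : ∀ z ∈ X, ∀ c ∈ G.charts, N (cov z) ∈ c.source → OrdEq z (fun w => (c (N (cov w))).2) D)
    (hX : ∀ z ∈ X, 25 / 9 < rt z)
    {a a' b t : ℝ} (haa : a < a') (hV : ∀ s ∈ Icc a a', cov (s, b, t) ∈ VV)
    (hs : ∀ s ∈ Icc a a', (s, b, t) ∈ X)
    (hD : StrictMonoOn (fun s => D (s, b, t)) (Icc a a')) :
    G.Up (N (cov (a, b, t))) (N (cov (a', b, t))) := by
  have hp : ∀ s, cov (((projIcc a a' haa.le s : Icc a a') : ℝ), b, t) ∈ VV := fun s =>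
    hV _ (projIcc a a' haa.le s).2
  have hpe : ∀ s ∈ Icc a a', ((projIcc a a' haa.le s : Icc a a') : ℝ) = s := by
    intro s hs'
    rw [projIcc_of_mem haa.le hs']
  let σ : ℝ → UU := fun s => ⟨(((projIcc a a' haa.le s : Icc a a') : ℝ), b, t), hp s⟩
  have hσ : Continuous σ := by
    refine Continuous.subtype_mk ?_ _
    exact (continuous_subtype_val.comp continuous_projIcc).prodMk continuous_const
  have h1 := up_R G (Z := UU) (R := fun z => N (cov z.1)) (RU_loc B.emb).continuous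
    (X := {z | z.1 ∈ X}) (D := fun z => D z.1)
    (fun z hz => TaB_dom H B z.2 (by have := hX z.1 hz; linarith))
    (fun z hz c hc hc' => OrdEq.comp_cont (R := fun w : UU => w.1)
      continuous_subtype_val.continuousAt (h z.1 hz c hc hc'))
    (σ := σ) haa hσ.continuousOn
    (fun s hs' => by
      show (((projIcc a a' haa.le s : Icc a a') : ℝ), b, t) ∈ X
      rw [hpe s hs']
      exact hs s hs')
    (fun s hs1 s' hs2 hss => by
      show D (((projIcc a a' haa.le s : Icc a a') : ℝ), b, t) <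
        D (((projIcc a a' haa.le s' : Icc a a') : ℝ), b, t)
      rw [hpe s hs1, hpe s' hs2]
      exact hD hs1 hs2 hss)
  have e1 : (σ a).1 = (a, b, t) := by
    show (((projIcc a a' haa.le a : Icc a a') : ℝ), b, t) = (a, b, t)
    rw [hpe a ⟨le_rfl, haa.le⟩]
  have e2 : (σ a').1 = (a', b, t) := by
    show (((projIcc a a' haa.le a' : Icc a a') : ℝ), b, t) = (a', b, t)
    rw [hpe a' ⟨haa.le, le_rfl⟩]
  have h2 : G.Up (N (cov (σ a).1)) (N (cov (σ a').1)) := h1
  rwa [e1, e2] at h2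

/-- TRANSVERSE PATHS IN THE `a`-DIRECTION outside of the tubes. `(b, t)` is fixed with `rt > 25/9`; the whole segment is over `VV`; the function is strictly
increasing on it. PROOF: if `‖b‖ > 1/16` use `up_R` with `X = XS`, `D = yy` (`Z = ℝ × ℝ × ℝ` does not work for `R = N ∘ cov`, which is continuous only over `VV`; use `Z = UU`, and `OrdEq.comp_cont`
with `Subtype.val`). Otherwise translate (`cov_tr`) so that `|b| ≤ 1/16`, `0 < t < 1`, and use `X = XW`, `D = E0` (`E0_lt`). The hypothesis on `ff` and `lam` gives `yy_lt`. -/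
theorem New.up_a (H : New F N P G) (B : Box F N) {a a' b t : ℝ} (h : a < a')
    (hV : ∀ s ∈ Icc a a', cov (s, b, t) ∈ VV) (hr : 25 / 9 < rt (a, b, t))
    (hm : StrictMonoOn ff (Icc a a') ∨ 0 < lam b t) :
    G.Up (N (cov (a, b, t))) (N (cov (a', b, t))) := by
  have hr' : ∀ s : ℝ, 25 / 9 < rt (s, b, t) := fun s => hr
  have hm' : ∀ s ∈ Icc a a', ∀ s' ∈ Icc a a', s < s' → ff s < ff s' ∨ 0 < lam b t := by
    intro s hs s' hs' hss
    rcases hm with h1 | h1
    · exact Or.inl (h1 hs hs' hss)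
    · exact Or.inr h1
  rcases lt_or_ge (1 / 16) ‖(b : Ci)‖ with hb | hb
  · exact TaB_up H B (X := XS) (D := yy) H.s (fun z hz => hz.2.2) h hV
      (fun s hs => ⟨hV s hs, hb, hr' s⟩)
      (fun s hs s' hs' hss => yy_lt hss (hm' s hs s' hs' hss))
  · obtain ⟨n, k, h1, h2, h3⟩ := TaB_tr hb hr'
    have hc : ∀ s : ℝ, cov (s, b + n, t + k) = cov (s, b, t) := by
      intro s
      have := cov_tr 0 n k (s, b, t)
      simpa [tr] using this
    have hrt : ∀ s : ℝ, rt (s, b + n, t + k) = rt (s, b, t) := by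
      intro s
      have := rt_tr 0 n k (s, b, t)
      simpa [tr] using this
    have h4 := TaB_up H B (X := XW) (D := P.E0) H.w (fun z hz => hz.2.2.2.2) (b := b + n)
      (t := t + k) h (fun s hs => by rw [hc]; exact hV s hs)
      (fun s hs => ⟨by rw [hc]; exact hV s hs, lt_of_le_of_lt h1 (by norm_num), h2, h3, by
        rw [hrt]; exact hr' s⟩)
      (fun s hs s' hs' hss => by
        refine P.E0_lt rfl (yy_lt hss ?_)
        rw [lam_add]
        exact hm' s hs s' hs' hss)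
    rwa [hc, hc] at h4

/-- CIRCLES. Near the circle `b = t = 0` every point is on a transverse circle. PROOF: if `rt z > 25/9`: `New.up_a` for `a` and `a + 1` (`lam_pos`; `‖b‖, ‖t‖ < 1/8` gives `VV`), and `cov (a + 1, b, t) = cov (a, b, t)`. If
`rt z ≤ 25/9`: `z = tr m n k (plr w)`, `w ∈ XT` (`exists_plr`, `rt_plr`), `up_R` with `R w = N (cov (plr w))`, `σ s = (w.1 + s, w.2)`, `s ∈ [0, 1]`, `D = TT` (`TT_lt`), `plr_add`. -/
theorem New.up_circle (H : New F N P G) (B : Box F N) {z : ℝ × ℝ × ℝ} (hr : 1 < rt z)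
    (h : max ‖(z.2.1 : Ci)‖ ‖(z.2.2 : Ci)‖ < 1 / 8) : G.Up (N (cov z)) (N (cov z)) := by
  rcases lt_or_ge (25 / 9) (rt z) with h1 | h1
  · obtain ⟨a, b, t⟩ := z
    have h2 := max_lt_iff.1 h
    have h3 := H.up_a B (a := a) (a' := a + 1) (b := b) (t := t) (lt_add_one a)
      (fun s _ => Or.inr ⟨lt_trans h2.1 (by norm_num), lt_trans h2.2 (by norm_num)⟩) h1
      (Or.inr (lam_pos h))
    have h4 : cov (a + 1, b, t) = cov (a, b, t) := by
      have := cov_tr 1 0 0 (a, b, t)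
      simpa [tr] using this
    rwa [h4] at h3
  · obtain ⟨w, m, n, k, rfl⟩ := exists_plr hr (lt_of_le_of_lt h1 (by norm_num))
    rw [cov_tr]
    rw [rt_tr, rt_plr] at h1
    have hw := w.2.1.2
    have h2 : (w.2.1 : ℝ) < 11 / 6 := by
      have := hw.1
      by_contra hcon
      push Not at hcon
      nlinarith
    have hσ : Continuous (fun s : ℝ => ((w.1 + s, w.2) : ℝ × Ioo (1 : ℝ) 2 × ℝ)) := by
      fun_prop
    have h3 := up_R G (Z := ℝ × Ioo (1 : ℝ) 2 × ℝ) (R := fun z => N (cov (plr z)))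
      (RT_loc B.emb).continuous (X := XT) (D := P.TT)
      (fun z hz => TaB_dom H B (plr_VV z) (by
        rw [rt_plr]
        have := z.2.1.2.1
        nlinarith))
      H.t (σ := fun s : ℝ => ((w.1 + s, w.2) : ℝ × Ioo (1 : ℝ) 2 × ℝ)) (a := 0) (b := 1)
      zero_lt_one hσ.continuousOn (fun s _ => h2)
      (fun s _ s' _ hss => by
        show P.TT (w.1 + s, w.2.1, w.2.2) < P.TT (w.1 + s', w.2.1, w.2.2)
        exact P.TT_lt (by linarith) h2)
    have e1 : ((w.1 + 0, w.2) : ℝ × Ioo (1 : ℝ) 2 × ℝ) = w := by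
      rw [add_zero]
    have e2 : cov (plr (w.1 + 1, w.2)) = cov (plr w) := by
      have h4 := plr_add w.1 w.2.2 w.2.1 1 0
      simp only [Int.cast_one, Int.cast_zero, add_zero] at h4
      show cov (plr (w.1 + 1, w.2.1, w.2.2)) = cov (plr w)
      rw [h4, cov_tr]
    have h4 : G.Up (N (cov (plr (w.1 + 0, w.2)))) (N (cov (plr (w.1 + 1, w.2)))) := h3
    rw [e1, e2] at h4
    exact h4

/-- if `D` is constant on the path near `s` then a chart is constant on the path near `s` -/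
private theorem TaB_const {X : Set (ℝ × ℝ × ℝ)} {D : ℝ × ℝ × ℝ → ℝ}
    (h : ∀ z ∈ X, ∀ c ∈ G.charts, N (cov z) ∈ c.source → OrdEq z (fun w => (c (N (cov w))).2) D)
    {σ : ℝ → ℝ × ℝ × ℝ} {A : Set ℝ} (hσ : ContinuousOn σ A) {s : ℝ} (hs : s ∈ A) (hX : σ s ∈ X)
    (hD : ∀ᶠ s' in 𝓝[A] s, D (σ s') = D (σ s)) {c : OpenPartialHomeomorph M ((ℝ × ℝ) × ℝ)}
    (hc : c ∈ G.charts) (hc' : N (cov (σ s)) ∈ c.source) :
    ∀ᶠ s' in 𝓝[A] s, (c (N (cov (σ s')))).2 = (c (N (cov (σ s)))).2 := by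
  obtain ⟨V, hV, hV'⟩ := h _ hX c hc hc'
  have h1 : ∀ᶠ s' in 𝓝[A] s, σ s' ∈ V := hσ s hs hV
  have h2 : σ s ∈ V := mem_of_mem_nhds hV
  filter_upwards [h1, hD] with s' h3 h4
  have h5 := hV' _ h3 _ h2
  have h6 := hV' _ h2 _ h3
  rw [h4] at h5 h6
  have h7 := fun h => lt_irrefl _ (h5.1 h)
  have h8 := fun h => lt_irrefl _ (h6.1 h)
  exact le_antisymm (not_lt.1 h8) (not_lt.1 h7)

/-- LEAF PATHS `t = const`. On the path `σ` `ff` is an integer, constant, `t` is constant, and `1/8 ≤ max ‖b‖ ‖t‖`. PROOF: locally on the path the function `yy` (near points with `‖b‖ > 1/16`) or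
`E0` (near points with `‖b‖ ≤ 1/16`, after a translation with `|b| < 3/16`, `t ∈ [1/8, 7/8]`) is constant (`yy_flat`, `E0_flat`; for `|b| < 3/16`, `t ∈ [1/8, 7/8]` `E0_flat` holds). `up_leaf_interval`: at every `s` take a chart `c` of `G` at `N (cov (σ s))`
(`H.dom`) and `H.s` or `H.w` composed with a translation. -/
theorem New.up_flat (H : New F N P G) (B : Box F N) {σ : ℝ → ℝ × ℝ × ℝ} {a b t₀ : ℝ} {n : ℤ}
    (hσ : ContinuousOn σ (uIcc a b)) (hV : ∀ s ∈ uIcc a b, cov (σ s) ∈ VV)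
    (hf : ∀ s ∈ uIcc a b, ff (σ s).1 = n) (ht : ∀ s ∈ uIcc a b, (σ s).2.2 = t₀)
    (hm : ∀ s ∈ uIcc a b, 1 / 8 ≤ max ‖((σ s).2.1 : Ci)‖ ‖((σ s).2.2 : Ci)‖)
    (h : G.Up (N (cov (σ b))) (N (cov (σ b)))) : G.Up (N (cov (σ a))) (N (cov (σ a))) := by
  have hcont : ContinuousOn (fun s => N (cov (σ s))) (uIcc a b) := by
    refine (N_cont B.emb).comp (cov_loc.continuous.comp_continuousOn hσ) ?_
    intro s hs
    exact hV s hs
  refine up_leaf_interval G (γ := fun s => N (cov (σ s))) hcont ?_ h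
  intro s hs
  obtain ⟨c, hc, hc'⟩ := TaB_dom H B (hV s hs) (by
    have := rt_lt (hm s hs)
    linarith)
  refine ⟨c, hc, hc', ?_⟩
  rcases lt_or_ge (1 / 16) ‖((σ s).2.1 : Ci)‖ with hb | hb
  · refine TaB_const (X := XS) (D := yy) H.s hσ hs ⟨hV s hs, hb, rt_lt (hm s hs)⟩ ?_ hc hc'
    filter_upwards [self_mem_nhdsWithin] with s' hs'
    rw [yy_flat (hf s' hs') (hm s' hs'), yy_flat (hf s hs) (hm s hs), ht s' hs', ht s hs]
  · have htn : 1 / 8 ≤ ‖((σ s).2.2 : Ci)‖ := by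
      rcases le_max_iff.1 (hm s hs) with h1 | h1
      · linarith
      · exact h1
    obtain ⟨m, k, h1, h2, h3⟩ := TaB_tr (b := (σ s).2.1) (t := (σ s).2.2) hb
      (fun a' => rt_lt (z := (a', (σ s).2.1, (σ s).2.2)) (hm s hs))
    have hk : (σ s).2.2 + k ∈ Icc (1 / 8 : ℝ) (7 / 8) := by
      have h4 : ‖(((σ s).2.2 + k : ℝ) : Ci)‖ = ‖((σ s).2.2 : Ci)‖ := by
        congr 1
        rw [AddCircle.coe_add]
        have : ((k : ℝ) : Ci) = 0 := by
          rw [AddCircle.coe_eq_zero_iff]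
          exact ⟨k, by simp⟩
        rw [this, add_zero]
      rw [← h4] at htn
      constructor
      · have h5 : ‖(((σ s).2.2 + k : ℝ) : Ci)‖ ≤ |(σ s).2.2 + k| := by
          exact TaB_norm_le _
        rw [abs_of_pos h2] at h5
        linarith
      · have h5 : ‖(((σ s).2.2 + k : ℝ) : Ci)‖ ≤ |(σ s).2.2 + k - 1| := by
          have h6 : (((σ s).2.2 + k : ℝ) : Ci) = (((σ s).2.2 + k - 1 : ℝ) : Ci) := by
            rw [AddCircle.coe_sub]
            have : ((1 : ℝ) : Ci) = 0 := AddCircle.coe_period 1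
            rw [this, sub_zero]
          rw [h6]
          exact TaB_norm_le _
        rw [abs_of_neg (by linarith)] at h5
        linarith
    have hcov : ∀ s', cov (tr 0 m k (σ s')) = cov (σ s') := fun s' => cov_tr 0 m k (σ s')
    have hσ' : ContinuousOn (fun s' => tr 0 m k (σ s')) (uIcc a b) :=
      (tr_cont 0 m k).comp_continuousOn hσ
    have key := TaB_const (X := XW) (D := P.E0) (N := N) H.w hσ' hs
      ⟨by rw [hcov]; exact hV s hs, lt_of_le_of_lt h1 (by norm_num), h2, h3, by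
        rw [rt_tr]; exact rt_lt (hm s hs)⟩ ?_ hc (by rw [hcov]; exact hc')
    · simpa only [hcov] using key
    · filter_upwards [self_mem_nhdsWithin] with s' hs'
      have e1 : ff (tr 0 m k (σ s')).1 = n := by
        show ff ((σ s').1 + ((0 : ℤ) : ℝ)) = n
        rw [Int.cast_zero, add_zero]
        exact hf s' hs'
      have e2 : ff (tr 0 m k (σ s)).1 = n := by
        show ff ((σ s).1 + ((0 : ℤ) : ℝ)) = n
        rw [Int.cast_zero, add_zero]
        exact hf s hs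
      have e3 : (tr 0 m k (σ s')).2.2 = (tr 0 m k (σ s)).2.2 := by
        show (σ s').2.2 + k = (σ s).2.2 + k
        rw [ht s' hs', ht s hs]
      have hk' : (tr 0 m k (σ s)).2.2 ∈ Icc (1 / 8 : ℝ) (7 / 8) := hk
      rw [P.E0_flat e1 (by rw [e3]; exact hk'), P.E0_flat e2 hk', e3]

end Pool.Agent.H.MP_1611f1_gt.TW
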