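import Pool.Agent.H.MP_1611f1_gt.LS.UpD
import Pool.Agent.H.MP_1611f1_gt.LS.UpE
import Pool.Agent.H.MP_1611f1_gt.LS.Ind

/-!
Tautness of a foliation which is changed inside an open set any two points of which are joined by
transverse paths.
-/

namespace Pool.Agent.H.MP_1611f1_gt.TW

open Topology Set Filter
open Pool.Agent.H.MP_1611f1_gt.LS

variable {M : Type*} [TopologicalSpace M]

/-- at the points off `K` a path which is transverse to `F` is transverse to `G` -/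
theorem pos_near {F : Foliation M} {G : PreFol M} {K : Set M}
    (hdom : ∀ y, y ∉ K → y ∈ G.dom)
    (hout : ∀ y, y ∉ K → ∀ c ∈ F.charts, ∀ c' ∈ G.charts, y ∈ c.source → y ∈ c'.source →
      OrdEq y (fun z => (c z).2) (fun z => (c' z).2))
    {γ : ℝ → M} {a b : ℝ} (hγ : F.pre.Pos γ a b) (h : ∀ t ∈ Icc a b, γ t ∉ K) :
    G.Pos γ a b := by
  refine PreFol.pos_of G hγ.1 fun t ht => ?_
  obtain ⟨c, hc, hs, ε, hε, hm⟩ := hγ.2 t ht
  obtain ⟨c', hc', hs'⟩ := hdom _ (h t ht)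
  obtain ⟨N, hN, hcmp⟩ := hout _ (h t ht) c hc c' hc' hs hs'
  have h1 : γ ⁻¹' N ∈ 𝓝[Icc a b] t := hγ.1 t ht hN
  obtain ⟨δ, hδ, hball⟩ := Metric.mem_nhdsWithin_iff.1 h1
  refine ⟨c', hc', hs', Ioo (t - ε) (t + ε) ∩ Metric.ball t δ,
    inter_mem (Ioo_mem_nhds (by linarith) (by linarith)) (Metric.ball_mem_nhds t hδ), ?_⟩
  rintro x ⟨hx, hx1, hx2⟩ y ⟨hy, hy1, hy2⟩ hxy
  exact (hcmp _ (hball ⟨hx2, hx⟩) _ (hball ⟨hy2, hy⟩)).1 (hm ⟨hx, hx1⟩ ⟨hy, hy1⟩ hxy)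

/-- the state at the point `y`: in `V` all points of `V` off `Z` can be reached, off `V` the point
itself can be reached -/
def St (G : PreFol M) (V Z : Set M) (y₀ y : M) : Prop :=
  (y ∈ V → ∀ w ∈ V, w ∉ Z → G.Up y₀ w) ∧ (y ∉ V → G.Up y₀ y)

/-- points near `γ t`, for a continuous path -/
theorem St_near {γ : ℝ → M} (hγ : ContinuousOn γ (Icc (0 : ℝ) 1)) {t : ℝ}
    (ht : t ∈ Icc (0 : ℝ) 1) {U : Set M} (hU : IsOpen U) (h : γ t ∈ U) :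
    ∃ ε > 0, ∀ t' ∈ Icc (0 : ℝ) 1, t' ∈ Ioo (t - ε) (t + ε) → γ t' ∈ U := by
  have h1 : γ ⁻¹' U ∈ 𝓝[Icc (0 : ℝ) 1] t := hγ t ht (hU.mem_nhds h)
  obtain ⟨ε, hε, h2⟩ := Metric.mem_nhdsWithin_iff.1 h1
  refine ⟨ε, hε, fun t' h3 h4 => h2 ⟨?_, h3⟩⟩
  rw [Metric.mem_ball, Real.dist_eq, abs_lt]
  constructor <;> linarith [h4.1, h4.2]

/-- **Tautness.** `G = F` off the closed set `K`, which is contained in the open set `V`; `G` is
defined off `Z ⊆ K`; any two points of `V` off `Z` are joined by a transverse path. -/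
theorem up_of_hub {F : Foliation M} {G : PreFol M} {K V Z : Set M} (hK : IsClosed K)
    (hV : IsOpen V) (hKV : K ⊆ V) (hZK : Z ⊆ K)
    (hdom : ∀ y, y ∉ K → y ∈ G.dom)
    (hout : ∀ y, y ∉ K → ∀ c ∈ F.charts, ∀ c' ∈ G.charts, y ∈ c.source → y ∈ c'.source →
      OrdEq y (fun z => (c z).2) (fun z => (c' z).2))
    (hub : ∀ a ∈ V, a ∉ Z → ∀ b ∈ V, b ∉ Z → G.Up a b)
    (hF : ∀ y, F.pre.Up y y) {y₀ : M} (h₀ : y₀ ∉ Z) : G.Up y₀ y₀ := by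
  obtain ⟨γ, hγ, h0, h1⟩ := hF y₀
  have seg : ∀ a b : ℝ, 0 ≤ a → b ≤ 1 → a < b → (∀ t ∈ Icc a b, γ t ∉ K) →
      G.Up (γ a) (γ b) := fun a b ha hb hab h =>
    (pos_near hdom hout (PreFol.Pos.sub F.pre hγ ha hb) h).up G hab
  have mk : ∀ y, G.Up y₀ y → y ∉ Z → St G V Z y₀ y := fun y h hy =>
    ⟨fun hyV w hw hwZ => h.trans G (hub y hyV hy w hw hwZ), fun _ => h⟩
  have m0 : (0 : ℝ) ∈ Icc (0 : ℝ) 1 := ⟨le_rfl, zero_le_one⟩
  have hall : St G V Z y₀ (γ 1) := by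
    refine interval_ind (zero_lt_one' ℝ) (fun t => St G V Z y₀ (γ t)) ?_ ?_ ?_
    · by_cases hy : y₀ ∈ V
      · obtain ⟨ε, hε, h2⟩ := St_near hγ.1 m0 hV (by rw [h0]; exact hy)
        refine ⟨ε, hε, fun t ht ht1 => ?_⟩
        have h3 := h2 t ⟨ht.1.le, ht1⟩ ⟨by linarith [ht.1], ht.2⟩
        exact ⟨fun _ w hw hwZ => hub y₀ hy h₀ w hw hwZ, fun h => absurd h3 h⟩
      · have hyK : y₀ ∉ K := fun h => hy (hKV h)
        obtain ⟨ε, hε, h2⟩ := St_near hγ.1 m0 hK.isOpen_compl (by rw [h0]; exact hyK)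
        refine ⟨ε, hε, fun t ht ht1 => ?_⟩
        have h3 : ∀ s ∈ Icc 0 t, γ s ∉ K := fun s hs =>
          h2 s ⟨hs.1, hs.2.trans ht1⟩ ⟨by linarith [hs.1], lt_of_le_of_lt hs.2 ht.2⟩
        have h4 := seg 0 t le_rfl ht1 ht.1 h3
        rw [h0] at h4
        exact mk _ h4 fun h => h3 t ⟨ht.1.le, le_rfl⟩ (hZK h)
    · intro t ht hst
      have mt : t ∈ Icc (0 : ℝ) 1 := ⟨ht.1.le, ht.2.le⟩
      by_cases hy : γ t ∈ V
      · obtain ⟨ε, hε, h2⟩ := St_near hγ.1 mt hV hy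
        refine ⟨ε, hε, fun t' ht' ht1 => ?_⟩
        have h3 := h2 t' ⟨by linarith [ht.1, ht'.1], ht1⟩ ⟨by linarith [ht'.1], ht'.2⟩
        exact ⟨fun _ w hw hwZ => hst.1 hy w hw hwZ, fun h => absurd h3 h⟩
      · have hyK : γ t ∉ K := fun h => hy (hKV h)
        obtain ⟨ε, hε, h2⟩ := St_near hγ.1 mt hK.isOpen_compl hyK
        refine ⟨ε, hε, fun t' ht' ht1 => ?_⟩
        have h3 : ∀ s ∈ Icc t t', γ s ∉ K := fun s hs =>
          h2 s ⟨by linarith [ht.1, hs.1], hs.2.trans ht1⟩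
            ⟨by linarith [hs.1], lt_of_le_of_lt hs.2 ht'.2⟩
        have h4 := seg t t' ht.1.le ht1 ht'.1 h3
        exact mk _ ((hst.2 hy).trans G h4) fun h => h3 t' ⟨ht'.1.le, le_rfl⟩ (hZK h)
    · intro t ht hst
      have mt : t ∈ Icc (0 : ℝ) 1 := ⟨ht.1.le, ht.2⟩
      have key : ∀ ε > 0, ∃ t', t' ∈ Ioo (t - ε) t ∧ t' ∈ Ioo (0 : ℝ) t := by
        intro ε hε
        obtain ⟨t', h1, h2⟩ := exists_between (max_lt ht.1 (by linarith : t - ε < t))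
        exact ⟨t', ⟨(le_max_right _ _).trans_lt h1, h2⟩, ⟨(le_max_left _ _).trans_lt h1, h2⟩⟩
      by_cases hy : γ t ∈ V
      · obtain ⟨ε, hε, h2⟩ := St_near hγ.1 mt hV hy
        obtain ⟨t', h3, h4⟩ := key ε hε
        have h5 := h2 t' ⟨h4.1.le, by linarith [h4.2, ht.2]⟩ ⟨h3.1, by linarith [h3.2]⟩
        exact ⟨fun _ w hw hwZ => (hst t' h4).1 h5 w hw hwZ, fun h => absurd hy h⟩
      · have hyK : γ t ∉ K := fun h => hy (hKV h)
        obtain ⟨ε, hε, h2⟩ := St_near hγ.1 mt hK.isOpen_compl hyK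
        obtain ⟨t', h3, h4⟩ := key ε hε
        have h5 : ∀ s ∈ Icc t' t, γ s ∉ K := fun s hs =>
          h2 s ⟨by linarith [h4.1, hs.1], hs.2.trans ht.2⟩
            ⟨by linarith [h3.1, hs.1], by linarith [hs.2]⟩
        have h6 := seg t' t h4.1.le ht.2 h4.2 h5
        have h7 : γ t' ∉ Z := fun h => h5 t' ⟨le_rfl, h4.2.le⟩ (hZK h)
        have h8 : G.Up y₀ (γ t') := by
          by_cases h9 : γ t' ∈ V
          · exact (hst t' h4).1 h9 _ h9 h7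
          · exact (hst t' h4).2 h9
        exact ⟨fun h => absurd h hy, fun _ => h8.trans G h6⟩
  rw [h1] at hall
  by_cases hy : y₀ ∈ V
  · exact hall.1 hy y₀ hy h₀
  · exact hall.2 hy

end Pool.Agent.H.MP_1611f1_gt.TW
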